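import Pool.Agent.H55.Lav.ZFM2
import Pool.Agent.H55.CSDefs

set_option autoImplicit false
set_option linter.all false

/-!
# The model satisfies the axiom of choice
-/

namespace Pool.Agent.H55.Lav

open FirstOrder FirstOrder.Language Pool.Agent.H55.SC Pool.Agent.H55.ZFU

variable {Q : Type} [Preorder Q] [OrderTop Q]

/-- A wellordering of a type. -/
@[reducible] noncomputable def lo (J : Type) : LinearOrder J := (exists_wellFoundedLT J).choose

lemma lo_wf (J : Type) : @WellFoundedLT J (lo J).toLT := (exists_wellFoundedLT J).choose_spec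

/-- Names of ordinals for the elements of a type. -/
noncomputable def ckw (Q : Type) [Preorder Q] [OrderTop Q] {J : Type} (j : J) : Nm Q := @ck Q _ _ J (lo J) (lo_wf J) j

/-- The name of the ordered pair. -/
def opN (τ σ : Nm Q) : Nm Q := pairN (pairN τ τ) (pairN τ σ)

/-- The name of an enumeration of `υ` by ordinals. -/
noncomputable def rkN (υ : Nm Q) : Nm Q := .mk υ.ι (fun j => opN (ckw Q j) (υ.A j)) (fun _ => ⊤)

/-- Closure properties of `N` used for the axiom of choice. -/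
structure AOk (N : Set (Un Q)) : Prop where
  w1 : ∀ υ : Nm Q, InN N υ → ∀ j : υ.ι, InT N j → InN N (ckw Q j) ∧ InN N (υ.A j)
  w3 : ∀ υ : Nm Q, InN N υ → InN N (rkN υ)
  w4 : ∀ υ : Nm Q, InN N υ → ∀ ρ, InN N ρ → (∃ j, υ.A j = ρ) → ∃ j, υ.A j = ρ ∧ InT N j
  w5 : ∀ υ : Nm Q, InN N υ → ∀ ρ, InN N ρ → (∃ j, opN (ckw Q j) (υ.A j) = ρ) → ∃ j, opN (ckw Q j) (υ.A j) = ρ ∧ InT N j

lemma aok_club : ∀ᶠ N in club (Un Q), AOk N := by
  have h1 : ∀ᶠ N in club (Un Q), ∀ υ : Nm Q, InN N υ → ∀ j : υ.ι, InT N j → InN N (ckw Q j) ∧ InN N (υ.A j) :=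
    diagN (fun υ => diagT (fun j => (club_inN _).and (club_inN _)))
  have h3 : ∀ᶠ N in club (Un Q), ∀ υ : Nm Q, InN N υ → InN N (rkN υ) := diagN (fun υ => club_inN _)
  have h4 : ∀ᶠ N in club (Un Q), ∀ υ : Nm Q, InN N υ → ∀ ρ, InN N ρ → (∃ j, υ.A j = ρ) →
      ∃ j, υ.A j = ρ ∧ InT N j := by
    refine diagN (fun υ => diagN (fun ρ => ?_))
    by_cases h : ∃ j, υ.A j = ρ
    · obtain ⟨j, hj⟩ := h
      exact (club_inT j).mono (fun N hN _ => ⟨j, hj, hN⟩)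
    · exact Filter.Eventually.of_forall (fun N h' => (h h').elim)
  have h5 : ∀ᶠ N in club (Un Q), ∀ υ : Nm Q, InN N υ → ∀ ρ, InN N ρ → (∃ j, opN (ckw Q j) (υ.A j) = ρ) →
      ∃ j, opN (ckw Q j) (υ.A j) = ρ ∧ InT N j := by
    refine diagN (fun υ => diagN (fun ρ => ?_))
    by_cases h : ∃ j, opN (ckw Q j) (υ.A j) = ρ
    · obtain ⟨j, hj⟩ := h
      exact (club_inT j).mono (fun N hN _ => ⟨j, hj, hN⟩)
    · exact Filter.Eventually.of_forall (fun N h' => (h h').elim)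
  filter_upwards [h1, h3, h4, h5] with N h1 h3 h4 h5
  exact ⟨h1, h3, h4, h5⟩

section model
variable {N : Set (Un Q)} {G : Set Q}

lemma inN_op (zok : ZOk N) {τ σ : Nm Q} (hτ : InN N τ) (hσ : InN N σ) : InN N (opN τ σ) :=
  zok.pair _ _ (zok.pair _ _ hτ hτ) (zok.pair _ _ hτ hσ)

lemma op_pair (ok : NOk N) (zok : ZOk N) (gen : GenF N G) {τ σ : Nm Q} (hτ : InN N τ) (hσ : InN N σ) :
    IsPair (EE (N := N) (G := G)) (vl G (inN_op zok hτ hσ)) (vl G hτ) (vl G hσ) := by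
  have htop := top_mem ok gen
  have key : ∀ {υ ρ : Nm Q} (hυ : InN N υ) (hρ : InN N ρ) (z : MM N G),
      z = vl G (zok.pair υ ρ hυ hρ) ↔ ∀ w : MM N G, EE w z ↔ w = vl G hυ ∨ w = vl G hρ := by
    intro υ ρ hυ hρ z
    have h1 : ∀ w : MM N G, EE w (vl G (zok.pair υ ρ hυ hρ)) ↔ w = vl G hυ ∨ w = vl G hρ := fun w =>
      (mem_pairN htop hυ hρ).trans (or_congr ⟨fun h => Subtype.ext h, fun h => congrArg Subtype.val h⟩
        ⟨fun h => Subtype.ext h, fun h => congrArg Subtype.val h⟩)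
    constructor
    · rintro rfl w; exact h1 w
    · intro h
      exact mm_ext (fun w => (h w).trans (h1 w).symm)
  intro z
  have h1 : EE z (vl G (inN_op zok hτ hσ)) ↔ z = vl G (zok.pair τ τ hτ hτ) ∨ z = vl G (zok.pair τ σ hτ hσ) :=
    (key _ _ (vl G (inN_op zok hτ hσ))).mp rfl z
  rw [h1, key hτ hτ, key hτ hσ]
  simp only [or_self]

variable (ok : NOk N) (fok : FOk N) (zok : ZOk N) (aok : AOk N) (gen : GenF N G)

/-- The model as a model in the sense of the set theory library. -/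
@[reducible] def mdl : Model (MM N G) := zModel (zf ok fok zok gen)

include ok fok zok aok gen in
theorem choice_ax : CS.ZFC (EE (N := N) (G := G)) := by
  refine ⟨zf ok fok zok gen, ?_⟩
  letI := mdl ok fok zok gen
  haveI : Pure (MM N G) := zPure (zf ok fok zok gen)
  have htop := top_mem ok gen
  intro a hne hdj
  obtain ⟨τ, hτ, hτa⟩ := a.2
  set υ := unN τ with hυdef
  have hυ : InN N υ := zok.un τ hτ
  let R : MM N G := vl G (aok.w3 υ hυ)
  letI := lo υ.ι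
  haveI := lo_wf υ.ι
  have hR : ∀ o z : MM N G, opair o z ∈ R ↔ ∃ j : υ.ι, InT N j ∧ o.1 = val N G (ckw Q j) ∧ z.1 = val N G (υ.A j) := by
    intro o z
    rw [← rel_iff]
    constructor
    · rintro ⟨p, hp, hpp⟩
      obtain ⟨j, h1, _, h3⟩ := mem_val.mp (show p.1 ∈ val N G (rkN υ) from hp)
      obtain ⟨j', h4, h5⟩ := aok.w5 υ hυ _ h1 ⟨j, rfl⟩
      obtain ⟨h6, h7⟩ := aok.w1 υ hυ j' h5
      refine ⟨j', h5, ?_⟩
      have h8 := op_pair ok zok gen h6 h7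
      have h9 : vl G (inN_op zok h6 h7) = p := by
        apply Subtype.ext
        rw [← h3]
        show val N G (opN (ckw Q j') (υ.A j')) = _
        rw [h4]
      rw [h9] at h8
      have h10 := (pair_iff.mp hpp).symm.trans (pair_iff.mp h8)
      rw [opair_inj] at h10
      exact ⟨congrArg Subtype.val h10.1, congrArg Subtype.val h10.2⟩
    · rintro ⟨j, h1, h2, h3⟩
      obtain ⟨h6, h7⟩ := aok.w1 υ hυ j h1
      refine ⟨vl G (inN_op zok h6 h7), mem_val.mpr ⟨j, inN_op zok h6 h7, htop, rfl⟩, ?_⟩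
      have h8 := op_pair ok zok gen h6 h7
      have h9 : o = vl G h6 := Subtype.ext h2
      have h10 : z = vl G h7 := Subtype.ext h3
      rw [h9, h10]; exact h8
  have hlt : ∀ j j' : υ.ι, InT N j → j < j' → val N G (ckw Q j) ∈ val N G (ckw Q j') := fun j j' h h' =>
    (mem_ck htop).mpr ⟨j, h', (aok.w1 υ hυ j h).1, rfl⟩
  obtain ⟨c, _, hc⟩ := exists_sep (M := MM N G) (fun z => ∃ x : MM N G, x ∈ a ∧ z ∈ x ∧ ∃ o : MM N G, opair o z ∈ R ∧
    ∀ z' : MM N G, z' ∈ x → ∀ o' : MM N G, opair o' z' ∈ R → o ∈ o' ∨ o = o') (vl G hυ)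
  refine ⟨c, fun x hx => ?_⟩
  -- every element of `x` occurs in `R`
  have hocc : ∀ z : MM N G, z ∈ x → ∃ j : υ.ι, InT N j ∧ z.1 = val N G (υ.A j) ∧ z ∈ vl G hυ := by
    intro z hz
    have hx' : x.1 ∈ val N G τ := by rw [hτa]; exact hx
    obtain ⟨i, h1, _, h3⟩ := mem_val.mp hx'
    have hz' : z.1 ∈ val N G (τ.A i) := by rw [h3]; exact hz
    obtain ⟨k, h4, _, h6⟩ := mem_val.mp hz'
    obtain ⟨j, h7, h8⟩ := aok.w4 υ hυ ((τ.A i).A k) h4 ⟨⟨i, k⟩, rfl⟩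
    refine ⟨j, h8, ?_, mem_val.mpr ⟨⟨i, k⟩, h4, htop, h6⟩⟩
    rw [h7, h6]
  obtain ⟨z0, hz0⟩ := hne x hx
  let J : Set υ.ι := {j | InT N j ∧ ∃ z : MM N G, z ∈ x ∧ z.1 = val N G (υ.A j)}
  have hJ : J.Nonempty := by
    obtain ⟨j, h1, h2, _⟩ := hocc z0 hz0
    exact ⟨j, h1, z0, hz0, h2⟩
  set j0 := (wellFounded_lt (α := υ.ι)).min J hJ with hj0
  obtain ⟨h1, z1, hz1, h2⟩ : j0 ∈ J := (wellFounded_lt (α := υ.ι)).min_mem J hJ
  have hmin : ∀ j ∈ J, j0 ≤ j := fun j hj => not_lt.mp ((wellFounded_lt (α := υ.ι)).not_lt_min J hj)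
  have hz1c : z1 ∈ c := by
    refine (hc z1).mpr ⟨(hocc z1 hz1).choose_spec.2.2, x, hx, hz1, vl G (aok.w1 υ hυ j0 h1).1, (hR _ _).mpr ⟨j0, h1, rfl, h2⟩, ?_⟩
    intro z' hz' o' ho'
    obtain ⟨j, h3, h4, h5⟩ := (hR _ _).mp ho'
    rcases (hmin j ⟨h3, z', hz', h5⟩).eq_or_lt with h6 | h6
    · right
      apply Subtype.ext
      rw [h4, ← h6]; rfl
    · left
      show val N G (ckw Q j0) ∈ o'.1
      rw [h4]
      exact hlt _ _ h1 h6
  refine ⟨z1, ⟨hz1, hz1c⟩, ?_⟩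
  rintro z ⟨hzx, hzc⟩
  obtain ⟨_, x', hx', hzx', o, ho, hmin'⟩ := (hc z).mp hzc
  have e : x' = x := hdj x' x z hx' hx hzx' hzx
  subst e
  obtain ⟨j, h3, h4, h5⟩ := (hR _ _).mp ho
  have h6 := hmin' z1 hz1 (vl G (aok.w1 υ hυ j0 h1).1) ((hR _ _).mpr ⟨j0, h1, rfl, h2⟩)
  have h7 := hmin j ⟨h3, z, hzx, h5⟩
  apply Subtype.ext
  rw [h5, h2]
  rcases h7.eq_or_lt with h8 | h8
  · rw [h8]
  · exfalso
    have h9 : (vl G (aok.w1 υ hυ j0 h1).1 : MM N G) ∈ o := by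
      show val N G (ckw Q j0) ∈ o.1
      rw [h4]; exact hlt _ _ h1 h8
    rcases h6 with h10 | h10
    · exact not_mem_mem h9 h10
    · rw [← h10] at h9
      exact not_mem_self _ h9

end model

end Pool.Agent.H55.Lav
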