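import Pool.Agent.H55.Lav.Club

set_option autoImplicit false
set_option linter.unusedSectionVars false

/-!
# Names, generic filters over countable sets, and their values
-/

namespace Pool.Agent.H55.Lav

/-- Names for elements of generic extensions by `Q`. -/
inductive Nm (Q : Type) : Type 1
  | mk (ι : Type) (A : ι → Nm Q) (c : ι → Q) : Nm Q

namespace Nm
variable {Q : Type}

/-- The index type of a name. -/
def ι : Nm Q → Type
  | mk ι _ _ => ι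
/-- The elements of a name. -/
def A : (τ : Nm Q) → τ.ι → Nm Q
  | mk _ A _ => A
/-- The conditions of a name. -/
def c : (τ : Nm Q) → τ.ι → Q
  | mk _ _ c => c

end Nm

/-- The objects: arbitrary elements of small types, and names. -/
abbrev Un (Q : Type) : Type 1 := (Σ α : Type, α) ⊕ Nm Q

instance {Q : Type} : Nonempty (Un Q) := ⟨Sum.inl ⟨Unit, ()⟩⟩

/-- A small object as an element of the universe. -/
def uT (Q : Type) {α : Type} (x : α) : Un Q := Sum.inl ⟨α, x⟩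
/-- A name as an element of the universe. -/
def uN {Q : Type} (τ : Nm Q) : Un Q := Sum.inr τ

lemma uT_inj {Q α : Type} : Function.Injective (uT Q : α → Un Q) := fun x y h => by
  have h1 : (⟨α, x⟩ : Σ α : Type, α) = ⟨α, y⟩ := Sum.inl_injective h
  exact eq_of_heq (Sigma.mk.inj h1).2
lemma uN_inj {Q : Type} : Function.Injective (uN : Nm Q → Un Q) := Sum.inr_injective

variable {Q : Type}

/-- The small object `x` belongs to `N`. -/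
def InT (N : Set (Un Q)) {α : Type} (x : α) : Prop := uT Q x ∈ N
/-- The name `τ` belongs to `N`. -/
def InN (N : Set (Un Q)) (τ : Nm Q) : Prop := uN τ ∈ N

lemma club_inT {α : Type} (x : α) : ∀ᶠ N in club (Un Q), InT N x := club_mem _
lemma club_inN (τ : Nm Q) : ∀ᶠ N in club (Un Q), InN N τ := club_mem _

lemma diagT {α : Type} {R : α → Set (Un Q) → Prop} (h : ∀ x, ∀ᶠ N in club (Un Q), R x N) :
    ∀ᶠ N in club (Un Q), ∀ x : α, InT N x → R x N := club_diag' _ uT_inj h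
lemma diagN {R : Nm Q → Set (Un Q) → Prop} (h : ∀ x, ∀ᶠ N in club (Un Q), R x N) :
    ∀ᶠ N in club (Un Q), ∀ x : Nm Q, InN N x → R x N := club_diag' _ uN_inj h

lemma diag_tuple {Ω : Type*} [Nonempty Ω] {α : Type*} (i : α → Ω) (hi : Function.Injective i) {n : ℕ} :
    ∀ {R : (Fin n → α) → Set Ω → Prop}, (∀ v, ∀ᶠ N in club Ω, R v N) →
      ∀ᶠ N in club Ω, ∀ v, (∀ k, i (v k) ∈ N) → R v N := by
  induction n with
  | zero =>
    intro R h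
    refine (h finZeroElim).mono (fun N hN v _ => ?_)
    rw [Subsingleton.elim v finZeroElim]; exact hN
  | succ n ih =>
    intro R h
    have h1 : ∀ x : α, ∀ᶠ N in club Ω, ∀ v : Fin n → α, (∀ k, i (v k) ∈ N) → R (Fin.cons x v) N :=
      fun x => ih (fun v => h (Fin.cons x v))
    refine (club_diag' i hi h1).mono (fun N hN v hv => ?_)
    have := hN (v 0) (hv 0) (Fin.tail v) (fun k => hv k.succ)
    rwa [Fin.cons_self_tail] at this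

lemma diagNs {n : ℕ} {R : (Fin n → Nm Q) → Set (Un Q) → Prop} (h : ∀ v, ∀ᶠ N in club (Un Q), R v N) :
    ∀ᶠ N in club (Un Q), ∀ v : Fin n → Nm Q, (∀ k, InN N (v k)) → R v N := diag_tuple _ uN_inj h

variable [Preorder Q] [OrderTop Q]

/-- `G` is a filter of conditions in `N` which is generic over `N`. -/
structure GenF (N : Set (Un Q)) (G : Set Q) : Prop where
  sub : ∀ q ∈ G, InT N q
  up : ∀ p ∈ G, ∀ q, p ≤ q → InT N q → q ∈ G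
  dir : ∀ p ∈ G, ∀ q ∈ G, ∃ r ∈ G, r ≤ p ∧ r ≤ q
  gen : ∀ D : Set Q, InT N D → (∀ p, ∃ q ∈ D, q ≤ p) → ∃ q ∈ G, q ∈ D

/-- The value of a name. -/
noncomputable def val (N : Set (Un Q)) (G : Set Q) : Nm Q → ZFSet.{0}
  | .mk ι A c => ZFSet.range (fun i : {i : ι // InN N (A i) ∧ c i ∈ G} => val N G (A i.1))

lemma mem_val {N : Set (Un Q)} {G : Set Q} {τ : Nm Q} {x : ZFSet} :
    x ∈ val N G τ ↔ ∃ i : τ.ι, InN N (τ.A i) ∧ τ.c i ∈ G ∧ val N G (τ.A i) = x := by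
  cases τ with
  | mk ι A c =>
    have h : val N G (.mk ι A c) = ZFSet.range (fun i : {i : ι // InN N (A i) ∧ c i ∈ G} => val N G (A i.1)) := by
      rw [val]
    rw [h, ZFSet.mem_range]
    constructor
    · rintro ⟨⟨i, h1, h2⟩, h3⟩
      exact ⟨i, h1, h2, h3⟩
    · rintro ⟨i, h1, h2, h3⟩
      exact ⟨⟨i, h1, h2⟩, h3⟩

/-- The relation `p` forces `τ = σ`. -/
def feq : Nm Q → Nm Q → Q → Prop
  | .mk ι A c, σ, p => (∀ i : ι, ∀ q ≤ p, q ≤ c i → ∃ r ≤ q, ∃ j, r ≤ σ.c j ∧ feq (A i) (σ.A j) r) ∧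
      (∀ j, ∀ q ≤ p, q ≤ σ.c j → ∃ r ≤ q, ∃ i : ι, r ≤ c i ∧ feq (A i) (σ.A j) r)

lemma feq_def {τ σ : Nm Q} {p : Q} : feq τ σ p ↔
    (∀ i, ∀ q ≤ p, q ≤ τ.c i → ∃ r ≤ q, ∃ j, r ≤ σ.c j ∧ feq (τ.A i) (σ.A j) r) ∧
      (∀ j, ∀ q ≤ p, q ≤ σ.c j → ∃ r ≤ q, ∃ i, r ≤ τ.c i ∧ feq (τ.A i) (σ.A j) r) := by
  cases τ with
  | mk ι A c => rfl

lemma feq_mono {τ σ : Nm Q} {p q : Q} (h : feq τ σ p) (hq : q ≤ p) : feq τ σ q := by
  rw [feq_def] at h ⊢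
  exact ⟨fun i r hr => h.1 i r (hr.trans hq), fun j r hr => h.2 j r (hr.trans hq)⟩

lemma feq_dense {τ σ : Nm Q} {p : Q} (h : ∀ q ≤ p, ∃ r ≤ q, feq τ σ r) : feq τ σ p := by
  rw [feq_def]
  constructor
  · intro i q hq hqi
    obtain ⟨r, hr, h1⟩ := h q hq
    obtain ⟨s, hs, h2⟩ := (feq_def.mp h1).1 i r le_rfl (hr.trans hqi)
    exact ⟨s, hs.trans hr, h2⟩
  · intro j q hq hqj
    obtain ⟨r, hr, h1⟩ := h q hq
    obtain ⟨s, hs, h2⟩ := (feq_def.mp h1).2 j r le_rfl (hr.trans hqj)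
    exact ⟨s, hs.trans hr, h2⟩

lemma feq_symm {τ : Nm Q} : ∀ {σ : Nm Q} {p : Q}, feq τ σ p → feq σ τ p := by
  induction τ with
  | mk ι A c ih =>
    intro σ p h
    rw [feq_def] at h ⊢
    constructor
    · intro j q hq hqj
      obtain ⟨r, hr, i, h1, h2⟩ := h.2 j q hq hqj
      exact ⟨r, hr, i, h1, ih i h2⟩
    · intro i q hq hqi
      obtain ⟨r, hr, j, h1, h2⟩ := h.1 i q hq hqi
      exact ⟨r, hr, j, h1, ih i h2⟩

lemma feq_refl (τ : Nm Q) : ∀ p, feq τ τ p := by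
  induction τ with
  | mk ι A c ih =>
    intro p
    rw [feq_def]
    exact ⟨fun i q _ hqi => ⟨q, le_rfl, i, hqi, ih i q⟩, fun i q _ hqi => ⟨q, le_rfl, i, hqi, ih i q⟩⟩

/-- `r` is below the condition of an element of `σ` forced to be equal to `τ`. -/
def Fm (τ σ : Nm Q) : Set Q := {r | ∃ j, r ≤ σ.c j ∧ feq τ (σ.A j) r}

/-- The relation `p` forces `τ ∈ σ`. -/
def fmem (τ σ : Nm Q) (p : Q) : Prop := ∀ q ≤ p, ∃ r ≤ q, r ∈ Fm τ σ

lemma fmem_mono {τ σ : Nm Q} {p q : Q} (h : fmem τ σ p) (hq : q ≤ p) : fmem τ σ q := fun r hr => h r (hr.trans hq)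
lemma fmem_dense {τ σ : Nm Q} {p : Q} (h : ∀ q ≤ p, ∃ r ≤ q, fmem τ σ r) : fmem τ σ p := by
  intro q hq
  obtain ⟨r, hr, h1⟩ := h q hq
  obtain ⟨s, hs, h2⟩ := h1 r le_rfl
  exact ⟨s, hs.trans hr, h2⟩

/-- The conditions deciding `S`. -/
def Dcd (S : Set Q) : Set Q := {p | p ∈ S ∨ ∀ q ≤ p, q ∉ S}

lemma dcd_dense (S : Set Q) (p : Q) : ∃ q ∈ Dcd S, q ≤ p := by
  by_cases h : ∃ q ≤ p, q ∈ S
  · obtain ⟨q, h1, h2⟩ := h
    exact ⟨q, Or.inl h2, h1⟩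
  · push Not at h
    exact ⟨p, Or.inr h, le_rfl⟩

/-- Conditions deciding the equality of `τ` and `σ`. -/
def Eset (τ σ : Nm Q) : Set Q := {p | feq τ σ p ∨ (∃ i, p ≤ τ.c i ∧ ∀ r ≤ p, r ∉ Fm (τ.A i) σ) ∨
  ∃ j, p ≤ σ.c j ∧ ∀ r ≤ p, r ∉ Fm (σ.A j) τ}

lemma eset_dense (τ σ : Nm Q) (p : Q) : ∃ q ∈ Eset τ σ, q ≤ p := by
  by_cases h : feq τ σ p
  · exact ⟨p, Or.inl h, le_rfl⟩
  · rw [feq_def, not_and_or] at h
    rcases h with h | h
    · push Not at h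
      obtain ⟨i, q, h1, h2, h3⟩ := h
      refine ⟨q, Or.inr (Or.inl ⟨i, h2, fun r hr hF => ?_⟩), h1⟩
      obtain ⟨j, h4, h5⟩ := hF
      exact h3 r hr j h4 h5
    · push Not at h
      obtain ⟨j, q, h1, h2, h3⟩ := h
      refine ⟨q, Or.inr (Or.inr ⟨j, h2, fun r hr hF => ?_⟩), h1⟩
      obtain ⟨i, h4, h5⟩ := hF
      exact h3 r hr i h4 (feq_symm h5)

/-- The empty name. -/
def emN : Nm Q := .mk Empty Empty.elim Empty.elim

/-- Closure properties of `N` used for the atomic formulas. -/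
structure NOk (N : Set (Un Q)) : Prop where
  top : InT N (⊤ : Q)
  emp : InN N (emN : Nm Q)
  univ : InT N (Set.univ : Set Q)
  e : ∀ τ σ, InN N τ → InN N σ → InT N (Eset τ σ)
  ew : ∀ (τ σ : Nm Q) (p : Q), InN N τ → InN N σ → InT N p → (∃ i, p ≤ τ.c i ∧ ∀ r ≤ p, r ∉ Fm (τ.A i) σ) →
    ∃ i, (p ≤ τ.c i ∧ ∀ r ≤ p, r ∉ Fm (τ.A i) σ) ∧ InN N (τ.A i) ∧ InT N (τ.c i)
  f : ∀ τ σ, InN N τ → InN N σ → InT N (Dcd (Fm τ σ))
  fw : ∀ (τ σ : Nm Q) (p : Q), InN N τ → InN N σ → InT N p → p ∈ Fm τ σ →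
    ∃ j, (p ≤ σ.c j ∧ feq τ (σ.A j) p) ∧ InN N (σ.A j) ∧ InT N (σ.c j)

lemma nok_club : ∀ᶠ N in club (Un Q), NOk N := by
  have h1 : ∀ᶠ N in club (Un Q), ∀ τ, InN N τ → ∀ σ, InN N σ → InT N (Eset τ σ) :=
    diagN (fun τ => diagN (fun σ => club_inT _))
  have h2 : ∀ᶠ N in club (Un Q), ∀ τ, InN N τ → ∀ σ, InN N σ → InT N (Dcd (Fm τ σ)) :=
    diagN (fun τ => diagN (fun σ => club_inT _))
  have h3 : ∀ᶠ N in club (Un Q), ∀ τ, InN N τ → ∀ σ, InN N σ → ∀ p : Q, InT N p →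
      (∃ i, p ≤ τ.c i ∧ ∀ r ≤ p, r ∉ Fm (τ.A i) σ) →
        ∃ i, (p ≤ τ.c i ∧ ∀ r ≤ p, r ∉ Fm (τ.A i) σ) ∧ InN N (τ.A i) ∧ InT N (τ.c i) := by
    refine diagN (fun τ => diagN (fun σ => diagT (fun p => ?_)))
    by_cases h : ∃ i, p ≤ τ.c i ∧ ∀ r ≤ p, r ∉ Fm (τ.A i) σ
    · obtain ⟨i, hi⟩ := h
      filter_upwards [club_inN (τ.A i), club_inT (τ.c i)] with N h1 h2 _
      exact ⟨i, hi, h1, h2⟩
    · exact Filter.Eventually.of_forall (fun N h' => (h h').elim)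
  have h4 : ∀ᶠ N in club (Un Q), ∀ τ, InN N τ → ∀ σ, InN N σ → ∀ p : Q, InT N p → p ∈ Fm τ σ →
        ∃ j, (p ≤ σ.c j ∧ feq τ (σ.A j) p) ∧ InN N (σ.A j) ∧ InT N (σ.c j) := by
    refine diagN (fun τ => diagN (fun σ => diagT (fun p => ?_)))
    by_cases h : p ∈ Fm τ σ
    · obtain ⟨j, hj⟩ := h
      filter_upwards [club_inN (σ.A j), club_inT (σ.c j)] with N h1 h2 _
      exact ⟨j, hj, h1, h2⟩
    · exact Filter.Eventually.of_forall (fun N h' => (h h').elim)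
  filter_upwards [club_inT (⊤ : Q), club_inN (emN : Nm Q), club_inT (Set.univ : Set Q), h1, h2, h3, h4] with
    N h0 h0' h0'' h1 h2 h3 h4
  exact ⟨h0, h0', h0'', fun τ σ hτ hσ => h1 τ hτ σ hσ, fun τ σ p hτ hσ hp => h3 τ hτ σ hσ p hp, fun τ σ hτ hσ => h2 τ hτ σ hσ,
    fun τ σ p hτ hσ hp => h4 τ hτ σ hσ p hp⟩

section truth
variable {N : Set (Un Q)} {G : Set Q} (ok : NOk N) (gen : GenF N G)
include ok gen

lemma top_mem : (⊤ : Q) ∈ G := by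
  obtain ⟨q, hq, _⟩ := gen.gen _ ok.univ (fun p => ⟨p, trivial, le_rfl⟩)
  exact gen.up q hq ⊤ le_top ok.top

/-- If `Fm τ σ` is dense below a member of `G`, then it is met. -/
lemma meet_Fm {τ σ : Nm Q} (hτ : InN N τ) (hσ : InN N σ) {p : Q} (hp : p ∈ G) (h : ∀ q ≤ p, ∃ r ≤ q, r ∈ Fm τ σ) :
    ∃ r ∈ G, ∃ j, r ≤ σ.c j ∧ feq τ (σ.A j) r ∧ InN N (σ.A j) ∧ σ.c j ∈ G := by
  obtain ⟨r, hr, h1⟩ := gen.gen _ (ok.f τ σ hτ hσ) (dcd_dense _)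
  rcases h1 with h1 | h1
  · obtain ⟨j, ⟨h2, h3⟩, h4, h5⟩ := ok.fw τ σ r hτ hσ (gen.sub r hr) h1
    exact ⟨r, hr, j, h2, h3, h4, gen.up r hr _ h2 h5⟩
  · exfalso
    obtain ⟨s, _, hs1, hs2⟩ := gen.dir p hp r hr
    obtain ⟨t, ht1, ht2⟩ := h s hs1
    exact h1 t (ht1.trans hs2) ht2

theorem val_eq : ∀ τ : Nm Q, InN N τ → ∀ σ, InN N σ → (val N G τ = val N G σ ↔ ∃ p ∈ G, feq τ σ p) := by
  intro τ
  induction τ with
  | mk ι A c ih =>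
    intro hτ σ hσ
    set τ : Nm Q := .mk ι A c with hτdef
    have ih' : ∀ i : τ.ι, InN N (τ.A i) → ∀ ρ, InN N ρ → (val N G (τ.A i) = val N G ρ ↔ ∃ p ∈ G, feq (τ.A i) ρ p) := ih
    constructor
    · intro heq
      obtain ⟨p, hp, h⟩ := gen.gen _ (ok.e τ σ hτ hσ) (eset_dense τ σ)
      rcases h with h | h | h
      · exact ⟨p, hp, h⟩
      · exfalso
        obtain ⟨i, ⟨h1, h2⟩, h3, h4⟩ := ok.ew τ σ p hτ hσ (gen.sub p hp) h
        have h5 : val N G (τ.A i) ∈ val N G τ := mem_val.mpr ⟨i, h3, gen.up p hp _ h1 h4, rfl⟩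
        rw [heq] at h5
        obtain ⟨j, h6, h7, h8⟩ := mem_val.mp h5
        obtain ⟨s, hs, h9⟩ := (ih' i h3 _ h6).mp h8.symm
        obtain ⟨r, hr, h10, h11⟩ := gen.dir s hs p hp
        obtain ⟨t, _, h12, h13⟩ := gen.dir r hr _ h7
        exact h2 t (h12.trans h11) ⟨j, h13, feq_mono h9 (h12.trans h10)⟩
      · exfalso
        obtain ⟨j, ⟨h1, h2⟩, h3, h4⟩ := ok.ew σ τ p hσ hτ (gen.sub p hp) h
        have h5 : val N G (σ.A j) ∈ val N G σ := mem_val.mpr ⟨j, h3, gen.up p hp _ h1 h4, rfl⟩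
        rw [← heq] at h5
        obtain ⟨i, h6, h7, h8⟩ := mem_val.mp h5
        obtain ⟨s, hs, h9⟩ := (ih' i h6 _ h3).mp h8
        obtain ⟨r, hr, h10, h11⟩ := gen.dir s hs p hp
        obtain ⟨t, _, h12, h13⟩ := gen.dir r hr _ h7
        exact h2 t (h12.trans h11) ⟨i, h13, feq_symm (feq_mono h9 (h12.trans h10))⟩
    · rintro ⟨p, hp, h⟩
      rw [feq_def] at h
      ext x
      rw [mem_val, mem_val]
      constructor
      · rintro ⟨i, h1, h2, h3⟩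
        obtain ⟨q, hq, hq1, hq2⟩ := gen.dir p hp _ h2
        obtain ⟨r, hr, j, _, h5, h6, h7⟩ := meet_Fm ok gen h1 hσ hq (fun s hs => by
          obtain ⟨t, ht, j, h4, h5⟩ := h.1 i s (hs.trans hq1) (hs.trans hq2)
          exact ⟨t, ht, j, h4, h5⟩)
        exact ⟨j, h6, h7, ((ih' i h1 _ h6).mpr ⟨r, hr, h5⟩) ▸ h3⟩
      · rintro ⟨j, h1, h2, h3⟩
        obtain ⟨q, hq, hq1, hq2⟩ := gen.dir p hp _ h2
        obtain ⟨r, hr, i, _, h5, h6, h7⟩ := meet_Fm ok gen h1 hτ hq (fun s hs => by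
          obtain ⟨t, ht, i, h4, h5⟩ := h.2 j s (hs.trans hq1) (hs.trans hq2)
          exact ⟨t, ht, i, h4, feq_symm h5⟩)
        exact ⟨i, h6, h7, ((ih' i h6 _ h1).mpr ⟨r, hr, feq_symm h5⟩).trans h3⟩

theorem val_mem {τ σ : Nm Q} (hτ : InN N τ) (hσ : InN N σ) : val N G τ ∈ val N G σ ↔ ∃ p ∈ G, fmem τ σ p := by
  rw [mem_val]
  constructor
  · rintro ⟨j, h1, h2, h3⟩
    obtain ⟨s, hs, h4⟩ := (val_eq ok gen τ hτ _ h1).mp h3.symm
    obtain ⟨r, hr, h5, h6⟩ := gen.dir s hs _ h2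
    exact ⟨r, hr, fun q hq => ⟨q, le_rfl, j, hq.trans h6, feq_mono h4 (hq.trans h5)⟩⟩
  · rintro ⟨p, hp, h⟩
    obtain ⟨r, hr, j, _, h5, h6, h7⟩ := meet_Fm ok gen hτ hσ hp h
    exact ⟨j, h6, h7, ((val_eq ok gen τ hτ _ h6).mpr ⟨r, hr, h5⟩).symm⟩

end truth

end Pool.Agent.H55.Lav
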