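import Pool.Agent.H55.Lav.Om1

set_option autoImplicit false
set_option linter.all false

/-!
# Forcing with sets of conditions of a preorder
-/

namespace Pool.Agent.H55.Lav

variable {Q : Type} [Preorder Q]

/-- `E` is below a member of `S`. -/
def BelQ (S : Set Q) (E : Q) : Prop := ∃ C ∈ S, E ≤ C
/-- `S` is predense below `E`. -/
def FoQ (S : Set Q) (E : Q) : Prop := ∀ E' ≤ E, ∃ E'' ≤ E', BelQ S E''
/-- `E` is incompatible with all members of `S`. -/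
def IncQ (S : Set Q) (E : Q) : Prop := ∀ E' ≤ E, ¬ BelQ S E'
/-- `E` forces that `x` is infinite. -/
def InfQ (x : ℕ → Set Q) (E : Q) : Prop := ∀ j, FoQ {C | ∃ k, j < k ∧ C ∈ x k} E
/-- The name of the intersection. -/
def capQ (x a : ℕ → Set Q) (k : ℕ) : Set Q := {E | BelQ (x k) E ∧ BelQ (a k) E}
/-- The name of the difference. -/
def difQ (x a : ℕ → Set Q) (k : ℕ) : Set Q := {E | BelQ (x k) E ∧ IncQ (a k) E}

/-- `q` forces that `C` is a closed unbounded set such that `a α` splits `x` for all `α` in `C`. -/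
structure ClubQ (a : Ω1 → ℕ → Set Q) (x : ℕ → Set Q) (C : Ω1 → Set Q) (q : Q) : Prop where
  unb : ∀ α, FoQ {E | ∃ β, α < β ∧ E ∈ C β} q
  cls : ∀ δ, (∃ α, α < δ) → ∀ q' ≤ q, (∀ α < δ, FoQ {E | ∃ β, α < β ∧ β < δ ∧ E ∈ C β} q') → FoQ (C δ) q'
  spl : ∀ δ, ∀ q' ≤ q, BelQ (C δ) q' → InfQ (capQ x (a δ)) q' ∧ InfQ (difQ x (a δ)) q'

/-- The properties of the forcing used for the final model. -/
structure GoodQ (Q : Type) [Preorder Q] : Prop where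
  bdd : ∀ (f : ℕ → Ω1 → Set Q) (p : Q), ∃ q ≤ p, ∃ γ : Ω1, ∀ n α, ∀ E ≤ q, BelQ (f n α) E →
    ∃ E' ≤ E, ∃ β < γ, BelQ (f n β) E'
  spl : ∃ g : Ω1 → ℕ → Set Q, ∀ (x : ℕ → ℕ → Set Q) (p : Q), ∃ q ≤ p, ∃ α : Ω1, ∀ n, ∀ E ≤ q, InfQ (x n) E →
    InfQ (capQ (x n) (g α)) E ∧ InfQ (difQ (x n) (g α)) E
  noc : ∀ (a : Ω1 → ℕ → Set Q) (p : Q), ∃ x, ∃ q ≤ p, InfQ x q ∧ ∀ q' ≤ q, ∀ C, ¬ ClubQ a x C q'

end Pool.Agent.H55.Lav
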