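import Pool.Agent.H55.Lav.ThmAB
import Pool.Agent.H55.Lav.QDefs
import Pool.Agent.H55.Lav.Nm

set_option autoImplicit false
set_option linter.all false

/-!
# The iteration as a preorder
-/

namespace Pool.Agent.H55.Lav

open Cond

section
variable {W : Type} [LinearOrder W] [WellFoundedLT W] [OrderBot W] [OrderTop W]

/-- The conditions of the iteration. -/
abbrev QQ (W : Type) [LinearOrder W] [OrderTop W] : Type := {C : Cond W // C ∈ P (⊤ : W)}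

instance : OrderTop (QQ W) where
  top := ⟨one, one_mem _⟩
  le_top _ := le_one

/-- The conditions of the iteration in `S`. -/
def dn (S : Set (Cond W)) : Set (QQ W) := {C | C.1 ∈ S}

lemma dn_im (S : Set (QQ W)) : dn (Subtype.val '' S) = S := by
  ext C
  constructor
  · rintro ⟨D, hD, h⟩
    have : D = C := Subtype.ext h
    rw [← this]; exact hD
  · intro h; exact ⟨C, h, rfl⟩

lemma bel_dn {S : Set (Cond W)} {E : QQ W} : BelQ (dn S) E ↔ Bel S E.1 :=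
  ⟨fun ⟨C, h1, h2⟩ => ⟨C.1, h1, C.2, h2⟩, fun ⟨C, h1, h2, h3⟩ => ⟨⟨C, h2⟩, h1, h3⟩⟩

lemma fo_dn {S : Set (Cond W)} {E : QQ W} : FoQ (dn S) E ↔ Fo ⊤ S E.1 := by
  constructor
  · intro h E' hE' hle
    obtain ⟨E'', h1, C, h2, h3⟩ := h ⟨E', hE'⟩ hle
    exact ⟨E''.1, E''.2, h1, C.1, h2, C.2, h3⟩
  · intro h E' hle
    obtain ⟨E'', h1, h2, C, h3, h4, h5⟩ := h E'.1 E'.2 hle
    exact ⟨⟨E'', h1⟩, h2, ⟨C, h4⟩, h3, h5⟩

lemma inc_dn {S : Set (Cond W)} {E : QQ W} : IncQ (dn S) E ↔ Inc ⊤ S E.1 := by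
  constructor
  · intro h C hC hC' E' hE' hle hle'
    exact h ⟨E', hE'⟩ hle ⟨⟨C, hC'⟩, hC, hle'⟩
  · rintro h E' hle ⟨C, h1, h2⟩
    exact h C.1 h1 C.2 E'.1 E'.2 hle h2

lemma inf_dn {x : ℕ → Set (Cond W)} {E : QQ W} : InfQ (fun k => dn (x k)) E ↔ InfN x E.1 := by
  refine forall_congr' (fun j => ?_)
  rw [← fo_dn]
  exact Iff.rfl

lemma cap_dn (x a : ℕ → Set (Cond W)) : capQ (fun k => dn (x k)) (fun k => dn (a k)) = fun k => dn (capN x a k) := by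
  funext k
  ext E
  simp only [capQ, capN, dn, Set.mem_ofPred_eq]
  exact and_congr bel_dn bel_dn

lemma dif_dn (x a : ℕ → Set (Cond W)) : difQ (fun k => dn (x k)) (fun k => dn (a k)) = fun k => dn (difN x a k) := by
  funext k
  ext E
  simp only [difQ, difN, dn, Set.mem_ofPred_eq]
  exact and_congr bel_dn inc_dn

lemma club_dn {a : Ω1 → ℕ → Set (Cond W)} {x : ℕ → Set (Cond W)} {C : Ω1 → Set (Cond W)} {q : QQ W}
    (h : ClubQ (fun α k => dn (a α k)) (fun k => dn (x k)) (fun α => dn (C α)) q) : ClubName a x C q.1 := by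
  refine ⟨fun α => ?_, fun δ hδ q' hq' hle h1 => ?_, fun δ q' hq' hle h1 => ?_⟩
  · rw [← fo_dn]; exact h.unb α
  · have := h.cls δ hδ ⟨q', hq'⟩ hle (fun α hα => by
      have h2 := h1 α hα
      rw [← fo_dn (E := ⟨q', hq'⟩)] at h2
      exact h2)
    exact fo_dn.mp this
  · obtain ⟨h2, h3⟩ := h.spl δ ⟨q', hq'⟩ hle (bel_dn.mpr h1)
    rw [cap_dn, inf_dn] at h2
    rw [dif_dn, inf_dn] at h3
    exact ⟨h2, h3⟩

lemma exists_dn {I : Type} (x : I → Set (QQ W)) : ∃ y : I → Set (Cond W), x = fun i => dn (y i) :=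
  ⟨fun i => Subtype.val '' x i, by funext i; exact (dn_im _).symm⟩

lemma exists_dn2 {I J : Type} (x : I → J → Set (QQ W)) : ∃ y : I → J → Set (Cond W), x = fun i j => dn (y i j) :=
  ⟨fun i j => Subtype.val '' x i j, by funext i j; exact (dn_im _).symm⟩

/-- The forcing with the iteration is good. -/
theorem goodQ (big : Big W) {ι : Ω1 → ℕ → W} (hι : ∀ α β m n, ι α m = ι β n → α = β ∧ m = n)
    (hι' : ∀ α n, ι α n < ⊤) : GoodQ (QQ W) := by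
  refine ⟨fun f p => ?_, ⟨fun α k => dn (colN ι α k), fun x p => ?_⟩, fun a p => ?_⟩
  · obtain ⟨f, rfl⟩ := exists_dn2 f
    obtain ⟨q, hq, hqp, γ, h⟩ := thmA f p.2
    refine ⟨⟨q, hq⟩, hqp, γ, fun n α E hE hb => ?_⟩
    obtain ⟨E', h1, h2, β, h3, h4⟩ := h n α E.1 E.2 hE (bel_dn.mp hb)
    exact ⟨⟨E', h1⟩, h2, β, h3, bel_dn.mpr h4⟩
  · obtain ⟨x, rfl⟩ := exists_dn2 x
    obtain ⟨q, hq, hqp, e, h⟩ := thmB x p.2
    obtain ⟨q', hq', hqq', α, h'⟩ := thmD hι hι' e hq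
    refine ⟨⟨q', hq'⟩, hqq'.trans hqp, α, fun n E hE hinf => ?_⟩
    obtain ⟨h1, h2⟩ := h n E.1 E.2 (le_trans (show E.1 ≤ q' from hE) hqq') (inf_dn.mp hinf)
    rw [cap_dn, dif_dn, inf_dn, inf_dn]
    constructor
    · intro j E1 hE1 hle
      obtain ⟨E2, i1, i2, C, ⟨k, hk, c1, c2⟩, c3, c4⟩ := h1 j E1 hE1 hle
      exact ⟨E2, i1, i2, E2, ⟨k, hk, ⟨C, c1, c3, c4⟩, q', (h' k).1 c2, hq', i2.trans (hle.trans hE)⟩, i1, le_rfl⟩
    · intro j E1 hE1 hle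
      obtain ⟨E2, i1, i2, C, ⟨k, hk, c1, c2⟩, c3, c4⟩ := h2 j E1 hE1 hle
      refine ⟨E2, i1, i2, E2, ⟨k, hk, ⟨C, c1, c3, c4⟩, ?_⟩, i1, le_rfl⟩
      intro D hD hD' F hF hle'
      exact (h' k).2 c2 D hD hD' F hF (hle'.trans (i2.trans (hle.trans hE)))
  · obtain ⟨a, rfl⟩ := exists_dn2 a
    obtain ⟨x, q, hq, hqp, h1, h2⟩ := thmC big a p.2
    refine ⟨fun k => dn (x k), ⟨q, hq⟩, hqp, inf_dn.mpr h1, fun q' hq' C hC => ?_⟩
    obtain ⟨C, rfl⟩ := exists_dn C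
    exact h2 q'.1 q'.2 hq' C (club_dn hC)

/-! ### Generic filters -/

lemma club_comap {Ω Ω' : Type*} [Nonempty Ω] [Nonempty Ω'] (i : Ω → Ω') (hi : Function.Injective i) {R : Set Ω → Prop}
    (h : ∀ᶠ N in club Ω, R N) : ∀ᶠ N in club Ω', R {x | i x ∈ N} := by
  classical
  obtain ⟨f, hf⟩ := mem_club.mp h
  refine mem_club.mpr ⟨fun n l' => if h : ∃ l : List Ω, l.map i = l' then i (f n h.choose) else Classical.arbitrary Ω',
    fun N' hN' => hf _ ⟨hN'.1.preimage_of_injOn hi.injOn, fun n l hl => ?_⟩⟩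
  have h1 := hN'.2 n (l.map i) (by
    intro x hx
    obtain ⟨y, hy, rfl⟩ := List.mem_map.mp hx
    exact hl y hy)
  have h2 : ∃ l' : List Ω, l'.map i = l.map i := ⟨l, rfl⟩
  have h3 : h2.choose = l := (List.map_injective_iff.mpr hi) h2.choose_spec
  simp only [dif_pos h2, h3] at h1
  exact h1

/-- There are generic filters over almost all countable sets. -/
theorem exists_genF : ∀ᶠ N in club (Un (QQ W)), ∃ G : Set (QQ W), GenF N G := by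
  have h1 := club_comap (fun o : Ob W Ω1 => uT (QQ W) o) uT_inj (hasGen (T := Ω1) (⊤ : W))
  have h2 := club_comap (fun o : Ob W Ω1 => uT (QQ W) o) uT_inj (ok_club (W := W) (T := Ω1))
  have h3 : ∀ᶠ N in club (Un (QQ W)), ∀ q : QQ W, InT N q → InT N (Ob.c q.1 : Ob W Ω1) := diagT (fun q => club_inT _)
  have h4 : ∀ᶠ N in club (Un (QQ W)), ∀ o : Ob W Ω1, InT N o → ∀ q : QQ W, o = Ob.c q.1 → InT N q := by
    refine diagT (fun o => ?_)
    by_cases h : ∃ q : QQ W, o = Ob.c q.1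
    · obtain ⟨q, hq⟩ := h
      refine (club_inT q).mono (fun N hN q' hq' => ?_)
      have : q = q' := Subtype.ext (Ob.c_inj (hq.symm.trans hq'))
      rw [← this]; exact hN
    · exact Filter.Eventually.of_forall (fun N q hq => (h ⟨q, hq⟩).elim)
  have h5 : ∀ᶠ N in club (Un (QQ W)), ∀ D : Set (QQ W), InT N D → InT N (Ob.d (Subtype.val '' D) : Ob W Ω1) :=
    diagT (fun D => club_inT _)
  filter_upwards [h1, h2, h3, h4, h5, club_inT (Ob.w (⊤ : W) : Ob W Ω1), club_inT (Ob.c one : Ob W Ω1)] with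
    N h1 h2 h3 h4 h5 h6 h7
  have ok := h2 ⊤ h6
  obtain ⟨r, hr, _, gen⟩ := h1 one (one_mem _) h7
  obtain ⟨z, hz⟩ := body_nonempty r
  refine ⟨{q | InT N q ∧ z ∈ q.1.body}, ⟨fun q hq => hq.1, fun p hp q hpq hq => ⟨hq, hpq hp.2⟩, ?_, ?_⟩⟩
  · intro p hp q hq
    obtain ⟨E, e1, e2, e3, e4, e5, _⟩ := directed ok gen hz (h3 p hp.1) (h3 q hq.1) p.2 q.2 hp.2 hq.2
    exact ⟨⟨E, e1⟩, ⟨h4 _ e2 ⟨E, e1⟩ rfl, e5⟩, e3, e4⟩
  · intro D hD hd
    obtain ⟨C, ⟨q, hq, rfl⟩, h8, h9, h10⟩ := gen _ (h5 D hD) (by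
      intro E hE
      obtain ⟨q, hq, hle⟩ := hd ⟨E, hE⟩
      exact ⟨q.1, ⟨q, hq, rfl⟩, q.2, hle⟩) z hz
    exact ⟨q, ⟨h4 _ h9 q rfl, h10.mem hz⟩, hq⟩

end

end Pool.Agent.H55.Lav
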