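import Pool.Agent.H55.Lav.Fin
import Pool.Agent.H55.Lav.QLev

set_option autoImplicit false
set_option linter.all false

/-!
# The final model
-/

namespace Pool.Agent.H55.ZFU

open Pool.Agent.H55.SC Pool.Agent.H55.CS

universe u
variable {M : Type u} [Model M] [Pure M]

theorem splitting_of_omega {w F : M} (hw : IsOmega Model.E w) (hF : IsOmegaSplitting Model.E w F) :
    IsSplitting Model.E w F := by
  have hw' : w = omega := omega_iff.1 hw
  subst hw'
  refine ⟨hF.1, fun a ha => ?_⟩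
  have key : ∀ n x, Rel Model.E (lam omega (fun _ => a)) n x ↔ n ∈ (omega : M) ∧ x = a := by
    intro n x
    rw [rel_iff, mem_lam]
    constructor
    · rintro ⟨m, hm, h⟩
      rw [opair_inj] at h
      exact ⟨by rw [h.1]; exact hm, h.2⟩
    · rintro ⟨h1, rfl⟩
      exact ⟨n, h1, rfl⟩
  obtain ⟨x, hx, h⟩ := hF.2 (lam omega (fun _ => a)) (fun n hn => ⟨a, (key n a).2 ⟨hn, rfl⟩, fun y hy => ((key n y).1 hy).2⟩)
    (fun n b hn hb => by rw [((key n b).1 hb).2]; exact ha)
  exact ⟨x, hx, h (∅ : M) a (empty_mem_omega (M := M)) ((key ∅ a).2 ⟨empty_mem_omega (M := M), rfl⟩)⟩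

end Pool.Agent.H55.ZFU

namespace Pool.Agent.H55.Lav

open FirstOrder FirstOrder.Language Pool.Agent.H55.SC Pool.Agent.H55.ZFU Pool.Agent.H55.CS Cardinal

/-- The wellordered type of order type `𝔠⁺`. -/
abbrev W0 : Type := (Order.succ (𝔠 : Cardinal.{0})).ord.ToType

noncomputable instance : OrderBot W0 := Ordinal.toTypeOrderBot (by
  rw [Ne, Cardinal.ord_eq_zero]
  exact (Order.bot_lt_succ _).ne')

/-- The wellordered type of order type `𝔠⁺ + 1`. -/
abbrev WW : Type := WithTop W0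

lemma reg_succ : (Order.succ (𝔠 : Cardinal.{0})).IsRegular := Cardinal.isRegular_succ Cardinal.aleph0_le_continuum

lemma big_WW : Big WW := by
  refine ⟨fun s hs hlt => ?_, fun ξ hξ => ?_⟩
  · let s' : Set W0 := {a | (a : WW) ∈ s}
    have h1 : #s' ≤ #s := Cardinal.mk_le_of_injective (f := fun a : s' => (⟨(a.1 : WW), a.2⟩ : s)) (fun a b h => by
      simp only [Subtype.mk.injEq] at h
      exact Subtype.ext (WithTop.coe_injective h))
    obtain ⟨b, hb⟩ := exists_bound reg_succ (s := s') (Order.lt_succ_of_le (h1.trans hs))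
    refine ⟨(b : WW), WithTop.coe_lt_top b, fun a ha => ?_⟩
    obtain ⟨a', rfl⟩ := WithTop.ne_top_iff_exists.mp (hlt a ha).ne
    exact WithTop.coe_lt_coe.mpr (hb a' ha)
  · obtain ⟨x, rfl⟩ := WithTop.ne_top_iff_exists.mp hξ.ne
    have h1 : #(Set.Iio (x : WW)) ≤ #(Set.Iio x) := by
      refine Cardinal.mk_le_of_surjective (f := fun a : Set.Iio x => (⟨(a.1 : WW), WithTop.coe_lt_coe.mpr a.2⟩ : Set.Iio (x : WW))) ?_
      rintro ⟨a, ha⟩
      obtain ⟨a', rfl⟩ := WithTop.ne_top_iff_exists.mp (lt_trans ha (WithTop.coe_lt_top x)).ne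
      exact ⟨⟨a', WithTop.coe_lt_coe.mp ha⟩, rfl⟩
    exact h1.trans (Order.lt_succ_iff.mp (card_Iio_lt x))

lemma exists_iota : ∃ ι : Ω1 → ℕ → WW, (∀ α β m n, ι α m = ι β n → α = β ∧ m = n) ∧ ∀ α n, ι α n < ⊤ := by
  have h1 : #(Ω1 × ℕ) ≤ #W0 := by
    rw [Cardinal.mk_prod, Cardinal.lift_id, Cardinal.lift_id, Cardinal.mk_toType, Cardinal.mk_toType,
      Cardinal.card_ord, Cardinal.card_ord, Cardinal.mk_nat]
    refine le_trans ?_ (Order.le_succ _)
    calc ℵ₁ * ℵ₀ ≤ 𝔠 * 𝔠 := mul_le_mul' Cardinal.aleph_one_le_continuum Cardinal.aleph0_le_continuum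
      _ = 𝔠 := Cardinal.continuum_mul_self
  obtain ⟨f⟩ := (Cardinal.le_def _ _).mp h1
  refine ⟨fun α n => ((f (α, n) : W0) : WW), fun α β m n h => ?_, fun α n => WithTop.coe_lt_top _⟩
  have h2 := f.injective (WithTop.coe_injective h)
  simpa using h2

theorem main_result : ∃ (M : Type 1) (E : M → M → Prop), Countable M ∧ WellFounded E ∧ ZFC E ∧
    ∃ w κ, IsOmega E w ∧ IsOmega1 E w κ ∧ LeastAleph1 E w κ (IsSplitting E w) ∧
      LeastAleph1 E w κ (IsOmegaSplitting E w) ∧ ¬ ∃ A, IsClubSplitting E w κ A := by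
  obtain ⟨ι, hι1, hι2⟩ := exists_iota
  have good := goodQ big_WW hι1 hι2
  obtain ⟨g, hg⟩ := good.spl
  obtain ⟨N, hcount, all, bok, gok, cok, G, gen⟩ := ((club_countable (Ω := Un (QQ WW))).and
    ((allOk_club (Q := QQ WW)).and (bok_club.and ((gok2_club g).and (cok2_club.and exists_genF))))).exists
  have htop := top_mem all.ok gen
  refine ⟨MM N G, EE, ?_, ?_, choice_ax all.ok all.fok all.zok all.aok gen, ww G all.zok, kk G all.ook,
    isOmega_ww htop, omega1_kk all bok gen (fun f p => ?_), ?_, ?_, ?_⟩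
  · have h1 : {τ : Nm (QQ WW) | InN N τ}.Countable := hcount.preimage_of_injOn uN_inj.injOn
    have h2 : Countable {τ : Nm (QQ WW) | InN N τ} := h1.to_subtype
    refine Function.Surjective.countable (f := fun τ : {τ : Nm (QQ WW) | InN N τ} => (vl G τ.2 : MM N G)) ?_
    rintro ⟨x, τ, hτ, rfl⟩
    exact ⟨⟨τ, hτ⟩, rfl⟩
  · exact InvImage.wf Subtype.val ZFSet.mem_wf
  · obtain ⟨q, h1, γ, h2⟩ := good.bdd f p
    exact ⟨q, h1, γ, h2⟩
  · obtain ⟨F, hF, hs⟩ := omega_splitting all gok gen (fun x p => hg x p)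
    have hF' : IsSplitting EE (ww G all.zok) F := by
      let _ := mdl all.ok all.fok all.zok gen
      have : ZFU.Pure (MM N G) := zPure (zf all.ok all.fok all.zok gen)
      exact splitting_of_omega (M := MM N G) (isOmega_ww htop) hF
    refine ⟨⟨F, hF', hs⟩, fun F' hF'' => ?_⟩
    let _ := mdl all.ok all.fok all.zok gen
    have : ZFU.Pure (MM N G) := zPure (zf all.ok all.fok all.zok gen)
    exact no_countable_splitting (M := MM N G) (isOmega_ww htop) hF''
  · obtain ⟨F, hF, hs⟩ := omega_splitting all gok gen (fun x p => hg x p)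
    refine ⟨⟨F, hF, hs⟩, fun F' hF'' => ?_⟩
    let _ := mdl all.ok all.fok all.zok gen
    have : ZFU.Pure (MM N G) := zPure (zf all.ok all.fok all.zok gen)
    exact no_countable_splitting (M := MM N G) (isOmega_ww htop)
      (splitting_of_omega (M := MM N G) (isOmega_ww htop) hF'')
  · rintro ⟨A, hA⟩
    refine no_club_splitting all cok gen (fun a p => ?_) A hA
    obtain ⟨x, q, h1, h2, h3⟩ := good.noc a p
    exact ⟨q, h1, x, h2, h3⟩

end Pool.Agent.H55.Lav
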