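import Mathlib

set_option autoImplicit false

/-!
# The filter of closed families of countable sets
-/

namespace Pool.Agent.H55.Lav

variable {Ω : Type*}

/-- `N` is countable and closed under the functions `f n`. -/
def Clo (f : ℕ → List Ω → Ω) (N : Set Ω) : Prop := N.Countable ∧ ∀ n l, (∀ x ∈ l, x ∈ N) → f n l ∈ N

/-- Stages of the closure. -/
def stage (f : ℕ → List Ω → Ω) : ℕ → Set Ω
  | 0 => ∅
  | n + 1 => stage f n ∪ ⋃ m : ℕ, (f m) '' {l : List Ω | ∀ x ∈ l, x ∈ stage f n}

lemma exists_clo (f : ℕ → List Ω → Ω) : ∃ N, Clo f N := by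
  classical
  set A : ℕ → Set Ω := stage f with hAdef
  have hA : ∀ n, A (n + 1) = A n ∪ ⋃ m : ℕ, (f m) '' {l : List Ω | ∀ x ∈ l, x ∈ A n} := fun n => rfl
  have hc : ∀ n, (A n).Countable := by
    intro n
    induction n with
    | zero => exact Set.countable_empty
    | succ n ih =>
      rw [hA]
      refine ih.union (Set.countable_iUnion (fun m => Set.Countable.image ?_ _))
      have : Countable ↥(A n) := ih.to_subtype
      refine (Set.countable_range (fun l : List ↥(A n) => l.map Subtype.val)).mono ?_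
      intro l hl
      refine ⟨l.attach.map (fun x => ⟨x.1, hl x.1 x.2⟩), ?_⟩
      simp only [List.map_map]
      conv_rhs => rw [← List.attach_map_subtype_val l]
      rfl
  have hmono : Monotone A := monotone_nat_of_le_succ (fun n => by rw [hA]; exact Set.subset_union_left)
  refine ⟨⋃ n, A n, Set.countable_iUnion hc, fun m l hl => ?_⟩
  have h1 : ∃ n, ∀ x ∈ l, x ∈ A n := by
    induction l with
    | nil => exact ⟨0, by simp⟩
    | cons a l ih =>
      obtain ⟨n, hn⟩ := ih (fun x hx => hl x (List.mem_cons_of_mem _ hx))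
      obtain ⟨k, hk⟩ := Set.mem_iUnion.mp (hl a List.mem_cons_self)
      refine ⟨max n k, fun x hx => ?_⟩
      rcases List.mem_cons.mp hx with h | h
      · rw [h]; exact hmono (le_max_right _ _) hk
      · exact hmono (le_max_left _ _) (hn x h)
  obtain ⟨n, hn⟩ := h1
  refine Set.mem_iUnion.mpr ⟨n + 1, ?_⟩
  rw [hA]
  exact Or.inr (Set.mem_iUnion.mpr ⟨m, l, hn, rfl⟩)

/-- The filter generated by the families of all countable sets closed under given countably many functions. -/
def club (Ω : Type*) [Nonempty Ω] : Filter (Set Ω) where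
  sets := {S | ∃ f : ℕ → List Ω → Ω, ∀ N, Clo f N → N ∈ S}
  univ_sets := ⟨fun _ _ => Classical.arbitrary Ω, fun _ _ => trivial⟩
  sets_of_superset := by
    rintro S T ⟨f, hf⟩ h
    exact ⟨f, fun N hN => h (hf N hN)⟩
  inter_sets := by
    rintro S T ⟨f, hf⟩ ⟨g, hg⟩
    refine ⟨fun n l => if n % 2 = 0 then f (n / 2) l else g (n / 2) l, fun N hN => ⟨hf N ⟨hN.1, ?_⟩, hg N ⟨hN.1, ?_⟩⟩⟩
    · intro n l hl
      have := hN.2 (2 * n) l hl
      simpa using this
    · intro n l hl
      have := hN.2 (2 * n + 1) l hl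
      have e1 : (2 * n + 1) % 2 = 1 := by omega
      have e2 : (2 * n + 1) / 2 = n := by omega
      simpa [e1, e2] using this

variable [Nonempty Ω]

lemma mem_club {Q : Set Ω → Prop} : (∀ᶠ N in club Ω, Q N) ↔ ∃ f : ℕ → List Ω → Ω, ∀ N, Clo f N → Q N := Iff.rfl

instance : (club Ω).NeBot := by
  refine ⟨fun h => ?_⟩
  have : (∅ : Set (Set Ω)) ∈ club Ω := by rw [h]; trivial
  obtain ⟨f, hf⟩ := this
  obtain ⟨N, hN⟩ := exists_clo f
  exact hf N hN

lemma club_countable : ∀ᶠ N in club Ω, N.Countable :=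
  mem_club.mpr ⟨fun _ _ => Classical.arbitrary Ω, fun _ h => h.1⟩

lemma club_mem (y : Ω) : ∀ᶠ N in club Ω, y ∈ N :=
  mem_club.mpr ⟨fun _ _ => y, fun _ h => h.2 0 [] (by simp)⟩

lemma club_nat {Q : ℕ → Set Ω → Prop} (h : ∀ n, ∀ᶠ N in club Ω, Q n N) : ∀ᶠ N in club Ω, ∀ n, Q n N := by
  choose f hf using fun n => mem_club.mp (h n)
  refine mem_club.mpr ⟨fun n l => f n.unpair.1 n.unpair.2 l, fun N hN n => hf n N ⟨hN.1, fun m l hl => ?_⟩⟩
  have := hN.2 (Nat.pair n m) l hl
  simpa using this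

lemma club_all {ι : Type*} [Countable ι] {Q : ι → Set Ω → Prop} (h : ∀ i, ∀ᶠ N in club Ω, Q i N) :
    ∀ᶠ N in club Ω, ∀ i, Q i N := by
  cases isEmpty_or_nonempty ι with
  | inl _ => exact Filter.Eventually.of_forall (fun N i => isEmptyElim i)
  | inr _ =>
    obtain ⟨g, hg⟩ := exists_surjective_nat ι
    refine (club_nat (fun n => h (g n))).mono (fun N hN i => ?_)
    obtain ⟨n, rfl⟩ := hg i
    exact hN n

/-- Diagonal intersections. -/
lemma club_diag {Q : Ω → Set Ω → Prop} (h : ∀ x, ∀ᶠ N in club Ω, Q x N) : ∀ᶠ N in club Ω, ∀ x ∈ N, Q x N := by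
  choose f hf using fun x => mem_club.mp (h x)
  refine mem_club.mpr ⟨fun n l => match l with
    | [] => Classical.arbitrary Ω
    | x :: l => f x n l, fun N hN x hx => hf x N ⟨hN.1, fun m l hl => ?_⟩⟩
  exact hN.2 m (x :: l) (by
    intro y hy
    rcases List.mem_cons.mp hy with h | h
    · rw [h]; exact hx
    · exact hl y h)

lemma club_diag' {α : Type*} (i : α → Ω) (hi : Function.Injective i) {Q : α → Set Ω → Prop} (h : ∀ x, ∀ᶠ N in club Ω, Q x N) :
    ∀ᶠ N in club Ω, ∀ x, i x ∈ N → Q x N := by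
  have := club_diag (Ω := Ω) (Q := fun y N => ∀ x, i x = y → Q x N) (fun y => ?_)
  · exact this.mono (fun N hN x hx => hN _ hx x rfl)
  · by_cases hy : ∃ x, i x = y
    · obtain ⟨x, rfl⟩ := hy
      exact (h x).mono (fun N hN x' hx' => by rw [hi hx']; exact hN)
    · exact Filter.Eventually.of_forall (fun N x hx => (hy ⟨x, hx⟩).elim)

end Pool.Agent.H55.Lav
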