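import Pool.Agent.H55.Lav.Truth

set_option autoImplicit false
set_option linter.unusedSectionVars false

/-!
# Definable sets and formulas with finitely many parameters
-/

namespace Pool.Agent.H55.Lav

open FirstOrder FirstOrder.Language Pool.Agent.H55.SC

lemma exists_code {M : Type 1} [SC.Lang.Structure M] [Nonempty M] {k : ℕ} {S : Set (Fin k → M)}
    (hS : (Set.univ : Set M).Definable SC.Lang S) :
    ∃ (m : ℕ) (ψ : Fml (m + k)) (a : Fin m → M), ∀ x, x ∈ S ↔ ψ.Realize (default : Empty → M) (Fin.append a x) := by
  classical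
  obtain ⟨φ, rfl⟩ := hS
  set φ' : SC.Lang.BoundedFormula ((Set.univ : Set M) ⊕ Fin k) 0 := BoundedFormula.constantsVarsEquiv φ with hφ'
  have h1 : ∀ x : Fin k → M, φ.Realize x ↔ φ'.Realize (Sum.elim (fun a => a.1) x) (default : Fin 0 → M) := by
    intro x
    have := BoundedFormula.realize_constantsVarsEquiv (L := SC.Lang) (α := (Set.univ : Set M)) (M := M) (φ := φ)
      (v := x) (xs := (default : Fin 0 → M))
    exact this.symm
  set s := φ'.freeVarFinset with hs
  set m := Fintype.card s with hm
  let e : s ≃ Fin m := Fintype.equivFin s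
  let f : s → Fin (m + k) := fun u => match u.1 with
    | .inl _ => Fin.castAdd k (e u)
    | .inr j => Fin.natAdd m j
  let a : Fin m → M := fun i => match (e.symm i).1 with
    | .inl b => b.1
    | .inr _ => Classical.arbitrary M
  let φ2 : SC.Lang.Formula (Fin (m + k)) := φ'.restrictFreeVar f
  have h2 : ∀ x : Fin k → M, φ2.Realize (Fin.append a x) ↔ φ.Realize x := by
    intro x
    rw [h1]
    refine BoundedFormula.realize_restrictFreeVar (Sum.elim (fun b : (Set.univ : Set M) => b.1) x) (fun u => ?_)
    obtain ⟨u, hu⟩ := u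
    cases u with
    | inl b =>
      show Fin.append a x (Fin.castAdd k (e ⟨.inl b, hu⟩)) = b.1
      rw [Fin.append_left]
      show (match (e.symm (e ⟨.inl b, hu⟩)).1 with
        | .inl b => b.1
        | .inr _ => Classical.arbitrary M) = b.1
      rw [Equiv.symm_apply_apply]
    | inr j =>
      show Fin.append a x (Fin.natAdd m j) = x j
      rw [Fin.append_right]
  refine ⟨m, BoundedFormula.relabel (n := m + k) (k := 0) (Sum.inr : Fin (m + k) → Empty ⊕ Fin (m + k)) φ2, a,
    fun x => ?_⟩
  exact (h2 x).symm.trans (Formula.realize_relabel_sumInr φ2).symm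

end Pool.Agent.H55.Lav
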