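import Pool.Agent.H55.Lav.Tree

set_option autoImplicit false
set_option linter.unusedSectionVars false

/-!
# Conditions of the countable support iteration of Laver forcing, in a flat form
-/

namespace Pool.Agent.H55.Lav

variable {W : Type} [LinearOrder W]

/-- The space in which the generic sequence of reals lives. -/
abbrev Z (W : Type) : Type := W → ℕ → ℕ

/-- `z` and `z'` agree up to `k` on the coordinates in the finite set `F`. -/
def Agr (F : Finset W) (k : ℕ) (z z' : Z W) : Prop := ∀ γ ∈ F, ∀ i < k, z γ i = z' γ i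

lemma Agr.refl (F : Finset W) (k : ℕ) (z : Z W) : Agr F k z z := fun _ _ _ _ => rfl
lemma Agr.symm {F : Finset W} {k : ℕ} {z z' : Z W} (h : Agr F k z z') : Agr F k z' z :=
  fun γ hγ i hi => (h γ hγ i hi).symm
lemma Agr.trans {F : Finset W} {k : ℕ} {z z' z'' : Z W} (h : Agr F k z z') (h' : Agr F k z' z'') : Agr F k z z'' :=
  fun γ hγ i hi => (h γ hγ i hi).trans (h' γ hγ i hi)
lemma Agr.mono {F F' : Finset W} {k k' : ℕ} {z z' : Z W} (h : Agr F k z z') (hF : F' ⊆ F) (hk : k' ≤ k) :
    Agr F' k' z z' := fun γ hγ i hi => h γ (hF hγ) i (by omega)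
lemma Agr.res {F : Finset W} {k : ℕ} {z z' : Z W} (h : Agr F k z z') {γ : W} (hγ : γ ∈ F) {n : ℕ} (hn : n ≤ k) :
    res (z γ) n = res (z' γ) n := res_congr (fun i hi => h γ hγ i (by omega))

/-- `h` is constant on a neighbourhood of `z` in `X`, given by finitely many coordinates below `β`. -/
def LCat {α : Type*} (β : W) (X : Set (Z W)) (h : Z W → α) (z : Z W) : Prop :=
  ∃ (F : Finset W) (k : ℕ), (∀ γ ∈ F, γ < β) ∧ ∀ z' ∈ X, Agr F k z z' → h z' = h z

/-- `h` is locally constant on `X`, with respect to the coordinates below `β`. -/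
def LC {α : Type*} (β : W) (X : Set (Z W)) (h : Z W → α) : Prop := ∀ z ∈ X, LCat β X h z

section LC
variable {α α' : Type*} {β β' : W} {X X' : Set (Z W)} {h : Z W → α} {h' : Z W → α'} {z : Z W}

lemma LCat.const (a : α) : LCat β X (fun _ => a) z := ⟨∅, 0, by simp, fun _ _ _ => rfl⟩

lemma LCat.mono (H : LCat β X h z) (hX : X' ⊆ X) (hβ : β ≤ β') : LCat β' X' h z := by
  obtain ⟨F, k, h1, h2⟩ := H
  exact ⟨F, k, fun γ hγ => (h1 γ hγ).trans_le hβ, fun z' hz' => h2 z' (hX hz')⟩

lemma LCat.congr {g : Z W → α} (H : LCat β X h z) (hz : z ∈ X) (hg : ∀ z' ∈ X, g z' = h z') : LCat β X g z := by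
  obtain ⟨F, k, h1, h2⟩ := H
  exact ⟨F, k, h1, fun z' hz' ha => by rw [hg z' hz', hg z hz, h2 z' hz' ha]⟩

lemma LCat.comp (H : LCat β X h z) (f : α → α') : LCat β X (fun z => f (h z)) z := by
  obtain ⟨F, k, h1, h2⟩ := H
  exact ⟨F, k, h1, fun z' hz' ha => by simp only; rw [h2 z' hz' ha]⟩

lemma LCat.bind {ι : Type*} {g : ι → Z W → α} {i : Z W → ι} (Hi : LCat β X i z) (Hg : LCat β X (g (i z)) z) :
    LCat β X (fun z => g (i z) z) z := by
  obtain ⟨F, k, h1, h2⟩ := Hi
  obtain ⟨F', k', h1', h2'⟩ := Hg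
  refine ⟨F ∪ F', max k k', fun γ hγ => ?_, fun z' hz' ha => ?_⟩
  · rcases Finset.mem_union.mp hγ with h | h
    · exact h1 γ h
    · exact h1' γ h
  · simp only
    rw [h2 z' hz' (ha.mono Finset.subset_union_left (le_max_left _ _)),
      h2' z' hz' (ha.mono Finset.subset_union_right (le_max_right _ _))]

lemma LCat.comp₂ {α'' : Type*} (H : LCat β X h z) (H' : LCat β X h' z) (f : α → α' → α'') :
    LCat β X (fun z => f (h z) (h' z)) z :=
  LCat.bind (g := fun a z => f a (h' z)) H (H'.comp _)

lemma LCat.and {p q : Z W → Prop} (H : LCat β X p z) (H' : LCat β X q z) : LCat β X (fun z => p z ∧ q z) z :=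
  H.comp₂ H' _
lemma LCat.or {p q : Z W → Prop} (H : LCat β X p z) (H' : LCat β X q z) : LCat β X (fun z => p z ∨ q z) z :=
  H.comp₂ H' _
lemma LCat.not {p : Z W → Prop} (H : LCat β X p z) : LCat β X (fun z => ¬ p z) z := H.comp _

lemma LCat.ite {p : Z W → Prop} [∀ z, Decidable (p z)] {g g' : Z W → α} (H : LCat β X p z) (H1 : p z → LCat β X g z)
    (H2 : ¬ p z → LCat β X g' z) : LCat β X (fun z => if p z then g z else g' z) z := by
  obtain ⟨F, k, h1, h2⟩ := H
  by_cases hp : p z
  · obtain ⟨F', k', h1', h2'⟩ := H1 hp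
    refine ⟨F ∪ F', max k k', fun γ hγ => ?_, fun z' hz' ha => ?_⟩
    · rcases Finset.mem_union.mp hγ with h | h
      · exact h1 γ h
      · exact h1' γ h
    · have e := h2 z' hz' (ha.mono Finset.subset_union_left (le_max_left _ _))
      simp only
      rw [if_pos hp, if_pos (by rw [e]; exact hp), h2' z' hz' (ha.mono Finset.subset_union_right (le_max_right _ _))]
  · obtain ⟨F', k', h1', h2'⟩ := H2 hp
    refine ⟨F ∪ F', max k k', fun γ hγ => ?_, fun z' hz' ha => ?_⟩
    · rcases Finset.mem_union.mp hγ with h | h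
      · exact h1 γ h
      · exact h1' γ h
    · have e := h2 z' hz' (ha.mono Finset.subset_union_left (le_max_left _ _))
      simp only
      rw [if_neg hp, if_neg (by rw [e]; exact hp), h2' z' hz' (ha.mono Finset.subset_union_right (le_max_right _ _))]

lemma LCat.forall_lt {p : ℕ → Z W → Prop} {n : ℕ} (H : ∀ i < n, LCat β X (p i) z) :
    LCat β X (fun z => ∀ i < n, p i z) z := by
  induction n with
  | zero => exact ⟨∅, 0, by simp, fun z' _ _ => by simp⟩
  | succ n ih =>
    have h1 := (ih (fun i hi => H i (by omega))).and (H n (by omega))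
    have e : (fun z => ∀ i < n + 1, p i z) = (fun z => (∀ i < n, p i z) ∧ p n z) := by
      funext z
      apply propext
      constructor
      · intro h; exact ⟨fun i hi => h i (by omega), h n (by omega)⟩
      · rintro ⟨h, h'⟩ i hi
        rcases Nat.lt_succ_iff_lt_or_eq.mp hi with h2 | h2
        · exact h i h2
        · rw [h2]; exact h'
    rw [e]; exact h1

/-- The least `n` with a locally constant property is locally constant. -/
lemma LCat.least {p : ℕ → Z W → Prop} (H : ∀ i, LCat β X (p i) z) (hex : ∃ i, p i z) :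
    LCat β X (fun z => sInf {i | p i z}) z := by
  classical
  have h0 : p (sInf {i | p i z}) z := Nat.sInf_mem (s := {i | p i z}) hex
  have h1 : ∀ i < sInf {i | p i z}, ¬ p i z := fun i hi => Nat.notMem_of_lt_sInf hi
  have h2 := (LCat.forall_lt (p := fun i z => ¬ p i z) (n := sInf {i | p i z}) (fun i _ => (H i).not)).and (H (sInf {i | p i z}))
  obtain ⟨F, k, h3, h4⟩ := h2
  refine ⟨F, k, h3, fun z' hz' ha => ?_⟩
  have h5 := (h4 z' hz' ha).mpr ⟨h1, h0⟩
  apply le_antisymm
  · exact Nat.sInf_le h5.2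
  · by_contra h6
    push Not at h6
    exact h5.1 _ h6 (Nat.sInf_mem (s := {i | p i z'}) ⟨_, h5.2⟩)

lemma LCat.nd {s : Z W → List ℕ} {S : Z W → List ℕ → Set ℕ} (Hs : LCat β X s z)
    (HS : ∀ t m, LCat β X (fun z => m ∈ S z t) z) (t : List ℕ) : LCat β X (fun z => Nd (s z) (S z) t) z := by
  induction t using List.reverseRecOn with
  | nil =>
    have e : (fun z => Nd (s z) (S z) []) = fun z => s z = [] := by
      funext z; exact propext nd_nil
    rw [e]; exact Hs.comp (fun s => s = [])
  | append_singleton t m ih =>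
    have e : (fun z => Nd (s z) (S z) (t ++ [m])) = fun z => t ++ [m] = s z ∨ (Nd (s z) (S z) t ∧ m ∈ S z t) := by
      funext z; exact propext nd_snoc
    rw [e]
    exact (Hs.comp (fun s => t ++ [m] = s)).or (ih.and (HS t m))

end LC

/-- The points which, below `β`, are branches through the given trees. -/
def BdF (st : W → Z W → List ℕ) (su : W → Z W → List ℕ → Set ℕ) (β : W) : Set (Z W) :=
  {z | ∀ γ < β, Br (st γ z) (su γ z) (z γ)}

/-- A condition: for each coordinate `γ` a tree with stem `st γ z` and successor sets `su γ z t`, depending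
continuously on `z` restricted to the coordinates below `γ`; the tree is trivial outside the countable support. -/
structure Cond (W : Type) [LinearOrder W] where
  st : W → Z W → List ℕ
  su : W → Z W → List ℕ → Set ℕ
  supp : Set W
  count : supp.Countable
  dep : ∀ γ z z', (∀ δ ∈ supp, δ < γ → z δ = z' δ) → st γ z = st γ z' ∧ su γ z = su γ z'
  triv : ∀ γ, γ ∉ supp → ∀ z, st γ z = [] ∧ su γ z = fun _ => Set.univ
  inf : ∀ γ z t, (su γ z t).Infinite
  lcst : ∀ γ, LC γ (BdF st su γ) (st γ)
  lcsu : ∀ γ t m, LC γ (BdF st su γ) (fun z => m ∈ su γ z t)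

namespace Cond

variable (C D E : Cond W) {β γ δ : W} {z z' : Z W}

/-- The branches of the condition below `β`. -/
def Bd (β : W) : Set (Z W) := BdF C.st C.su β

/-- The set of points determined by the condition. -/
def body : Set (Z W) := {z | ∀ γ, Br (C.st γ z) (C.su γ z) (z γ)}

instance : Preorder (Cond W) where
  le C D := C.body ⊆ D.body
  le_refl _ := Set.Subset.rfl
  le_trans _ _ _ h h' := h.trans h'

lemma le_def {C D : Cond W} : C ≤ D ↔ C.body ⊆ D.body := Iff.rfl

/-- The conditions whose support consists of coordinates below `β`. -/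
def P (β : W) : Set (Cond W) := {C | ∀ γ ∈ C.supp, γ < β}

lemma P_mono {β β' : W} (h : β ≤ β') : (P β : Set (Cond W)) ⊆ P β' := fun _ hC γ hγ => (hC γ hγ).trans_le h

variable {C D E}

lemma Bd_mono (h : γ ≤ β) : C.Bd β ⊆ C.Bd γ := fun _ hz δ hδ => hz δ (hδ.trans_le h)

lemma body_sub_Bd : C.body ⊆ C.Bd β := fun _ hz δ _ => hz δ

lemma depEq (h : ∀ δ < γ, z δ = z' δ) : C.st γ z = C.st γ z' ∧ C.su γ z = C.su γ z' :=
  C.dep γ z z' (fun δ _ hδ => h δ hδ)

lemma Bd_iff_supp (h : ∀ γ ∈ C.supp, γ < β → z γ = z' γ) : z ∈ C.Bd β ↔ z' ∈ C.Bd β := by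
  have key : ∀ γ < β, (Br (C.st γ z) (C.su γ z) (z γ) ↔ Br (C.st γ z') (C.su γ z') (z' γ)) := by
    intro γ hγ
    obtain ⟨h1, h2⟩ := C.dep γ z z' (fun δ hδ hδ' => h δ hδ (hδ'.trans hγ))
    by_cases hs : γ ∈ C.supp
    · rw [h1, h2, h γ hs hγ]
    · obtain ⟨h3, h4⟩ := C.triv γ hs z'
      rw [h1, h2, h3, h4]
      constructor <;> intro _ <;> exact ⟨rfl, fun _ _ => trivial⟩
  exact forall₂_congr key

lemma Bd_iff (h : ∀ γ < β, z γ = z' γ) : z ∈ C.Bd β ↔ z' ∈ C.Bd β := Bd_iff_supp (fun γ _ => h γ)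

lemma body_eq (hC : C ∈ P β) : C.body = C.Bd β := by
  ext z
  refine ⟨fun h => body_sub_Bd h, fun h γ => ?_⟩
  by_cases hs : γ ∈ C.supp
  · exact h γ (hC γ hs)
  · obtain ⟨h3, h4⟩ := C.triv γ hs z
    rw [h3, h4]
    exact ⟨rfl, fun _ _ => trivial⟩

lemma body_iff_supp (hC : C ∈ P β) (h : ∀ γ ∈ C.supp, z γ = z' γ) : z ∈ C.body ↔ z' ∈ C.body := by
  rw [body_eq hC]
  exact Bd_iff_supp (fun γ hγ _ => h γ hγ)

lemma body_iff (hC : C ∈ P β) (h : ∀ γ < β, z γ = z' γ) : z ∈ C.body ↔ z' ∈ C.body := by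
  rw [body_eq hC]
  exact Bd_iff h

/-- The trivial condition. -/
def one : Cond W where
  st _ _ := []
  su _ _ _ := Set.univ
  supp := ∅
  count := Set.countable_empty
  dep _ _ _ _ := ⟨rfl, rfl⟩
  triv _ _ _ := ⟨rfl, rfl⟩
  inf _ _ _ := Set.infinite_univ
  lcst _ _ _ := LCat.const _
  lcsu _ _ _ _ _ := LCat.const _

lemma one_mem (β : W) : (one : Cond W) ∈ P β := fun _ h => h.elim

lemma one_body : (one : Cond W).body = Set.univ := by
  ext z
  exact ⟨fun _ => trivial, fun _ γ => ⟨rfl, fun _ _ => trivial⟩⟩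

lemma le_one : C ≤ one := by
  rw [le_def, one_body]; exact Set.subset_univ _

open Classical in
/-- The restriction of a condition to the coordinates below `β`. -/
noncomputable def restr (C : Cond W) (β : W) : Cond W where
  st γ z := if γ < β then C.st γ z else []
  su γ z := if γ < β then C.su γ z else fun _ => Set.univ
  supp := {γ ∈ C.supp | γ < β}
  count := C.count.mono (fun _ h => h.1)
  dep := by
    intro γ z z' h
    by_cases hγ : γ < β
    · simp only [hγ, if_true]
      exact C.dep γ z z' (fun δ hδ hδ' => h δ ⟨hδ, hδ'.trans hγ⟩ hδ')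
    · simp [hγ]
  triv := by
    intro γ hγ z
    by_cases h : γ < β
    · simp only [h, if_true]
      exact C.triv γ (fun hs => hγ ⟨hs, h⟩) z
    · simp [h]
  inf := by
    intro γ z t
    by_cases h : γ < β
    · simp only [h, if_true]; exact C.inf γ z t
    · simp only [h, if_false]; exact Set.infinite_univ
  lcst := by
    intro γ z hz
    by_cases h : γ < β
    · simp only [h, if_true]
      refine (C.lcst γ z ?_).mono ?_ le_rfl
      · intro δ hδ
        simpa [hδ.trans h] using hz δ hδ
      · intro w hw δ hδ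
        simpa [hδ.trans h] using hw δ hδ
    · simp only [h, if_false]
      exact LCat.const _
  lcsu := by
    intro γ t m z hz
    by_cases h : γ < β
    · simp only [h, if_true]
      refine (C.lcsu γ t m z ?_).mono ?_ le_rfl
      · intro δ hδ
        simpa [hδ.trans h] using hz δ hδ
      · intro w hw δ hδ
        simpa [hδ.trans h] using hw δ hδ
    · simp only [h, if_false]
      exact LCat.const _

lemma restr_mem : C.restr β ∈ P β := fun _ h => h.2

lemma restr_st (h : γ < β) : (C.restr β).st γ z = C.st γ z := by simp [restr, h]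
lemma restr_su (h : γ < β) : (C.restr β).su γ z = C.su γ z := by simp [restr, h]

lemma restr_body : (C.restr β).body = C.Bd β := by
  rw [body_eq restr_mem]
  ext z
  refine forall₂_congr (fun γ hγ => ?_)
  rw [restr_st hγ, restr_su hγ]

lemma restr_Bd (h : γ ≤ β) : (C.restr β).Bd γ = C.Bd γ := by
  ext z
  refine forall₂_congr (fun δ hδ => ?_)
  rw [restr_st (hδ.trans_le h), restr_su (hδ.trans_le h)]

lemma restr_restr (h : γ ≤ β) : ((C.restr β).restr γ).body = (C.restr γ).body := by
  rw [restr_body, restr_body, restr_Bd h]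

lemma le_restr : C ≤ C.restr β := by
  rw [le_def, restr_body]; exact body_sub_Bd

open Classical in
/-- Changing a condition at one coordinate. -/
noncomputable def upd (C : Cond W) (δ : W) (s : Z W → List ℕ) (S : Z W → List ℕ → Set ℕ) (A : Set W)
    (hA : A.Countable) (hdep : ∀ z z', (∀ γ ∈ A, γ < δ → z γ = z' γ) → s z = s z' ∧ S z = S z')
    (hinf : ∀ z t, (S z t).Infinite) (hs : LC δ (C.Bd δ) s) (hS : ∀ t m, LC δ (C.Bd δ) (fun z => m ∈ S z t))
    (hsub : ∀ z ∈ C.Bd δ, ∀ y, Br (s z) (S z) y → Br (C.st δ z) (C.su δ z) y) : Cond W where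
  st := Function.update C.st δ s
  su := Function.update C.su δ S
  supp := C.supp ∪ {γ ∈ A | γ < δ} ∪ {δ}
  count := (C.count.union (hA.mono (fun _ h => h.1))).union (Set.countable_singleton δ)
  dep := by
    intro γ z z' h
    by_cases hγ : γ = δ
    · subst hγ
      simp only [Function.update_self]
      exact hdep z z' (fun ε hε hε' => h ε (Or.inl (Or.inr ⟨hε, hε'⟩)) hε')
    · simp only [Function.update_of_ne hγ]
      exact C.dep γ z z' (fun ε hε hε' => h ε (Or.inl (Or.inl hε)) hε')
  triv := by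
    intro γ hγ z
    have h1 : γ ≠ δ := fun h => hγ (Or.inr h)
    simp only [Function.update_of_ne h1]
    exact C.triv γ (fun h => hγ (Or.inl (Or.inl h))) z
  inf := by
    intro γ z t
    by_cases hγ : γ = δ
    · subst hγ
      simp only [Function.update_self]
      exact hinf z t
    · simp only [Function.update_of_ne hγ]
      exact C.inf γ z t
  lcst := by
    have key : ∀ γ, BdF (Function.update C.st δ s) (Function.update C.su δ S) γ ⊆ C.Bd γ := by
      intro γ z hz ε hε
      by_cases hε' : ε = δ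
      · subst hε'
        have h1 := hz ε hε
        simp only [Function.update_self] at h1
        refine hsub z (fun ζ hζ => ?_) _ h1
        have h2 := hz ζ (hζ.trans hε)
        simpa only [Function.update_of_ne hζ.ne] using h2
      · have h2 := hz ε hε
        simpa only [Function.update_of_ne hε'] using h2
    intro γ z hz
    by_cases hγ : γ = δ
    · subst hγ
      simp only [Function.update_self]
      exact (hs z (key γ hz)).mono (key γ) le_rfl
    · simp only [Function.update_of_ne hγ]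
      exact (C.lcst γ z (key γ hz)).mono (key γ) le_rfl
  lcsu := by
    have key : ∀ γ, BdF (Function.update C.st δ s) (Function.update C.su δ S) γ ⊆ C.Bd γ := by
      intro γ z hz ε hε
      by_cases hε' : ε = δ
      · subst hε'
        have h1 := hz ε hε
        simp only [Function.update_self] at h1
        refine hsub z (fun ζ hζ => ?_) _ h1
        have h2 := hz ζ (hζ.trans hε)
        simpa only [Function.update_of_ne hζ.ne] using h2
      · have h2 := hz ε hε
        simpa only [Function.update_of_ne hε'] using h2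
    intro γ t m z hz
    by_cases hγ : γ = δ
    · subst hγ
      simp only [Function.update_self]
      exact (hS t m z (key γ hz)).mono (key γ) le_rfl
    · simp only [Function.update_of_ne hγ]
      exact (C.lcsu γ t m z (key γ hz)).mono (key γ) le_rfl

section upd
variable {s : Z W → List ℕ} {S : Z W → List ℕ → Set ℕ} {A : Set W} {hA : A.Countable}
  {hdep : ∀ z z', (∀ γ ∈ A, γ < δ → z γ = z' γ) → s z = s z' ∧ S z = S z'}
  {hinf : ∀ z t, (S z t).Infinite} {hs : LC δ (C.Bd δ) s} {hS : ∀ t m, LC δ (C.Bd δ) (fun z => m ∈ S z t)}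
  {hsub : ∀ z ∈ C.Bd δ, ∀ y, Br (s z) (S z) y → Br (C.st δ z) (C.su δ z) y}

lemma upd_st : (C.upd δ s S A hA hdep hinf hs hS hsub).st δ = s := by simp [upd]
lemma upd_su : (C.upd δ s S A hA hdep hinf hs hS hsub).su δ = S := by simp [upd]
lemma upd_st_ne (h : γ ≠ δ) : (C.upd δ s S A hA hdep hinf hs hS hsub).st γ = C.st γ := by
  simp [upd, Function.update_of_ne h]
lemma upd_su_ne (h : γ ≠ δ) : (C.upd δ s S A hA hdep hinf hs hS hsub).su γ = C.su γ := by
  simp [upd, Function.update_of_ne h]

lemma upd_Bd (h : γ ≤ δ) : (C.upd δ s S A hA hdep hinf hs hS hsub).Bd γ = C.Bd γ := by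
  ext z
  refine forall₂_congr (fun ε hε => ?_)
  rw [upd_st_ne (hε.trans_le h).ne, upd_su_ne (hε.trans_le h).ne]

lemma upd_le : C.upd δ s S A hA hdep hinf hs hS hsub ≤ C := by
  intro z hz γ
  by_cases hγ : γ = δ
  · subst hγ
    have h1 := hz γ
    rw [upd_st, upd_su] at h1
    exact hsub z (fun ζ hζ => by
      have h2 := hz ζ
      rwa [upd_st_ne hζ.ne, upd_su_ne hζ.ne] at h2) _ h1
  · have h2 := hz γ
    rwa [upd_st_ne hγ, upd_su_ne hγ] at h2

lemma upd_mem_P (hC : C ∈ P β) (hδ : δ < β) : C.upd δ s S A hA hdep hinf hs hS hsub ∈ P β := by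
  rintro γ ((h | h) | h)
  · exact hC γ h
  · exact h.2.trans hδ
  · rw [Set.mem_singleton_iff] at h; rw [h]; exact hδ

lemma mem_upd : z ∈ (C.upd δ s S A hA hdep hinf hs hS hsub).body ↔ z ∈ C.body ∧ Br (s z) (S z) (z δ) := by
  constructor
  · intro hz
    refine ⟨upd_le hz, ?_⟩
    have h1 := hz δ
    rwa [upd_st, upd_su] at h1
  · rintro ⟨h1, h2⟩ γ
    by_cases hγ : γ = δ
    · subst hγ
      rw [upd_st, upd_su]; exact h2
    · rw [upd_st_ne hγ, upd_su_ne hγ]; exact h1 γ

end upd

open Classical in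
/-- The stronger condition in which, at coordinate `δ`, the tree is restricted to the node `v` whenever `v` is a
node of it. -/
noncomputable def node (C : Cond W) (δ : W) (v : List ℕ) : Cond W :=
  C.upd δ (fun z => if Nd (C.st δ z) (C.su δ z) v then v else C.st δ z) (C.su δ) C.supp C.count
    (by
      intro z z' h
      obtain ⟨h1, h2⟩ := C.dep δ z z' h
      simp only [h1, h2, and_self])
    (C.inf δ)
    (fun z hz => LCat.ite (LCat.nd (C.lcst δ z hz) (fun t m => C.lcsu δ t m z hz) v) (fun _ => LCat.const _)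
      (fun _ => C.lcst δ z hz))
    (C.lcsu δ)
    (by
      intro z _ y hy
      by_cases h : Nd (C.st δ z) (C.su δ z) v
      · simp only [h, if_true] at hy
        exact h.br hy
      · simpa only [h, if_false] using hy)

lemma node_le {v : List ℕ} : C.node δ v ≤ C := upd_le
lemma node_mem {v : List ℕ} (hC : C ∈ P β) (hδ : δ < β) : C.node δ v ∈ P β := upd_mem_P hC hδ
lemma node_Bd {v : List ℕ} (h : γ ≤ δ) : (C.node δ v).Bd γ = C.Bd γ := upd_Bd h
lemma node_su {v : List ℕ} : (C.node δ v).su δ = C.su δ := upd_su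
lemma node_st {v : List ℕ} (h : Nd (C.st δ z) (C.su δ z) v) : (C.node δ v).st δ z = v := by
  have : (C.node δ v).st δ = _ := upd_st
  rw [this]
  simp [h]

open Classical in
/-- The condition which is `E` below `β` and `C` from `β` on. -/
noncomputable def amal (E C : Cond W) (β : W) (h : E.Bd β ⊆ C.Bd β) : Cond W where
  st γ := if γ < β then E.st γ else C.st γ
  su γ := if γ < β then E.su γ else C.su γ
  supp := {γ ∈ E.supp | γ < β} ∪ C.supp
  count := (E.count.mono (fun _ h => h.1)).union C.count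
  dep := by
    intro γ z z' h'
    by_cases hγ : γ < β
    · simp only [hγ, if_true]
      exact E.dep γ z z' (fun δ hδ hδ' => h' δ (Or.inl ⟨hδ, hδ'.trans hγ⟩) hδ')
    · simp only [hγ, if_false]
      exact C.dep γ z z' (fun δ hδ hδ' => h' δ (Or.inr hδ) hδ')
  triv := by
    intro γ hγ z
    by_cases h : γ < β
    · simp only [h, if_true]
      exact E.triv γ (fun hs => hγ (Or.inl ⟨hs, h⟩)) z
    · simp only [h, if_false]
      exact C.triv γ (fun hs => hγ (Or.inr hs)) z
  inf := by
    intro γ z t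
    by_cases h : γ < β
    · simp only [h, if_true]; exact E.inf γ z t
    · simp only [h, if_false]; exact C.inf γ z t
  lcst := by
    intro γ z hz
    by_cases hγ : γ < β
    · simp only [hγ, if_true]
      refine (E.lcst γ z ?_).mono ?_ le_rfl
      · intro δ hδ
        simpa [hδ.trans hγ] using hz δ hδ
      · intro w hw δ hδ
        simpa [hδ.trans hγ] using hw δ hδ
    · simp only [hγ, if_false]
      have key : BdF (fun γ => if γ < β then E.st γ else C.st γ) (fun γ => if γ < β then E.su γ else C.su γ) γ ⊆ C.Bd γ := by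
        intro w hw δ hδ
        by_cases hδ' : δ < β
        · refine h (fun ε hε => ?_) δ hδ'
          have := hw ε (hε.trans_le (not_lt.mp hγ))
          simpa [hε] using this
        · have := hw δ hδ
          simpa [hδ'] using this
      exact (C.lcst γ z (key hz)).mono key le_rfl
  lcsu := by
    intro γ t m z hz
    by_cases hγ : γ < β
    · simp only [hγ, if_true]
      refine (E.lcsu γ t m z ?_).mono ?_ le_rfl
      · intro δ hδ
        simpa [hδ.trans hγ] using hz δ hδ
      · intro w hw δ hδ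
        simpa [hδ.trans hγ] using hw δ hδ
    · simp only [hγ, if_false]
      have key : BdF (fun γ => if γ < β then E.st γ else C.st γ) (fun γ => if γ < β then E.su γ else C.su γ) γ ⊆ C.Bd γ := by
        intro w hw δ hδ
        by_cases hδ' : δ < β
        · refine h (fun ε hε => ?_) δ hδ'
          have := hw ε (hε.trans_le (not_lt.mp hγ))
          simpa [hε] using this
        · have := hw δ hδ
          simpa [hδ'] using this
      exact (C.lcsu γ t m z (key hz)).mono key le_rfl

section amal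
variable {h : E.Bd β ⊆ C.Bd β}

lemma amal_st_lt (hγ : γ < β) : (amal E C β h).st γ = E.st γ := by simp [amal, hγ]
lemma amal_su_lt (hγ : γ < β) : (amal E C β h).su γ = E.su γ := by simp [amal, hγ]
lemma amal_st_ge (hγ : β ≤ γ) : (amal E C β h).st γ = C.st γ := by simp [amal, not_lt.mpr hγ]
lemma amal_su_ge (hγ : β ≤ γ) : (amal E C β h).su γ = C.su γ := by simp [amal, not_lt.mpr hγ]

lemma amal_Bd (hγ : γ ≤ β) : (amal E C β h).Bd γ = E.Bd γ := by
  ext z
  refine forall₂_congr (fun δ hδ => ?_)
  rw [amal_st_lt (hδ.trans_le hγ), amal_su_lt (hδ.trans_le hγ)]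

lemma mem_amal_Bd (hγ : β ≤ γ) : z ∈ (amal E C β h).Bd γ ↔ z ∈ E.Bd β ∧ z ∈ C.Bd γ := by
  constructor
  · intro hz
    have h1 : z ∈ E.Bd β := by rw [← amal_Bd (h := h) le_rfl]; exact Bd_mono hγ hz
    refine ⟨h1, fun δ hδ => ?_⟩
    by_cases hδ' : δ < β
    · exact h h1 δ hδ'
    · have := hz δ hδ
      rwa [amal_st_ge (not_lt.mp hδ'), amal_su_ge (not_lt.mp hδ')] at this
  · rintro ⟨h1, h2⟩ δ hδ
    by_cases hδ' : δ < β
    · rw [amal_st_lt hδ', amal_su_lt hδ']; exact h1 δ hδ'
    · rw [amal_st_ge (not_lt.mp hδ'), amal_su_ge (not_lt.mp hδ')]; exact h2 δ hδ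

lemma mem_amal : z ∈ (amal E C β h).body ↔ z ∈ E.Bd β ∧ z ∈ C.body := by
  constructor
  · intro hz
    have h1 : z ∈ E.Bd β := by rw [← amal_Bd (h := h) le_rfl]; exact body_sub_Bd hz
    refine ⟨h1, fun δ => ?_⟩
    by_cases hδ' : δ < β
    · exact h h1 δ hδ'
    · have := hz δ
      rwa [amal_st_ge (not_lt.mp hδ'), amal_su_ge (not_lt.mp hδ')] at this
  · rintro ⟨h1, h2⟩ δ
    by_cases hδ' : δ < β
    · rw [amal_st_lt hδ', amal_su_lt hδ']; exact h1 δ hδ'
    · rw [amal_st_ge (not_lt.mp hδ'), amal_su_ge (not_lt.mp hδ')]; exact h2 δ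

lemma amal_le : amal E C β h ≤ C := fun _ hz => (mem_amal.mp hz).2

lemma amal_mem (hC : C ∈ P γ) (hγ : β ≤ γ) : amal E C β h ∈ P γ := by
  rintro δ (hδ | hδ)
  · exact hδ.2.trans_le hγ
  · exact hC δ hδ

end amal

end Cond

end Pool.Agent.H55.Lav
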