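import Pool.Agent.H55.Lav.ThmC

set_option autoImplicit false
set_option linter.unusedSectionVars false

/-!
# Coordinates at which names are decided
-/

namespace Pool.Agent.H55.Lav

open Cond Cardinal

variable {W : Type} [LinearOrder W] [WellFoundedLT W] [OrderBot W] [OrderTop W]

lemma one_le_cc : (1 : Cardinal.{0}) ≤ 𝔠 := Cardinal.one_le_aleph0.trans Cardinal.aleph0_le_continuum

/-- `W` has order type `𝔠⁺ + 1`. -/
structure Big (W : Type) [LinearOrder W] [OrderTop W] : Prop where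
  bnd : ∀ s : Set W, #s ≤ 𝔠 → (∀ a ∈ s, a < ⊤) → ∃ b < ⊤, ∀ a ∈ s, a < b
  seg : ∀ ξ < (⊤ : W), #(Set.Iio ξ) ≤ 𝔠

/-- `z` matches the pattern `π`. -/
def Mat {ξ : W} (e : ℕ → Option (Set.Iio ξ)) (π : List (ℕ × List ℕ)) (z : Z W) : Prop :=
  ∀ q ∈ π, ∀ γ, e q.1 = some γ → res (z γ.1) q.2.length = q.2

lemma body_of_code {ξ : W} {C : Cond W} (hC : C ∈ P ξ) {e : ℕ → Option (Set.Iio ξ)}
    (he : ∀ γ ∈ C.supp, ∃ i, ∃ h : γ < ξ, e i = some ⟨γ, h⟩) (z : Z W) :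
    z ∈ C.body ↔ ∀ π : List (ℕ × List ℕ), (∀ w, Mat e π w → w ∉ C.body) → ¬ Mat e π z := by
  classical
  constructor
  · intro hz π hπ hm
    exact hπ z hm hz
  · intro h
    by_contra hz
    have hz' := hz
    rw [body_eq hC] at hz'
    obtain ⟨F, k, _, h2⟩ := not_mem_Bd hz'
    choose! i hi1 hi2 using he
    let π : List (ℕ × List ℕ) := ((F.filter (fun γ => γ ∈ C.supp)).toList).map (fun γ => (i γ, res (z γ) k))
    refine h π ?_ ?_
    · intro w hw hwC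
      let w' : Z W := fun γ => if γ ∈ C.supp then w γ else z γ
      have h3 : w' ∈ C.body := (body_iff_supp hC (fun γ hγ => by simp [w', hγ])).mp hwC
      rw [body_eq hC] at h3
      refine h2 w' (fun γ hγ j hj => ?_) h3
      by_cases hs : γ ∈ C.supp
      · have h4 : (i γ, res (z γ) k) ∈ π := by
          simp only [π, List.mem_map, Finset.mem_toList, Finset.mem_filter]
          exact ⟨γ, ⟨hγ, hs⟩, rfl⟩
        have h5 := hw _ h4 ⟨γ, hi1 γ hs⟩ (hi2 γ hs)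
        simp only [length_res] at h5
        simp only [w', hs, if_true]
        exact (res_inj h5 j hj).symm
      · simp [w', hs]
    · intro q hq γ hγ
      simp only [π, List.mem_map, Finset.mem_toList, Finset.mem_filter] at hq
      obtain ⟨γ', ⟨_, hs⟩, rfl⟩ := hq
      have h3 := hi2 γ' hs
      simp only at hγ
      rw [h3] at hγ
      have h4 : (⟨γ', hi1 γ' hs⟩ : Set.Iio ξ) = γ := Option.some.inj hγ
      rw [← h4]
      simp

lemma card_bodies (big : Big W) {ξ : W} (hξ : ξ < ⊤) : #{B : Set (Z W) | ∃ C ∈ P ξ, C.body = B} ≤ 𝔠 := by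
  classical
  have h1 : ∀ B : {B : Set (Z W) | ∃ C ∈ P ξ, C.body = B}, ∃ C ∈ P ξ, C.body = B.1 ∧
      ∃ e : ℕ → Option (Set.Iio ξ), ∀ γ ∈ C.supp, ∃ i, ∃ h : γ < ξ, e i = some ⟨γ, h⟩ := by
    rintro ⟨B, C, hC, hB⟩
    refine ⟨C, hC, hB, ?_⟩
    have h2 : ({o : Option (Set.Iio ξ) | o = none ∨ ∃ γ : Set.Iio ξ, o = some γ ∧ γ.1 ∈ C.supp}).Countable := by
      refine Set.Countable.mono (s₂ := {none} ∪ some '' {γ : Set.Iio ξ | γ.1 ∈ C.supp}) ?_ ?_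
      · rintro o (h | ⟨γ, h, h'⟩)
        · exact Or.inl h
        · exact Or.inr ⟨γ, h', h.symm⟩
      · exact (Set.countable_singleton _).union ((C.count.preimage_of_injOn Subtype.val_injective.injOn).image _)
    obtain ⟨e, he⟩ := h2.exists_eq_range ⟨none, Or.inl rfl⟩
    refine ⟨e, fun γ hγ => ?_⟩
    have h3 : some (⟨γ, hC γ hγ⟩ : Set.Iio ξ) ∈ Set.range e := by
      rw [← he]; exact Or.inr ⟨_, rfl, hγ⟩
    obtain ⟨i, hi⟩ := h3
    exact ⟨i, hC γ hγ, hi⟩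
  choose C hC hCB e he using h1
  let f : {B : Set (Z W) | ∃ C ∈ P ξ, C.body = B} → (ℕ → Option (Set.Iio ξ)) × Set (List (ℕ × List ℕ)) :=
    fun B => (e B, {π | ∀ w, Mat (e B) π w → w ∉ (C B).body})
  have hf : Function.Injective f := by
    intro B B' h
    simp only [f, Prod.mk.injEq] at h
    apply Subtype.ext
    rw [← hCB B, ← hCB B']
    ext z
    rw [body_of_code (hC B) (he B), body_of_code (hC B') (he B')]
    have h2 : ∀ π, (∀ w, Mat (e B) π w → w ∉ (C B).body) ↔ (∀ w, Mat (e B') π w → w ∉ (C B').body) := by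
      intro π
      have := Set.ext_iff.mp h.2 π
      exact this
    refine forall_congr' (fun π => ?_)
    rw [h2 π, h.1]
  refine (Cardinal.mk_le_of_injective hf).trans ?_
  rw [Cardinal.mk_prod, Cardinal.lift_id, Cardinal.lift_id]
  have h2 : #(ℕ → Option (Set.Iio ξ)) ≤ 𝔠 := by
    rw [← Cardinal.power_def]
    have h3 : #(Option (Set.Iio ξ)) ≤ 𝔠 := by
      rw [Cardinal.mk_option]
      exact (add_le_add (big.seg ξ hξ) one_le_cc).trans (by rw [Cardinal.continuum_add_self])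
    calc #(Option (Set.Iio ξ)) ^ #ℕ ≤ 𝔠 ^ #ℕ := Cardinal.power_le_power_right h3
      _ = 𝔠 := by rw [Cardinal.mk_nat, Cardinal.continuum_power_aleph0]
  have h3 : #(Set (List (ℕ × List ℕ))) ≤ 𝔠 := by
    rw [Cardinal.mk_set]
    have : #(List (ℕ × List ℕ)) ≤ ℵ₀ := Cardinal.mk_le_aleph0
    calc 2 ^ #(List (ℕ × List ℕ)) ≤ 2 ^ ℵ₀ := Cardinal.power_le_power_left two_ne_zero this
      _ = 𝔠 := Cardinal.two_power_aleph0
  calc #(ℕ → Option (Set.Iio ξ)) * #(Set (List (ℕ × List ℕ))) ≤ 𝔠 * 𝔠 := mul_le_mul' h2 h3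
    _ = 𝔠 := Cardinal.continuum_mul_self

lemma mem_P_bound (big : Big W) {q : Cond W} (hq : q ∈ P (⊤ : W)) : ∃ η < (⊤ : W), q ∈ P η := by
  have h1 : #q.supp ≤ 𝔠 := (Cardinal.le_aleph0_iff_set_countable.mpr q.count).trans Cardinal.aleph0_le_continuum
  obtain ⟨b, hb, h⟩ := big.bnd q.supp h1 hq
  exact ⟨b, hb, h⟩

lemma exists_h (big : Big W) (a : Ω1 → ℕ → Set (Cond W)) {ξ : W} (hξ : ξ < ⊤) : ∃ η < (⊤ : W),
    ∀ α k, ∀ r ∈ P ξ, ∃ q ∈ P η, q ≤ r ∧ (Bel (a α k) q ∨ Inc ⊤ (a α k) q) := by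
  classical
  let I := {B : Set (Z W) | ∃ C ∈ P ξ, C.body = B} × Ω1 × ℕ
  have h1 : ∀ i : I, ∃ q ∈ P (⊤ : W), q.body ⊆ i.1.1 ∧ (Bel (a i.2.1 i.2.2) q ∨ Inc ⊤ (a i.2.1 i.2.2) q) := by
    rintro ⟨⟨B, C, hC, rfl⟩, α, k⟩
    obtain ⟨q, h1, h2, h3⟩ := dec_dense (⊤ : W) (a α k) C (P_mono hξ.le hC)
    exact ⟨q, h2, h3, h1.2⟩
  choose q hq1 hq2 hq3 using h1
  choose η hη1 hη2 using fun i => mem_P_bound big (hq1 i)
  have h2 : #(Set.range η) ≤ 𝔠 := by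
    refine (Cardinal.mk_range_le).trans ?_
    simp only [I, Cardinal.mk_prod, Cardinal.lift_id]
    have h3 : #Ω1 ≤ 𝔠 := by
      rw [Cardinal.mk_toType, Cardinal.card_ord]; exact Cardinal.aleph_one_le_continuum
    have h4 : #ℕ ≤ 𝔠 := by rw [Cardinal.mk_nat]; exact Cardinal.aleph0_le_continuum
    calc #{B : Set (Z W) | ∃ C ∈ P ξ, C.body = B} * (#Ω1 * #ℕ) ≤ 𝔠 * (𝔠 * 𝔠) :=
          mul_le_mul' (card_bodies big hξ) (mul_le_mul' h3 h4)
      _ = 𝔠 := by rw [Cardinal.continuum_mul_self, Cardinal.continuum_mul_self]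
  obtain ⟨b, hb, hb'⟩ := big.bnd (Set.range η) h2 (by rintro _ ⟨i, rfl⟩; exact hη1 i)
  refine ⟨b, hb, fun α k r hr => ?_⟩
  let i : I := (⟨r.body, r, hr, rfl⟩, α, k)
  exact ⟨q i, P_mono (hb' _ ⟨i, rfl⟩).le (hη2 i), hq2 i, hq3 i⟩

lemma exists_xi (big : Big W) (a : Ω1 → ℕ → Set (Cond W)) {p : Cond W} (hp : p ∈ P (⊤ : W)) :
    ∃ ξ ξ' : W, (∀ γ, γ < ξ' ↔ γ ≤ ξ) ∧ ξ' < ⊤ ∧ p ∈ P ξ ∧
      ∀ α k, ∀ r ∈ P ξ, ∃ q ∈ P ξ, q ≤ r ∧ (Bel (a α k) q ∨ Inc ⊤ (a α k) q) := by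
  classical
  obtain ⟨η0, hη0, hpη⟩ := mem_P_bound big hp
  have h1 : ∀ ξ : W, ∃ η : W, ξ < ⊤ → η < ⊤ ∧
      ∀ α k, ∀ r ∈ P ξ, ∃ q ∈ P η, q ≤ r ∧ (Bel (a α k) q ∨ Inc ⊤ (a α k) q) := by
    intro ξ
    by_cases h : ξ < ⊤
    · obtain ⟨η, h1, h2⟩ := exists_h big a h
      exact ⟨η, fun _ => ⟨h1, h2⟩⟩
    · exact ⟨ξ, fun h' => (h h').elim⟩
  choose H hH using h1
  -- the recursion
  have h2 : ∀ (α : Ω1) (g : (β : Ω1) → β < α → W), ∃ b : W, (∀ β h, g β h < ⊤) →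
      b < ⊤ ∧ η0 < b ∧ ∀ β h, g β h < b ∧ H (g β h) < b := by
    intro α g
    by_cases h : ∀ β h, g β h < ⊤
    · let s : Set W := {η0} ∪ (Set.range (fun β : Set.Iio α => g β.1 β.2) ∪ Set.range (fun β : Set.Iio α => H (g β.1 β.2)))
      have hc : Countable (Set.Iio α) := (om1_Iio α).to_subtype
      have hs : s.Countable := (Set.countable_singleton _).union ((Set.countable_range _).union (Set.countable_range _))
      obtain ⟨b, hb, hb'⟩ := big.bnd s ((Cardinal.le_aleph0_iff_set_countable.mpr hs).trans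
        Cardinal.aleph0_le_continuum) (by
          rintro x (hx | ⟨β, rfl⟩ | ⟨β, rfl⟩)
          · rw [Set.mem_singleton_iff.mp hx]; exact hη0
          · exact h _ _
          · exact (hH _ (h _ _)).1)
      exact ⟨b, fun _ => ⟨hb, hb' _ (Or.inl rfl), fun β hβ => ⟨hb' _ (Or.inr (Or.inl ⟨⟨β, hβ⟩, rfl⟩)),
        hb' _ (Or.inr (Or.inr ⟨⟨β, hβ⟩, rfl⟩))⟩⟩⟩
    · exact ⟨η0, fun h' => (h h').elim⟩
  choose R hR using h2
  let g : Ω1 → W := (wellFounded_lt (α := Ω1)).fix R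
  have hg : ∀ α, g α = R α (fun β _ => g β) := fun α => (wellFounded_lt (α := Ω1)).fix_eq R α
  have hgT : ∀ α, g α < ⊤ := by
    intro α
    induction α using (wellFounded_lt (α := Ω1)).induction with
    | _ α ih => rw [hg]; exact (hR α _ ih).1
  have hg1 : ∀ α, η0 < g α := fun α => by rw [hg]; exact (hR α _ (fun β _ => hgT β)).2.1
  have hg2 : ∀ α β, β < α → g β < g α ∧ H (g β) < g α := fun α β h => by
    rw [hg α]; exact (hR α _ (fun β _ => hgT β)).2.2 β h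
  have hΩ : #(Set.range g) ≤ 𝔠 := by
    refine (Cardinal.mk_range_le).trans ?_
    rw [Cardinal.mk_toType, Cardinal.card_ord]; exact Cardinal.aleph_one_le_continuum
  obtain ⟨b, hb, hb'⟩ := big.bnd (Set.range g) hΩ (by rintro _ ⟨α, rfl⟩; exact hgT α)
  have hne : ({c : W | ∀ α, g α < c}).Nonempty := ⟨b, fun α => hb' _ ⟨α, rfl⟩⟩
  set ξ := (wellFounded_lt (α := W)).min {c : W | ∀ α, g α < c} hne with hξdef
  have hξ1 : ∀ α, g α < ξ := (wellFounded_lt (α := W)).min_mem {c : W | ∀ α, g α < c} hne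
  have hξ2 : ∀ γ < ξ, ∃ α, γ ≤ g α := by
    intro γ hγ
    by_contra h
    push Not at h
    exact (wellFounded_lt (α := W)).not_lt_min {c : W | ∀ α, g α < c} h hγ
  have hξT : ξ < ⊤ := by
    refine lt_of_le_of_lt ?_ hb
    by_contra h
    exact (wellFounded_lt (α := W)).not_lt_min {c : W | ∀ α, g α < c} (fun α => hb' _ ⟨α, rfl⟩) (not_le.mp h)
  obtain ⟨b2, hb2, hb2'⟩ := big.bnd {ξ} (by simp [one_le_cc]) (by simpa using hξT)
  have hξb2 : ξ < b2 := hb2' ξ rfl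
  have hne' : ({c : W | ξ < c}).Nonempty := ⟨b2, hξb2⟩
  set ξ' := (wellFounded_lt (α := W)).min {c : W | ξ < c} hne' with hξ'def
  have hξ'1 : ξ < ξ' := (wellFounded_lt (α := W)).min_mem {c : W | ξ < c} hne'
  refine ⟨ξ, ξ', fun γ => ⟨fun h => ?_, fun h => h.trans_lt hξ'1⟩, ?_, ?_, ?_⟩
  · by_contra h'
    exact (wellFounded_lt (α := W)).not_lt_min {c : W | ξ < c} (not_le.mp h') h
  · refine lt_of_le_of_lt ?_ hb2
    by_contra h
    exact (wellFounded_lt (α := W)).not_lt_min {c : W | ξ < c} hξb2 (not_le.mp h)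
  · obtain ⟨α⟩ := (inferInstance : Nonempty Ω1)
    exact P_mono ((hg1 α).trans (hξ1 α)).le hpη
  · intro α k r hr
    choose! f hf using fun γ (hγ : γ ∈ r.supp) => hξ2 γ (hr γ hγ)
    obtain ⟨β, hβ⟩ := om1_bound (r.count.image f)
    have h3 : r ∈ P (g β) := fun γ hγ =>
      (hf γ hγ).trans_lt (hg2 β _ (hβ _ ⟨γ, hγ, rfl⟩)).1
    obtain ⟨q, h4, h5, h6⟩ := (hH (g β) (hgT β)).2 α k r h3
    obtain ⟨β', hβ'⟩ := om1_lt β
    exact ⟨q, P_mono ((hg2 β' β hβ').2.trans (hξ1 β')).le h4, h5, h6⟩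

/-- No sequence of names of length `ω₁` is club-splitting. -/
theorem thmC (big : Big W) (a : Ω1 → ℕ → Set (Cond W)) {p : Cond W} (hp : p ∈ P (⊤ : W)) :
    ∃ x, ∃ q ∈ P (⊤ : W), q ≤ p ∧ InfN x q ∧ ∀ q' ∈ P (⊤ : W), q' ≤ q → ∀ C, ¬ ClubName a x C q' := by
  by_contra hcon
  push Not at hcon
  obtain ⟨ξ, ξ', h1, h2, h3, h4⟩ := exists_xi big a hp
  exact club_aux h1 h2 h3 h4 (fun x q hq hle hinf => by
    obtain ⟨q', h5, h6, C, h7⟩ := hcon x q hq hle hinf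
    exact ⟨q', h5, h6, C, h7⟩)

end Pool.Agent.H55.Lav
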