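import Pool.Agent.H55.Lav.PF

set_option autoImplicit false
set_option linter.unusedSectionVars false

/-!
# Conditions with a matching of immediate successors and forced elements
-/

namespace Pool.Agent.H55.Lav

open Cond

variable {W T : Type} [LinearOrder W] [WellFoundedLT W]

/-- At the node `u`, the stem of `E`, there is a function `f`, injective on the immediate successors, such that each
successor `m` forces `f m` into the set with the name `x`. -/
def II (δ δ' : W) (x : ℕ → Set (Cond W)) (E : Cond W) (u : List ℕ) (f : Z W → ℕ → ℕ) : Prop :=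
  (∃ B : Set W, B.Countable ∧ ∀ z z' : Z W, (∀ γ ∈ B, γ < δ → z γ = z' γ) → f z = f z') ∧ StC δ E u ∧ (∀ m, LC δ (E.Bd δ) (fun z => f z m)) ∧ (∀ z ∈ E.Bd δ, Set.InjOn (f z) (E.su δ z u)) ∧
    ∀ m k E', E' ∈ P δ' → E' ≤ E → (∀ z ∈ E'.body, z δ u.length = m ∧ f z m = k) → Fo δ' (x k) E'

/-- The dense set of all conditions which force the set `x` to be finite or have a matching. -/
def DD (δ δ' : W) (x : ℕ → Set (Cond W)) : Set (Cond W) :=
  {E | E ∈ P δ' ∧ ((∃ j, Inc δ' (tl x j) E) ∨ ∃ u f, II δ δ' x E u f)}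

/-- The family of all conditions which force `k` into `x`. -/
def GF (δ' : W) (x : ℕ → Set (Cond W)) (k : ℕ) : Set (Cond W) := {E | Fo δ' (x k) E}

/-- Edges with both coordinates large. -/
def XE (δ δ' : W) (x : ℕ → Set (Cond W)) (C : Cond W) (u : List ℕ) (i : ℕ) : Set (Cond W) :=
  {G | ∃ m k, min m k = i ∧ G ∈ KA δ δ' (GF δ' x k) C u m}

lemma le_fo {δ' : W} {Q : Set (Cond W)} {E E' : Cond W} (h : Fo δ' Q E) (hle : E' ≤ E) : Fo δ' Q E' :=
  fun E1 h1 h2 => h E1 h1 (h2.trans hle)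

/-- `DD` is closed under pure extensions. -/
lemma dd_pure {δ δ' : W} {x : ℕ → Set (Cond W)} {E E' : Cond W} (h : E ∈ DD δ δ' x) (hE' : E' ∈ P δ')
    (hp : Pure δ E' E) : E' ∈ DD δ δ' x := by
  obtain ⟨_, ⟨j, hj⟩ | ⟨u, f, h1, h2, h3, h4, h5⟩⟩ := h
  · exact ⟨hE', Or.inl ⟨j, fun C hC hC' E1 h1 h2 => hj C hC hC' E1 h1 (h2.trans hp.1)⟩⟩
  · have hsub := le_Bd (β := δ) hp.1
    refine ⟨hE', Or.inr ⟨u, f, h1, fun z hz => (hp.2 z hz).trans (h2 z (hsub hz)), fun m z hz =>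
      (h3 m z (hsub hz)).mono hsub le_rfl, fun z hz => ?_, fun m k E1 h6 h7 => h5 m k E1 h6 (h7.trans hp.1)⟩⟩
    refine (h4 z (hsub hz)).mono ?_
    have h6 : E'.st δ z = u := (hp.2 z hz).trans (h2 z (hsub hz))
    have h7 := su_sub hp.1 hz (t := u) (by rw [h6]; exact .base)
    exact h7

lemma le_inc {δ' : W} {Q : Set (Cond W)} {E E' : Cond W} (h : Inc δ' Q E) (hle : E' ≤ E) : Inc δ' Q E' :=
  fun C hC hC' E1 h1 h2 => h C hC hC' E1 h1 (h2.trans hle)

/-- The part of the closure properties which is needed for `DD`. -/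
lemma dd_club (δ δ' : W) (x : ℕ → Set (Cond W)) (C : Cond W) : ∀ᶠ N in club (Ob W T),
    (∀ k, GOk N δ δ' (GF δ' x k) C) ∧ (∀ u, Ob.x (XE δ δ' x C u) ∈ N) ∧
      (∀ u, Ob.x (fun k => K δ δ' (GF δ' x k) C u) ∈ N) := by
  filter_upwards [club_all (fun k => gok_club δ δ' (GF δ' x k) C), club_all (fun u => club_mem (Ob.x (XE δ δ' x C u))),
    club_all (fun u => club_mem (Ob.x (fun k => K δ δ' (GF δ' x k) C u)))] with N a b c
  exact ⟨a, b, c⟩

section
variable {N : Set (Ob W T)} {δ δ' : W} {x : ℕ → Set (Cond W)} {C : Cond W}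

/-- The greedy matching: step. -/
noncomputable def gnext (e : ℕ → ℕ → Prop) (q : ℕ × ℕ) : ℕ × ℕ :=
  Nat.unpair (sInf {c : ℕ | q.1 < c.unpair.1 ∧ q.2 < c.unpair.2 ∧ e c.unpair.1 c.unpair.2})

/-- The greedy matching. -/
noncomputable def gmat (e : ℕ → ℕ → Prop) : ℕ → ℕ × ℕ
  | 0 => gnext e (0, 0)
  | i + 1 => gnext e (gmat e i)

lemma gnext_spec {e : ℕ → ℕ → Prop} (he : ∀ j, ∃ m k, j < m ∧ j < k ∧ e m k) (q : ℕ × ℕ) :
    q.1 < (gnext e q).1 ∧ q.2 < (gnext e q).2 ∧ e (gnext e q).1 (gnext e q).2 := by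
  have : (sInf {c : ℕ | q.1 < c.unpair.1 ∧ q.2 < c.unpair.2 ∧ e c.unpair.1 c.unpair.2}) ∈
      {c : ℕ | q.1 < c.unpair.1 ∧ q.2 < c.unpair.2 ∧ e c.unpair.1 c.unpair.2} := by
    apply Nat.sInf_mem
    obtain ⟨m, k, h1, h2, h3⟩ := he (max q.1 q.2)
    refine ⟨Nat.pair m k, ?_⟩
    simp only [Set.mem_ofPred_eq, Nat.unpair_pair]
    exact ⟨(le_max_left _ _).trans_lt h1, (le_max_right _ _).trans_lt h2, h3⟩
  exact this

lemma gmat_e {e : ℕ → ℕ → Prop} (he : ∀ j, ∃ m k, j < m ∧ j < k ∧ e m k) (i : ℕ) : e (gmat e i).1 (gmat e i).2 := by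
  cases i with
  | zero => exact (gnext_spec he _).2.2
  | succ i => exact (gnext_spec he _).2.2

lemma gmat_mono {e : ℕ → ℕ → Prop} (he : ∀ j, ∃ m k, j < m ∧ j < k ∧ e m k) :
    StrictMono (fun i => (gmat e i).1) ∧ StrictMono (fun i => (gmat e i).2) :=
  ⟨strictMono_nat_of_lt_succ (fun i => (gnext_spec he (gmat e i)).1),
    strictMono_nat_of_lt_succ (fun i => (gnext_spec he (gmat e i)).2.1)⟩

lemma gmat_lc {β : W} {X : Set (Z W)} {e : Z W → ℕ → ℕ → Prop} {z : Z W}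
    (he : ∀ j, ∃ m k, j < m ∧ j < k ∧ e z m k) (hlc : ∀ m k, LCat β X (fun z => e z m k) z) (i : ℕ) :
    LCat β X (fun z => gmat (e z) i) z := by
  have step : ∀ q : ℕ × ℕ, LCat β X (fun z => gnext (e z) q) z := by
    intro q
    refine LCat.comp (LCat.least (p := fun (c : ℕ) z => q.1 < c.unpair.1 ∧ q.2 < c.unpair.2 ∧ e z c.unpair.1 c.unpair.2)
      (fun c => (LCat.const _).and ((LCat.const _).and (hlc _ _))) ?_) Nat.unpair
    obtain ⟨m, k, h1, h2, h3⟩ := he (max q.1 q.2)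
    refine ⟨Nat.pair m k, ?_⟩
    simp only [Nat.unpair_pair]
    exact ⟨(le_max_left _ _).trans_lt h1, (le_max_right _ _).trans_lt h2, h3⟩
  induction i with
  | zero => exact step _
  | succ i ih => exact LCat.bind (g := fun q z => gnext (e z) q) ih (step _)

/-- If there are edges with arbitrarily large coordinates then there is an extension with a matching. -/
lemma matching (hs : ∀ γ : W, γ < δ' ↔ γ ≤ δ) (hN : ∀ k, GOk N δ δ' (GF δ' x k) C)
    (hN' : ∀ u, Ob.x (XE δ δ' x C u) ∈ N) {r : Cond W} (hr : r ∈ P δ) (gen : Gen N δ r.body)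
    {z : Z W} (hz : z ∈ r.body) {u : List ℕ}
    (hinf : ∀ j, Hit N δ (tl (XE δ δ' x C u) j) z) : ∃ E ∈ DD δ δ' x, E ≤ C := by
  classical
  have ok := (hN 0).ok
  have hinf' : {k | Hit N δ (XE δ δ' x C u k) z}.Infinite := by
    rw [Set.infinite_iff_exists_gt]
    intro j
    obtain ⟨D, ⟨k, hk, hC⟩, h1⟩ := hinf j
    exact ⟨k, ⟨D, hC, h1⟩, hk⟩
  obtain ⟨E0, a1, a2, a3, a4⟩ := exists_inf ok gen hz (hN' u) hinf'
  obtain ⟨r', d1, d2, d3, d4⟩ := (locIn_of_mem ok gen hz a2 a1 a3).cond hr hz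
  have gen' : Gen N δ r'.body := gen.mono d2
  have hr'Bd : r'.Bd δ = r'.body := (body_eq d1).symm
  let e : Z W → ℕ → ℕ → Prop := fun w m k => Hit N δ (KA δ δ' (GF δ' x k) C u m) w
  have he : ∀ w ∈ r'.body, ∀ j, ∃ m k, j < m ∧ j < k ∧ e w m k := by
    intro w hw j
    obtain ⟨D, ⟨i, hi, m, k, h1, h2⟩, h3⟩ := hit_of_fo ok gen' hw (ok.tl _ j (hN' u)) a1 a2 (d4 hw) (a4 j)
    exact ⟨m, k, by omega, by omega, D, h2, h3⟩
  have hlce : ∀ w ∈ r'.body, ∀ m k, LCat δ r'.body (fun w => e w m k) w := by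
    intro w hw m k
    exact lc_hit ok gen' hw (ok.nm _ m ((hN k).ka u))
  -- enumerate the conditions in `N`
  obtain ⟨ν, hν⟩ : ∃ ν : ℕ → Cond W, ∀ E, Ob.c E ∈ N ↔ ∃ i, ν i = E := by
    have h1 : {E : Cond W | Ob.c E ∈ N}.Countable := ok.cnt.preimage_of_injOn Ob.c_inj.injOn
    obtain ⟨ν, h2⟩ := h1.exists_eq_range ⟨_, ok.one⟩
    exact ⟨ν, fun E => by rw [← Set.mem_range, ← h2]; rfl⟩
  have hνN : ∀ i, Ob.c (ν i) ∈ N := fun i => (hν _).mpr ⟨i, rfl⟩
  let p : ℕ → ℕ → ℕ → Prop := fun m k i => ν i ∈ P δ' ∧ ν i ≤ C ∧ StC δ (ν i) (u ++ [m]) ∧ ν i ∈ GF δ' x k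
  let A : (ℕ → ℕ → Prop) → ℕ → Prop := fun e m => ∃ i < m + 1, (gmat e i).1 = m
  let f : (ℕ → ℕ → Prop) → ℕ → ℕ := fun e m => if A e m then (gmat e (sInf {i | (gmat e i).1 = m})).2 else 0
  let idx : (ℕ → Prop) → ℕ → ℕ → ℕ := fun v m k => sInf {i | p m k i ∧ v i}
  let Sin : (ℕ → ℕ → Prop) → (ℕ → Prop) → (ℕ → List ℕ → Set ℕ) → List ℕ → Set ℕ := fun e v su t =>
    if t = u then {m | A e m} else
      if u.length < t.length ∧ A e (t.getD u.length 0) then
        su (idx v (t.getD u.length 0) (f e (t.getD u.length 0))) t else Set.univ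
  let S : Z W → List ℕ → Set ℕ := fun z => Sin (e z) (fun i => z ∈ (ν i).Bd δ) (fun i => (ν i).su δ z)
  have hAf : ∀ w ∈ r'.body, ∀ m, A (e w) m → e w m (f (e w) m) := by
    intro w hw m hm
    have h1 : (gmat (e w) (sInf {i | (gmat (e w) i).1 = m})).1 = m := by
      obtain ⟨i, _, hi⟩ := hm
      exact Nat.sInf_mem (s := {i | (gmat (e w) i).1 = m}) ⟨i, hi⟩
    have h2 := gmat_e (he w hw) (sInf {i | (gmat (e w) i).1 = m})
    simp only [f, hm, if_true]
    rw [h1] at h2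
    exact h2
  have hex : ∀ w ∈ r'.body, ∀ m, A (e w) m → ∃ i, p m (f (e w) m) i ∧ w ∈ (ν i).Bd δ := by
    rintro w hw m hm
    obtain ⟨G, ⟨h1, _⟩, h2, h3, h4⟩ := hAf w hw m hm
    obtain ⟨E, g1, g2, g3, g4, g5, g6⟩ := (hN _).wit _ G h3 h1
    obtain ⟨i, rfl⟩ := (hν E).mp g2
    refine ⟨i, ⟨g1, g3, g4, g5⟩, ?_⟩
    have := g6 h4
    rwa [restr_body] at this
  have hidx : ∀ w ∈ r'.body, ∀ m, A (e w) m →
      p m (f (e w) m) (idx (fun i => w ∈ (ν i).Bd δ) m (f (e w) m)) ∧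
        w ∈ (ν (idx (fun i => w ∈ (ν i).Bd δ) m (f (e w) m))).Bd δ := by
    intro w hw m hm
    exact Nat.sInf_mem (s := {i | p m (f (e w) m) i ∧ w ∈ (ν i).Bd δ}) (hex w hw m hm)
  have hlcν : ∀ w ∈ r'.body, ∀ i, LCat δ r'.body (fun w => w ∈ (ν i).Bd δ) w := by
    intro w hw i
    have := lc_mem ok gen' hw ((hN 0).cr _ (hνN i)) restr_mem
    simpa only [restr_body] using this
  have hlcg : ∀ w ∈ r'.body, ∀ i, LCat δ r'.body (fun w => gmat (e w) i) w :=
    fun w hw i => gmat_lc (he w hw) (hlce w hw) i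
  have hlcA : ∀ w ∈ r'.body, ∀ m, LCat δ r'.body (fun w => A (e w) m) w := by
    intro w hw m
    have h1 : (fun w => A (e w) m) = fun w => ¬ ∀ i < m + 1, ¬ (gmat (e w) i).1 = m := by
      funext w
      simp only [A]
      push Not
      rfl
    rw [h1]
    exact (LCat.forall_lt (fun i _ => ((hlcg w hw i).comp (fun q => q.1 = m)).not)).not
  have hlcf : ∀ w ∈ r'.body, ∀ m, LCat δ r'.body (fun w => f (e w) m) w := by
    intro w hw m
    refine LCat.ite (hlcA w hw m) (fun h => ?_) (fun _ => LCat.const _)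
    refine LCat.bind (g := fun i w => (gmat (e w) i).2) (LCat.least (p := fun i w => (gmat (e w) i).1 = m) (fun i => (hlcg w hw i).comp (fun q => q.1 = m)) ?_)
      ((hlcg w hw _).comp _)
    obtain ⟨i, _, hi⟩ := h
    exact ⟨i, hi⟩
  have hlcidx : ∀ w ∈ r'.body, ∀ m, A (e w) m →
      LCat δ r'.body (fun w => idx (fun i => w ∈ (ν i).Bd δ) m (f (e w) m)) w := by
    intro w hw m hm
    refine LCat.bind (g := fun k w => idx (fun i => w ∈ (ν i).Bd δ) m k) (hlcf w hw m) ?_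
    exact LCat.least (p := fun i w' => p m (f (e w) m) i ∧ w' ∈ (ν i).Bd δ) (fun i => (LCat.const _).and (hlcν w hw i))
      (hex w hw m hm)
  set A0 : Set W := {γ | Ob.w γ ∈ N} with hA0def
  have hAc : A0.Countable := ok.cnt.preimage_of_injOn Ob.w_inj.injOn
  have hdep : ∀ z z' : Z W, (∀ γ ∈ A0, γ < δ → z γ = z' γ) → (fun _ => u : Z W → List ℕ) z = (fun _ => u) z' ∧ S z = S z' := by
    intro z z' h
    refine ⟨rfl, ?_⟩
    have i1 : e z = e z' := by
      funext m k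
      apply propext
      refine exists_congr (fun G => and_congr_right (fun _ => and_congr_right (fun h1 => and_congr_right (fun h2 => ?_))))
      rw [body_eq h1]
      exact Bd_iff_supp (fun γ hγ => h γ (ok.supp G h2 γ hγ))
    have i2 : (fun i => z ∈ (ν i).Bd δ) = (fun i => z' ∈ (ν i).Bd δ) := by
      funext i
      exact propext (Bd_iff_supp (fun γ hγ => h γ (ok.supp _ (hνN i) γ hγ)))
    have i3 : (fun i => (ν i).su δ z) = (fun i => (ν i).su δ z') := by
      funext i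
      exact ((ν i).dep δ z z' (fun γ hγ => h γ (ok.supp _ (hνN i) γ hγ))).2
    simp only [S, i1, i2, i3]
  have hAinf : ∀ w ∈ r'.body, {m | A (e w) m}.Infinite := by
    intro w hw
    rw [Set.infinite_iff_exists_gt]
    intro j
    have h1 := (gmat_mono (he w hw)).1
    refine ⟨(gmat (e w) (j + 1)).1, ⟨j + 1, ?_, rfl⟩, ?_⟩
    · have := h1.id_le (j + 1)
      simp only [id_eq] at this
      omega
    · have := h1.id_le (j + 1)
      simp only [id_eq] at this
      omega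
  have hSinf : ∀ w ∈ r'.Bd δ, ∀ t, (S w t).Infinite := by
    intro w hw t
    rw [hr'Bd] at hw
    simp only [S, Sin]
    split_ifs with h1 h2
    · exact hAinf w hw
    · exact (ν _).inf δ w t
    · exact Set.infinite_univ
  have hSlc : ∀ t m, LC δ (r'.Bd δ) (fun w => m ∈ S w t) := by
    intro t m w hw
    rw [hr'Bd] at hw ⊢
    simp only [S, Sin]
    by_cases h1 : t = u
    · simp only [h1, if_true, Set.mem_ofPred_eq]
      exact hlcA w hw m
    · simp only [h1, if_false]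
      have h2 : (fun w => m ∈ (if u.length < t.length ∧ A (e w) (t.getD u.length 0) then
          (ν (idx (fun i => w ∈ (ν i).Bd δ) (t.getD u.length 0) (f (e w) (t.getD u.length 0)))).su δ w t else Set.univ)) =
          (fun w => if u.length < t.length ∧ A (e w) (t.getD u.length 0) then
          m ∈ (ν (idx (fun i => w ∈ (ν i).Bd δ) (t.getD u.length 0) (f (e w) (t.getD u.length 0)))).su δ w t else True) := by
        funext w
        split_ifs <;> simp
      rw [h2]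
      refine LCat.ite ((LCat.const _).and (hlcA w hw _)) (fun h3 => ?_) (fun _ => LCat.const _)
      refine LCat.bind (g := fun i w => m ∈ (ν i).su δ w t) (hlcidx w hw _ h3.2) ?_
      obtain ⟨_, h4⟩ := hidx w hw _ h3.2
      exact ((ν _).lcsu δ t m w h4).of_locIn ((hlcν w hw _).locIn h4)
  have hlcs : LC δ (r'.Bd δ) (fun _ => u) := fun _ _ => LCat.const _
  set E := ext1 r' d1 (fun _ => u) S A0 hAc hdep hSinf hlcs hSlc with hE
  have hEP : E ∈ P δ' := ext1_mem hs
  have hESt : E.st δ = fun _ => u := ext1_st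
  have hEBd : E.Bd δ = r'.body := by rw [hE, ext1_Bd, hr'Bd]
  have hEsu : ∀ w ∈ r'.body, E.su δ w = S w := fun w hw => by rw [hE, ext1_su (by rw [hr'Bd]; exact hw)]
  have hEb : ∀ w, w ∈ E.body ↔ w ∈ r'.body ∧ Br u (S w) (w δ) := fun w => by rw [hE, mem_ext1 hs, hr'Bd]
  have key : ∀ w ∈ E.body, A (e w) (w δ u.length) ∧
      w ∈ (ν (idx (fun i => w ∈ (ν i).Bd δ) (w δ u.length) (f (e w) (w δ u.length)))).body := by
    intro w hw
    obtain ⟨h1, h2⟩ := (hEb w).mp hw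
    have h3 : A (e w) (w δ u.length) := by
      have := h2.2 u.length le_rfl
      rw [h2.1] at this
      simpa [S, Sin] using this
    obtain ⟨⟨h4, h5, h6, h7⟩, h8⟩ := hidx w h1 _ h3
    refine ⟨h3, ?_⟩
    rw [section_mem hs h4]
    refine ⟨h8, ?_⟩
    rw [h6 w h8]
    refine ⟨by simp [res_succ, h2.1], fun n hn => ?_⟩
    simp only [List.length_append, List.length_cons, List.length_nil, zero_add] at hn
    have h9 := h2.2 n (by omega)
    have h10 : res (w δ) n ≠ u := by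
      intro h
      have := congrArg List.length h
      simp at this; omega
    simp only [S, Sin, h10, if_false, length_res] at h9
    rw [getD_res (by omega : u.length < n)] at h9
    rw [if_pos ⟨by omega, h3⟩] at h9
    exact h9
  have hEC : E ≤ C := by
    intro w hw
    obtain ⟨h1, h2⟩ := key w hw
    have h3 := hidx w ((hEb w).mp hw).1 _ h1
    exact h3.1.2.1 h2
  have hef : ∀ z z' : Z W, (∀ γ ∈ A0, γ < δ → z γ = z' γ) → e z = e z' := by
    intro z z' h
    funext m k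
    apply propext
    refine exists_congr (fun G => and_congr_right (fun _ => and_congr_right (fun h1 => and_congr_right (fun h2 => ?_))))
    rw [body_eq h1]
    exact Bd_iff_supp (fun γ hγ => h γ (ok.supp G h2 γ hγ))
  refine ⟨E, ⟨hEP, Or.inr ⟨u, fun w => f (e w), ⟨A0, hAc, fun z z' h => congrArg f (hef z z' h)⟩, fun w _ => by rw [hESt], fun m => by rw [hEBd]; exact fun w hw => hlcf w hw m, ?_, ?_⟩⟩, hEC⟩
  · intro w hw
    rw [hEBd] at hw
    rw [hEsu w hw]
    have h0 : S w u = {m | A (e w) m} := by simp [S, Sin]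
    rw [h0]
    have key2 : ∀ m, A (e w) m → ∃ i, (gmat (e w) i).1 = m ∧ (gmat (e w) i).2 = f (e w) m := by
      intro m hm
      refine ⟨sInf {i | (gmat (e w) i).1 = m}, ?_, ?_⟩
      · obtain ⟨i, _, hi⟩ := hm
        exact Nat.sInf_mem (s := {i | (gmat (e w) i).1 = m}) ⟨i, hi⟩
      · simp only [f, hm, if_true]
    intro m hm m' hm' heq
    obtain ⟨i, h1, h2⟩ := key2 m hm
    obtain ⟨i', h1', h2'⟩ := key2 m' hm'
    simp only at heq
    rw [← h2, ← h2'] at heq
    have := (gmat_mono (he w hw)).2.injective heq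
    rw [← h1, ← h1', this]
  · intro m k E' hE' hle hE'm E1 hE1 hle1
    obtain ⟨z1, hz1⟩ := E1.body_nonempty
    have hz1E := hle (hle1 hz1)
    obtain ⟨k1, k2⟩ := key z1 hz1E
    obtain ⟨k3, k4⟩ := hE'm z1 (hle1 hz1)
    have k5 := hlcidx z1 ((hEb z1).mp hz1E).1 _ k1
    obtain ⟨F, l, f1, f2⟩ := k5
    have hloc : LocIn δ' E1.body z1 (ν (idx (fun i => z1 ∈ (ν i).Bd δ) (z1 δ u.length) (f (e z1) (z1 δ u.length)))).body := by
      refine ⟨F, l, fun γ hγ => (f1 γ hγ).trans ((hs δ).mpr le_rfl), fun z' hz' ha => ?_⟩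
      have hz'E := hle (hle1 hz')
      obtain ⟨k1', k2'⟩ := key z' hz'E
      obtain ⟨k3', k4'⟩ := hE'm z' (hle1 hz')
      have := f2 z' ((hEb z').mp hz'E).1 ha
      simp only at this
      rw [← this, k3, ← k3']
      exact k2'
    obtain ⟨E2, g1, g2, _, g4⟩ := hloc.cond hE1 hz1
    have g5 : ν (idx (fun i => z1 ∈ (ν i).Bd δ) (z1 δ u.length) (f (e z1) (z1 δ u.length))) ∈ GF δ' x k := by
      have := (hidx z1 ((hEb z1).mp hz1E).1 _ k1).1.2.2.2
      have k4' : f (e z1) m = k := k4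
      rw [k3, k4'] at this
      rw [k3, k4']; exact this
    obtain ⟨E3, i1, i2, i3⟩ := g5 E2 g1 g4
    exact ⟨E3, i1, i2.trans g2, i3⟩

end

/-- For every name `x` the set `DD` is dense. -/
theorem dd_dense {δ δ' : W} (hs : ∀ γ : W, γ < δ' ↔ γ ≤ δ) (hgen : HasGen T δ) (x : ℕ → Set (Cond W)) {C : Cond W}
    (hC : C ∈ P δ') : ∃ E ∈ DD δ δ' x, E ≤ C := by
  classical
  by_contra hcon
  push Not at hcon
  obtain ⟨N, ⟨hN, hN1, hN2⟩, hNr⟩ := ((dd_club δ δ' x C).and hgen).exists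
  have ok := (hN 0).ok
  obtain ⟨r, hr, hrC', gen⟩ := hNr _ restr_mem ((hN 0).cr C (hN 0).cC)
  have hrC : r.body ⊆ C.Bd δ := by rw [le_def, restr_body] at hrC'; exact hrC'
  have hrBd : r.Bd δ = r.body := (body_eq hr).symm
  have hg : ∀ k, ∀ E ∈ P δ', Front δ E (GF δ' x k) → E ∈ GF δ' x k := fun k E _ h => h.fo hs
  -- no matching at any node
  have hM : ∀ z ∈ r.body, ∀ u, ∃ j, ¬ Hit N δ (tl (XE δ δ' x C u) j) z := by
    intro z hz u
    by_contra h
    push Not at h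
    obtain ⟨E, h1, h2⟩ := matching hs hN hN1 hr gen hz h
    exact hcon E h1 h2
  let J : (ℕ → Prop) → ℕ := fun v => sInf {j | ¬ v j}
  let xk : List ℕ → ℕ → Set (Cond W) := fun u k => K δ δ' (GF δ' x k) C u
  -- the functions of `z` used in the definition
  let B : Z W → ℕ := fun z => J (fun j => Hit N δ (tl (XE δ δ' x C (C.st δ z)) j) z)
  let H : Z W → List ℕ → Prop := fun z u => ¬ Hit N δ (tl (xk u) (B z)) z
  let S : Z W → List ℕ → Set ℕ := fun z u =>
    if Nd (C.st δ z) (C.su δ z) u ∧ (u = C.st δ z ∨ H z u) then {m | m ∈ C.su δ z u ∧ H z (u ++ [m])} else Set.univ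
  have hB : ∀ z ∈ r.body, ¬ Hit N δ (tl (XE δ δ' x C (C.st δ z)) (B z)) z := fun z hz =>
    Nat.sInf_mem (s := {j | ¬ Hit N δ (tl (XE δ δ' x C (C.st δ z)) j) z}) (hM z hz _)
  have hlcB : ∀ z ∈ r.body, LCat δ r.body B z := by
    intro z hz
    refine LCat.bind (g := fun u z => J (fun j => Hit N δ (tl (XE δ δ' x C u) j) z))
      ((C.lcst δ z (hrC hz)).mono hrC le_rfl) ?_
    exact LCat.least (p := fun j z' => ¬ Hit N δ (tl (XE δ δ' x C (C.st δ z)) j) z')
      (fun j => (lc_hit ok gen hz (ok.tl _ j (hN1 _))).not) (hM z hz _)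
  have hlcH : ∀ z ∈ r.body, ∀ u, LCat δ r.body (fun z => H z u) z := by
    intro z hz u
    refine LCat.not ?_
    exact LCat.bind (g := fun j z => Hit N δ (tl (xk u) j) z) (hlcB z hz) (lc_hit ok gen hz (ok.tl _ _ (hN2 u)))
  have hlcnd : ∀ z ∈ r.body, ∀ u, LCat δ r.body (fun z => Nd (C.st δ z) (C.su δ z) u) z := by
    intro z hz u
    exact LCat.nd ((C.lcst δ z (hrC hz)).mono hrC le_rfl) (fun t m => (C.lcsu δ t m z (hrC hz)).mono hrC le_rfl) u
  have hSinf : ∀ z ∈ r.Bd δ, ∀ u, (S z u).Infinite := by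
    intro z hz u
    rw [hrBd] at hz
    simp only [S]
    split_ifs with h1
    · obtain ⟨h2, h3⟩ := h1
      -- a bound for the first case, and for the second
      have hfin : {m | m ∈ C.su δ z u ∧ ¬ H z (u ++ [m])}.Finite := by
        obtain ⟨J0, hJ0⟩ := hM z hz u
        have hedge : ∀ m k, J0 < m → J0 < k → m ∈ C.su δ z u → ¬ Hit N δ (xk (u ++ [m]) k) z := by
          intro m k hm hk hmu hh
          obtain ⟨G, g1, g2⟩ := (hit_KA (hN k) gen hrC hz (t := u) (m := m)).mpr ⟨hmu, hh⟩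
          exact hJ0 ⟨G, ⟨min m k, by omega, m, k, rfl, g1⟩, g2⟩
        rcases h3 with h3 | h3
        · have hedge' : ∀ m k, B z < m → B z < k → m ∈ C.su δ z u → ¬ Hit N δ (xk (u ++ [m]) k) z := by
            intro m k hm hk hmu hh
            obtain ⟨G, g1, g2⟩ := (hit_KA (hN k) gen hrC hz (t := u) (m := m)).mpr ⟨hmu, hh⟩
            have := hB z hz
            rw [← h3] at this
            exact this ⟨G, ⟨min m k, by omega, m, k, rfl, g1⟩, g2⟩
          refine (Set.finite_Iic (B z)).subset ?_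
          rintro m ⟨hm1, hm2⟩
          by_contra hlt
          simp only [Set.mem_Iic, not_le] at hlt
          apply hm2
          rintro ⟨G, ⟨k, hk, g1⟩, g2⟩
          exact hedge' m k hlt hk hm1 ⟨G, g1, g2⟩
        · have h4 : ∀ k, B z < k → {m | m ∈ C.su δ z u ∧ Hit N δ (xk (u ++ [m]) k) z}.Finite := by
            intro k hk
            by_contra hinf
            obtain ⟨G, g1, g2⟩ := glue hs (hg k) (hN k) hr gen hrC hz h2 hinf
            exact h3 ⟨G, ⟨k, hk, g1⟩, g2⟩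
          refine ((Set.finite_Iic J0).union (Set.Finite.biUnion (Set.finite_Iic J0)
            (t := fun k => if B z < k then {m | m ∈ C.su δ z u ∧ Hit N δ (xk (u ++ [m]) k) z} else ∅) (fun k _ => ?_))).subset ?_
          · split_ifs with h5
            · exact h4 k h5
            · exact Set.finite_empty
          · rintro m ⟨hm1, hm2⟩
            by_cases hmJ : m ≤ J0
            · exact Or.inl hmJ
            · right
              simp only [H, not_not] at hm2
              obtain ⟨G, ⟨k, hk, g1⟩, g2⟩ := hm2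
              have hkJ : k ≤ J0 := by
                by_contra hkJ
                exact hedge m k (not_le.mp hmJ) (not_le.mp hkJ) hm1 ⟨G, g1, g2⟩
              refine Set.mem_biUnion (show k ∈ Set.Iic J0 from hkJ) ?_
              rw [if_pos hk]
              exact ⟨hm1, G, g1, g2⟩
      have h5 := (C.inf δ z u).sdiff hfin
      refine h5.mono (fun m hm => ⟨hm.1, ?_⟩)
      by_contra h6
      exact hm.2 ⟨hm.1, fun h7 => h7 h6⟩
    · exact Set.infinite_univ
  have hSlc : ∀ u m, LC δ (r.Bd δ) (fun z => m ∈ S z u) := by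
    intro u m
    rw [hrBd]
    intro z hz
    have h1 : (fun z => m ∈ S z u) = fun z => if Nd (C.st δ z) (C.su δ z) u ∧ (u = C.st δ z ∨ H z u) then
      (m ∈ C.su δ z u ∧ H z (u ++ [m])) else True := by
      funext z
      simp only [S]
      split_ifs <;> simp
    rw [h1]
    refine LCat.ite ((hlcnd z hz u).and ((((C.lcst δ z (hrC hz)).mono hrC le_rfl).comp (fun s => u = s)).or (hlcH z hz u)))
      (fun _ => ((C.lcsu δ u m z (hrC hz)).mono hrC le_rfl).and (hlcH z hz _)) (fun _ => LCat.const _)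
  have hlcs : LC δ (r.Bd δ) (C.st δ) := by
    rw [hrBd]
    exact fun z hz => (C.lcst δ z (hrC hz)).mono hrC le_rfl
  set A : Set W := {γ | Ob.w γ ∈ N} ∪ C.supp with hAdef
  have hAc : A.Countable := (ok.cnt.preimage_of_injOn Ob.w_inj.injOn).union C.count
  have hdep : ∀ z z' : Z W, (∀ γ ∈ A, γ < δ → z γ = z' γ) → C.st δ z = C.st δ z' ∧ S z = S z' := by
    intro z z' h
    obtain ⟨i1, i2⟩ := C.dep δ z z' (fun γ hγ => h γ (Or.inr hγ))
    have i3 : ∀ Q : Set (Cond W), Hit N δ Q z = Hit N δ Q z' := by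
      intro Q
      apply propext
      refine exists_congr (fun G => and_congr_right (fun _ => and_congr_right (fun h1 => and_congr_right (fun h2 => ?_))))
      rw [body_eq h1]
      exact Bd_iff_supp (fun γ hγ => h γ (Or.inl (ok.supp G h2 γ hγ)))
    refine ⟨i1, ?_⟩
    have i4 : B z = B z' := by simp only [B, i1, i3]
    simp only [S, H, i1, i2, i3, i4]
  set Eb := ext1 r hr (C.st δ) S A hAc hdep hSinf hlcs hSlc with hEb
  have hEbP : Eb ∈ P δ' := ext1_mem hs
  have hEbm : ∀ w, w ∈ Eb.body ↔ w ∈ r.body ∧ Br (C.st δ w) (S w) (w δ) := fun w => by rw [hEb, mem_ext1 hs, hrBd]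
  have hEbBd : Eb.Bd δ = r.body := by rw [hEb, ext1_Bd, hrBd]
  have hEbst : Eb.st δ = C.st δ := ext1_st
  have nodes : ∀ w ∈ Eb.body, ∀ n, (C.st δ w).length ≤ n →
      Nd (C.st δ w) (C.su δ w) (res (w δ) n) ∧ (res (w δ) n = C.st δ w ∨ H w (res (w δ) n)) := by
    intro w hw
    obtain ⟨h1, h2⟩ := (hEbm w).mp hw
    intro n hn
    induction n, hn using Nat.le_induction with
    | base =>
      rw [h2.1]
      exact ⟨.base, Or.inl rfl⟩
    | succ n hn ih =>
      have h3 := h2.2 n hn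
      simp only [S, if_pos ih] at h3
      exact ⟨.step _ _ ih.1 h3.1, Or.inr h3.2⟩
  have hEbC : Eb ≤ C := by
    intro w hw
    obtain ⟨h1, h2⟩ := (hEbm w).mp hw
    rw [section_mem hs hC]
    refine ⟨hrC h1, h2.1, fun n hn => ?_⟩
    have h3 := h2.2 n hn
    simp only [S, if_pos (nodes w hw n hn)] at h3
    exact h3.1
  -- fix the bound, the stem and a longer node
  obtain ⟨z0, hz0⟩ := Eb.body_nonempty
  have hz0r : z0 ∈ r.body := ((hEbm z0).mp hz0).1
  set v0 := res (z0 δ) ((C.st δ z0).length + 1) with hv0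
  have hv0nd : Nd (Eb.st δ z0) (Eb.su δ z0) v0 := (hz0 δ).nd (by rw [hEbst]; omega)
  have hz0Bd : z0 ∈ Eb.Bd δ := body_sub_Bd hz0
  have hloc : LocIn δ r.body z0 ({w | B w = B z0} ∩ ({w | C.st δ w = C.st δ z0} ∩ {w | Nd (Eb.st δ w) (Eb.su δ w) v0})) := by
    refine LocIn.inter (((hlcB z0 hz0r).comp (fun b => b = B z0)).locIn rfl) (LocIn.inter
      ((((C.lcst δ z0 (hrC hz0r)).mono hrC le_rfl).comp (fun b => b = C.st δ z0)).locIn rfl) ?_)
    have := LCat.nd (Eb.lcst δ z0 hz0Bd) (fun t m => Eb.lcsu δ t m z0 hz0Bd) v0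
    rw [show BdF Eb.st Eb.su δ = Eb.Bd δ from rfl, hEbBd] at this
    exact this.locIn hv0nd
  obtain ⟨G0, g1, g2, g3, g4⟩ := hloc.cond hr hz0r
  have hG0 : G0.Bd δ ⊆ Eb.Bd δ := by rw [← body_eq g1, hEbBd]; exact g2
  set E3 := (amal G0 Eb δ hG0).node δ v0 with hE3
  have hE3P : E3 ∈ P δ' := node_mem (amal_mem hEbP ((hs δ).mpr le_rfl).le) ((hs δ).mpr le_rfl)
  have hE3Eb : E3 ≤ Eb := node_le.trans amal_le
  have hE3Bd : E3.Bd δ = G0.body := by rw [hE3, node_Bd le_rfl, amal_Bd le_rfl, body_eq g1]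
  have hE3st : ∀ w ∈ E3.Bd δ, E3.st δ w = v0 := by
    intro w hw
    rw [hE3Bd] at hw
    have h1 := (g4 hw).2.2
    rw [hE3]
    apply node_st
    rw [amal_st_ge le_rfl, amal_su_ge le_rfl]
    exact h1
  have hnotfin : ¬ Inc δ' (tl x (B z0)) E3 := fun h => hcon E3 ⟨hE3P, Or.inl ⟨_, h⟩⟩ (hE3Eb.trans hEbC)
  simp only [Inc] at hnotfin
  push Not at hnotfin
  obtain ⟨D, ⟨k, hk, hD⟩, hDP, E4, hE4P, hE4le, hE4D⟩ := hnotfin
  have hE4fo : Fo δ' (x k) E4 := fun E' hE' hle => ⟨E', hE', le_rfl, D, hD, hDP, hle.trans hE4D⟩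
  obtain ⟨z1, hz1⟩ := E4.body_nonempty
  have hz1Bd : z1 ∈ E4.Bd δ := body_sub_Bd hz1
  obtain ⟨G, k1, k2, k3, k4⟩ := exists_stc hz1Bd
  have hGE1 : G.body ⊆ E4.Bd δ := by rw [le_def, restr_body] at k2; exact k2
  have hGG0 : G.body ⊆ G0.body := by
    refine hGE1.trans ?_
    rw [← hE3Bd]
    exact le_Bd hE4le
  have hGr : G.body ⊆ r.body := hGG0.trans g2
  set t1 := E4.st δ z1 with ht1
  have hK : ∀ G' ∈ P δ, G' ≤ G → G' ∈ xk t1 k := by
    intro G' hG' hle
    have h1 : G'.Bd δ ⊆ E4.Bd δ := by rw [← body_eq hG']; exact Set.Subset.trans hle hGE1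
    have h2 : StC δ (amal G' E4 δ h1) t1 := amal_stc h1 (fun z hz => by
      rw [← body_eq hG'] at hz
      exact k4 z (hle hz))
    refine ⟨hG', amal G' E4 δ h1, amal_mem hE4P ((hs δ).mpr le_rfl).le,
      amal_le.trans (hE4le.trans (hE3Eb.trans hEbC)), h2, le_fo hE4fo amal_le, ?_⟩
    rw [le_def, restr_body, amal_Bd le_rfl, body_eq hG']
  have hz1E3 : z1 ∈ E3.Bd δ := le_Bd hE4le hz1Bd
  have hlen : (C.st δ z1).length + 1 ≤ t1.length := by
    have h1 := (st_nd hE4le hz1Bd).len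
    rw [hE3st z1 hz1E3] at h1
    have h2 : C.st δ z1 = C.st δ z0 := (g4 (hGG0 k3)).2.1
    rw [h2]
    rw [hv0, length_res] at h1
    exact h1
  have hno := (nodes z1 (hE3Eb (hE4le hz1)) t1.length (by omega)).2
  rw [show res (z1 δ) t1.length = t1 from (hz1 δ).1] at hno
  have hno2 : H z1 t1 := by
    rcases hno with h | h
    · have := congrArg List.length h
      omega
    · exact h
  have hBz : B z1 = B z0 := (g4 (hGG0 k3)).1
  have hno3 : ¬ Hit N δ (xk t1 k) z1 := by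
    rintro ⟨G', h1, h2⟩
    exact hno2 ⟨G', ⟨k, by rw [hBz]; exact hk, h1⟩, h2⟩
  have hz1r : z1 ∈ r.body := hGr k3
  obtain ⟨E0, l1, l2, l3, l4, l5⟩ := (decide_hit ok gen hz1r ((hN k).kd t1)).resolve_left hno3
  obtain ⟨G', m1, m2, m3, m4⟩ := (l4.mono_left hGr).cond k1 k3
  exact l5 G' (hK G' m1 m2) m1 G' m1 m4 le_rfl

end Pool.Agent.H55.Lav
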