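import Pool.Agent.H55.Lav.MLev2

set_option autoImplicit false
set_option linter.all false

/-!
# The cardinal `ω₁`, the splitting family and club-splitting sequences in the model
-/

namespace Pool.Agent.H55.Lav

open FirstOrder FirstOrder.Language Pool.Agent.H55.SC Pool.Agent.H55.ZFU Pool.Agent.H55.CS

variable {Q : Type} [Preorder Q] [OrderTop Q]

/-- All closure properties of `N` from the previous files. -/
structure AllOk (N : Set (Un Q)) : Prop where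
  ok : NOk N
  fok : FOk N
  zok : ZOk N
  aok : AOk N
  qok : QOk N
  iokN : IOk N ℕ
  iokO : IOk N Ω1
  rok : ROk N
  ook : OOk N
  dok : DOk N

lemma allOk_club : ∀ᶠ N in club (Un Q), AllOk N := by
  filter_upwards [nok_club (Q := Q), fok_club, zok_club, aok_club, qok_club, iok_club ℕ, iok_club Ω1, rok_club,
    ook_club, dok_club] with N h1 h2 h3 h4 h5 h6 h7 h8 h9 h10
  exact ⟨h1, h2, h3, h4, h5, h6, h7, h8, h9, h10⟩

/-! ### The cardinal `ω₁` -/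

/-- `γ` bounds the function with the name `S`. -/
def BddP (S : ℕ → Ω1 → Set Q) (q : Q) (γ : Ω1) : Prop :=
  ∀ n α, ∀ E ≤ q, BelQ (S n α) E → ∃ E' ≤ E, ∃ β < γ, BelQ (S n β) E'

lemma exists_enum (α : Ω1) : ∃ e : ℕ → Ω1, (∃ β, β < α) → ∀ β, β < α ↔ ∃ n, e n = β := by
  by_cases h : ∃ β, β < α
  · obtain ⟨e, he⟩ := (om1_Iio α).exists_eq_range h
    refine ⟨e, fun _ β => ?_⟩
    have : β ∈ Set.Iio α ↔ β ∈ Set.range e := by rw [he]
    exact this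
  · exact ⟨fun _ => α, fun h' => (h h').elim⟩

/-- Enumerations of the countable ordinals. -/
noncomputable def enm (α : Ω1) : ℕ → Ω1 := (exists_enum α).choose
lemma enm_spec {α : Ω1} (h : ∃ β, β < α) (β : Ω1) : β < α ↔ ∃ n, enm α n = β := (exists_enum α).choose_spec h β

/-- Closure properties of `N` used for `ω₁`. -/
structure BOk (N : Set (Un Q)) : Prop where
  b1 : ∀ S : ℕ → Ω1 → Set Q, InT N S → InT N {q | ∃ γ, BddP S q γ}
  b2 : ∀ S : ℕ → Ω1 → Set Q, InT N S → ∀ q : Q, InT N q → (∃ γ, BddP S q γ) → ∃ γ, BddP S q γ ∧ InT N γ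
  b3 : ∀ S : ℕ → Ω1 → Set Q, InT N S → ∀ γ : Ω1, InT N γ → ∀ n, InT N {q | ∃ β < γ, q ∈ S n β}
  e : ∀ α : Ω1, InT N α → InN N (rgNm (fun n => opN (ck Q n) (ck Q (enm α n))))

lemma bok_club : ∀ᶠ N in club (Un Q), BOk N := by
  have h1 : ∀ᶠ N in club (Un Q), ∀ S : ℕ → Ω1 → Set Q, InT N S → InT N {q | ∃ γ, BddP S q γ} :=
    diagT (fun S => club_inT _)
  have h2 : ∀ᶠ N in club (Un Q), ∀ S : ℕ → Ω1 → Set Q, InT N S → ∀ q : Q, InT N q → (∃ γ, BddP S q γ) →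
      ∃ γ, BddP S q γ ∧ InT N γ := by
    refine diagT (fun S => diagT (fun q => ?_))
    by_cases h : ∃ γ, BddP S q γ
    · obtain ⟨γ, hγ⟩ := h
      exact (club_inT γ).mono (fun N hN _ => ⟨γ, hγ, hN⟩)
    · exact Filter.Eventually.of_forall (fun N h' => (h h').elim)
  have h3 : ∀ᶠ N in club (Un Q), ∀ S : ℕ → Ω1 → Set Q, InT N S → ∀ γ : Ω1, InT N γ → ∀ n,
      InT N {q | ∃ β < γ, q ∈ S n β} := diagT (fun S => diagT (fun γ => club_all (fun n => club_inT _)))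
  have h4 : ∀ᶠ N in club (Un Q), ∀ α : Ω1, InT N α → InN N (rgNm (fun n => opN (ck Q n) (ck Q (enm α n)))) :=
    diagT (fun α => club_inN _)
  filter_upwards [h1, h2, h3, h4] with N h1 h2 h3 h4
  exact ⟨h1, h2, h3, h4⟩

section
variable {N : Set (Un Q)} {G : Set Q} (all : AllOk N) (gen : GenF N G)

theorem omega1_kk (bok : BOk N) (gen : GenF N G)
    (good : ∀ (f : ℕ → Ω1 → Set Q) (p : Q), ∃ q ≤ p, ∃ γ : Ω1, BddP f q γ) :
    IsOmega1 (EE (N := N) (G := G)) (ww G all.zok) (kk G all.ook) := by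
  have htop := top_mem all.ok gen
  have zok := all.zok
  have ook := all.ook
  refine ⟨⟨?_, ?_⟩, ?_, ?_⟩
  · intro x hx z hz
    obtain ⟨α, hα, rfl⟩ := (mem_kk htop).mp hx
    obtain ⟨β, hβ, rfl⟩ := (mem_ov htop).mp hz
    exact (mem_kk htop).mpr ⟨β, _, rfl⟩
  · intro x hx y hy z hz
    obtain ⟨α, hα, rfl⟩ := (mem_kk htop).mp hx
    obtain ⟨β, hβ, rfl⟩ := (mem_ov htop).mp hy
    obtain ⟨γ, hγ, rfl⟩ := (mem_ov htop).mp hz
    exact (ov_lt htop).mpr (hγ.trans hβ)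
  · rintro (h | ⟨f, hf, hs⟩)
    · obtain ⟨α, hα⟩ := ook.ne
      exact h _ ((mem_kk htop).mpr ⟨α, hα, rfl⟩)
    · obtain ⟨S, hS, hdec⟩ := decode21 all.ok all.fok zok gen all.dok ook (fun n α => Rel EE f n α) (by
        let _ := mdl all.ok all.fok zok gen
        have : ZFU.Pure (MM N G) := zPure (zf all.ok all.fok zok gen)
        have h1 : Dfn (fun v : Fin 2 → MM N G => opair (v 0) (v 1) ∈ f) := inferInstance
        exact Dfn.congr h1 (fun v => rel_iff))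
      obtain ⟨q, hq, hqb⟩ := gen.gen _ (bok.b1 S hS) (fun p => by
        obtain ⟨q, h1, γ, h2⟩ := good S p
        exact ⟨q, ⟨γ, h2⟩, h1⟩)
      obtain ⟨γ, h1, h2⟩ := bok.b2 S hS q (gen.sub q hq) hqb
      obtain ⟨x, hx, hxγ⟩ := hs (ov G ook h2) ((mem_kk htop).mpr ⟨γ, h2, rfl⟩)
      obtain ⟨n, rfl⟩ := (mem_ww htop).mp hx
      obtain ⟨q1, hq1, h3⟩ := (hdec γ h2 n).mp hxγ
      obtain ⟨r, hr, h4, h5⟩ := gen.dir q hq q1 hq1
      have h6 : FoQ {q | ∃ β < γ, q ∈ S n β} r := by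
        intro E hE
        obtain ⟨E', h7, β, h8, C, h9, h10⟩ := h1 n γ E (hE.trans h4) ⟨q1, h3, hE.trans h5⟩
        exact ⟨E', h7, C, ⟨β, h8, h9⟩, h10⟩
      obtain ⟨q2, hq2, β, hβ, h7⟩ := ht_of_fo all.qok gen (bok.b3 S hS γ h2 n) hr h6
      have h8 : Rel EE f (nv G zok n) (ov G ook (ook.seg γ h2 β hβ)) := (hdec β _ n).mpr ⟨q2, hq2, h7⟩
      have h9 := (hf.2 _ hx).unique hxγ h8
      exact absurd (ov_inj htop h9) hβ.ne'
  · intro x hx
    obtain ⟨α, hα, rfl⟩ := (mem_kk htop).mp hx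
    by_cases hne : ∃ β, β < α
    · right
      have hen : ∀ n, InT N (enm α n) := fun n => ook.seg α hα _ ((enm_spec hne _).mpr ⟨n, rfl⟩)
      have fn : FnOk N (fun n => opN (ck Q n) (ck Q (enm α n))) :=
        ⟨fun n _ => inN_op zok (zok.nat n) (ook.ck _ (hen n)), fun ρ _ ⟨n, hn⟩ => ⟨n, hn, all.rok.nat n⟩, bok.e α hα⟩
      have hrel : ∀ x y : MM N G, Rel EE (vl G fn.rg) x y ↔ ∃ n, x = nv G zok n ∧ y = ov G ook (hen n) := by
        intro x y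
        rw [rel_rg all.ok all.fok zok gen (fun n _ => zok.nat n) (fun n _ => ook.ck _ (hen n)) fn]
        constructor
        · rintro ⟨n, _, h1, h2⟩; exact ⟨n, h1, h2⟩
        · rintro ⟨n, h1, h2⟩; exact ⟨n, all.rok.nat n, h1, h2⟩
      refine ⟨vl G fn.rg, ⟨?_, ?_⟩, ?_⟩
      · intro p hp
        obtain ⟨n, h, rfl⟩ := (mem_rg htop fn).mp hp
        exact ⟨nv G zok n, ov G ook (hen n), (mem_ww htop).mpr ⟨n, rfl⟩,
          (ov_lt htop).mpr ((enm_spec hne _).mpr ⟨n, rfl⟩), op_pair all.ok zok gen _ _⟩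
      · intro x hx
        obtain ⟨n, rfl⟩ := (mem_ww htop).mp hx
        refine ⟨ov G ook (hen n), (hrel _ _).mpr ⟨n, rfl, rfl⟩, fun y hy => ?_⟩
        obtain ⟨m, h1, rfl⟩ := (hrel _ _).mp hy
        have := nv_inj htop h1
        subst this
        rfl
      · intro y hy
        obtain ⟨β, hβ, rfl⟩ := (mem_ov htop).mp hy
        obtain ⟨n, hn⟩ := (enm_spec hne _).mp hβ
        refine ⟨nv G zok n, (mem_ww htop).mpr ⟨n, rfl⟩, (hrel _ _).mpr ⟨n, rfl, ?_⟩⟩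
        subst hn
        rfl
    · left
      intro z hz
      obtain ⟨β, hβ, _⟩ := (mem_ov htop).mp hz
      exact hne ⟨β, hβ⟩

end

/-! ### The splitting family -/

/-- `q` forces that the set with the name `g α` splits all sets `X n`. -/
def SplP (g : Ω1 → ℕ → Set Q) (X : ℕ → ℕ → Set Q) (q : Q) (α : Ω1) : Prop :=
  ∀ n, ∀ E ≤ q, InfQ (X n) E → InfQ (capQ (X n) (g α)) E ∧ InfQ (difQ (X n) (g α)) E

/-- Closure properties of `N` used for the splitting family. -/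
structure GOk2 (N : Set (Un Q)) (g : Ω1 → ℕ → Set Q) : Prop where
  f1 : FnOk N (fun α => rlN (g α))
  f2 : FnOk N (fun α => opN (ck Q α) (rlN (g α)))
  ap : ∀ α : Ω1, InT N α → InT N (g α)
  g1 : ∀ X : ℕ → ℕ → Set Q, InT N X → InT N {q | ∃ α, SplP g X q α}
  g2 : ∀ X : ℕ → ℕ → Set Q, InT N X → ∀ q : Q, InT N q → (∃ α, SplP g X q α) → ∃ α, SplP g X q α ∧ InT N α
  g3 : ∀ X : ℕ → ℕ → Set Q, InT N X → ∀ n, InT N (X n)

lemma gok2_club (g : Ω1 → ℕ → Set Q) : ∀ᶠ N in club (Un Q), GOk2 N g := by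
  have h1 : ∀ᶠ N in club (Un Q), ∀ X : ℕ → ℕ → Set Q, InT N X → InT N {q | ∃ α, SplP g X q α} :=
    diagT (fun S => club_inT _)
  have h2 : ∀ᶠ N in club (Un Q), ∀ X : ℕ → ℕ → Set Q, InT N X → ∀ q : Q, InT N q → (∃ α, SplP g X q α) →
      ∃ α, SplP g X q α ∧ InT N α := by
    refine diagT (fun S => diagT (fun q => ?_))
    by_cases h : ∃ γ, SplP g S q γ
    · obtain ⟨γ, hγ⟩ := h
      exact (club_inT γ).mono (fun N hN _ => ⟨γ, hγ, hN⟩)
    · exact Filter.Eventually.of_forall (fun N h' => (h h').elim)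
  have h3 : ∀ᶠ N in club (Un Q), ∀ X : ℕ → ℕ → Set Q, InT N X → ∀ n, InT N (X n) :=
    diagT (fun S => club_all (fun n => club_inT _))
  have h4 : ∀ᶠ N in club (Un Q), ∀ α : Ω1, InT N α → InT N (g α) := diagT (fun α => club_inT _)
  filter_upwards [h1, h2, h3, h4, fnOk_club (fun α => rlN (g α)), fnOk_club (fun α => opN (ck Q α) (rlN (g α)))] with
    N h1 h2 h3 h4 h5 h6
  exact ⟨h5, h6, h4, h1, h2, h3⟩

section
variable {N : Set (Un Q)} {G : Set Q} (all : AllOk N) (gen : GenF N G)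

/-- An infinite set of natural numbers of the model. -/
lemma isInf_iff (htop : (⊤ : Q) ∈ G) {zok : ZOk N} {a : MM N G} : IsInf EE (ww G zok) a ↔
    CS.Sub EE a (ww G zok) ∧ ∀ j, ∃ k, j < k ∧ EE (nv G zok k) a := by
  refine and_congr_right (fun hsub => ⟨fun h j => ?_, fun h n hn => ?_⟩)
  · obtain ⟨m, hm, hjm⟩ := h (nv G zok j) ((mem_ww htop).mpr ⟨j, rfl⟩)
    obtain ⟨k, rfl⟩ := (mem_ww htop).mp (hsub m hm)
    exact ⟨k, (nv_lt htop).mp hjm, hm⟩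
  · obtain ⟨j, rfl⟩ := (mem_ww htop).mp hn
    obtain ⟨k, hk, hk'⟩ := h j
    exact ⟨nv G zok k, hk', (nv_lt htop).mpr hk⟩

lemma splits_iff (htop : (⊤ : Q) ∈ G) {zok : ZOk N} {a x : MM N G} (hsub : CS.Sub EE a (ww G zok)) :
    Splits EE (ww G zok) x a ↔ (∀ j, ∃ k, j < k ∧ EE (nv G zok k) a ∧ EE (nv G zok k) x) ∧
      ∀ j, ∃ k, j < k ∧ EE (nv G zok k) a ∧ ¬ EE (nv G zok k) x := by
  constructor
  · rintro ⟨h1, h2⟩
    refine ⟨fun j => ?_, fun j => ?_⟩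
    · obtain ⟨m, hm, hmx, hjm⟩ := h1 (nv G zok j) ((mem_ww htop).mpr ⟨j, rfl⟩)
      obtain ⟨k, rfl⟩ := (mem_ww htop).mp (hsub m hm)
      exact ⟨k, (nv_lt htop).mp hjm, hm, hmx⟩
    · obtain ⟨m, hm, hmx, hjm⟩ := h2 (nv G zok j) ((mem_ww htop).mpr ⟨j, rfl⟩)
      obtain ⟨k, rfl⟩ := (mem_ww htop).mp (hsub m hm)
      exact ⟨k, (nv_lt htop).mp hjm, hm, hmx⟩
  · rintro ⟨h1, h2⟩
    refine ⟨fun n hn => ?_, fun n hn => ?_⟩
    · obtain ⟨j, rfl⟩ := (mem_ww htop).mp hn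
      obtain ⟨k, hk, h3, h4⟩ := h1 j
      exact ⟨nv G zok k, h3, h4, (nv_lt htop).mpr hk⟩
    · obtain ⟨j, rfl⟩ := (mem_ww htop).mp hn
      obtain ⟨k, hk, h3, h4⟩ := h2 j
      exact ⟨nv G zok k, h3, h4, (nv_lt htop).mpr hk⟩

theorem omega_splitting {g : Ω1 → ℕ → Set Q} (gok : GOk2 N g) (gen : GenF N G)
    (good : ∀ (x : ℕ → ℕ → Set Q) (p : Q), ∃ q ≤ p, ∃ α : Ω1, SplP g x q α) :
    ∃ F : MM N G, IsOmegaSplitting EE (ww G all.zok) F ∧ ∃ f, IsSurj EE f (kk G all.ook) F := by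
  have htop := top_mem all.ok gen
  have zok := all.zok
  have ook := all.ook
  refine ⟨vl G gok.f1.rg, ⟨?_, ?_⟩, vl G gok.f2.rg, ⟨?_, ?_⟩, ?_⟩
  · intro x hx z hz
    obtain ⟨α, h, rfl⟩ := (mem_rg htop gok.f1).mp hx
    obtain ⟨n, rfl, _⟩ := (mem_rl (zok := zok) htop (gok.f1.fn α h)).mp hz
    exact (mem_ww htop).mpr ⟨n, rfl⟩
  · intro u hu hinf
    obtain ⟨X, hX, hdec⟩ := decode22 all.ok all.fok zok gen all.dok (fun n k => ∃ a, Rel EE u n a ∧ EE k a) (by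
      let _ := mdl all.ok all.fok zok gen
      have : ZFU.Pure (MM N G) := zPure (zf all.ok all.fok zok gen)
      have h1 : Dfn (fun v : Fin 2 → MM N G => ∃ a : MM N G, opair (v 0) a ∈ u ∧ v 1 ∈ a) := inferInstance
      exact Dfn.congr h1 (fun v => exists_congr (fun a => and_congr_left' rel_iff)))
    obtain ⟨q, hq, hqb⟩ := gen.gen _ (gok.g1 X hX) (fun p => by
      obtain ⟨q, h1, γ, h2⟩ := good X p
      exact ⟨q, ⟨γ, h2⟩, h1⟩)
    obtain ⟨α, h1, h2⟩ := gok.g2 X hX q (gen.sub q hq) hqb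
    refine ⟨vl G (gok.f1.fn α h2), (mem_rg htop gok.f1).mpr ⟨α, h2, rfl⟩, ?_⟩
    intro n' a hn' hna
    obtain ⟨n, rfl⟩ := (mem_ww htop).mp hn'
    have ha := hinf _ a hn' hna
    have hXn := gok.g3 X hX n
    have hga := gok.ap α h2
    have hka : ∀ k, EE (nv G zok k) a ↔ Ht G (X n k) := by
      intro k
      rw [← hdec n k]
      constructor
      · intro h; exact ⟨a, hna, h⟩
      · rintro ⟨a', h3, h4⟩
        rwa [(hu _ hn').unique hna h3]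
    have hkx : ∀ k, EE (nv G zok k) (vl G (gok.f1.fn α h2)) ↔ Ht G (g α k) := by
      intro k
      rw [mem_rl (zok := zok) htop]
      constructor
      · rintro ⟨m, h3, h4⟩
        rwa [nv_inj htop h3]
      · intro h; exact ⟨k, rfl, h⟩
    obtain ⟨q', hq', h3⟩ := inf_force all.qok all.iokN all.rok gen hXn (fun j => by
      obtain ⟨k, h4, h5⟩ := ((isInf_iff htop).mp ha).2 j
      exact ⟨k, h4, (hka k).mp h5⟩)
    obtain ⟨r, hr, h4, h5⟩ := gen.dir q hq q' hq'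
    obtain ⟨h6, h7⟩ := h1 n r h4 (fun j E hE => h3 j E (hE.trans h5))
    rw [splits_iff htop ha.1]
    refine ⟨fun j => ?_, fun j => ?_⟩
    · obtain ⟨k, h8, h9⟩ := inf_of_force all.qok all.iokN all.rok gen (all.rok.cap _ hXn _ hga) hr h6 j
      rw [ht_cap all.qok all.iokN all.rok gen hXn hga] at h9
      exact ⟨k, h8, (hka k).mpr h9.1, (hkx k).mpr h9.2⟩
    · obtain ⟨k, h8, h9⟩ := inf_of_force all.qok all.iokN all.rok gen (all.rok.dif _ hXn _ hga) hr h7 j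
      rw [ht_dif all.qok all.iokN all.rok gen hXn hga] at h9
      exact ⟨k, h8, (hka k).mpr h9.1, fun h => h9.2 ((hkx k).mp h)⟩
  · intro p hp
    obtain ⟨α, h, rfl⟩ := (mem_rg htop gok.f2).mp hp
    exact ⟨ov G ook h, vl G (gok.f1.fn α h), (mem_kk htop).mpr ⟨α, h, rfl⟩, (mem_rg htop gok.f1).mpr ⟨α, h, rfl⟩,
      op_pair all.ok zok gen _ _⟩
  · intro x hx
    obtain ⟨α, h, rfl⟩ := (mem_kk htop).mp hx
    refine ⟨vl G (gok.f1.fn α h), (rel_rg all.ok all.fok zok gen (fun α h => ook.ck α h) gok.f1.fn gok.f2).mpr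
      ⟨α, h, rfl, rfl⟩, ?_⟩
    intro y hy
    obtain ⟨β, hβ, h1, rfl⟩ := (rel_rg all.ok all.fok zok gen (fun α h => ook.ck α h) gok.f1.fn gok.f2).mp hy
    have := ov_inj (ook := ook) (hα := h) (hβ := hβ) htop h1
    subst this
    rfl
  · intro y hy
    obtain ⟨α, h, rfl⟩ := (mem_rg htop gok.f1).mp hy
    exact ⟨ov G ook h, (mem_kk htop).mpr ⟨α, h, rfl⟩,
      (rel_rg all.ok all.fok zok gen (fun α h => ook.ck α h) gok.f1.fn gok.f2).mpr ⟨α, h, rfl, rfl⟩⟩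

end

/-! ### Club-splitting sequences -/

/-- The name of the set of elements of `C` between `α` and `δ`. -/
def S12 (C : Ω1 → Set Q) (α δ : Ω1) : Set Q := {E | ∃ β, α < β ∧ β < δ ∧ E ∈ C β}
/-- The name of the set of elements of `C` above `α`. -/
def S1 (C : Ω1 → Set Q) (α : Ω1) : Set Q := {E | ∃ β, α < β ∧ E ∈ C β}
/-- The truth value of the statement that `C` is closed at `δ`. -/
def S2 (C : Ω1 → Set Q) (δ : Ω1) : Set Q := {q | (∃ α, α < δ) → FoQ (C δ) q ∨ ∃ α < δ, IncQ (S12 C α δ) q}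
/-- The truth value of the statement that `a δ` splits `x` if `δ` belongs to `C`. -/
def S3 (a : Ω1 → ℕ → Set Q) (x : ℕ → Set Q) (C : Ω1 → Set Q) (δ : Ω1) : Set Q :=
  {q | IncQ (C δ) q ∨ (InfQ (capQ x (a δ)) q ∧ InfQ (difQ x (a δ)) q)}

/-- `x` is forced to be a counterexample to club-splitting. -/
def NocP (a : Ω1 → ℕ → Set Q) (q : Q) (x : ℕ → Set Q) : Prop := InfQ x q ∧ ∀ q' ≤ q, ∀ C, ¬ ClubQ a x C q'

/-- Closure properties of `N` used for club-splitting sequences. -/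
structure COk2 (N : Set (Un Q)) : Prop where
  n1 : ∀ a : Ω1 → ℕ → Set Q, InT N a → InT N {q | ∃ x, NocP a q x}
  n2 : ∀ a : Ω1 → ℕ → Set Q, InT N a → ∀ q : Q, InT N q → (∃ x, NocP a q x) → ∃ x, NocP a q x ∧ InT N x
  n3 : ∀ a : Ω1 → ℕ → Set Q, InT N a → ∀ α : Ω1, InT N α → InT N (a α)
  s1 : ∀ C : Ω1 → Set Q, InT N C → InT N (S1 C)
  s12 : ∀ C : Ω1 → Set Q, InT N C → ∀ α : Ω1, InT N α → ∀ δ : Ω1, InT N δ → InT N (S12 C α δ)
  s2 : ∀ C : Ω1 → Set Q, InT N C → InT N (S2 C)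
  s3 : ∀ a : Ω1 → ℕ → Set Q, InT N a → ∀ x : ℕ → Set Q, InT N x → ∀ C : Ω1 → Set Q, InT N C → InT N (S3 a x C)

lemma cok2_club : ∀ᶠ N in club (Un Q), COk2 N := by
  have h1 : ∀ᶠ N in club (Un Q), ∀ a : Ω1 → ℕ → Set Q, InT N a → InT N {q | ∃ x, NocP a q x} :=
    diagT (fun S => club_inT _)
  have h2 : ∀ᶠ N in club (Un Q), ∀ a : Ω1 → ℕ → Set Q, InT N a → ∀ q : Q, InT N q → (∃ x, NocP a q x) →
      ∃ x, NocP a q x ∧ InT N x := by
    refine diagT (fun S => diagT (fun q => ?_))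
    by_cases h : ∃ x, NocP S q x
    · obtain ⟨x, hx⟩ := h
      exact (club_inT x).mono (fun N hN _ => ⟨x, hx, hN⟩)
    · exact Filter.Eventually.of_forall (fun N h' => (h h').elim)
  have h3 : ∀ᶠ N in club (Un Q), ∀ a : Ω1 → ℕ → Set Q, InT N a → ∀ α : Ω1, InT N α → InT N (a α) :=
    diagT (fun S => diagT (fun α => club_inT _))
  have h4 : ∀ᶠ N in club (Un Q), ∀ C : Ω1 → Set Q, InT N C → InT N (S1 C) := diagT (fun α => club_inT _)
  have h5 : ∀ᶠ N in club (Un Q), ∀ C : Ω1 → Set Q, InT N C → ∀ α : Ω1, InT N α → ∀ δ : Ω1, InT N δ →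
      InT N (S12 C α δ) := diagT (fun C => diagT (fun α => diagT (fun δ => club_inT _)))
  have h6 : ∀ᶠ N in club (Un Q), ∀ C : Ω1 → Set Q, InT N C → InT N (S2 C) := diagT (fun α => club_inT _)
  have h7 : ∀ᶠ N in club (Un Q), ∀ a : Ω1 → ℕ → Set Q, InT N a → ∀ x : ℕ → Set Q, InT N x → ∀ C : Ω1 → Set Q,
      InT N C → InT N (S3 a x C) := diagT (fun a => diagT (fun x => diagT (fun C => club_inT _)))
  filter_upwards [h1, h2, h3, h4, h5, h6, h7] with N h1 h2 h3 h4 h5 h6 h7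
  exact ⟨h1, h2, h3, h4, h5, h6, h7⟩

section
variable {N : Set (Un Q)} {G : Set Q} (all : AllOk N) (gen : GenF N G)

theorem no_club_splitting (cok : COk2 N) (gen : GenF N G)
    (good : ∀ (a : Ω1 → ℕ → Set Q) (p : Q), ∃ q ≤ p, ∃ x, NocP a q x) (A : MM N G) :
    ¬ IsClubSplitting EE (ww G all.zok) (kk G all.ook) A := by
  have htop := top_mem all.ok gen
  have zok := all.zok
  have ook := all.ook
  rintro ⟨hA1, hA2, hA3⟩
  obtain ⟨a, ha, hdec⟩ := decode12 all.ok all.fok zok gen all.dok ook (fun α k => ∃ b, Rel EE A α b ∧ EE k b) (by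
    let _ := mdl all.ok all.fok zok gen
    have : ZFU.Pure (MM N G) := zPure (zf all.ok all.fok zok gen)
    have h1 : Dfn (fun v : Fin 2 → MM N G => ∃ b : MM N G, opair (v 0) b ∈ A ∧ v 1 ∈ b) := inferInstance
    exact Dfn.congr h1 (fun v => exists_congr (fun a => and_congr_left' rel_iff)))
  obtain ⟨q0, hq0, hq0n⟩ := gen.gen _ (cok.n1 a ha) (fun p => by
    obtain ⟨q, h1, x, h2⟩ := good a p
    exact ⟨q, ⟨x, h2⟩, h1⟩)
  obtain ⟨x, ⟨hx1, hx2⟩, hx⟩ := cok.n2 a ha q0 (gen.sub q0 hq0) hq0n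
  set b : MM N G := vl G (all.rok.rl x hx) with hb
  have hkb : ∀ k, EE (nv G zok k) b ↔ Ht G (x k) := by
    intro k
    rw [hb, mem_rl (zok := zok) htop]
    constructor
    · rintro ⟨m, h3, h4⟩
      rwa [nv_inj htop h3]
    · intro h; exact ⟨k, rfl, h⟩
  have hbinf : IsInf EE (ww G zok) b := by
    refine (isInf_iff htop).mpr ⟨fun z hz => ?_, fun j => ?_⟩
    · obtain ⟨n, rfl, _⟩ := (mem_rl (zok := zok) htop _).mp hz
      exact (mem_ww htop).mpr ⟨n, rfl⟩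
    · obtain ⟨k, h1, h2⟩ := inf_of_force all.qok all.iokN all.rok gen hx hq0 hx1 j
      exact ⟨k, h1, (hkb k).mpr h2⟩
  obtain ⟨Cs, ⟨hC1, hC2, hC3⟩, hsp⟩ := hA3 b hbinf
  obtain ⟨C, hC, hdecC⟩ := decode1 all.ok all.fok zok gen all.dok ook (fun α => EE α Cs) (by
    let _ := mdl all.ok all.fok zok gen
    have h1 : Dfn (fun v : Fin 1 → MM N G => v 0 ∈ Cs) := inferInstance
    exact h1)
  have hCT : ∀ α : Ω1, InT N α → InT N (C α) := fun α hα => all.iokO.app C hC α hα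
  -- unboundedness
  obtain ⟨q1, hq1, h1⟩ := all_ht gen all.iokO (cok.s1 C hC) (fun α hα => by
    obtain ⟨β', hβ', h2⟩ := hC2 (ov G ook hα) ((mem_kk htop).mpr ⟨α, hα, rfl⟩)
    obtain ⟨β, hβ, rfl⟩ := (mem_kk htop).mp (hC1 β' hβ')
    obtain ⟨q, hq, h3⟩ := (hdecC β hβ).mp hβ'
    exact ⟨q, hq, β, (ov_lt htop).mp h2, h3⟩)
  -- closedness
  obtain ⟨q2, hq2, h2⟩ := all_ht gen all.iokO (cok.s2 C hC) (fun δ hδ => by
    by_cases hne : ∃ α, α < δ
    · by_cases hin : EE (ov G ook hδ) Cs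
      · obtain ⟨q, hq, h3⟩ := (hdecC δ hδ).mp hin
        exact ⟨q, hq, fun _ => Or.inl (foQ_of_bel ⟨q, h3, le_rfl⟩)⟩
      · have h3 : ∃ α, ∃ hα : α < δ, ∀ β : MM N G, EE β Cs → EE (ov G ook (ook.seg δ hδ α hα)) β → ¬ EE β (ov G ook hδ) := by
          by_contra hcon
          push Not at hcon
          apply hin
          obtain ⟨α, hα⟩ := hne
          refine hC3 _ ((mem_kk htop).mpr ⟨δ, hδ, rfl⟩) ⟨_, (mem_ov htop).mpr ⟨α, hα, rfl⟩⟩ ?_
          intro α' hα'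
          obtain ⟨α2, hα2, rfl⟩ := (mem_ov htop).mp hα'
          exact hcon α2 hα2
        obtain ⟨α, hα, h4⟩ := h3
        rcases dec_ht all.qok gen (cok.s12 C hC α (ook.seg δ hδ α hα) δ hδ) with ⟨q, hq, β, hβ1, hβ2, h5⟩ | ⟨q, hq, h5⟩
        · exfalso
          have hβN := ook.seg δ hδ β hβ2
          exact h4 (ov G ook hβN) ((hdecC β hβN).mpr ⟨q, hq, h5⟩) ((ov_lt htop).mpr hβ1) ((ov_lt htop).mpr hβ2)
        · exact ⟨q, hq, fun _ => Or.inr ⟨α, hα, h5⟩⟩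
    · exact ⟨⊤, htop, fun h => (hne h).elim⟩)
  -- splitting
  obtain ⟨q3, hq3, h3⟩ := all_ht gen all.iokO (cok.s3 a ha x hx C hC) (fun δ hδ => by
    have haδ := cok.n3 a ha δ hδ
    rcases dec_ht all.qok gen (hCT δ hδ) with hin | ⟨q, hq, h4⟩
    · have hin' : EE (ov G ook hδ) Cs := (hdecC δ hδ).mpr hin
      have hδκ : EE (ov G ook hδ) (kk G ook) := (mem_kk htop).mpr ⟨δ, hδ, rfl⟩
      obtain ⟨c, hc, hcu⟩ := hA1 _ hδκ
      have hsp' := hsp _ c hin' hc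
      rw [splits_iff htop hbinf.1] at hsp'
      have hkc : ∀ k, EE (nv G zok k) c ↔ Ht G (a δ k) := by
        intro k
        rw [← hdec δ hδ k]
        constructor
        · intro h; exact ⟨c, hc, h⟩
        · rintro ⟨c', h5, h6⟩
          rwa [← hcu c' h5]
      obtain ⟨q4, hq4, h5⟩ := inf_force all.qok all.iokN all.rok gen (all.rok.cap x hx _ haδ) (fun j => by
        obtain ⟨k, h6, h7, h8⟩ := hsp'.1 j
        exact ⟨k, h6, (ht_cap all.qok all.iokN all.rok gen hx haδ k).mpr ⟨(hkb k).mp h7, (hkc k).mp h8⟩⟩)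
      obtain ⟨q5, hq5, h6⟩ := inf_force all.qok all.iokN all.rok gen (all.rok.dif x hx _ haδ) (fun j => by
        obtain ⟨k, h6, h7, h8⟩ := hsp'.2 j
        exact ⟨k, h6, (ht_dif all.qok all.iokN all.rok gen hx haδ k).mpr ⟨(hkb k).mp h7, fun h => h8 ((hkc k).mpr h)⟩⟩)
      obtain ⟨r, hr, h7, h8⟩ := gen.dir q4 hq4 q5 hq5
      exact ⟨r, hr, Or.inr ⟨fun j E hE => h5 j E (hE.trans h7), fun j E hE => h6 j E (hE.trans h8)⟩⟩
    · exact ⟨q, hq, Or.inl h4⟩)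
  obtain ⟨r1, hr1, i1, i2⟩ := gen.dir q0 hq0 q1 hq1
  obtain ⟨r2, hr2, i3, i4⟩ := gen.dir q2 hq2 q3 hq3
  obtain ⟨r, hr, i5, i6⟩ := gen.dir r1 hr1 r2 hr2
  refine hx2 r (i5.trans i1) C ⟨fun α => foQ_mono (h1 α) (i5.trans i2), fun δ hδ q' hq' hfo E hE => ?_,
    fun δ q' hq' hbel => ?_⟩
  · obtain ⟨E1, j1, D, j2, j3⟩ := h2 δ E (hE.trans (hq'.trans (i6.trans i3)))
    rcases j2 hδ with h | ⟨α, hα, h⟩
    · obtain ⟨E2, j4, j5⟩ := h E1 j3
      exact ⟨E2, j4.trans j1, j5⟩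
    · exfalso
      obtain ⟨E2, j4, j5⟩ := hfo α hα E1 (j1.trans hE)
      exact h E2 (j4.trans j3) j5
  · have key : ∀ E ≤ q', ∃ E1 ≤ E, ∃ D, E1 ≤ D ∧ InfQ (capQ x (a δ)) D ∧ InfQ (difQ x (a δ)) D := by
      intro E hE
      obtain ⟨E1, j1, D, j2, j3⟩ := h3 δ E (hE.trans (hq'.trans (i6.trans i4)))
      rcases j2 with h | h
      · exact (h E1 j3 (belQ_mono hbel (j1.trans hE))).elim
      · exact ⟨E1, j1, D, j3, h⟩
    constructor
    · intro j E hE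
      obtain ⟨E1, j1, D, j2, j3, _⟩ := key E hE
      obtain ⟨E2, j4, j5⟩ := j3 j E1 j2
      exact ⟨E2, j4.trans j1, j5⟩
    · intro j E hE
      obtain ⟨E1, j1, D, j2, _, j3⟩ := key E hE
      obtain ⟨E2, j4, j5⟩ := j3 j E1 j2
      exact ⟨E2, j4.trans j1, j5⟩

end

end Pool.Agent.H55.Lav
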