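import Pool.Agent.H55.Lav.Gen

set_option autoImplicit false
set_option linter.unusedSectionVars false

/-!
# Gluing of conditions, and the pure front lemma
-/

namespace Pool.Agent.H55.Lav

open Cond

variable {W T : Type} [LinearOrder W] [WellFoundedLT W]

/-- The tree of `E` at coordinate `δ` has the constant stem `t`. -/
def StC (δ : W) (E : Cond W) (t : List ℕ) : Prop := ∀ z ∈ E.Bd δ, E.st δ z = t

/-- `E` is a pure extension of `C` at coordinate `δ`. -/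
def Pure (δ : W) (E C : Cond W) : Prop := E ≤ C ∧ ∀ z ∈ E.Bd δ, E.st δ z = C.st δ z

/-- The branches of `E` pass through a front of nodes at which `E` is a pure extension of an element of `S`. -/
def Front (δ : W) (E : Cond W) (S : Set (Cond W)) : Prop :=
  ∃ 𝓕 : Set (Cond W), 𝓕.Countable ∧ 𝓕 ⊆ S ∧ ∀ z ∈ E.body, ∃ D ∈ 𝓕, ∃ (F : Finset W) (k n : ℕ), (∀ γ ∈ F, γ < δ) ∧
    (E.st δ z).length ≤ n ∧ ∀ z' ∈ E.body, Agr F k z z' → res (z' δ) n = res (z δ) n →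
      z' ∈ D.body ∧ D.st δ z' = res (z δ) n

lemma Pure.refl (δ : W) (C : Cond W) : Pure δ C C := ⟨le_rfl, fun _ _ => rfl⟩

lemma Pure.trans {δ : W} {E D C : Cond W} (h : Pure δ E D) (h' : Pure δ D C) : Pure δ E C :=
  ⟨h.1.trans h'.1, fun z hz => (h.2 z hz).trans (h'.2 z (le_Bd h.1 hz))⟩

lemma Front.pure {δ : W} {E C : Cond W} {S : Set (Cond W)} (h : Front δ C S) (h' : Pure δ E C) : Front δ E S := by
  obtain ⟨𝓕, h1, h2, h3⟩ := h
  refine ⟨𝓕, h1, h2, fun z hz => ?_⟩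
  obtain ⟨D, hD, F, k, n, h4, h5, h6⟩ := h3 z (h'.1 hz)
  exact ⟨D, hD, F, k, n, h4, by rw [h'.2 z (body_sub_Bd hz)]; exact h5, fun z' hz' => h6 z' (h'.1 hz')⟩

lemma Front.front {δ : W} {E : Cond W} {S : Set (Cond W)} (h : Front δ E {C | Front δ C S}) : Front δ E S := by
  obtain ⟨𝓕, h1, h2, h3⟩ := h
  choose! g hg1 hg2 hg3 using fun (C : Cond W) (hC : C ∈ 𝓕) => h2 hC
  refine ⟨⋃ C ∈ 𝓕, g C, h1.biUnion hg1, Set.iUnion₂_subset hg2, fun z hz => ?_⟩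
  obtain ⟨D, hD, F, k, n, h4, h5, h6⟩ := h3 z hz
  obtain ⟨h7, h8⟩ := h6 z hz (Agr.refl _ _ _) rfl
  obtain ⟨D', hD', F', k', n', h4', h5', h6'⟩ := hg3 D hD z h7
  rw [h8, length_res] at h5'
  refine ⟨D', Set.mem_biUnion hD hD', F ∪ F', max k k', n', ?_, h5.trans h5', fun z' hz' ha hr => ?_⟩
  · intro γ hγ
    rcases Finset.mem_union.mp hγ with h | h
    · exact h4 γ h
    · exact h4' γ h
  · exact h6' z' (h6 z' hz' (ha.mono Finset.subset_union_left (le_max_left _ _)) (res_mono hr h5')).1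
      (ha.mono Finset.subset_union_right (le_max_right _ _)) hr

lemma Front.fo {δ δ' : W} (hs : ∀ γ : W, γ < δ' ↔ γ ≤ δ) {E : Cond W} {Q : Set (Cond W)}
    (h : Front δ E {C | Fo δ' Q C}) : Fo δ' Q E := by
  obtain ⟨𝓕, h1, h2, h3⟩ := h
  intro E1 hE1 hle
  obtain ⟨z, hz⟩ := E1.body_nonempty
  obtain ⟨D, hD, F, k, n, h4, h5, h6⟩ := h3 z (hle hz)
  have h7 : LocIn δ' E1.body z D.body := by
    classical
    refine ⟨insert δ F, max k n, ?_, fun z' hz' ha => ?_⟩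
    · intro γ hγ
      rcases Finset.mem_insert.mp hγ with h | h
      · rw [h, hs]
      · rw [hs]; exact (h4 γ h).le
    · exact (h6 z' (hle hz') (ha.mono (Finset.subset_insert _ _) (le_max_left _ _))
        (ha.res (Finset.mem_insert_self _ _) (le_max_right _ _)).symm).1
  obtain ⟨E2, h8, h9, _, h10⟩ := h7.cond hE1 hz
  obtain ⟨E3, h11, h12, h13⟩ := h2 hD E2 h8 h10
  exact ⟨E3, h11, h12.trans h9, h13⟩

/-- The sections of a smaller condition are smaller. -/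
lemma section_le {δ : W} {C D : Cond W} (h : C ≤ D) {z : Z W} (hz : z ∈ C.Bd δ) {y : ℕ → ℕ}
    (hy : Br (C.st δ z) (C.su δ z) y) : Br (D.st δ z) (D.su δ z) y := by
  classical
  have e0 : ∀ γ < δ, Function.update z δ y γ = z γ := fun γ hγ => by simp [hγ.ne]
  obtain ⟨w, hw, hw'⟩ := exists_ext_aux C (Function.update z δ y) (fun γ => γ ≤ δ) (fun _ _ h h' => h.le.trans h') (by
    intro γ hγ
    obtain ⟨e1, e2⟩ := depEq (C := C) (γ := γ) (z := Function.update z δ y) (z' := z)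
      (fun ε hε => e0 ε (hε.trans_le hγ))
    rcases hγ.lt_or_eq with h | h
    · rw [e1, e2, e0 γ h]; exact hz γ h
    · subst h
      rw [e1, e2]; simpa using hy)
  have h1 := h hw δ
  obtain ⟨e1, e2⟩ := depEq (C := D) (γ := δ) (z := w) (z' := z) (fun ε hε => by rw [hw' ε hε.le, e0 ε hε])
  rw [e1, e2, hw' δ le_rfl] at h1
  simpa using h1

lemma section_mem {δ δ' : W} (hs : ∀ γ : W, γ < δ' ↔ γ ≤ δ) {C : Cond W} (hC : C ∈ P δ') {z : Z W} :
    z ∈ C.body ↔ z ∈ C.Bd δ ∧ Br (C.st δ z) (C.su δ z) (z δ) := by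
  rw [body_eq hC]
  constructor
  · intro h
    exact ⟨fun γ hγ => h γ (by rw [hs]; exact hγ.le), h δ (by rw [hs])⟩
  · rintro ⟨h1, h2⟩ γ hγ
    rw [hs] at hγ
    rcases hγ.lt_or_eq with h | h
    · exact h1 γ h
    · rw [h]; exact h2

lemma le_of_section {δ δ' : W} (hs : ∀ γ : W, γ < δ' ↔ γ ≤ δ) {C D : Cond W} (hC : C ∈ P δ') (hD : D ∈ P δ')
    (h1 : C.Bd δ ⊆ D.Bd δ)
    (h2 : ∀ z ∈ C.Bd δ, ∀ y, Br (C.st δ z) (C.su δ z) y → Br (D.st δ z) (D.su δ z) y) : C ≤ D := by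
  intro z hz
  rw [section_mem hs hC] at hz
  rw [section_mem hs hD]
  exact ⟨h1 hz.1, h2 z hz.1 _ hz.2⟩

lemma st_nd {δ : W} {C D : Cond W} (h : C ≤ D) {z : Z W} (hz : z ∈ C.Bd δ) : Nd (D.st δ z) (D.su δ z) (C.st δ z) :=
  stem_nd (C.inf δ z) (fun _ hy => section_le h hz hy)

lemma su_sub {δ : W} {C D : Cond W} (h : C ≤ D) {z : Z W} (hz : z ∈ C.Bd δ) {t : List ℕ}
    (ht : Nd (C.st δ z) (C.su δ z) t) : C.su δ z t ⊆ D.su δ z t :=
  succ_sub (C.inf δ z) (fun _ hy => section_le h hz hy) ht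

lemma nd_le {δ : W} {C D : Cond W} (h : C ≤ D) {z : Z W} (hz : z ∈ C.Bd δ) {t : List ℕ}
    (ht : Nd (C.st δ z) (C.su δ z) t) : Nd (D.st δ z) (D.su δ z) t :=
  nd_sub (C.inf δ z) (fun _ hy => section_le h hz hy) ht

lemma amal_pure {δ : W} {G E : Cond W} (h : G.Bd δ ⊆ E.Bd δ) : Pure δ (amal G E δ h) E :=
  ⟨amal_le, fun z _ => by rw [amal_st_ge le_rfl]⟩

lemma amal_stc {δ : W} {G E : Cond W} (h : G.Bd δ ⊆ E.Bd δ) {t : List ℕ} (hE : ∀ z ∈ G.Bd δ, E.st δ z = t) :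
    StC δ (amal G E δ h) t := fun z hz => by
  rw [amal_st_ge le_rfl]
  exact hE z (by rwa [amal_Bd le_rfl] at hz)

open Classical in
/-- The condition which is `r` below `δ` and has the tree `s z`, `S z` at `δ`. -/
noncomputable def ext1 {δ : W} (r : Cond W) (hr : r ∈ P δ) (s : Z W → List ℕ) (S : Z W → List ℕ → Set ℕ) (A : Set W)
    (hA : A.Countable) (hdep : ∀ z z', (∀ γ ∈ A, γ < δ → z γ = z' γ) → s z = s z' ∧ S z = S z')
    (hinf : ∀ z ∈ r.Bd δ, ∀ t, (S z t).Infinite) (hs : LC δ (r.Bd δ) s)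
    (hS : ∀ t m, LC δ (r.Bd δ) (fun z => m ∈ S z t)) : Cond W :=
  r.upd δ s (fun z t => if z ∈ r.Bd δ then S z t else Set.univ) (A ∪ r.supp) (hA.union r.count)
    (by
      intro z z' h
      obtain ⟨h1, h2⟩ := hdep z z' (fun γ hγ => h γ (Or.inl hγ))
      have h3 := Bd_iff_supp (C := r) (β := δ) (fun γ hγ => h γ (Or.inr hγ))
      refine ⟨h1, ?_⟩
      funext t
      simp only [h3, h2])
    (by
      intro z t
      by_cases h : z ∈ r.Bd δ
      · simp only [h, if_true]; exact hinf z h t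
      · simp only [h, if_false]; exact Set.infinite_univ)
    hs
    (by
      intro t m z hz
      refine (hS t m z hz).congr hz (fun z' hz' => ?_)
      simp only [hz', if_true])
    (by
      intro z _ y _
      obtain ⟨h1, h2⟩ := r.triv δ (fun h => (hr δ h).false) z
      rw [h1, h2]
      exact ⟨rfl, fun _ _ => trivial⟩)

section ext1
variable {δ δ' : W} {r : Cond W} {hr : r ∈ P δ} {s : Z W → List ℕ} {S : Z W → List ℕ → Set ℕ} {A : Set W}
    {hA : A.Countable} {hdep : ∀ z z', (∀ γ ∈ A, γ < δ → z γ = z' γ) → s z = s z' ∧ S z = S z'}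
    {hinf : ∀ z ∈ r.Bd δ, ∀ t, (S z t).Infinite} {hs : LC δ (r.Bd δ) s}
    {hS : ∀ t m, LC δ (r.Bd δ) (fun z => m ∈ S z t)}

lemma ext1_st : (ext1 r hr s S A hA hdep hinf hs hS).st δ = s := upd_st
lemma ext1_su {z : Z W} (hz : z ∈ r.Bd δ) : (ext1 r hr s S A hA hdep hinf hs hS).su δ z = S z := by
  have : (ext1 r hr s S A hA hdep hinf hs hS).su δ = _ := upd_su
  rw [this]
  funext t
  simp [hz]
lemma ext1_Bd : (ext1 r hr s S A hA hdep hinf hs hS).Bd δ = r.Bd δ := upd_Bd le_rfl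
lemma ext1_mem (hsc : ∀ γ : W, γ < δ' ↔ γ ≤ δ) : ext1 r hr s S A hA hdep hinf hs hS ∈ P δ' :=
  upd_mem_P (P_mono (((hsc δ).mpr le_rfl).le) hr) ((hsc δ).mpr le_rfl)
lemma mem_ext1 (hsc : ∀ γ : W, γ < δ' ↔ γ ≤ δ) {z : Z W} : z ∈ (ext1 r hr s S A hA hdep hinf hs hS).body ↔
    z ∈ r.Bd δ ∧ Br (s z) (S z) (z δ) := by
  rw [section_mem hsc (ext1_mem hsc), ext1_Bd, ext1_st]
  constructor
  · rintro ⟨h1, h2⟩
    rw [ext1_su h1] at h2
    exact ⟨h1, h2⟩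
  · rintro ⟨h1, h2⟩
    rw [ext1_su h1]
    exact ⟨h1, h2⟩
end ext1

/-- Conditions `G` below the restriction of an element of `𝒢` below `C` with constant stem `t`. -/
def K (δ δ' : W) (𝒢 : Set (Cond W)) (C : Cond W) (t : List ℕ) : Set (Cond W) :=
  {G | G ∈ P δ ∧ ∃ E ∈ P δ', E ≤ C ∧ StC δ E t ∧ E ∈ 𝒢 ∧ G ≤ E.restr δ}

/-- Conditions `G` which force that `m` is an immediate successor of `t` in `C` and belong to `K` for the node
`t ++ [m]`. -/
def KA (δ δ' : W) (𝒢 : Set (Cond W)) (C : Cond W) (t : List ℕ) (m : ℕ) : Set (Cond W) :=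
  {G | G ∈ K δ δ' 𝒢 C (t ++ [m]) ∧ ∀ z ∈ G.body, m ∈ C.su δ z t}

/-- Closure properties used for gluing. -/
structure GOk (N : Set (Ob W T)) (δ δ' : W) (𝒢 : Set (Cond W)) (C : Cond W) : Prop where
  ok : Ok N δ
  cC : Ob.c C ∈ N
  cr : ∀ E, Ob.c E ∈ N → Ob.c (E.restr δ) ∈ N
  kd : ∀ t, Ob.d (K δ δ' 𝒢 C t) ∈ N
  ka : ∀ t, Ob.x (KA δ δ' 𝒢 C t) ∈ N
  ks : ∀ t m, Ob.d {G | G ∈ P δ ∧ ∀ z ∈ G.body, m ∈ C.su δ z t} ∈ N
  wit : ∀ t G, Ob.c G ∈ N → G ∈ K δ δ' 𝒢 C t →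
    ∃ E ∈ P δ', Ob.c E ∈ N ∧ E ≤ C ∧ StC δ E t ∧ E ∈ 𝒢 ∧ G ≤ E.restr δ

lemma gok_club (δ δ' : W) (𝒢 : Set (Cond W)) (C : Cond W) : ∀ᶠ N in club (Ob W T), GOk N δ δ' 𝒢 C := by
  have h1 : ∀ᶠ N in club (Ob W T), ∀ E, Ob.c E ∈ N → Ob.c (E.restr δ) ∈ N :=
    club_diag' _ Ob.c_inj (fun C => club_mem _)
  have h2 : ∀ᶠ N in club (Ob W T), ∀ t, ∀ G, Ob.c G ∈ N → G ∈ K δ δ' 𝒢 C t →
      ∃ E ∈ P δ', Ob.c E ∈ N ∧ E ≤ C ∧ StC δ E t ∧ E ∈ 𝒢 ∧ G ≤ E.restr δ := by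
    refine club_all (fun t => club_diag' _ Ob.c_inj (fun G => ?_))
    by_cases h : G ∈ K δ δ' 𝒢 C t
    · obtain ⟨_, E, h1, h2, h3, h4, h5⟩ := h
      exact (club_mem (Ob.c E)).mono (fun N hN _ => ⟨E, h1, hN, h2, h3, h4, h5⟩)
    · exact Filter.Eventually.of_forall (fun N h' => (h h').elim)
  filter_upwards [ok_club, club_mem (Ob.w δ), club_mem (Ob.c C), h1,
    club_all (fun t => club_mem (Ob.d (K δ δ' 𝒢 C t))), club_all (fun t => club_mem (Ob.x (KA δ δ' 𝒢 C t))), h2,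
    club_all (fun t => club_all (fun m => club_mem (Ob.d {G | G ∈ P δ ∧ ∀ z ∈ G.body, m ∈ C.su δ z t})))]
    with N a b c d e f g h
  exact ⟨a δ b, c, d, e, f, h, g⟩

lemma LCat.of_locIn {α : Type*} {β : W} {X Y : Set (Z W)} {h : Z W → α} {z : Z W} (H : LCat β Y h z)
    (HX : LocIn β X z Y) : LCat β X h z := by
  classical
  obtain ⟨F, k, h1, h2⟩ := H
  obtain ⟨F', k', h1', h2'⟩ := HX
  refine ⟨F ∪ F', max k k', fun γ hγ => ?_, fun z' hz' ha => ?_⟩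
  · rcases Finset.mem_union.mp hγ with h | h
    · exact h1 γ h
    · exact h1' γ h
  · exact h2 z' (h2' z' hz' (ha.mono Finset.subset_union_right (le_max_right _ _)))
      (ha.mono Finset.subset_union_left (le_max_left _ _))

lemma getD_res {y : ℕ → ℕ} {n k : ℕ} (h : k < n) : (res y n).getD k 0 = y k := by
  induction n with
  | zero => omega
  | succ n ih =>
    rw [res_succ]
    rcases Nat.lt_succ_iff_lt_or_eq.mp h with h1 | h1
    · rw [List.getD_append _ _ _ _ (by simpa using h1)]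
      exact ih h1
    · subst h1
      rw [List.getD_append_right _ _ _ _ (by simp)]
      simp

/-- A locally true property is forced by an element of `N`. -/
lemma hit_loc {N : Set (Ob W T)} {β : W} {X : Set (Z W)} {z : Z W} (ok : Ok N β) (gen : Gen N β X) (hz : z ∈ X)
    {D : Cond W} (hD : D ∈ P β) (hDN : Ob.c D ∈ N) (hzD : z ∈ D.body) {Y : Set (Z W)} (h : LocIn β D.body z Y)
    {Q : Set (Cond W)} (hQN : Ob.d Q ∈ N) (hQ : ∀ G ∈ P β, G ≤ D → G.body ⊆ Y → G ∈ Q) : Hit N β Q z := by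
  rcases decide_hit ok gen hz hQN with h' | ⟨E, h1, h2, h3, _, h5⟩
  · exact h'
  · obtain ⟨E', h6, h7, h8, h9, h10, _⟩ := directed ok gen hz h2 hDN h1 hD h3 hzD
    obtain ⟨E'', h11, h12, _, h13⟩ := (h.mono_left h9).cond h6 h10
    exact (h5 E'' (hQ E'' h11 (h12.trans h9) h13) h11 E'' h11 (h12.trans h8) le_rfl).elim

section glue
variable {N : Set (Ob W T)} {δ δ' : W} {𝒢 : Set (Cond W)} {C : Cond W}

lemma K_down {t : List ℕ} {G G' : Cond W} (h : G ∈ K δ δ' 𝒢 C t) (hG' : G' ∈ P δ) (hle : G' ≤ G) :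
    G' ∈ K δ δ' 𝒢 C t := by
  obtain ⟨_, E, h1, h2, h3, h4, h5⟩ := h
  exact ⟨hG', E, h1, h2, h3, h4, hle.trans h5⟩

variable (gok : GOk N δ δ' 𝒢 C) {X : Set (Z W)} (gen : Gen N δ X) (hX : X ⊆ C.Bd δ)
include gok gen hX

lemma hit_KA {z : Z W} (hz : z ∈ X) {t : List ℕ} {m : ℕ} :
    Hit N δ (KA δ δ' 𝒢 C t m) z ↔ m ∈ C.su δ z t ∧ Hit N δ (K δ δ' 𝒢 C (t ++ [m])) z := by
  constructor
  · rintro ⟨G, ⟨h1, h2⟩, h3, h4, h5⟩
    exact ⟨h2 z h5, G, h1, h3, h4, h5⟩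
  · rintro ⟨h1, G, h2, h3, h4, h5⟩
    have h6 : Hit N δ {G | G ∈ P δ ∧ ∀ z ∈ G.body, m ∈ C.su δ z t} z := by
      refine hit_loc gok.ok gen hz restr_mem (gok.cr C gok.cC) (by rw [restr_body]; exact hX hz)
        (Y := {z | m ∈ C.su δ z t}) ?_ (gok.ks t m) (fun G hG _ h => ⟨hG, h⟩)
      rw [restr_body]
      exact (C.lcsu δ t m z (hX hz)).locIn h1
    obtain ⟨G', ⟨h7, h8⟩, _, h9, h10⟩ := h6
    obtain ⟨G'', h11, h12, h13, h14, h15, _⟩ := directed gok.ok gen hz h4 h9 h3 h7 h5 h10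
    exact ⟨G'', ⟨K_down h2 h11 h13, fun w hw => h8 w (h14 hw)⟩, h11, h12, h15⟩

end glue

section glue2
variable {N : Set (Ob W T)} {δ δ' : W} {𝒢 : Set (Cond W)} {C : Cond W}

/-- The gluing lemma: if infinitely many immediate successors of `t` have extensions in `𝒢`, then so does `t`. -/
lemma glue (hs : ∀ γ : W, γ < δ' ↔ γ ≤ δ) (hg : ∀ E ∈ P δ', Front δ E 𝒢 → E ∈ 𝒢)
    (gok : GOk N δ δ' 𝒢 C) {r : Cond W} (hr : r ∈ P δ) (gen : Gen N δ r.body) (hrC : r.body ⊆ C.Bd δ)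
    {z : Z W} (hz : z ∈ r.body) {t : List ℕ} (ht : Nd (C.st δ z) (C.su δ z) t)
    (hinf : {m | m ∈ C.su δ z t ∧ Hit N δ (K δ δ' 𝒢 C (t ++ [m])) z}.Infinite) : Hit N δ (K δ δ' 𝒢 C t) z := by
  classical
  by_contra hno
  have ok := gok.ok
  have e1 : {m | Hit N δ (KA δ δ' 𝒢 C t m) z} = {m | m ∈ C.su δ z t ∧ Hit N δ (K δ δ' 𝒢 C (t ++ [m])) z} := by
    ext m; exact hit_KA gok gen hrC hz
  rw [← e1] at hinf
  obtain ⟨E0, a1, a2, a3, a4⟩ := exists_inf ok gen hz (gok.ka t) hinf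
  obtain ⟨E1, b1, b2, b3, _, b5⟩ := (decide_hit ok gen hz (gok.kd t)).resolve_left hno
  obtain ⟨E2, c1, c2, c3, c4, c5, c6⟩ := directed ok gen hz a2 b2 a1 b1 a3 b3
  have hnd : LocIn δ r.body z {z | Nd (C.st δ z) (C.su δ z) t} :=
    ((LCat.nd (C.lcst δ z (hrC hz)) (fun t m => C.lcsu δ t m z (hrC hz)) t).mono hrC le_rfl).locIn ht
  obtain ⟨r', d1, d2, d3, d4⟩ := (c6.inter hnd).cond hr hz
  have gen' : Gen N δ r'.body := gen.mono d2
  have hr'Bd : r'.Bd δ = r'.body := (body_eq d1).symm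
  -- enumerate the conditions in `N`
  obtain ⟨ν, hν⟩ : ∃ ν : ℕ → Cond W, ∀ E, Ob.c E ∈ N ↔ ∃ i, ν i = E := by
    have h1 : {E : Cond W | Ob.c E ∈ N}.Countable := ok.cnt.preimage_of_injOn Ob.c_inj.injOn
    obtain ⟨ν, h2⟩ := h1.exists_eq_range ⟨_, ok.one⟩
    exact ⟨ν, fun E => by rw [← Set.mem_range, ← h2]; rfl⟩
  have hνN : ∀ i, Ob.c (ν i) ∈ N := fun i => (hν _).mpr ⟨i, rfl⟩
  let p : ℕ → ℕ → Prop := fun m i => ν i ∈ P δ' ∧ ν i ≤ C ∧ StC δ (ν i) (t ++ [m]) ∧ ν i ∈ 𝒢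
  let idx : (ℕ → Prop) → ℕ → ℕ := fun v m => sInf {i | p m i ∧ v i}
  let Sin : (ℕ → Prop) → (ℕ → Prop) → (ℕ → List ℕ → Set ℕ) → List ℕ → Set ℕ := fun a v f u =>
    if u = t then {m | a m} else
      if t.length < u.length ∧ a (u.getD t.length 0) then f (idx v (u.getD t.length 0)) u else Set.univ
  let S : Z W → List ℕ → Set ℕ := fun z =>
    Sin (fun m => Hit N δ (KA δ δ' 𝒢 C t m) z) (fun i => z ∈ (ν i).Bd δ) (fun i => (ν i).su δ z)
  have hex : ∀ w ∈ r'.body, ∀ m, Hit N δ (KA δ δ' 𝒢 C t m) w → ∃ i, p m i ∧ w ∈ (ν i).Bd δ := by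
    rintro w hw m ⟨G, ⟨h1, _⟩, h2, h3, h4⟩
    obtain ⟨E, g1, g2, g3, g4, g5, g6⟩ := gok.wit _ G h3 h1
    obtain ⟨i, rfl⟩ := (hν E).mp g2
    refine ⟨i, ⟨g1, g3, g4, g5⟩, ?_⟩
    have := g6 h4
    rwa [restr_body] at this
  have hidx : ∀ w ∈ r'.body, ∀ m, Hit N δ (KA δ δ' 𝒢 C t m) w →
      p m (idx (fun i => w ∈ (ν i).Bd δ) m) ∧ w ∈ (ν (idx (fun i => w ∈ (ν i).Bd δ) m)).Bd δ := by
    intro w hw m hm
    exact Nat.sInf_mem (s := {i | p m i ∧ w ∈ (ν i).Bd δ}) (hex w hw m hm)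
  have hlcν : ∀ w ∈ r'.body, ∀ i, LCat δ r'.body (fun w => w ∈ (ν i).Bd δ) w := by
    intro w hw i
    have := lc_mem ok gen' hw (gok.cr _ (hνN i)) restr_mem
    simpa only [restr_body] using this
  have hlcidx : ∀ w ∈ r'.body, ∀ m, Hit N δ (KA δ δ' 𝒢 C t m) w →
      LCat δ r'.body (fun w => idx (fun i => w ∈ (ν i).Bd δ) m) w := by
    intro w hw m hm
    exact LCat.least (p := fun i w => p m i ∧ w ∈ (ν i).Bd δ) (fun i => (LCat.const _).and (hlcν w hw i)) (hex w hw m hm)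
  have hlcA : ∀ w ∈ r'.body, ∀ m, LCat δ r'.body (fun w => Hit N δ (KA δ δ' 𝒢 C t m) w) w := by
    intro w hw m
    exact lc_hit ok gen' hw (ok.nm _ m (gok.ka t))
  set A : Set W := {γ | Ob.w γ ∈ N} with hAdef
  have hAc : A.Countable := ok.cnt.preimage_of_injOn Ob.w_inj.injOn
  have hdep : ∀ z z' : Z W, (∀ γ ∈ A, γ < δ → z γ = z' γ) → (fun _ => t : Z W → List ℕ) z = (fun _ => t) z' ∧ S z = S z' := by
    intro z z' h
    refine ⟨rfl, ?_⟩
    have i1 : (fun m => Hit N δ (KA δ δ' 𝒢 C t m) z) = (fun m => Hit N δ (KA δ δ' 𝒢 C t m) z') := by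
      funext m
      apply propext
      refine exists_congr (fun G => and_congr_right (fun _ => and_congr_right (fun h1 => and_congr_right (fun h2 => ?_))))
      rw [body_eq h1]
      exact Bd_iff_supp (fun γ hγ => h γ (ok.supp G h2 γ hγ))
    have i2 : (fun i => z ∈ (ν i).Bd δ) = (fun i => z' ∈ (ν i).Bd δ) := by
      funext i
      exact propext (Bd_iff_supp (fun γ hγ => h γ (ok.supp _ (hνN i) γ hγ)))
    have i3 : (fun i => (ν i).su δ z) = (fun i => (ν i).su δ z') := by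
      funext i
      exact ((ν i).dep δ z z' (fun γ hγ => h γ (ok.supp _ (hνN i) γ hγ))).2
    simp only [S, i1, i2, i3]
  have hSinf : ∀ w ∈ r'.Bd δ, ∀ u, (S w u).Infinite := by
    intro w hw u
    rw [hr'Bd] at hw
    simp only [S, Sin]
    split_ifs with h1 h2
    · exact inf_of_fo ok gen' hw (gok.ka t) c1 c2 (d4 hw).1 (fun j E' hE' hle => a4 j E' hE' (hle.trans c3))
    · exact (ν _).inf δ w u
    · exact Set.infinite_univ
  have hSlc : ∀ u m, LC δ (r'.Bd δ) (fun w => m ∈ S w u) := by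
    intro u m w hw
    rw [hr'Bd] at hw ⊢
    simp only [S, Sin]
    by_cases h1 : u = t
    · simp only [h1, if_true, Set.mem_ofPred_eq]
      exact hlcA w hw m
    · simp only [h1, if_false]
      have h2 : (fun w => m ∈ (if t.length < u.length ∧ Hit N δ (KA δ δ' 𝒢 C t (u.getD t.length 0)) w then
          (ν (idx (fun i => w ∈ (ν i).Bd δ) (u.getD t.length 0))).su δ w u else Set.univ)) =
          (fun w => if t.length < u.length ∧ Hit N δ (KA δ δ' 𝒢 C t (u.getD t.length 0)) w then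
          m ∈ (ν (idx (fun i => w ∈ (ν i).Bd δ) (u.getD t.length 0))).su δ w u else True) := by
        funext w
        split_ifs <;> simp
      rw [h2]
      refine LCat.ite ((LCat.const _).and (hlcA w hw _)) (fun h3 => ?_) (fun _ => LCat.const _)
      refine LCat.bind (g := fun i w => m ∈ (ν i).su δ w u) (hlcidx w hw _ h3.2) ?_
      obtain ⟨_, h4⟩ := hidx w hw _ h3.2
      exact ((ν _).lcsu δ u m w h4).of_locIn ((hlcν w hw _).locIn h4)
  have hlcs : LC δ (r'.Bd δ) (fun _ => t) := fun _ _ => LCat.const _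
  set E := ext1 r' d1 (fun _ => t) S A hAc hdep hSinf hlcs hSlc with hE
  have hEP : E ∈ P δ' := ext1_mem hs
  have hESt : E.st δ = fun _ => t := ext1_st
  have hEBd : E.Bd δ = r'.body := by rw [hE, ext1_Bd, hr'Bd]
  have hEb : ∀ w, w ∈ E.body ↔ w ∈ r'.body ∧ Br t (S w) (w δ) := fun w => by rw [hE, mem_ext1 hs, hr'Bd]
  have key : ∀ w ∈ E.body, Hit N δ (KA δ δ' 𝒢 C t (w δ t.length)) w ∧
      w ∈ (ν (idx (fun i => w ∈ (ν i).Bd δ) (w δ t.length))).body := by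
    intro w hw
    obtain ⟨h1, h2⟩ := (hEb w).mp hw
    have h3 : Hit N δ (KA δ δ' 𝒢 C t (w δ t.length)) w := by
      have := h2.2 t.length le_rfl
      rw [h2.1] at this
      simpa [S, Sin] using this
    obtain ⟨⟨h4, h5, h6, h7⟩, h8⟩ := hidx w h1 _ h3
    refine ⟨h3, ?_⟩
    rw [section_mem hs h4]
    refine ⟨h8, ?_⟩
    rw [h6 w h8]
    refine ⟨by simp [res_succ, h2.1], fun n hn => ?_⟩
    simp only [List.length_append, List.length_cons, List.length_nil, zero_add] at hn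
    have h9 := h2.2 n (by omega)
    have h10 : res (w δ) n ≠ t := by
      intro h
      have := congrArg List.length h
      simp at this; omega
    simp only [S, Sin, h10, if_false, length_res] at h9
    rw [getD_res (by omega : t.length < n)] at h9
    rw [if_pos ⟨by omega, h3⟩] at h9
    exact h9
  have hEC : E ≤ C := by
    intro w hw
    obtain ⟨h1, h2⟩ := key w hw
    have h3 := hidx w ((hEb w).mp hw).1 _ h1
    exact h3.1.2.1 h2
  have hfront : Front δ E 𝒢 := by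
    refine ⟨{D | Ob.c D ∈ N ∧ D ∈ 𝒢}, ?_, fun D hD => hD.2, fun w hw => ?_⟩
    · exact (ok.cnt.preimage_of_injOn Ob.c_inj.injOn).mono (fun D hD => hD.1)
    · obtain ⟨h1, h2⟩ := key w hw
      have hwr := ((hEb w).mp hw).1
      obtain ⟨⟨h4, h5, h6, h7⟩, h8⟩ := hidx w hwr _ h1
      obtain ⟨F, k, f1, f2⟩ := hlcidx w hwr _ h1
      refine ⟨_, ⟨hνN _, h7⟩, F, k, t.length + 1, f1, by rw [hESt]; simp, fun w' hw' ha hr' => ?_⟩
      have g1 : w' δ t.length = w δ t.length := res_inj hr' _ (by omega)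
      obtain ⟨g2, g3⟩ := key w' hw'
      have hwr' := ((hEb w').mp hw').1
      have g4 := f2 w' hwr' ha
      simp only at g4
      rw [g1, g4] at g3
      refine ⟨g3, ?_⟩
      rw [h6 w' (by
        have := body_sub_Bd (β := δ) g3
        exact this)]
      rw [res_succ, ((hEb w).mp hw).2.1]
  refine b5 r' ⟨d1, E, hEP, hEC, fun w _ => by rw [hESt], hg E hEP hfront, ?_⟩ d1 r' d1 ?_ le_rfl
  · rw [le_def, restr_body, hEBd]
  · exact fun w hw => c4 (d4 hw).1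

end glue2

end Pool.Agent.H55.Lav
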