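import Pool.Agent.H55.Lav.Loc
import Pool.Agent.H55.Lav.Club

set_option autoImplicit false
set_option linter.unusedSectionVars false

/-!
# Generic sets over countable families of objects
-/

namespace Pool.Agent.H55.Lav

open Cond

/-- The objects of which the countable models consist. -/
inductive Ob (W T : Type) [LinearOrder W] : Type
  | w (β : W)
  | c (C : Cond W)
  | d (D : Set (Cond W))
  | x (x : ℕ → Set (Cond W))
  | t (t : T)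

variable {W T : Type} [LinearOrder W] [WellFoundedLT W]

instance : Nonempty (Ob W T) := ⟨.d ∅⟩

lemma Ob.w_inj : Function.Injective (Ob.w : W → Ob W T) := fun _ _ h => by injection h
lemma Ob.c_inj : Function.Injective (Ob.c : Cond W → Ob W T) := fun _ _ h => by injection h
lemma Ob.d_inj : Function.Injective (Ob.d : Set (Cond W) → Ob W T) := fun _ _ h => by injection h
lemma Ob.x_inj : Function.Injective (Ob.x : (ℕ → Set (Cond W)) → Ob W T) := fun _ _ h => by injection h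
lemma Ob.t_inj : Function.Injective (Ob.t : T → Ob W T) := fun _ _ h => by injection h

/-- Near `z`, the set `X` is included in `Y`. -/
def LocIn (β : W) (X : Set (Z W)) (z : Z W) (Y : Set (Z W)) : Prop :=
  ∃ (F : Finset W) (k : ℕ), (∀ γ ∈ F, γ < β) ∧ ∀ z' ∈ X, Agr F k z z' → z' ∈ Y

section
variable {β : W} {X Y Y' : Set (Z W)} {z : Z W}

lemma LocIn.mem (h : LocIn β X z Y) (hz : z ∈ X) : z ∈ Y := by
  obtain ⟨F, k, _, h⟩ := h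
  exact h z hz (Agr.refl _ _ _)

lemma LocIn.mono (h : LocIn β X z Y) (hY : Y ⊆ Y') : LocIn β X z Y' := by
  obtain ⟨F, k, h1, h⟩ := h
  exact ⟨F, k, h1, fun z' hz' ha => hY (h z' hz' ha)⟩

lemma LocIn.mono_left {X' : Set (Z W)} (h : LocIn β X z Y) (hX : X' ⊆ X) : LocIn β X' z Y := by
  obtain ⟨F, k, h1, h⟩ := h
  exact ⟨F, k, h1, fun z' hz' ha => h z' (hX hz') ha⟩

lemma LocIn.inter (h : LocIn β X z Y) (h' : LocIn β X z Y') : LocIn β X z (Y ∩ Y') := by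
  obtain ⟨F, k, h1, h⟩ := h
  obtain ⟨F', k', h1', h'⟩ := h'
  refine ⟨F ∪ F', max k k', fun γ hγ => ?_, fun z' hz' ha => ⟨?_, ?_⟩⟩
  · rcases Finset.mem_union.mp hγ with h | h
    · exact h1 γ h
    · exact h1' γ h
  · exact h z' hz' (ha.mono Finset.subset_union_left (le_max_left _ _))
  · exact h' z' hz' (ha.mono Finset.subset_union_right (le_max_right _ _))

lemma LCat.locIn {p : Z W → Prop} (h : LCat β X p z) (hp : p z) : LocIn β X z {z | p z} := by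
  obtain ⟨F, k, h1, h⟩ := h
  exact ⟨F, k, h1, fun z' hz' ha => by rw [Set.mem_ofPred_eq, h z' hz' ha]; exact hp⟩

/-- A condition has a smaller condition inside any neighbourhood. -/
lemma LocIn.cond {r : Cond W} (hr : r ∈ P β) (h : LocIn β r.body z Y) (hz : z ∈ r.body) :
    ∃ r' ∈ P β, r' ≤ r ∧ z ∈ r'.body ∧ r'.body ⊆ Y := by
  obtain ⟨F, k, h1, h⟩ := h
  obtain ⟨r', h2, h3, h4, h5⟩ := loc hr hz h1 k
  exact ⟨r', h2, h3, h4, fun w hw => h w (h3 hw) (h5 w hw)⟩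
end

/-- `Q` (more exactly, the part of `Q` in `P β`) is predense below `E`. -/
def Fo (β : W) (Q : Set (Cond W)) (E : Cond W) : Prop :=
  ∀ E' ∈ P β, E' ≤ E → ∃ E'' ∈ P β, E'' ≤ E' ∧ ∃ C ∈ Q, C ∈ P β ∧ E'' ≤ C

/-- `E` is incompatible with all elements of `Q` in `P β`. -/
def Inc (β : W) (Q : Set (Cond W)) (E : Cond W) : Prop :=
  ∀ C ∈ Q, C ∈ P β → ∀ E' ∈ P β, E' ≤ E → ¬ E' ≤ C

/-- The part of `D` in `P β` is dense in `P β`. -/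
def DenseIn (β : W) (D : Set (Cond W)) : Prop := ∀ E ∈ P β, ∃ C ∈ D, C ∈ P β ∧ C ≤ E

/-- `X` is generic over `N` for the iteration up to `β`. -/
def Gen (N : Set (Ob W T)) (β : W) (X : Set (Z W)) : Prop :=
  ∀ D, Ob.d D ∈ N → DenseIn β D → ∀ z ∈ X, ∃ C ∈ D, C ∈ P β ∧ Ob.c C ∈ N ∧ LocIn β X z C.body

lemma Gen.mono {N : Set (Ob W T)} {β : W} {X X' : Set (Z W)} (h : Gen N β X) (hX : X' ⊆ X) : Gen N β X' := by
  intro D hD hd z hz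
  obtain ⟨C, h1, h2, h3, h4⟩ := h D hD hd z (hX hz)
  exact ⟨C, h1, h2, h3, h4.mono_left hX⟩

/-- Conditions that decide whether they are below `C`. -/
def Dir (β : W) (C : Cond W) : Set (Cond W) := {E | E ∈ P β ∧ (E ≤ C ∨ Disjoint E.body C.body)}

/-- Conditions that decide whether `Q` is met. -/
def Dec (β : W) (Q : Set (Cond W)) : Set (Cond W) := {E | E ∈ P β ∧ ((∃ C ∈ Q, C ∈ P β ∧ E ≤ C) ∨ Inc β Q E)}

/-- The union of the sets `x k` for `k > j`. -/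
def tl (x : ℕ → Set (Cond W)) (j : ℕ) : Set (Cond W) := {C | ∃ k, j < k ∧ C ∈ x k}

lemma dec_dense (β : W) (Q : Set (Cond W)) : DenseIn β (Dec β Q) := by
  intro E hE
  by_cases h : ∃ E' ∈ P β, E' ≤ E ∧ ∃ C ∈ Q, C ∈ P β ∧ E' ≤ C
  · obtain ⟨E', h1, h2, h3⟩ := h
    exact ⟨E', ⟨h1, Or.inl h3⟩, h1, h2⟩
  · refine ⟨E, ⟨hE, Or.inr (fun C hC hC' E' hE' hle hle' => h ⟨E', hE', hle, C, hC, hC', hle'⟩)⟩, hE, le_rfl⟩

lemma dir_dense {β : W} {C : Cond W} (hC : C ∈ P β) : DenseIn β (Dir β C) := by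
  intro E hE
  rcases dich hE hC with h | ⟨E', h1, h2, h3⟩
  · exact ⟨E, ⟨hE, Or.inl h⟩, hE, le_rfl⟩
  · exact ⟨E', ⟨h1, Or.inr h3⟩, h1, h2⟩

/-- Closure properties of `N` used for the iteration up to `β`. -/
structure Ok (N : Set (Ob W T)) (β : W) : Prop where
  cnt : N.Countable
  dir : ∀ C, Ob.c C ∈ N → Ob.d (Dir β C) ∈ N
  dec : ∀ Q, Ob.d Q ∈ N → Ob.d (Dec β Q) ∈ N
  inter : ∀ Q Q', Ob.d Q ∈ N → Ob.d Q' ∈ N → Ob.d (Q ∩ Q') ∈ N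
  wit : ∀ Q E, Ob.d Q ∈ N → Ob.c E ∈ N → (∃ C ∈ Q, C ∈ P β ∧ E ≤ C) → ∃ C ∈ Q, C ∈ P β ∧ Ob.c C ∈ N ∧ E ≤ C
  supp : ∀ C, Ob.c C ∈ N → ∀ γ ∈ C.supp, Ob.w γ ∈ N
  nm : ∀ x k, Ob.x x ∈ N → Ob.d (x k) ∈ N
  tl : ∀ x j, Ob.x x ∈ N → Ob.d (tl x j) ∈ N
  inf1 : ∀ x, Ob.x x ∈ N → Ob.d {E | E ∈ P β ∧ ∀ j, Fo β (Lav.tl x j) E} ∈ N
  inf2 : ∀ x, Ob.x x ∈ N → Ob.d {E | E ∈ P β ∧ ∃ j, Inc β (Lav.tl x j) E} ∈ N
  one : Ob.c (one : Cond W) ∈ N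

lemma ok_club : ∀ᶠ N in club (Ob W T), ∀ β : W, Ob.w β ∈ N → Ok N β := by
  have h1 : ∀ᶠ N in club (Ob W T), ∀ C, Ob.c C ∈ N → ∀ β, Ob.w β ∈ N → Ob.d (Dir β C) ∈ N :=
    club_diag' _ Ob.c_inj (fun C => club_diag' _ Ob.w_inj (fun β => club_mem _))
  have h2 : ∀ᶠ N in club (Ob W T), ∀ Q, Ob.d Q ∈ N → ∀ β, Ob.w β ∈ N → Ob.d (Dec β Q) ∈ N :=
    club_diag' _ Ob.d_inj (fun C => club_diag' _ Ob.w_inj (fun β => club_mem _))
  have h3 : ∀ᶠ N in club (Ob W T), ∀ Q, Ob.d Q ∈ N → ∀ Q', Ob.d Q' ∈ N → Ob.d (Q ∩ Q') ∈ N :=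
    club_diag' _ Ob.d_inj (fun C => club_diag' _ Ob.d_inj (fun β => club_mem _))
  have h4 : ∀ᶠ N in club (Ob W T), ∀ Q, Ob.d Q ∈ N → ∀ E, Ob.c E ∈ N → ∀ β, Ob.w β ∈ N →
      (∃ C ∈ Q, C ∈ P β ∧ E ≤ C) → ∃ C ∈ Q, C ∈ P β ∧ Ob.c C ∈ N ∧ E ≤ C := by
    refine club_diag' _ Ob.d_inj (fun Q => club_diag' _ Ob.c_inj (fun E => club_diag' _ Ob.w_inj (fun β => ?_)))
    by_cases h : ∃ C ∈ Q, C ∈ P β ∧ E ≤ C
    · obtain ⟨C, h1, h2, h3⟩ := h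
      exact (club_mem (Ob.c C)).mono (fun N hN _ => ⟨C, h1, h2, hN, h3⟩)
    · exact Filter.Eventually.of_forall (fun N h' => (h h').elim)
  have h5 : ∀ᶠ N in club (Ob W T), ∀ C, Ob.c C ∈ N → ∀ γ ∈ C.supp, Ob.w γ ∈ N := by
    refine club_diag' _ Ob.c_inj (fun C => ?_)
    have : Countable C.supp := C.count.to_subtype
    exact (club_all (fun γ : C.supp => club_mem (Ob.w γ.1))).mono (fun N hN γ hγ => hN ⟨γ, hγ⟩)
  have h6 : ∀ᶠ N in club (Ob W T), ∀ x, Ob.x x ∈ N → ∀ k, Ob.d (x k) ∈ N :=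
    club_diag' _ Ob.x_inj (fun x => club_all (fun k => club_mem _))
  have h7 : ∀ᶠ N in club (Ob W T), ∀ x, Ob.x x ∈ N → ∀ k, Ob.d (tl x k) ∈ N :=
    club_diag' _ Ob.x_inj (fun x => club_all (fun k => club_mem _))
  have h8 : ∀ᶠ N in club (Ob W T), ∀ x, Ob.x x ∈ N → ∀ β, Ob.w β ∈ N →
      Ob.d {E | E ∈ P β ∧ ∀ j, Fo β (tl x j) E} ∈ N :=
    club_diag' _ Ob.x_inj (fun C => club_diag' _ Ob.w_inj (fun β => club_mem _))
  have h9 : ∀ᶠ N in club (Ob W T), ∀ x, Ob.x x ∈ N → ∀ β, Ob.w β ∈ N →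
      Ob.d {E | E ∈ P β ∧ ∃ j, Inc β (tl x j) E} ∈ N :=
    club_diag' _ Ob.x_inj (fun C => club_diag' _ Ob.w_inj (fun β => club_mem _))
  filter_upwards [club_countable, h1, h2, h3, h4, h5, h6, h7, h8, h9, club_mem (Ob.c (one : Cond W))] with
    N h0 h1 h2 h3 h4 h5 h6 h7 h8 h9 h10 β hβ
  exact ⟨h0, fun C hC => h1 C hC β hβ, fun Q hQ => h2 Q hQ β hβ, fun Q Q' hQ hQ' => h3 Q hQ Q' hQ',
    fun Q E hQ hE h => h4 Q hQ E hE β hβ h, h5, fun x k hx => h6 x hx k, fun x k hx => h7 x hx k,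
    fun x hx => h8 x hx β hβ, fun x hx => h9 x hx β hβ, h10⟩

/-- Some condition of `N` in `Q ∩ P β` contains `z`. -/
def Hit (N : Set (Ob W T)) (β : W) (Q : Set (Cond W)) (z : Z W) : Prop :=
  ∃ C ∈ Q, C ∈ P β ∧ Ob.c C ∈ N ∧ z ∈ C.body

section gen
variable {N : Set (Ob W T)} {β : W} {X : Set (Z W)} {z : Z W} (ok : Ok N β) (gen : Gen N β X) (hz : z ∈ X)
include ok gen hz

lemma directed {C D : Cond W} (hC : Ob.c C ∈ N) (hD : Ob.c D ∈ N) (hC' : C ∈ P β) (hD' : D ∈ P β)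
    (hzC : z ∈ C.body) (hzD : z ∈ D.body) :
    ∃ E ∈ P β, Ob.c E ∈ N ∧ E ≤ C ∧ E ≤ D ∧ z ∈ E.body ∧ LocIn β X z E.body := by
  obtain ⟨E, h1, h2, h3, h4⟩ := gen _ (ok.inter _ _ (ok.dir C hC) (ok.dir D hD)) (by
    intro E hE
    obtain ⟨E1, h1, h2, h3⟩ := dir_dense hC' E hE
    obtain ⟨E2, h4, h5, h6⟩ := dir_dense hD' E1 h2
    refine ⟨E2, ⟨⟨h5, ?_⟩, h4⟩, h5, h6.trans h3⟩
    rcases h1.2 with h | h
    · exact Or.inl (h6.trans h)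
    · exact Or.inr (h.mono_left h6)) z hz
  have h5 := h4.mem hz
  refine ⟨E, h2, h3, ?_, ?_, h5, h4⟩
  · rcases h1.1.2 with h | h
    · exact h
    · exact (Set.disjoint_left.mp h h5 hzC).elim
  · rcases h1.2.2 with h | h
    · exact h
    · exact (Set.disjoint_left.mp h h5 hzD).elim

lemma locIn_of_mem {C : Cond W} (hC : Ob.c C ∈ N) (hC' : C ∈ P β) (hzC : z ∈ C.body) : LocIn β X z C.body := by
  obtain ⟨E, _, _, h3, _, _, h6⟩ := directed ok gen hz hC hC hC' hC' hzC hzC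
  exact h6.mono h3

lemma lc_mem {C : Cond W} (hC : Ob.c C ∈ N) (hC' : C ∈ P β) : LCat β X (fun z => z ∈ C.body) z := by
  by_cases h : z ∈ C.body
  · obtain ⟨F, k, h1, h2⟩ := locIn_of_mem ok gen hz hC hC' h
    exact ⟨F, k, h1, fun z' hz' ha => propext ⟨fun _ => h, fun _ => h2 z' hz' ha⟩⟩
  · have h' := h
    rw [body_eq hC'] at h'
    obtain ⟨F, k, h1, h2⟩ := not_mem_Bd h'
    refine ⟨F, k, h1, fun z' hz' ha => propext ⟨fun h3 => ?_, fun h3 => (h h3).elim⟩⟩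
    rw [body_eq hC'] at h3
    exact (h2 z' ha h3).elim

lemma decide_hit {Q : Set (Cond W)} (hQ : Ob.d Q ∈ N) :
    Hit N β Q z ∨ ∃ E ∈ P β, Ob.c E ∈ N ∧ z ∈ E.body ∧ LocIn β X z E.body ∧ Inc β Q E := by
  obtain ⟨E, h1, h2, h3, h4⟩ := gen _ (ok.dec Q hQ) (dec_dense β Q) z hz
  rcases h1.2 with h | h
  · obtain ⟨C, h5, h6, h7, h8⟩ := ok.wit Q E hQ h3 h
    exact Or.inl ⟨C, h5, h6, h7, h8 (h4.mem hz)⟩
  · exact Or.inr ⟨E, h2, h3, h4.mem hz, h4, h⟩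

lemma not_hit_of_inc {Q : Set (Cond W)} {E : Cond W} (hE : E ∈ P β) (hEN : Ob.c E ∈ N) (hzE : z ∈ E.body)
    (h : Inc β Q E) : ¬ Hit N β Q z := by
  rintro ⟨C, h1, h2, h3, h4⟩
  obtain ⟨E', h5, _, h6, h7, _, _⟩ := directed ok gen hz hEN h3 hE h2 hzE h4
  exact h C h1 h2 E' h5 h6 h7

lemma lc_hit {Q : Set (Cond W)} (hQ : Ob.d Q ∈ N) : LCat β X (fun z => Hit N β Q z) z := by
  rcases decide_hit ok gen hz hQ with h | ⟨E, h1, h2, h3, h4, h5⟩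
  · obtain ⟨C, h1, h2, h3, h4⟩ := h
    obtain ⟨F, k, h5, h6⟩ := locIn_of_mem ok gen hz h3 h2 h4
    exact ⟨F, k, h5, fun z' hz' ha => propext ⟨fun _ => ⟨C, h1, h2, h3, h4⟩,
      fun _ => ⟨C, h1, h2, h3, h6 z' hz' ha⟩⟩⟩
  · obtain ⟨F, k, h6, h7⟩ := h4
    exact ⟨F, k, h6, fun z' hz' ha => propext ⟨fun h => (not_hit_of_inc ok gen hz' h1 h2 (h7 z' hz' ha) h5 h).elim,
      fun h => (not_hit_of_inc ok gen hz h1 h2 h3 h5 h).elim⟩⟩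

lemma hit_of_fo {Q : Set (Cond W)} (hQ : Ob.d Q ∈ N) {E : Cond W} (hE : E ∈ P β) (hEN : Ob.c E ∈ N)
    (hzE : z ∈ E.body) (h : Fo β Q E) : Hit N β Q z := by
  rcases decide_hit ok gen hz hQ with h' | ⟨E', h1, h2, h3, _, h5⟩
  · exact h'
  · obtain ⟨E'', h6, _, h7, h8, _, _⟩ := directed ok gen hz hEN h2 hE h1 hzE h3
    obtain ⟨E3, h9, h10, C, h11, h12, h13⟩ := h E'' h6 h7
    exact (h5 C h11 h12 E3 h9 (h10.trans h8) h13).elim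

/-- If infinitely many of the sets `x k` are met, then a condition forces this. -/
lemma exists_inf {x : ℕ → Set (Cond W)} (hx : Ob.x x ∈ N) (h : {k | Hit N β (x k) z}.Infinite) :
    ∃ E ∈ P β, Ob.c E ∈ N ∧ z ∈ E.body ∧ ∀ j, Fo β (tl x j) E := by
  rcases decide_hit ok gen hz (ok.inf1 x hx) with h' | ⟨E, h1, h2, h3, _, h5⟩
  · obtain ⟨C, h1, h2, h3, h4⟩ := h'
    exact ⟨C, h2, h3, h4, h1.2⟩
  · exfalso
    have h6 : Hit N β {E | E ∈ P β ∧ ∃ j, Inc β (tl x j) E} z := by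
      refine hit_of_fo ok gen hz (ok.inf2 x hx) h1 h2 h3 (fun E' hE' hle => ?_)
      by_contra hcon
      push Not at hcon
      refine h5 E' ⟨hE', fun j E1 hE1 hle1 => ?_⟩ hE' E' hE' hle le_rfl
      by_contra h7
      push Not at h7
      refine hcon E1 hE1 hle1 E1 ⟨hE1, j, ?_⟩ hE1 le_rfl
      intro C hC hC' E2 hE2 hle2 hle3
      exact h7 E2 hE2 hle2 C hC hC' hle3
    obtain ⟨C, ⟨h7, j, h8⟩, h9, h10, h11⟩ := h6
    have h12 := not_hit_of_inc ok gen hz h7 h10 h11 h8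
    apply h12
    obtain ⟨k, hk, hk'⟩ := h.exists_gt j
    obtain ⟨D, hD1, hD2⟩ := hk
    exact ⟨D, ⟨k, hk', hD1⟩, hD2⟩

end gen

/-- If `Q` is predense below a condition `r` with generic body, then it is met. -/
lemma inf_of_fo {N : Set (Ob W T)} {β : W} {X : Set (Z W)} {z : Z W} (ok : Ok N β) (gen : Gen N β X) (hz : z ∈ X)
    {x : ℕ → Set (Cond W)} (hx : Ob.x x ∈ N) {E : Cond W} (hE : E ∈ P β) (hEN : Ob.c E ∈ N)
    (hzE : z ∈ E.body) (h : ∀ j, Fo β (tl x j) E) : {k | Hit N β (x k) z}.Infinite := by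
  rw [Set.infinite_iff_exists_gt]
  intro j
  obtain ⟨C, ⟨k, hk, hC⟩, h1⟩ := hit_of_fo ok gen hz (ok.tl x j hx) hE hEN hzE (h j)
  exact ⟨k, ⟨C, hC, h1⟩, hk⟩

end Pool.Agent.H55.Lav
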