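import Pool.Agent.H55.Lav.Step3

set_option autoImplicit false
set_option linter.unusedSectionVars false

/-!
# The iteration: extension of generic sets
-/

namespace Pool.Agent.H55.Lav

open Cond

variable {W T : Type} [LinearOrder W] [WellFoundedLT W]

/-- The points of `X` which are branches through the given trees at the coordinates in `[β, δ)`. -/
def YY (β : W) (X : Set (Z W)) (st : W → Z W → List ℕ) (su : W → Z W → List ℕ → Set ℕ) (δ : W) : Set (Z W) :=
  {z | z ∈ X ∧ ∀ ε, β ≤ ε → ε < δ → Br (st ε z) (su ε z) (z ε)}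

/-- The function depends only on the coordinates in `A` below `β`. -/
def DepOn {α : Type*} (A : Set W) (β : W) (h : Z W → α) : Prop :=
  ∀ z z', (∀ γ ∈ A, γ < β → z γ = z' γ) → h z = h z'

lemma DepOn.mono {α : Type*} {A : Set W} {β β' : W} {h : Z W → α} (H : DepOn A β h) (hβ : β ≤ β') : DepOn A β' h :=
  fun z z' h' => H z z' (fun γ hγ hγ' => h' γ hγ (hγ'.trans_le hβ))

/-- A system of trees. -/
structure Sys (A : Set W) (β γ : W) (X : Set (Z W)) (st : W → Z W → List ℕ) (su : W → Z W → List ℕ → Set ℕ) :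
    Prop where
  dep : ∀ δ, DepOn A δ (st δ) ∧ DepOn A δ (su δ)
  triv : ∀ δ, δ ∉ A → ∀ z, st δ z = [] ∧ su δ z = fun _ => Set.univ
  inf : ∀ δ z t, (su δ z t).Infinite
  lcst : ∀ δ, β ≤ δ → δ < γ → LC δ (YY β X st su δ) (st δ)
  lcsu : ∀ δ, β ≤ δ → δ < γ → ∀ t m, LC δ (YY β X st su δ) (fun z => m ∈ su δ z t)

/-- The data at a stage of the construction. -/
structure Good (N : Set (Ob W T)) (A : Set W) (𝓔 : Set (Set ℕ)) (β γ : W) (X : Set (Z W)) (C : Z W → Cond W) :
    Prop where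
  gen : Gen N β X
  epr : Epr N β X 𝓔
  xdep : DepOn A β (fun z => z ∈ X)
  cN : ∀ z, Ob.c (C z) ∈ N
  cP : ∀ z ∈ X, C z ∈ P γ ∧ z ∈ (C z).Bd β
  cdep : DepOn A β C
  clc : LC β X C

/-- The extension statement. -/
def Claim (N : Set (Ob W T)) (A : Set W) (𝓔 : Set (Set ℕ)) (β γ : W) : Prop :=
  ∀ X C, Good N A 𝓔 β γ X C → ∃ st su, Sys A β γ X st su ∧ Gen N γ (YY β X st su γ) ∧
    Epr N γ (YY β X st su γ) 𝓔 ∧ ∀ z ∈ YY β X st su γ, z ∈ (C z).body

lemma YY_self {β : W} {X : Set (Z W)} {st : W → Z W → List ℕ} {su : W → Z W → List ℕ → Set ℕ} :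
    YY β X st su β = X := by
  ext z
  exact ⟨fun h => h.1, fun h => ⟨h, fun ε h1 h2 => absurd h2 (not_lt.mpr h1)⟩⟩

lemma YY_dep {A : Set W} {β δ : W} {X : Set (Z W)} {st : W → Z W → List ℕ} {su : W → Z W → List ℕ → Set ℕ}
    (hX : DepOn A β (fun z => z ∈ X)) (hβ : β ≤ δ) (h1 : ∀ δ, DepOn A δ (st δ) ∧ DepOn A δ (su δ))
    (h2 : ∀ δ, δ ∉ A → ∀ z, st δ z = [] ∧ su δ z = fun _ => Set.univ) : DepOn A δ (fun z => z ∈ YY β X st su δ) := by
  intro z z' h
  apply propext
  have e0 : z ∈ X ↔ z' ∈ X := by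
    have := hX z z' (fun γ hγ hγ' => h γ hγ (hγ'.trans_le hβ))
    simpa using this
  refine and_congr e0 (forall_congr' (fun ε => forall_congr' (fun _ => forall_congr' (fun hε' => ?_))))
  have e1 := (h1 ε).1 z z' (fun γ hγ hγ' => h γ hγ (hγ'.trans hε'))
  have e2 := (h1 ε).2 z z' (fun γ hγ hγ' => h γ hγ (hγ'.trans hε'))
  by_cases hA : ε ∈ A
  · rw [e1, e2, h ε hA hε']
  · obtain ⟨h3, h4⟩ := h2 ε hA z'
    rw [e1, e2, h3, h4]
    constructor <;> intro _ <;> exact ⟨rfl, fun _ _ => trivial⟩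

lemma claim_refl {N : Set (Ob W T)} {A : Set W} {𝓔 : Set (Set ℕ)} {β : W} : Claim N A 𝓔 β β := by
  intro X C good
  refine ⟨fun _ _ => [], fun _ _ _ => Set.univ, ⟨fun _ => ⟨fun _ _ _ => rfl, fun _ _ _ => rfl⟩, fun _ _ _ => ⟨rfl, rfl⟩,
    fun _ _ _ => Set.infinite_univ, fun δ h1 h2 => absurd h2 (not_lt.mpr h1), fun δ h1 h2 => absurd h2 (not_lt.mpr h1)⟩, ?_, ?_, ?_⟩
  · rw [YY_self]; exact good.gen
  · rw [YY_self]; exact good.epr
  · rw [YY_self]
    intro z hz
    rw [body_eq (good.cP z hz).1]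
    exact (good.cP z hz).2

section trans
variable {N : Set (Ob W T)} {A : Set W} {𝓔 : Set (Set ℕ)} {β δ γ : W}

open Classical in
lemma sys_trans (h1 : β ≤ δ) (h2 : δ ≤ γ) {X : Set (Z W)} {st1 st2 : W → Z W → List ℕ}
    {su1 su2 : W → Z W → List ℕ → Set ℕ} (s1 : Sys A β δ X st1 su1) (s2 : Sys A δ γ (YY β X st1 su1 δ) st2 su2) :
    Sys A β γ X (fun ε => if ε < δ then st1 ε else st2 ε) (fun ε => if ε < δ then su1 ε else su2 ε) ∧
      YY β X (fun ε => if ε < δ then st1 ε else st2 ε) (fun ε => if ε < δ then su1 ε else su2 ε) γ =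
        YY δ (YY β X st1 su1 δ) st2 su2 γ := by
  have e1 : ∀ ε ≤ δ, YY β X (fun ε => if ε < δ then st1 ε else st2 ε) (fun ε => if ε < δ then su1 ε else su2 ε) ε =
      YY β X st1 su1 ε := by
    intro ε hε
    ext z
    refine and_congr_right (fun _ => forall_congr' (fun ζ => forall_congr' (fun _ => forall_congr' (fun hζ => ?_))))
    simp [hζ.trans_le hε]
  have e2 : ∀ ε, δ ≤ ε → YY β X (fun ε => if ε < δ then st1 ε else st2 ε) (fun ε => if ε < δ then su1 ε else su2 ε) ε =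
      YY δ (YY β X st1 su1 δ) st2 su2 ε := by
    intro ε hε
    ext z
    constructor
    · rintro ⟨hz, h⟩
      refine ⟨⟨hz, fun ζ hζ hζ' => ?_⟩, fun ζ hζ hζ' => ?_⟩
      · have := h ζ hζ (hζ'.trans_le hε)
        simpa [hζ'] using this
      · have := h ζ (h1.trans hζ) hζ'
        simpa [not_lt.mpr hζ] using this
    · rintro ⟨⟨hz, h⟩, h'⟩
      refine ⟨hz, fun ζ hζ hζ' => ?_⟩
      by_cases hlt : ζ < δ
      · simpa [hlt] using h ζ hζ hlt
      · simpa [hlt] using h' ζ (not_lt.mp hlt) hζ'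
  refine ⟨⟨?_, ?_, ?_, ?_, ?_⟩, e2 γ h2⟩
  · intro ε
    by_cases h : ε < δ
    · simp only [h, if_true]; exact s1.dep ε
    · simp only [h, if_false]; exact s2.dep ε
  · intro ε hε z
    by_cases h : ε < δ
    · simp only [h, if_true]; exact s1.triv ε hε z
    · simp only [h, if_false]; exact s2.triv ε hε z
  · intro ε z t
    by_cases h : ε < δ
    · simp only [h, if_true]; exact s1.inf ε z t
    · simp only [h, if_false]; exact s2.inf ε z t
  · intro ε hε hε'
    by_cases h : ε < δ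
    · rw [e1 ε h.le]
      simp only [h, if_true]; exact s1.lcst ε hε h
    · rw [e2 ε (not_lt.mp h)]
      simp only [h, if_false]; exact s2.lcst ε (not_lt.mp h) hε'
  · intro ε hε hε' t m
    by_cases h : ε < δ
    · rw [e1 ε h.le]
      simp only [h, if_true]; exact s1.lcsu ε hε h t m
    · rw [e2 ε (not_lt.mp h)]
      simp only [h, if_false]; exact s2.lcsu ε (not_lt.mp h) hε' t m

lemma claim_trans (hcr : ∀ E, Ob.c E ∈ N → Ob.c (E.restr δ) ∈ N) (h1 : β ≤ δ) (h2 : δ ≤ γ)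
    (c1 : Claim N A 𝓔 β δ) (c2 : Claim N A 𝓔 δ γ) : Claim N A 𝓔 β γ := by
  intro X C good
  obtain ⟨st1, su1, s1, g1, e1, m1⟩ := c1 X (fun z => (C z).restr δ)
    { gen := good.gen
      epr := good.epr
      xdep := good.xdep
      cN := fun z => hcr _ (good.cN z)
      cP := fun z hz => ⟨restr_mem, by rw [restr_Bd h1]; exact (good.cP z hz).2⟩
      cdep := fun z z' h => by simp only; rw [good.cdep z z' h]
      clc := fun z hz => (good.clc z hz).comp (fun C => C.restr δ) }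
  obtain ⟨st2, su2, s2, g2, e2, m2⟩ := c2 (YY β X st1 su1 δ) C
    { gen := g1
      epr := e1
      xdep := YY_dep good.xdep h1 s1.dep s1.triv
      cN := good.cN
      cP := fun z hz => ⟨(good.cP z hz.1).1, by
        have := m1 z hz
        rwa [restr_body] at this⟩
      cdep := good.cdep.mono h1
      clc := fun z hz => (good.clc z hz.1).mono (fun z' hz' => hz'.1) h1 }
  obtain ⟨s3, e3⟩ := sys_trans h1 h2 s1 s2
  refine ⟨_, _, s3, ?_, ?_, ?_⟩
  · rw [e3]; exact g2
  · rw [e3]; exact e2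
  · rw [e3]; exact m2

end trans

lemma claim_succ {N : Set (Ob W T)} {A : Set W} {𝓔 : Set (Set ℕ)} {δ δ' : W} (hs : ∀ γ, γ < δ' ↔ γ ≤ δ)
    (sok : StepOk N δ δ') (hg : HasGen T δ) (hAN : ∀ γ, Ob.w γ ∈ N → γ ∈ A) (hδ : Ob.w δ ∈ N)
    (h𝓔 : 𝓔.Countable) (h𝓔' : 𝓔.Nonempty) : Claim N A 𝓔 δ δ' := by
  classical
  intro X C good
  have hXA : ∀ z z', (∀ γ ∈ A, γ < δ → z γ = z' γ) → (z ∈ X ↔ z' ∈ X) := fun z z' h => by
    simpa using good.xdep z z' h
  obtain ⟨st, su, h1, h2, h3, h4, _, h6, h7, h8⟩ := one_step hs sok hg hAN good.gen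
    (fun z z' h => (hXA z z' h).mp) h𝓔 h𝓔' good.epr (a := fun _ => Set.univ) (fun _ _ _ => rfl)
    (fun _ _ _ => LCat.const _) (fun x _ z _ h => by simpa using h) (Or.inr (fun _ _ => rfl)) good.cN good.cP
    good.cdep good.clc
  have hsucc : ∀ ε, δ ≤ ε → ε < δ' → ε = δ := fun ε h1 h2 => le_antisymm ((hs ε).mp h2) h1
  let su' : Z W → List ℕ → Set ℕ := fun z t => if z ∈ X then su z t else Set.univ
  let ST : W → Z W → List ℕ := fun ε z => if ε = δ then st z else []
  let SU : W → Z W → List ℕ → Set ℕ := fun ε z => if ε = δ then su' z else fun _ => Set.univ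
  have hYδ : YY δ X ST SU δ = X := YY_self
  have hY : YY δ X ST SU δ' = {z | z ∈ X ∧ Br (st z) (su z) (z δ)} := by
    ext z
    constructor
    · rintro ⟨hz, h⟩
      have := h δ le_rfl ((hs δ).mpr le_rfl)
      have hz' : su' z = su z := by funext t; simp [su', hz]
      simp only [ST, SU, if_true, hz'] at this
      exact ⟨hz, this⟩
    · rintro ⟨hz, h⟩
      refine ⟨hz, fun ε hε hε' => ?_⟩
      have := hsucc ε hε hε'
      subst this
      have hz' : su' z = su z := by funext t; simp [su', hz]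
      simp only [ST, SU, if_true, hz']
      exact h
  refine ⟨ST, SU, ⟨?_, ?_, ?_, ?_, ?_⟩, ?_, ?_, ?_⟩
  · intro ε
    by_cases h : ε = δ
    · subst h
      refine ⟨fun z z' hzz => ?_, fun z z' hzz => ?_⟩
      · simp only [ST, if_true]; exact (h1 z z' hzz).1
      · simp only [SU, if_true, su']
        rw [(h1 z z' hzz).2]
        funext t
        simp only [hXA z z' hzz]
    · refine ⟨fun z z' _ => by simp [ST, h], fun z z' _ => by simp [SU, h]⟩
  · intro ε hε z
    have : ε ≠ δ := fun h => hε (h ▸ hAN δ hδ)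
    simp [ST, SU, this]
  · intro ε z t
    by_cases h : ε = δ
    · simp only [SU, h, if_true, su']
      split_ifs with hz
      · exact h2 z hz t
      · exact Set.infinite_univ
    · simp only [SU, h, if_false]; exact Set.infinite_univ
  · intro ε hε hε'
    have := hsucc ε hε hε'
    subst this
    rw [hYδ]
    simp only [ST, if_true]
    exact h3
  · intro ε hε hε' t m
    have := hsucc ε hε hε'
    subst this
    rw [hYδ]
    simp only [SU, if_true]
    intro z hz
    refine (h4 t m z hz).congr hz (fun z' hz' => ?_)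
    simp [su', hz']
  · rw [hY]; exact h6
  · rw [hY]; exact h7
  · rw [hY]; exact fun z hz => h8 z hz.1 hz.2

end Pool.Agent.H55.Lav
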