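import Pool.Agent.H55.Lav.Iter

set_option autoImplicit false
set_option linter.unusedSectionVars false

/-!
# The iteration: limit stages
-/

namespace Pool.Agent.H55.Lav

open Cond

variable {W T : Type} [LinearOrder W] [WellFoundedLT W]

/-- Conditions below the restriction of an extension of `C` which is below a member of `S`. -/
def PN (β γ : W) (C : Cond W) (S : Set (Cond W)) : Set (Cond W) :=
  {G | G ∈ P β ∧ ∃ E ∈ P γ, E ≤ C ∧ (∃ D ∈ S, D ∈ P γ ∧ E ≤ D) ∧ G ≤ E.restr β}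

/-- Closure properties of `N` used at limit stages. -/
structure LimOk (N : Set (Ob W T)) (β γ : W) : Prop where
  ok : Ok N β
  ok' : Ok N γ
  cr : ∀ E, Ob.c E ∈ N → Ob.c (E.restr β) ∈ N
  pn : ∀ C S, Ob.c C ∈ N → Ob.d S ∈ N → Ob.d (PN β γ C S) ∈ N
  pnx : ∀ C x, Ob.c C ∈ N → Ob.x x ∈ N → Ob.x (fun k => PN β γ C (x k)) ∈ N
  pnw : ∀ C S G, Ob.c C ∈ N → Ob.d S ∈ N → Ob.c G ∈ N → G ∈ PN β γ C S →
    ∃ E ∈ P γ, Ob.c E ∈ N ∧ E ≤ C ∧ (∃ D ∈ S, D ∈ P γ ∧ Ob.c D ∈ N ∧ E ≤ D) ∧ G ≤ E.restr β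

lemma limOk_club : ∀ᶠ N in club (Ob W T), ∀ β, Ob.w β ∈ N → ∀ γ, Ob.w γ ∈ N → LimOk N β γ := by
  have h1 : ∀ᶠ N in club (Ob W T), ∀ E, Ob.c E ∈ N → ∀ δ, Ob.w δ ∈ N → Ob.c (E.restr δ) ∈ N :=
    club_diag' _ Ob.c_inj (fun _ => club_diag' _ Ob.w_inj (fun _ => club_mem _))
  have h2 : ∀ᶠ N in club (Ob W T), ∀ C, Ob.c C ∈ N → ∀ S, Ob.d S ∈ N → ∀ δ, Ob.w δ ∈ N → ∀ δ', Ob.w δ' ∈ N →
      Ob.d (PN δ δ' C S) ∈ N :=
    club_diag' _ Ob.c_inj (fun _ => club_diag' _ Ob.d_inj (fun _ => club_diag' _ Ob.w_inj (fun _ =>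
      club_diag' _ Ob.w_inj (fun _ => club_mem _))))
  have h3 : ∀ᶠ N in club (Ob W T), ∀ C, Ob.c C ∈ N → ∀ x, Ob.x x ∈ N → ∀ δ, Ob.w δ ∈ N → ∀ δ', Ob.w δ' ∈ N →
      Ob.x (fun k => PN δ δ' C (x k)) ∈ N :=
    club_diag' _ Ob.c_inj (fun _ => club_diag' _ Ob.x_inj (fun _ => club_diag' _ Ob.w_inj (fun _ =>
      club_diag' _ Ob.w_inj (fun _ => club_mem _))))
  have h4 : ∀ᶠ N in club (Ob W T), ∀ C, Ob.c C ∈ N → ∀ S, Ob.d S ∈ N → ∀ δ, Ob.w δ ∈ N → ∀ δ', Ob.w δ' ∈ N →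
      ∀ G, Ob.c G ∈ N → G ∈ PN δ δ' C S →
        ∃ E ∈ P δ', Ob.c E ∈ N ∧ E ≤ C ∧ (∃ D ∈ S, D ∈ P δ' ∧ Ob.c D ∈ N ∧ E ≤ D) ∧ G ≤ E.restr δ := by
    refine club_diag' _ Ob.c_inj (fun C => club_diag' _ Ob.d_inj (fun S => club_diag' _ Ob.w_inj (fun δ =>
      club_diag' _ Ob.w_inj (fun δ' => club_diag' _ Ob.c_inj (fun G => ?_)))))
    by_cases h : G ∈ PN δ δ' C S
    · obtain ⟨_, E, h1, h2, ⟨D, h3, h4, h5⟩, h6⟩ := h
      filter_upwards [club_mem (Ob.c E), club_mem (Ob.c D)] with N hN hN' _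
      exact ⟨E, h1, hN, h2, ⟨D, h3, h4, hN', h5⟩, h6⟩
    · exact Filter.Eventually.of_forall (fun N h' => (h h').elim)
  filter_upwards [ok_club, h1, h2, h3, h4] with N h0 h1 h2 h3 h4 β hβ γ hγ
  exact ⟨h0 β hβ, h0 γ hγ, fun E hE => h1 E hE β hβ, fun C S hC hS => h2 C hC S hS β hβ γ hγ,
    fun C x hC hx => h3 C hC x hx β hβ γ hγ, fun C S G hC hS hG => h4 C hC S hS β hβ γ hγ G hG⟩

lemma amal_of_le {β : W} {C G : Cond W} (hG : G ∈ P β) (hle : G ≤ C.restr β) : G.Bd β ⊆ C.Bd β := by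
  rw [← body_eq hG, ← restr_body]; exact hle

lemma pn_fo {β γ : W} (hβ : β ≤ γ) {C : Cond W} (hC : C ∈ P γ) {S : Set (Cond W)} (hS : Fo γ S C) :
    Fo β (PN β γ C S) (C.restr β) := by
  intro G hG hle
  have h1 := amal_of_le hG hle
  obtain ⟨E, h2, h3, D, h4, h5, h6⟩ := hS (amal G C β h1) (amal_mem hC hβ) amal_le
  have h7 : E.restr β ≤ G := by
    rw [le_def, restr_body, body_eq hG, ← amal_Bd (h := h1) le_rfl]
    exact le_Bd h3
  exact ⟨E.restr β, restr_mem, h7, E.restr β, ⟨restr_mem, E, h2, h3.trans amal_le, ⟨D, h4, h5, h6⟩, le_rfl⟩,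
    restr_mem, le_rfl⟩

lemma hit_dep {N : Set (Ob W T)} {A : Set W} {β : W} (ok : Ok N β) (hAN : ∀ γ, Ob.w γ ∈ N → γ ∈ A)
    (Q : Set (Cond W)) : DepOn A β (fun z => Hit N β Q z) := by
  intro z z' h
  have key : ∀ C ∈ Q, C ∈ P β → Ob.c C ∈ N → (z ∈ C.body ↔ z' ∈ C.body) := fun C _ hC hCN =>
    body_iff_supp hC (fun γ hγ => h γ (hAN γ (ok.supp C hCN γ hγ)) (hC γ hγ))
  apply propext
  constructor
  · rintro ⟨C, h1, h2, h3, h4⟩
    exact ⟨C, h1, h2, h3, (key C h1 h2 h3).mp h4⟩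
  · rintro ⟨C, h1, h2, h3, h4⟩
    exact ⟨C, h1, h2, h3, (key C h1 h2 h3).mpr h4⟩

/-- Advancing the condition below a new one. -/
lemma adv {N : Set (Ob W T)} {A : Set W} {𝓔 : Set (Set ℕ)} {β γ : W} (lok : LimOk N β γ)
    (hAN : ∀ γ, Ob.w γ ∈ N → γ ∈ A) {X : Set (Z W)} {C : Z W → Cond W} (good : Good N A 𝓔 β γ X C)
    {Q : Z W → Prop} (hQ : LC β X Q) (hQd : DepOn A β Q) {R : Cond W → Prop}
    (hex : ∀ z ∈ X, Q z → ∃ E, Ob.c E ∈ N ∧ E ∈ P γ ∧ E ≤ C z ∧ z ∈ E.Bd β ∧ R E) :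
    ∃ C', Good N A 𝓔 β γ X C' ∧ (∀ z ∈ X, C' z ≤ C z) ∧ ∀ z ∈ X, Q z → R (C' z) := by
  classical
  have ok := lok.ok
  obtain ⟨ν, hν⟩ : ∃ ν : ℕ → Cond W, ∀ E, Ob.c E ∈ N ↔ ∃ i, ν i = E := by
    have h1 : {E : Cond W | Ob.c E ∈ N}.Countable := ok.cnt.preimage_of_injOn Ob.c_inj.injOn
    obtain ⟨ν, h2⟩ := h1.exists_eq_range ⟨_, ok.one⟩
    exact ⟨ν, fun E => by rw [← Set.mem_range, ← h2]; rfl⟩
  have hνN : ∀ i, Ob.c (ν i) ∈ N := fun i => (hν _).mpr ⟨i, rfl⟩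
  let pr : ℕ → Z W → Prop := fun i z => ν i ∈ P γ ∧ ν i ≤ C z ∧ z ∈ (ν i).Bd β ∧ R (ν i)
  have hpex : ∀ z ∈ X, Q z → ∃ i, pr i z := by
    intro z hz hq
    obtain ⟨E, h1, h2, h3, h4, h5⟩ := hex z hz hq
    obtain ⟨i, rfl⟩ := (hν E).mp h1
    exact ⟨i, h2, h3, h4, h5⟩
  have hplc : ∀ i, ∀ z ∈ X, LCat β X (fun z => pr i z) z := by
    intro i z hz
    have h1 : LCat β X (fun z => z ∈ (ν i).Bd β) z := by
      have := lc_mem ok good.gen hz (lok.cr _ (hνN i)) restr_mem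
      rwa [restr_body] at this
    have h2 : LCat β X (fun z => ν i ≤ C z) z := (good.clc z hz).comp (fun D => ν i ≤ D)
    exact (LCat.const _).and (h2.and (h1.and (LCat.const _)))
  have hpdep : ∀ i, DepOn A β (fun z => pr i z) := by
    intro i z z' h
    have h1 : z ∈ (ν i).Bd β ↔ z' ∈ (ν i).Bd β :=
      Bd_iff_supp (fun γ hγ => h γ (hAN γ (ok.supp _ (hνN i) γ hγ)))
    simp only [pr, good.cdep z z' h, h1]
  let C' : Z W → Cond W := fun z => if z ∈ X ∧ Q z then ν (sInf {i | pr i z}) else C z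
  have hs : ∀ z ∈ X, Q z → pr (sInf {i | pr i z}) z := fun z hz hq =>
    Nat.sInf_mem (s := {i | pr i z}) (hpex z hz hq)
  have hC' : ∀ z ∈ X, Q z → C' z = ν (sInf {i | pr i z}) := fun z hz hq => by simp [C', hz, hq]
  have hC'' : ∀ z, ¬ (z ∈ X ∧ Q z) → C' z = C z := fun z hz => by simp only [C', hz, if_false]
  refine ⟨C', ⟨good.gen, good.epr, good.xdep, ?_, ?_, ?_, ?_⟩, ?_, ?_⟩
  · intro z
    by_cases h : z ∈ X ∧ Q z
    · rw [hC' z h.1 h.2]; exact hνN _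
    · rw [hC'' z h]; exact good.cN z
  · intro z hz
    by_cases h : Q z
    · rw [hC' z hz h]; exact ⟨(hs z hz h).1, (hs z hz h).2.2.1⟩
    · rw [hC'' z (fun h' => h h'.2)]; exact good.cP z hz
  · intro z z' h
    have e1 : (z ∈ X ∧ Q z) ↔ (z' ∈ X ∧ Q z') := by
      have h1 := good.xdep z z' h
      have h2 := hQd z z' h
      simp only at h1 h2
      rw [h1, h2]
    have e2 : {i | pr i z} = {i | pr i z'} := by
      ext i
      have := hpdep i z z' h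
      simp only at this
      simp only [Set.mem_ofPred_eq, this]
    simp only [C', e1, e2, good.cdep z z' h]
  · intro z hz
    refine LCat.ite (p := fun z => z ∈ X ∧ Q z) ?_ (fun h => ?_) (fun _ => good.clc z hz)
    · exact (hQ z hz).congr hz (fun z' hz' => by simp [hz'])
    · exact (LCat.least (fun i => hplc i z hz) (hpex z hz h.2)).comp ν
  · intro z hz
    by_cases h : Q z
    · rw [hC' z hz h]; exact (hs z hz h).2.1
    · rw [hC'' z (fun h' => h h'.2)]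
  · intro z hz h
    rw [hC' z hz h]; exact (hs z hz h).2.2.2

/-- One step of the construction at a limit. -/
lemma lim_stage {N : Set (Ob W T)} {A : Set W} {𝓔 : Set (Set ℕ)} {β β' γ : W} (lok : LimOk N β γ) (lok' : LimOk N β' γ)
    (hAN : ∀ γ, Ob.w γ ∈ N → γ ∈ A) (hβ : β ≤ β') (hβ' : β' ≤ γ) (cl : Claim N A 𝓔 β β')
    {X : Set (Z W)} {C : Z W → Cond W} (good : Good N A 𝓔 β γ X C) {S : Set (Cond W)} (hS : Ob.d S ∈ N)
    (hSd : DenseIn γ S) {x : ℕ → Set (Cond W)} (hx : Ob.x x ∈ N) (j : ℕ) {e : Set ℕ} (he : e ∈ 𝓔) :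
    ∃ C' st su, Sys A β β' X st su ∧ Good N A 𝓔 β' γ (YY β X st su β') C' ∧ (∀ z ∈ X, C' z ≤ C z) ∧
      LC β X C' ∧ (∀ z ∈ X, ∃ D ∈ S, D ∈ P γ ∧ Ob.c D ∈ N ∧ C' z ≤ D) ∧
      ∀ z ∈ X, (∀ j, Fo γ (tl x j) (C z)) → ∃ k ∈ e, j < k ∧ ∃ D ∈ x k, D ∈ P γ ∧ Ob.c D ∈ N ∧ C' z ≤ D := by
  classical
  have ok := lok.ok
  have hβγ := hβ.trans hβ'
  -- first: the task
  let y : Cond W → ℕ → Set (Cond W) := fun C k => PN β γ C (x k)
  have hyN : ∀ C, Ob.c C ∈ N → Ob.x (y C) ∈ N := fun C hC => lok.pnx C x hC hx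
  have hytl : ∀ C j, tl (y C) j = PN β γ C (tl x j) := by
    intro C j
    ext G
    constructor
    · rintro ⟨k, hk, h1, E, h2, h3, ⟨D, h4, h5, h6⟩, h7⟩
      exact ⟨h1, E, h2, h3, ⟨D, ⟨k, hk, h4⟩, h5, h6⟩, h7⟩
    · rintro ⟨h1, E, h2, h3, ⟨D, ⟨k, hk, h4⟩, h5, h6⟩, h7⟩
      exact ⟨k, hk, h1, E, h2, h3, ⟨D, h4, h5, h6⟩, h7⟩
  let Q : Z W → Prop := fun z => Hit N β {E | E ∈ P β ∧ ∀ j, Fo β (tl (y (C z)) j) E} z
  have hQlc : LC β X Q := by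
    intro z hz
    exact LCat.bind (g := fun D z => Hit N β {E | E ∈ P β ∧ ∀ j, Fo β (tl (y D) j) E} z) (good.clc z hz)
      (lc_hit ok good.gen hz (ok.inf1 _ (hyN _ (good.cN z))))
  have hQd : DepOn A β Q := by
    intro z z' h
    simp only [Q]
    rw [good.cdep z z' h]
    exact hit_dep ok hAN _ z z' h
  obtain ⟨C1, good1, h1, h2⟩ := adv lok hAN good hQlc hQd
    (R := fun E => ∃ k ∈ e, j < k ∧ ∃ D ∈ x k, D ∈ P γ ∧ Ob.c D ∈ N ∧ E ≤ D) (by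
      intro z hz hq
      obtain ⟨E, ⟨i1, i2⟩, _, i3, i4⟩ := hq
      have h3 := inf_of_fo ok good.gen hz (hyN _ (good.cN z)) i1 i3 i4 i2
      have h4 := good.epr _ (hyN _ (good.cN z)) z hz h3 e he
      obtain ⟨k, ⟨hk, hke⟩, hjk⟩ := h4.exists_gt j
      obtain ⟨G, g1, g2, g3, g4⟩ := hk
      obtain ⟨E', e1, e2, e3, ⟨D, d1, d2, d3, d4⟩, e5⟩ := lok.pnw _ _ _ (good.cN z) (ok.nm x k hx) g3 g1
      refine ⟨E', e2, e1, e3, ?_, k, hke, hjk, D, d1, d2, d3, d4⟩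
      rw [← restr_body]; exact e5 g4)
  have h2' : ∀ z ∈ X, (∀ j, Fo γ (tl x j) (C z)) → Q z := by
    intro z hz hfo
    refine ⟨(C z).restr β, ⟨restr_mem, fun j => ?_⟩, restr_mem, lok.cr _ (good.cN z), ?_⟩
    · rw [hytl]
      exact pn_fo hβγ (good.cP z hz).1 (hfo j)
    · rw [restr_body]; exact (good.cP z hz).2
  -- second: the dense set
  obtain ⟨C2, good2, h3, h4⟩ := adv lok hAN good1 (Q := fun _ => True) (fun z _ => LCat.const _) (fun _ _ _ => rfl)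
    (R := fun E => ∃ D ∈ S, D ∈ P γ ∧ Ob.c D ∈ N ∧ E ≤ D) (by
      intro z hz _
      have h4 : Hit N β (PN β γ (C1 z) S) z := by
        refine hit_of_fo ok good.gen hz (lok.pn _ _ (good1.cN z) hS) restr_mem (lok.cr _ (good1.cN z))
          (by rw [restr_body]; exact (good1.cP z hz).2) (pn_fo hβγ (good1.cP z hz).1 ?_)
        intro E' hE' hle
        obtain ⟨D, d1, d2, d3⟩ := hSd E' hE'
        exact ⟨D, d2, d3, D, d1, d2, le_rfl⟩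
      obtain ⟨G, g1, g2, g3, g4⟩ := h4
      obtain ⟨E', e1, e2, e3, e4, e5⟩ := lok.pnw _ _ _ (good1.cN z) hS g3 g1
      refine ⟨E', e2, e1, e3, ?_, e4⟩
      rw [← restr_body]; exact e5 g4)
  -- third: the claim
  obtain ⟨st, su, s1, g1, e1, m1⟩ := cl X (fun z => (C2 z).restr β')
    { gen := good.gen
      epr := good.epr
      xdep := good.xdep
      cN := fun z => lok'.cr _ (good2.cN z)
      cP := fun z hz => ⟨restr_mem, by rw [restr_Bd hβ]; exact (good2.cP z hz).2⟩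
      cdep := fun z z' h => by simp only; rw [good2.cdep z z' h]
      clc := fun z hz => (good2.clc z hz).comp (fun C => C.restr β') }
  refine ⟨C2, st, su, s1, ?_, fun z hz => (h3 z hz).trans (h1 z hz), good2.clc, fun z hz => h4 z hz trivial, ?_⟩
  · exact
    { gen := g1
      epr := e1
      xdep := YY_dep good.xdep hβ s1.dep s1.triv
      cN := good2.cN
      cP := fun z hz => ⟨(good2.cP z hz.1).1, by
        have := m1 z hz
        rwa [restr_body] at this⟩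
      cdep := good2.cdep.mono hβ
      clc := fun z hz => (good2.clc z hz.1).mono (fun z' hz' => hz'.1) hβ }
  · intro z hz hfo
    obtain ⟨k, hk, hjk, D, d1, d2, d3, d4⟩ := h2 z hz (h2' z hz hfo)
    exact ⟨k, hk, hjk, D, d1, d2, d3, (h3 z hz).trans d4⟩

end Pool.Agent.H55.Lav
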