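import Pool.Agent.H55.Lav.Lim

set_option autoImplicit false
set_option linter.unusedSectionVars false

/-!
# The iteration: limit stages
-/

namespace Pool.Agent.H55.Lav

open Cond

variable {W T : Type} [LinearOrder W] [WellFoundedLT W]

lemma exists_cofinal {K : Set W} (hK : K.Countable) {β γ : W} (hβ : β ∈ K) (hβγ : β < γ)
    (hlim : ∀ δ ∈ K, δ < γ → ∃ δ' ∈ K, δ < δ' ∧ δ' < γ) :
    ∃ g : ℕ → W, g 0 = β ∧ Monotone g ∧ (∀ n, g n ∈ K ∧ g n < γ) ∧ ∀ δ ∈ K, δ < γ → ∃ n, δ < g n := by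
  classical
  have h1 : ({δ | δ ∈ K ∧ δ < γ} : Set W).Countable := hK.mono (fun _ h => h.1)
  obtain ⟨e, he⟩ := h1.exists_eq_range ⟨β, hβ, hβγ⟩
  have he' : ∀ n, e n ∈ K ∧ e n < γ := fun n => by
    have : e n ∈ {δ | δ ∈ K ∧ δ < γ} := by rw [he]; exact ⟨n, rfl⟩
    exact this
  choose f hf1 hf2 hf3 using fun n => hlim (e n) (he' n).1 (he' n).2
  let g : ℕ → W := fun n => Nat.rec β (fun n p => max p (f n)) n
  have hg : ∀ n, g (n + 1) = max (g n) (f n) := fun n => rfl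
  refine ⟨g, rfl, monotone_nat_of_le_succ (fun n => by rw [hg]; exact le_max_left _ _), ?_, ?_⟩
  · intro n
    induction n with
    | zero => exact ⟨hβ, hβγ⟩
    | succ n ih =>
      rw [hg]
      rcases max_choice (g n) (f n) with h | h
      · rw [h]; exact ih
      · rw [h]; exact ⟨hf1 n, hf3 n⟩
  · intro δ hδ hδγ
    have : δ ∈ Set.range e := by rw [← he]; exact ⟨hδ, hδγ⟩
    obtain ⟨n, rfl⟩ := this
    exact ⟨n + 1, by rw [hg]; exact (hf2 n).trans_le (le_max_right _ _)⟩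

lemma claim_lim {N : Set (Ob W T)} {A : Set W} {𝓔 : Set (Set ℕ)} {β γ : W}
    (lok : ∀ δ, Ob.w δ ∈ N → LimOk N δ γ) (hAN : ∀ γ, Ob.w γ ∈ N → γ ∈ A) (hβN : Ob.w β ∈ N) (hβ : β < γ)
    (hlim : ∀ δ, Ob.w δ ∈ N → δ < γ → ∃ δ', Ob.w δ' ∈ N ∧ δ < δ' ∧ δ' < γ)
    (IH : ∀ δ δ', Ob.w δ ∈ N → Ob.w δ' ∈ N → δ ≤ δ' → δ' < γ → Claim N A 𝓔 δ δ')
    (h𝓔 : 𝓔.Countable) (h𝓔' : 𝓔.Nonempty) (hxN : ∃ x, Ob.x x ∈ N) : Claim N A 𝓔 β γ := by
  classical
  intro X C good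
  have ok := (lok β hβN).ok
  have okγ := (lok β hβN).ok'
  obtain ⟨x₀, hx₀⟩ := hxN
  obtain ⟨g, hg0, hgm, hgK, hgc⟩ := exists_cofinal (K := {δ | Ob.w δ ∈ N}) (ok.cnt.preimage_of_injOn Ob.w_inj.injOn)
    hβN hβ (fun δ hδ hδ' => by
      obtain ⟨δ', h1, h2, h3⟩ := hlim δ hδ hδ'
      exact ⟨δ', h1, h2, h3⟩)
  obtain ⟨dn, hdn⟩ : ∃ dn : ℕ → Set (Cond W), ∀ S, (Ob.d S ∈ N ∧ DenseIn γ S) ↔ ∃ i, dn i = S := by
    have h1 : {S : Set (Cond W) | Ob.d S ∈ N ∧ DenseIn γ S}.Countable :=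
      (ok.cnt.preimage_of_injOn Ob.d_inj.injOn).mono (fun S hS => hS.1)
    obtain ⟨dn, h2⟩ := h1.exists_eq_range ⟨Dec γ (x₀ 0), okγ.dec _ (ok.nm x₀ 0 hx₀), dec_dense _ _⟩
    exact ⟨dn, fun E => by rw [← Set.mem_range, ← h2]; rfl⟩
  obtain ⟨tk, htk⟩ : ∃ tk : ℕ → (ℕ → Set (Cond W)) × ℕ × Set ℕ, ∀ q : (ℕ → Set (Cond W)) × ℕ × Set ℕ,
      (Ob.x q.1 ∈ N ∧ q.2.2 ∈ 𝓔) ↔ ∃ i, tk i = q := by
    have h1 : {q : (ℕ → Set (Cond W)) × ℕ × Set ℕ | Ob.x q.1 ∈ N ∧ q.2.2 ∈ 𝓔}.Countable := by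
      have h2 : {x : ℕ → Set (Cond W) | Ob.x x ∈ N}.Countable := ok.cnt.preimage_of_injOn Ob.x_inj.injOn
      refine (h2.prod ((Set.countable_univ (α := ℕ)).prod h𝓔)).mono ?_
      rintro ⟨x, j, e⟩ ⟨h3, h4⟩
      exact ⟨h3, trivial, h4⟩
    obtain ⟨e, he⟩ := h𝓔'
    obtain ⟨tk, h2⟩ := h1.exists_eq_range ⟨(x₀, 0, e), hx₀, he⟩
    exact ⟨tk, fun E => by rw [← Set.mem_range, ← h2]; rfl⟩
  have hstep : ∀ (n : ℕ) (p : Set (Z W) × (Z W → Cond W)), Good N A 𝓔 (g n) γ p.1 p.2 →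
      ∃ q : (Z W → Cond W) × (W → Z W → List ℕ) × (W → Z W → List ℕ → Set ℕ),
        Sys A (g n) (g (n + 1)) p.1 q.2.1 q.2.2 ∧
        Good N A 𝓔 (g (n + 1)) γ (YY (g n) p.1 q.2.1 q.2.2 (g (n + 1))) q.1 ∧ (∀ z ∈ p.1, q.1 z ≤ p.2 z) ∧
        LC (g n) p.1 q.1 ∧ (∀ z ∈ p.1, ∃ D ∈ dn n, D ∈ P γ ∧ Ob.c D ∈ N ∧ q.1 z ≤ D) ∧
        ∀ z ∈ p.1, (∀ j, Fo γ (tl (tk n.unpair.1).1 j) (p.2 z)) →
          ∃ k ∈ (tk n.unpair.1).2.2, (tk n.unpair.1).2.1 < k ∧ ∃ D ∈ (tk n.unpair.1).1 k, D ∈ P γ ∧ Ob.c D ∈ N ∧ q.1 z ≤ D := by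
    intro n p hp
    obtain ⟨C', st, su, h⟩ := lim_stage (lok _ (hgK n).1) (lok _ (hgK (n + 1)).1) hAN (hgm (Nat.le_succ n))
      (hgK (n + 1)).2.le (IH _ _ (hgK n).1 (hgK (n + 1)).1 (hgm (Nat.le_succ n)) (hgK (n + 1)).2) hp
      ((hdn _).mpr ⟨n, rfl⟩).1 ((hdn _).mpr ⟨n, rfl⟩).2 ((htk _).mpr ⟨n.unpair.1, rfl⟩).1 (tk n.unpair.1).2.1
      ((htk _).mpr ⟨n.unpair.1, rfl⟩).2
    exact ⟨(C', st, su), h⟩
  have hne : Nonempty ((Z W → Cond W) × (W → Z W → List ℕ) × (W → Z W → List ℕ → Set ℕ)) :=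
    ⟨(C, fun _ _ => [], fun _ _ _ => Set.univ)⟩
  choose! F hF using hstep
  let s : ℕ → Set (Z W) × (Z W → Cond W) := fun n => Nat.rec (X, C)
    (fun n p => (YY (g n) p.1 (F n p).2.1 (F n p).2.2 (g (n + 1)), (F n p).1)) n
  have hs0 : s 0 = (X, C) := rfl
  have hs : ∀ n, s (n + 1) = (YY (g n) (s n).1 (F n (s n)).2.1 (F n (s n)).2.2 (g (n + 1)), (F n (s n)).1) := fun n => rfl
  have hgood : ∀ n, Good N A 𝓔 (g n) γ (s n).1 (s n).2 := by
    intro n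
    induction n with
    | zero => rw [hs0, hg0]; exact good
    | succ n ih => rw [hs]; exact (hF n (s n) ih).2.1
  -- the union of the systems
  let idx : W → ℕ := fun ε => sInf {n | ε < g n}
  have hidx : ∀ n ε, g n ≤ ε → ε < g (n + 1) → idx ε = n + 1 := by
    intro n ε h1 h2
    have h3 : n + 1 ∈ {n | ε < g n} := h2
    apply le_antisymm (Nat.sInf_le h3)
    by_contra h
    have h4 : idx ε ≤ n := by
      push Not at h
      exact Nat.lt_succ_iff.mp h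
    have h5 : ε < g (idx ε) := Nat.sInf_mem (s := {n | ε < g n}) ⟨_, h3⟩
    exact absurd (h5.trans_le (hgm h4)) (not_lt.mpr h1)
  have hex : ∀ ε, β ≤ ε → (∃ n, ε < g n) → ∃ n, g n ≤ ε ∧ ε < g (n + 1) := by
    intro ε h1 h2
    have h3 : ε < g (idx ε) := Nat.sInf_mem (s := {n | ε < g n}) h2
    have h4 : idx ε ≠ 0 := by
      intro h
      rw [h, hg0] at h3
      exact absurd h3 (not_lt.mpr h1)
    obtain ⟨n, hn⟩ := Nat.exists_eq_succ_of_ne_zero h4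
    refine ⟨n, ?_, by rw [hn] at h3; exact h3⟩
    by_contra h
    push Not at h
    have : idx ε ≤ n := Nat.sInf_le (s := {n | ε < g n}) h
    omega
  let st : W → Z W → List ℕ := fun ε => if ∃ n, ε < g n then (F (idx ε - 1) (s (idx ε - 1))).2.1 ε else fun _ => []
  let su : W → Z W → List ℕ → Set ℕ := fun ε =>
    if ∃ n, ε < g n then (F (idx ε - 1) (s (idx ε - 1))).2.2 ε else fun _ _ => Set.univ
  have hst : ∀ n ε, g n ≤ ε → ε < g (n + 1) → st ε = (F n (s n)).2.1 ε ∧ su ε = (F n (s n)).2.2 ε := by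
    intro n ε h1 h2
    have h3 : ∃ n, ε < g n := ⟨_, h2⟩
    simp only [st, su, h3, if_true, hidx n ε h1 h2, Nat.add_sub_cancel, and_self]
  have hYn : ∀ n, YY β X st su (g n) = (s n).1 := by
    intro n
    induction n with
    | zero => rw [hg0, YY_self, hs0]
    | succ n ih =>
      rw [hs]
      ext z
      constructor
      · rintro ⟨h1, h2⟩
        refine ⟨?_, fun ε hε hε' => ?_⟩
        · rw [← ih]
          exact ⟨h1, fun ε hε hε' => h2 ε hε (hε'.trans_le (hgm (Nat.le_succ n)))⟩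
        · have := h2 ε ((hg0 ▸ hgm (Nat.zero_le n) : β ≤ g n).trans hε) hε'
          rwa [(hst n ε hε hε').1, (hst n ε hε hε').2] at this
      · rintro ⟨h1, h2⟩
        rw [← ih] at h1
        refine ⟨h1.1, fun ε hε hε' => ?_⟩
        by_cases hlt : ε < g n
        · exact h1.2 ε hε hlt
        · rw [(hst n ε (not_lt.mp hlt) hε').1, (hst n ε (not_lt.mp hlt) hε').2]
          exact h2 ε (not_lt.mp hlt) hε'
  have hYsub : ∀ n, YY β X st su γ ⊆ (s n).1 := by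
    intro n
    rw [← hYn]
    exact fun z hz => ⟨hz.1, fun ε hε hε' => hz.2 ε hε (hε'.trans (hgK n).2)⟩
  have hCm : ∀ n m, n ≤ m → ∀ z ∈ YY β X st su γ, (s m).2 z ≤ (s n).2 z := by
    intro n m hnm z hz
    induction m, hnm using Nat.le_induction with
    | base => exact le_rfl
    | succ m _ ih =>
      refine le_trans ?_ ih
      rw [hs]
      exact (hF m (s m) (hgood m)).2.2.1 z (hYsub m hz)
  have hmem : ∀ n, ∀ z ∈ YY β X st su γ, z ∈ ((s n).2 z).body := by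
    intro n z hz
    have h1 : ∀ m, z ∈ ((s n).2 z).Bd (g m) := by
      intro m
      rcases le_total n m with h | h
      · exact le_Bd (hCm n m h z hz) ((hgood m).cP z (hYsub m hz)).2
      · exact Bd_mono (hgm h) ((hgood n).cP z (hYsub n hz)).2
    intro ε
    by_cases hε : ε ∈ ((s n).2 z).supp
    · have h2 : Ob.w ε ∈ N := ok.supp _ ((hgood n).cN z) ε hε
      have h3 : ε < γ := ((hgood n).cP z (hYsub n hz)).1 ε hε
      obtain ⟨m, hm⟩ := hgc ε h2 h3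
      exact h1 m ε hm
    · obtain ⟨h3, h4⟩ := ((s n).2 z).triv ε hε z
      rw [h3, h4]
      exact ⟨rfl, fun _ _ => trivial⟩
  have hsucc : ∀ n, (s (n + 1)).2 = (F n (s n)).1 := fun n => by rw [hs]
  have hCloc : ∀ n, ∀ z ∈ YY β X st su γ, LocIn γ (YY β X st su γ) z ((s (n + 1)).2 z).body := by
    intro n z hz
    have h1 : LCat γ (YY β X st su γ) (F n (s n)).1 z :=
      ((hF n (s n) (hgood n)).2.2.2.1 z (hYsub n hz)).mono (hYsub n) (hgK n).2.le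
    obtain ⟨K, k, h2, h3⟩ := h1
    refine ⟨K, k, h2, fun z' hz' ha => ?_⟩
    have h4 := hmem (n + 1) z' hz'
    rw [hsucc, h3 z' hz' ha] at h4
    rwa [hsucc]
  have hgen : Gen N γ (YY β X st su γ) := by
    intro S hS hSd z hz
    obtain ⟨n, hn⟩ := (hdn S).mp ⟨hS, hSd⟩
    obtain ⟨D, h1, h2, h3, h4⟩ := (hF n (s n) (hgood n)).2.2.2.2.1 z (hYsub n hz)
    rw [hn] at h1
    refine ⟨D, h1, h2, h3, (hCloc n z hz).mono ?_⟩
    rw [hsucc]; exact h4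
  have hepr : Epr N γ (YY β X st su γ) 𝓔 := by
    intro x hx z hz hinf e he
    obtain ⟨E, h1, h2, h3, h4⟩ := exists_inf okγ hgen hz hx hinf
    -- a stage below `E`
    obtain ⟨n, hn⟩ := (hdn (Dir γ E)).mp ⟨okγ.dir E h2, dir_dense h1⟩
    obtain ⟨D, d1, d2, d3, d4⟩ := (hF n (s n) (hgood n)).2.2.2.2.1 z (hYsub n hz)
    rw [hn] at d1
    rw [← hsucc] at d4
    have h5 : (s (n + 1)).2 z ≤ E := by
      rcases d1.2 with h | h
      · exact d4.trans h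
      · exact (Set.disjoint_left.mp h (d4 (hmem (n + 1) z hz)) h3).elim
    rw [Set.infinite_iff_exists_gt]
    intro j
    obtain ⟨i, hi⟩ := (htk (x, j, e)).mp ⟨hx, he⟩
    set m := Nat.pair i (n + 1) with hm
    have hmn : n + 1 ≤ m := Nat.right_le_pair i (n + 1)
    have hmu : m.unpair.1 = i := by rw [hm, Nat.unpair_pair]
    have h6 := (hF m (s m) (hgood m)).2.2.2.2.2 z (hYsub m hz)
    rw [hmu, hi] at h6
    obtain ⟨k, hk, hjk, D', e1, e2, e3, e4⟩ := h6 (fun j E' hE' hle =>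
      h4 j E' hE' (hle.trans ((hCm (n + 1) m hmn z hz).trans h5)))
    rw [← hsucc] at e4
    exact ⟨k, ⟨⟨D', e1, e2, e3, e4 (hmem (m + 1) z hz)⟩, hk⟩, hjk⟩
  refine ⟨st, su, ⟨?_, ?_, ?_, ?_, ?_⟩, hgen, hepr, fun z hz => by simpa [hs0] using hmem 0 z hz⟩
  · intro ε
    by_cases h : ∃ n, ε < g n
    · simp only [st, su, h, if_true]
      exact (hF _ _ (hgood _)).1.dep ε
    · simp only [st, su, h, if_false]
      exact ⟨fun _ _ _ => rfl, fun _ _ _ => rfl⟩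
  · intro ε hε z
    by_cases h : ∃ n, ε < g n
    · simp only [st, su, h, if_true]
      exact (hF _ _ (hgood _)).1.triv ε hε z
    · simp only [st, su, h, if_false]
      exact ⟨trivial, trivial⟩
  · intro ε z t
    by_cases h : ∃ n, ε < g n
    · simp only [su, h, if_true]
      exact (hF _ _ (hgood _)).1.inf ε z t
    · simp only [su, h, if_false]
      exact Set.infinite_univ
  · intro ε hε hε'
    by_cases h : ∃ n, ε < g n
    · obtain ⟨n, h1, h2⟩ := hex ε hε h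
      rw [(hst n ε h1 h2).1]
      intro z hz
      have hsub : YY β X st su ε ⊆ YY (g n) (s n).1 (F n (s n)).2.1 (F n (s n)).2.2 ε := by
        intro z hz
        refine ⟨?_, fun ζ hζ hζ' => ?_⟩
        · rw [← hYn]; exact ⟨hz.1, fun ζ hζ hζ' => hz.2 ζ hζ (hζ'.trans_le h1)⟩
        · have := hz.2 ζ ((hg0 ▸ hgm (Nat.zero_le n) : β ≤ g n).trans hζ) hζ'
          rwa [(hst n ζ hζ (hζ'.trans h2)).1, (hst n ζ hζ (hζ'.trans h2)).2] at this
      exact ((hF n (s n) (hgood n)).1.lcst ε h1 h2 z (hsub hz)).mono hsub le_rfl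
    · simp only [st, h, if_false]
      exact fun z _ => LCat.const _
  · intro ε hε hε' t m
    by_cases h : ∃ n, ε < g n
    · obtain ⟨n, h1, h2⟩ := hex ε hε h
      rw [(hst n ε h1 h2).2]
      intro z hz
      have hsub : YY β X st su ε ⊆ YY (g n) (s n).1 (F n (s n)).2.1 (F n (s n)).2.2 ε := by
        intro z hz
        refine ⟨?_, fun ζ hζ hζ' => ?_⟩
        · rw [← hYn]; exact ⟨hz.1, fun ζ hζ hζ' => hz.2 ζ hζ (hζ'.trans_le h1)⟩
        · have := hz.2 ζ ((hg0 ▸ hgm (Nat.zero_le n) : β ≤ g n).trans hζ) hζ'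
          rwa [(hst n ζ hζ (hζ'.trans h2)).1, (hst n ζ hζ (hζ'.trans h2)).2] at this
      exact ((hF n (s n) (hgood n)).1.lcsu ε h1 h2 t m z (hsub hz)).mono hsub le_rfl
    · simp only [su, h, if_false]
      exact fun z _ => LCat.const _

end Pool.Agent.H55.Lav
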