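import Pool.Agent.H55.Lav.Cond

set_option autoImplicit false
set_option linter.unusedSectionVars false

/-!
# Extension of branches, closedness and localisation of conditions
-/

namespace Pool.Agent.H55.Lav.Cond

variable {W : Type} [LinearOrder W] [WellFoundedLT W] {C D E : Cond W} {β γ δ : W} {z z' : Z W}

lemma exists_ext_aux (C : Cond W) (z : Z W) (p : W → Prop) (hp : ∀ γ δ, δ < γ → p γ → p δ)
    (hz : ∀ γ, p γ → Br (C.st γ z) (C.su γ z) (z γ)) : ∃ z' ∈ C.body, ∀ γ, p γ → z' γ = z γ := by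
  classical
  let glue : (γ : W) → ((δ : W) → δ < γ → ℕ → ℕ) → Z W :=
    fun γ prev δ => if h : δ < γ then prev δ h else fun _ => 0
  let g : (γ : W) → ((δ : W) → δ < γ → ℕ → ℕ) → ℕ → ℕ := fun γ prev =>
    if p γ then z γ else (exists_br (C.inf γ (glue γ prev)) (C.st γ (glue γ prev))).choose
  let z' : Z W := (wellFounded_lt (α := W)).fix g
  have hz' : ∀ γ, z' γ = g γ (fun δ _ => z' δ) := fun γ => WellFounded.fix_eq _ g γ
  have h1 : ∀ γ, p γ → z' γ = z γ := fun γ hγ => by rw [hz']; simp [g, hγ]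
  refine ⟨z', fun γ => ?_, h1⟩
  by_cases hγ : p γ
  · have e := depEq (C := C) (γ := γ) (z := z') (z' := z) (fun δ hδ => h1 δ (hp _ _ hδ hγ))
    rw [e.1, e.2, h1 γ hγ]; exact hz γ hγ
  · rw [hz' γ]
    simp only [g, hγ, if_false]
    have e := depEq (C := C) (γ := γ) (z := z') (z' := glue γ (fun δ _ => z' δ)) (fun δ hδ => by simp [glue, hδ])
    rw [e.1, e.2]
    exact (exists_br (C.inf γ (glue γ (fun δ _ => z' δ))) (C.st γ (glue γ (fun δ _ => z' δ)))).choose_spec

lemma exists_ext (hz : z ∈ C.Bd β) : ∃ z' ∈ C.body, ∀ γ < β, z' γ = z γ :=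
  exists_ext_aux C z (fun γ => γ < β) (fun _ _ h h' => h.trans h') (fun γ hγ => hz γ hγ)

lemma body_nonempty (C : Cond W) : ∃ z, z ∈ C.body := by
  obtain ⟨z, hz, _⟩ := exists_ext_aux C (fun _ _ => 0) (fun _ => False) (fun _ _ _ h => h) (fun _ h => h.elim)
  exact ⟨z, hz⟩

lemma le_Bd (h : C ≤ D) : C.Bd β ⊆ D.Bd β := by
  intro z hz
  obtain ⟨z', h1, h2⟩ := exists_ext hz
  exact (Bd_iff h2).mp (body_sub_Bd (h h1))

lemma restr_mono (h : C ≤ D) : C.restr β ≤ D.restr β := by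
  rw [le_def, restr_body, restr_body]; exact le_Bd h

/-- The complement of the body is open. -/
lemma not_mem_Bd (hz : z ∉ C.Bd β) :
    ∃ (F : Finset W) (k : ℕ), (∀ γ ∈ F, γ < β) ∧ ∀ z', Agr F k z z' → z' ∉ C.Bd β := by
  have h0 : {γ | γ < β ∧ ¬ Br (C.st γ z) (C.su γ z) (z γ)}.Nonempty := by
    by_contra h
    apply hz
    intro γ hγ
    by_contra h'
    exact h ⟨γ, hγ, h'⟩
  obtain ⟨γ, ⟨hγ, hbr⟩, hmin⟩ := (wellFounded_lt (α := W)).has_min _ h0
  have hzγ : z ∈ C.Bd γ := by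
    intro δ hδ
    by_contra h'
    exact hmin δ ⟨hδ.trans hγ, h'⟩ hδ
  obtain ⟨F1, k1, h1, h1'⟩ := C.lcst γ z hzγ
  by_cases hst : res (z γ) (C.st γ z).length = C.st γ z
  · have h2 : ∃ n, (C.st γ z).length ≤ n ∧ z γ n ∉ C.su γ z (res (z γ) n) := by
      by_contra h
      push Not at h
      exact hbr ⟨hst, h⟩
    obtain ⟨n, hn, hn'⟩ := h2
    obtain ⟨F2, k2, h3, h3'⟩ := C.lcsu γ (res (z γ) n) (z γ n) z hzγ
    refine ⟨insert γ (F1 ∪ F2), max (max k1 k2) (n + 1), ?_, ?_⟩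
    · intro ε hε
      rcases Finset.mem_insert.mp hε with h | h
      · rw [h]; exact hγ
      · rcases Finset.mem_union.mp h with h | h
        · exact (h1 ε h).trans hγ
        · exact (h3 ε h).trans hγ
    · intro z' ha hz'
      have hz'γ : z' ∈ C.Bd γ := Bd_mono hγ.le hz'
      have e1 := h1' z' hz'γ (ha.mono (fun ε hε => Finset.mem_insert_of_mem (Finset.mem_union_left _ hε))
        ((le_max_left _ _).trans (le_max_left _ _)))
      have e2 := h3' z' hz'γ (ha.mono (fun ε hε => Finset.mem_insert_of_mem (Finset.mem_union_right _ hε))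
        ((le_max_right _ _).trans (le_max_left _ _)))
      have h4 := (hz' γ hγ).2 n (by rw [e1]; exact hn)
      have e3 : res (z γ) n = res (z' γ) n := ha.res (Finset.mem_insert_self _ _) (by
        have := le_max_right (max k1 k2) (n + 1); omega)
      have e4 : z γ n = z' γ n := ha γ (Finset.mem_insert_self _ _) n (by
        have := le_max_right (max k1 k2) (n + 1); omega)
      rw [← e3, ← e4] at h4
      exact hn' (by simpa only [eq_iff_iff] using (e2.mp h4))
  · refine ⟨insert γ F1, max k1 (C.st γ z).length, ?_, ?_⟩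
    · intro ε hε
      rcases Finset.mem_insert.mp hε with h | h
      · rw [h]; exact hγ
      · exact (h1 ε h).trans hγ
    · intro z' ha hz'
      have hz'γ : z' ∈ C.Bd γ := Bd_mono hγ.le hz'
      have e1 := h1' z' hz'γ (ha.mono (fun ε hε => Finset.mem_insert_of_mem hε) (le_max_left _ _))
      have h4 := (hz' γ hγ).1
      rw [e1, ← ha.res (Finset.mem_insert_self _ _) (le_max_right _ _)] at h4
      exact hst h4

lemma mem_node {v : List ℕ} : z ∈ (C.node δ v).body ↔
    z ∈ C.body ∧ (Nd (C.st δ z) (C.su δ z) v → Br v (C.su δ z) (z δ)) := by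
  classical
  refine Iff.trans (b := z ∈ C.body ∧ Br (if Nd (C.st δ z) (C.su δ z) v then v else C.st δ z) (C.su δ z) (z δ)) ?_ ?_
  · unfold node
    exact mem_upd
  constructor
  · rintro ⟨h1, h2⟩
    refine ⟨h1, fun h => ?_⟩
    simpa only [h, if_true] using h2
  · rintro ⟨h1, h2⟩
    refine ⟨h1, ?_⟩
    by_cases h : Nd (C.st δ z) (C.su δ z) v
    · simpa only [h, if_true] using h2 h
    · simpa only [h, if_false] using h1 δ

lemma node_st_ne {v : List ℕ} (h : γ ≠ δ) : (C.node δ v).st γ = C.st γ := upd_st_ne h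
lemma node_su_ne {v : List ℕ} (h : γ ≠ δ) : (C.node δ v).su γ = C.su γ := upd_su_ne h

lemma loc_aux (γ : W) : ∀ (C : Cond W) (z : Z W) (F : Finset W) (k : ℕ), z ∈ C.body → (∀ δ ∈ F, δ ≤ γ) →
    ∃ C' : Cond W, C' ≤ C ∧ z ∈ C'.body ∧ (∀ z' ∈ C'.body, Agr F k z z') ∧
      (∀ δ, γ < δ → C'.st δ = C.st δ ∧ C'.su δ = C.su δ) ∧ ∀ δ ∈ C'.supp, δ ∈ C.supp ∨ δ ≤ γ := by
  induction γ using (wellFounded_lt (α := W)).induction with
  | _ γ IH =>
    intro C z F k hz hF
    classical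
    have step : ∀ (C : Cond W) (z : Z W) (F : Finset W) (k : ℕ), z ∈ C.body → (∀ δ ∈ F, δ < γ) →
        ∃ C' : Cond W, C' ≤ C ∧ z ∈ C'.body ∧ (∀ z' ∈ C'.body, Agr F k z z') ∧
          (∀ δ, γ ≤ δ → C'.st δ = C.st δ ∧ C'.su δ = C.su δ) ∧ ∀ δ ∈ C'.supp, δ ∈ C.supp ∨ δ ≤ γ := by
      intro C z F k hz hF
      by_cases hne : F.Nonempty
      · have h1 : F.max' hne < γ := hF _ (F.max'_mem hne)
        obtain ⟨C', h2, h3, h4, h5, h6⟩ := IH _ h1 C z F k hz (fun δ hδ => F.le_max' δ hδ)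
        exact ⟨C', h2, h3, h4, fun δ hδ => h5 δ (h1.trans_le hδ), fun δ hδ =>
          (h6 δ hδ).imp_right (fun h => h.trans h1.le)⟩
      · rw [Finset.not_nonempty_iff_eq_empty] at hne
        subst hne
        exact ⟨C, le_rfl, hz, fun _ _ _ h => by simp at h, fun _ _ => ⟨rfl, rfl⟩, fun _ h => Or.inl h⟩
    by_cases hγF : γ ∈ F
    · set K := max k (C.st γ z).length with hK
      set v := res (z γ) K with hv
      have hzγ : z ∈ C.Bd γ := body_sub_Bd hz
      have hndz : Nd (C.st γ z) (C.su γ z) v := (hz γ).nd (le_max_right _ _)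
      obtain ⟨F1, k1, h1, h1'⟩ := LCat.nd (C.lcst γ z hzγ) (fun t m => C.lcsu γ t m z hzγ) v
      obtain ⟨C1, h2, h3, h4, h5, h6⟩ := step C z (F.filter (· < γ) ∪ F1) (max k k1) hz (by
        intro δ hδ
        rcases Finset.mem_union.mp hδ with h | h
        · exact (Finset.mem_filter.mp h).2
        · exact h1 δ h)
      obtain ⟨h7, h8⟩ := h5 γ le_rfl
      have hst : ∀ z' ∈ C1.body, Nd (C1.st γ z') (C1.su γ z') v := by
        intro z' hz'
        rw [h7, h8]
        have e1 := h1' z' (body_sub_Bd (h2 hz')) ((h4 z' hz').mono Finset.subset_union_right (le_max_right _ _))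
        simp only [eq_iff_iff] at e1
        exact e1.mpr hndz
      refine ⟨C1.node γ v, node_le.trans h2, ?_, ?_, ?_, ?_⟩
      · rw [mem_node]
        refine ⟨h3, fun _ => ?_⟩
        have := (h3 γ).br_of_len (n := K) (by rw [h7]; exact le_max_right _ _)
        exact this
      · intro z' hz'
        rw [mem_node] at hz'
        obtain ⟨h9, h10⟩ := hz'
        have h11 := (h10 (hst z' h9)).1
        intro δ hδ i hi
        by_cases hδγ : δ = γ
        · subst hδγ
          rw [hv, length_res] at h11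
          have := res_inj h11 i (lt_of_lt_of_le hi (le_max_left _ _))
          exact this.symm
        · exact h4 z' h9 δ (Finset.mem_union_left _ (Finset.mem_filter.mpr ⟨hδ, lt_of_le_of_ne (hF δ hδ) hδγ⟩)) i
            (lt_of_lt_of_le hi (le_max_left _ _))
      · intro δ hδ
        rw [node_st_ne hδ.ne', node_su_ne hδ.ne']
        exact h5 δ hδ.le
      · rintro δ ((hδ | hδ) | hδ)
        · exact h6 δ hδ
        · exact h6 δ hδ.1
        · rw [Set.mem_singleton_iff] at hδ; rw [hδ]; exact Or.inr le_rfl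
    · obtain ⟨C1, h2, h3, h4, h5, h6⟩ := step C z F k hz (fun δ hδ => lt_of_le_of_ne (hF δ hδ) (fun h => hγF (h ▸ hδ)))
      exact ⟨C1, h2, h3, h4, fun δ hδ => h5 δ hδ.le, h6⟩

/-- Every point of a condition has arbitrarily small neighbourhoods which are conditions. -/
lemma loc (hC : C ∈ P β) (hz : z ∈ C.body) {F : Finset W} (hF : ∀ δ ∈ F, δ < β) (k : ℕ) :
    ∃ C' ∈ P β, C' ≤ C ∧ z ∈ C'.body ∧ ∀ z' ∈ C'.body, Agr F k z z' := by
  by_cases hne : F.Nonempty
  · obtain ⟨C', h2, h3, h4, h5, h6⟩ := loc_aux (F.max' hne) C z F k hz (fun δ hδ => F.le_max' δ hδ)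
    refine ⟨C', fun δ hδ => ?_, h2, h3, h4⟩
    rcases h6 δ hδ with h | h
    · exact hC δ h
    · exact h.trans_lt (hF _ (F.max'_mem hne))
  · rw [Finset.not_nonempty_iff_eq_empty] at hne
    subst hne
    exact ⟨C, hC, le_rfl, hz, fun _ _ _ h => by simp at h⟩

/-- Either `E` is below `C`, or some condition below `E` is disjoint from `C`. -/
lemma dich (hE : E ∈ P β) (hC : C ∈ P β) : E ≤ C ∨ ∃ E' ∈ P β, E' ≤ E ∧ Disjoint E'.body C.body := by
  by_cases h : E ≤ C
  · exact Or.inl h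
  · right
    rw [le_def, Set.not_subset] at h
    obtain ⟨z, hz, hz'⟩ := h
    rw [body_eq hC] at hz'
    obtain ⟨F, k, h1, h2⟩ := not_mem_Bd hz'
    obtain ⟨E', h3, h4, h5, h6⟩ := loc hE hz h1 k
    refine ⟨E', h3, h4, Set.disjoint_left.mpr (fun w hw hw' => ?_)⟩
    rw [body_eq hC] at hw'
    exact h2 w (h6 w hw) hw'

end Pool.Agent.H55.Lav.Cond
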