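import Pool.Agent.H55.SCBridge
import Pool.Agent.H55.CSDefs

set_option autoImplicit false
set_option linter.all false

/-!
# There is no countable splitting family
-/

namespace Pool.Agent.H55.ZFU

open Pool.Agent.H55.SC Pool.Agent.H55.CS

universe u
variable {M : Type u} [Model M] [Pure M]

/-- `d` is an infinite subset of `ω`. -/
def InfM (d : M) : Prop := d ⊆ omega ∧ ∀ n, n ∈ (omega : M) → ∃ m, m ∈ d ∧ n ∈ m

instance infM_dfn {ι : Type} (t : (ι → M) → M) [DFun t] : Dfn (fun v => InfM (t v)) := by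
  refine Dfn.comp1 (P := fun f : M => InfM f) ?_ t
  unfold InfM; infer_instance

theorem nat_mem_trans {k m n : M} (hn : n ∈ (omega : M)) (h : k ∈ m) (h' : m ∈ n) : k ∈ n := nat_trans hn m h' k h

theorem nat_sub {m n : M} (hm : m ∈ (omega : M)) (hn : n ∈ (omega : M)) (h : m ∉ n) : n ⊆ m :=
  ord_not_mem (nat_ord hm) (nat_ord hn) h

theorem mem_of_sub_mem {k m n : M} (hk : k ∈ (omega : M)) (hm : m ∈ (omega : M)) (hn : n ∈ (omega : M)) (h : k ⊆ m)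
    (h' : m ∈ n) : k ∈ n := by
  rcases (ord_sub_iff (nat_ord hk) (nat_ord hm)).1 h with h1 | h1
  · exact nat_mem_trans hn h1 h'
  · rw [h1]; exact h'

/-- Two natural numbers have an upper bound. -/
theorem nat_ub {m n : M} (hm : m ∈ (omega : M)) (hn : n ∈ (omega : M)) : ∃ k, k ∈ (omega : M) ∧ m ⊆ k ∧ n ⊆ k := by
  by_cases h : m ∈ n
  · exact ⟨n, hn, (nat_ord hn).sub h, Sub.refl _⟩
  · exact ⟨m, hm, Sub.refl _, nat_sub hm hn h⟩

theorem inf_diff {d a : M} (hd : InfM d) (h : ¬ InfM (inter d a)) : InfM (diff d a) := by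
  have hda : inter d a ⊆ (omega : M) := fun x hx => hd.1 x (mem_inter.1 hx).1
  have h1 : ∃ n0, n0 ∈ (omega : M) ∧ ∀ m, m ∈ inter d a → n0 ∉ m := by
    by_contra hcon
    push Not at hcon
    exact h ⟨hda, hcon⟩
  obtain ⟨n0, hn0, h2⟩ := h1
  refine ⟨fun x hx => hd.1 x (mem_diff.1 hx).1, fun n hn => ?_⟩
  obtain ⟨k, hk, hk1, hk2⟩ := nat_ub hn hn0
  obtain ⟨m, hm, hkm⟩ := hd.2 k hk
  have hmo := hd.1 m hm
  refine ⟨m, mem_diff.2 ⟨hm, fun hma => ?_⟩, mem_of_sub_mem hn hk hmo hk1 hkm⟩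
  exact h2 m (mem_inter.2 ⟨hm, hma⟩) (mem_of_sub_mem hn0 hk hmo hk2 hkm)

theorem exists_unsplit (f : M) : ∃ b : M, InfM b ∧ ∀ n, n ∈ (omega : M) →
    ¬ ((∀ k, k ∈ (omega : M) → ∃ m, m ∈ b ∧ m ∈ app f n ∧ k ∈ m) ∧ ∀ k, k ∈ (omega : M) → ∃ m, m ∈ b ∧ m ∉ app f n ∧ k ∈ m) := by
  obtain ⟨D0, hD0, hD00, hD0s⟩ := exists_nrec (M := M) (fun _ => omega)
    (fun f n d => iteM (InfM (inter d (app f n))) (inter d (app f n)) (diff d (app f n)))
  obtain ⟨D, hD⟩ : ∃ D : M → M, D = fun n => D0 f n := ⟨_, rfl⟩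
  have iD : ∀ {ι : Type} (t : (ι → M) → M) [DFun t], DFun (fun v => D (t v)) := fun t => by
    rw [hD]; exact DFun.comp2 hD0 (fun _ => f) t
  have hD1 : D ∅ = omega := by rw [hD]; exact hD00 f
  have hDs : ∀ n, n ∈ (omega : M) → D (suc n) = iteM (InfM (inter (D n) (app f n))) (inter (D n) (app f n)) (diff (D n) (app f n)) := by
    intro n hn; rw [hD]; exact hD0s f n hn
  have hstep : ∀ n, n ∈ (omega : M) → InfM (D n) → InfM (D (suc n)) ∧ D (suc n) ⊆ D n ∧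
      (D (suc n) ⊆ app f n ∨ ∀ x, x ∈ D (suc n) → x ∉ app f n) := by
    intro n hn h
    rw [hDs n hn]
    by_cases hi : InfM (inter (D n) (app f n))
    · rw [iteM_pos hi]
      exact ⟨hi, fun x hx => (mem_inter.1 hx).1, Or.inl (fun x hx => (mem_inter.1 hx).2)⟩
    · rw [iteM_neg hi]
      exact ⟨inf_diff h hi, fun x hx => (mem_diff.1 hx).1, Or.inr (fun x hx => (mem_diff.1 hx).2)⟩
  have hinf : ∀ n, n ∈ (omega : M) → InfM (D n) := by
    refine omega_induction (fun n => InfM (D n)) ?_ ?_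
    · rw [hD1]
      exact ⟨Sub.refl _, fun n hn => ⟨suc n, suc_mem_omega hn, by simp⟩⟩
    · intro n hn ih
      exact (hstep n hn ih).1
  have hdec : ∀ n, n ∈ (omega : M) → ∀ k, k ∈ (omega : M) → n ∈ k → D k ⊆ D (suc n) := by
    intro n hn
    refine omega_induction (fun k => n ∈ k → D k ⊆ D (suc n)) ?_ ?_
    · intro h; simp at h
    · intro k hk ih h
      rcases mem_suc.1 h with h1 | h1
      · exact Sub.trans (hstep k hk (hinf k hk)).2.1 (ih h1)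
      · rw [h1]; exact Sub.refl _
  -- the least elements
  obtain ⟨φ, hφ⟩ : ∃ φ : M → M → Prop, φ = fun k m => m ∈ D k ∧ k ⊆ m ∧ ∀ m', m' ∈ D k → k ⊆ m' → m ⊆ m' := ⟨_, rfl⟩
  have iφ : ∀ {ι : Type} (t s : (ι → M) → M) [DFun t] [DFun s], Dfn (fun v => φ (t v) (s v)) := by
    intro ι t s _ _
    refine Dfn.comp2 (P := φ) ?_ t s
    rw [hφ]
    infer_instance
  have hφex : ∀ n, n ∈ (omega : M) → ∃ m, m ∈ (omega : M) ∧ φ n m := by
    intro n hn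
    have h1 := hinf n hn
    obtain ⟨m0, hm0, hm0'⟩ := h1.2 n hn
    obtain ⟨m, hm1, hm2, hm3⟩ := least_ord (fun m => m ∈ D n ∧ n ⊆ m) ⟨m0, nat_ord (h1.1 m0 hm0), hm0,
      (nat_ord (h1.1 m0 hm0)).sub hm0'⟩
    refine ⟨m, h1.1 m hm2.1, ?_⟩
    rw [hφ]
    exact ⟨hm2.1, hm2.2, fun m' hm' hn' => hm3 m' (nat_ord (h1.1 m' hm')) ⟨hm', hn'⟩⟩
  have hbd : ∀ n, n ∈ (omega : M) → ∃ B, B ∈ (omega : M) ∧ ∀ m, m ∈ (omega : M) → (∃ k, k ∈ n ∧ φ k m) → m ⊆ B := by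
    refine omega_induction (fun n => ∃ B, B ∈ (omega : M) ∧ ∀ m, m ∈ (omega : M) → (∃ k, k ∈ n ∧ φ k m) → m ⊆ B) ?_ ?_
    · refine ⟨∅, by simp, ?_⟩
      rintro m _ ⟨k, hk, _⟩
      simp at hk
    · rintro n hn ⟨B, hB, hB'⟩
      obtain ⟨m0, hm0, hm0'⟩ := hφex n hn
      obtain ⟨B', h1, h2, h3⟩ := nat_ub hB hm0
      refine ⟨B', h1, ?_⟩
      rintro m hm ⟨k, hk, hkm⟩
      rcases mem_suc.1 hk with h4 | h4
      · exact Sub.trans (hB' m hm ⟨k, h4, hkm⟩) h2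
      · subst h4
        rw [hφ] at hkm hm0'
        exact Sub.trans (hkm.2.2 m0 hm0'.1 hm0'.2.1) h3
  refine ⟨sep omega (fun m => ∃ k, k ∈ (omega : M) ∧ φ k m), ⟨fun x hx => (mem_sep.1 hx).1, fun n hn => ?_⟩, ?_⟩
  · obtain ⟨m, hm, hm'⟩ := hφex (suc n) (suc_mem_omega hn)
    refine ⟨m, mem_sep.2 ⟨hm, suc n, suc_mem_omega hn, hm'⟩, ?_⟩
    rw [hφ] at hm'
    exact hm'.2.1 n (by simp)
  · rintro n hn ⟨h1, h2⟩
    obtain ⟨B, hB, hB'⟩ := hbd (suc n) (suc_mem_omega hn)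
    have key : ∀ m, m ∈ sep omega (fun m => ∃ k, k ∈ (omega : M) ∧ φ k m) → B ∈ m → m ∈ D (suc n) := by
      intro m hm hBm
      obtain ⟨hmo, k, hk, hkm⟩ := mem_sep.1 hm
      by_cases hkn : k ∈ suc n
      · exact absurd (hB' m hmo ⟨k, hkn, hkm⟩ B hBm) (not_mem_self B)
      · have h3 : suc n ⊆ k := nat_sub hk (suc_mem_omega hn) hkn
        have h4 : n ∈ k := h3 n (by simp)
        rw [hφ] at hkm
        exact hdec n hn k hk h4 m hkm.1
    rcases (hstep n hn (hinf n hn)).2.2 with h3 | h3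
    · obtain ⟨m, hm, hma, hBm⟩ := h2 B hB
      exact hma (h3 m (key m hm hBm))
    · obtain ⟨m, hm, hma, hBm⟩ := h1 B hB
      exact h3 m (key m hm hBm) hma

theorem no_countable_splitting {w F : M} (hw : IsOmega Model.E w) (hF : IsSplitting Model.E w F) :
    ¬ IsCountable Model.E w F := by
  have hw' : w = omega := omega_iff.1 hw
  subst hw'
  rintro (h | ⟨f, hf, hs⟩)
  · obtain ⟨x, hx, _⟩ := hF.2 omega ⟨fun x hx => hx, fun n hn => ⟨suc n, suc_mem_omega hn, by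
      show n ∈ suc n
      simp⟩⟩
    exact h x hx
  · have happ : ∀ n, n ∈ (omega : M) → opair n (app f n) ∈ f := by
      intro n hn
      obtain ⟨y, hy, hy'⟩ := hf.2 n hn
      have h1 : ∃! y, opair n y ∈ f := ⟨y, rel_iff.1 hy, fun y' h' => hy' y' (rel_iff.2 h')⟩
      exact opair_app h1
    obtain ⟨b, hb, hb'⟩ := exists_unsplit f
    obtain ⟨x, hx, hx1, hx2⟩ := hF.2 b hb
    obtain ⟨n, hn, hnx⟩ := hs x hx
    have h2 : x = app f n := by
      obtain ⟨y, hy, hy'⟩ := hf.2 n hn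
      rw [hy' x hnx, hy' (app f n) (rel_iff.2 (happ n hn))]
    subst h2
    exact hb' n hn ⟨hx1, hx2⟩

end Pool.Agent.H55.ZFU
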