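import Pool.Agent.H55.Lav.AC
import Pool.Agent.H55.Lav.QDefs
import Pool.Agent.H55.Lav.NoCS

set_option autoImplicit false
set_option linter.all false

/-!
# Truth of statements about sequences of reals in the model
-/

namespace Pool.Agent.H55.Lav

open FirstOrder FirstOrder.Language Pool.Agent.H55.SC Pool.Agent.H55.ZFU

variable {Q : Type} [Preorder Q] [OrderTop Q]

/-- Some condition of `G` belongs to `S`. -/
def Ht (G : Set Q) (S : Set Q) : Prop := ∃ q ∈ G, q ∈ S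

/-- Closure properties of `N` used for sets of conditions. -/
structure QOk (N : Set (Un Q)) : Prop where
  bel : ∀ (S : Set Q), InT N S → ∀ q : Q, InT N q → BelQ S q → ∃ C ∈ S, q ≤ C ∧ InT N C
  dec : ∀ (S : Set Q), InT N S → InT N {q | BelQ S q ∨ IncQ S q}

lemma qok_club : ∀ᶠ N in club (Un Q), QOk N := by
  have h1 : ∀ᶠ N in club (Un Q), ∀ (S : Set Q), InT N S → ∀ q : Q, InT N q → BelQ S q →
      ∃ C ∈ S, q ≤ C ∧ InT N C := by
    refine diagT (fun S => diagT (fun q => ?_))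
    by_cases h : BelQ S q
    · obtain ⟨C, h1, h2⟩ := h
      exact (club_inT C).mono (fun N hN _ => ⟨C, h1, h2, hN⟩)
    · exact Filter.Eventually.of_forall (fun N h' => (h h').elim)
  have h2 : ∀ᶠ N in club (Un Q), ∀ (S : Set Q), InT N S → InT N {q | BelQ S q ∨ IncQ S q} :=
    diagT (fun S => club_inT _)
  filter_upwards [h1, h2] with N h1 h2
  exact ⟨h1, h2⟩

/-- Closure properties of `N` used for families of sets of conditions. -/
structure IOk (N : Set (Un Q)) (I : Type) : Prop where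
  app : ∀ S : I → Set Q, InT N S → ∀ i : I, InT N i → InT N (S i)
  all : ∀ S : I → Set Q, InT N S → InT N {q | (∀ i, FoQ (S i) q) ∨ ∃ i, IncQ (S i) q}
  allw : ∀ S : I → Set Q, InT N S → ∀ q : Q, InT N q → (∃ i, IncQ (S i) q) → ∃ i, IncQ (S i) q ∧ InT N i

lemma iok_club (I : Type) : ∀ᶠ N in club (Un Q), IOk N I := by
  have h1 : ∀ᶠ N in club (Un Q), ∀ S : I → Set Q, InT N S → ∀ i : I, InT N i → InT N (S i) :=
    diagT (fun S => diagT (fun i => club_inT _))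
  have h2 : ∀ᶠ N in club (Un Q), ∀ S : I → Set Q, InT N S → InT N {q | (∀ i, FoQ (S i) q) ∨ ∃ i, IncQ (S i) q} :=
    diagT (fun S => club_inT _)
  have h3 : ∀ᶠ N in club (Un Q), ∀ S : I → Set Q, InT N S → ∀ q : Q, InT N q → (∃ i, IncQ (S i) q) →
      ∃ i, IncQ (S i) q ∧ InT N i := by
    refine diagT (fun S => diagT (fun q => ?_))
    by_cases h : ∃ i, IncQ (S i) q
    · obtain ⟨i, hi⟩ := h
      exact (club_inT i).mono (fun N hN _ => ⟨i, hi, hN⟩)
    · exact Filter.Eventually.of_forall (fun N h' => (h h').elim)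
  filter_upwards [h1, h2, h3] with N h1 h2 h3
  exact ⟨h1, h2, h3⟩

lemma belQ_mono {S : Set Q} {p q : Q} (h : BelQ S p) (hq : q ≤ p) : BelQ S q := by
  obtain ⟨C, h1, h2⟩ := h
  exact ⟨C, h1, hq.trans h2⟩
lemma foQ_mono {S : Set Q} {p q : Q} (h : FoQ S p) (hq : q ≤ p) : FoQ S q := fun r hr => h r (hr.trans hq)
lemma incQ_mono {S : Set Q} {p q : Q} (h : IncQ S p) (hq : q ≤ p) : IncQ S q := fun r hr => h r (hr.trans hq)
lemma foQ_of_bel {S : Set Q} {p : Q} (h : BelQ S p) : FoQ S p := fun q hq => ⟨q, le_rfl, belQ_mono h hq⟩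

section ht
variable {N : Set (Un Q)} {G : Set Q} (qok : QOk N) (gen : GenF N G)
include qok gen

lemma ht_of_bel {S : Set Q} (hS : InT N S) {q : Q} (hq : q ∈ G) (h : BelQ S q) : Ht G S := by
  obtain ⟨C, h1, h2, h3⟩ := qok.bel S hS q (gen.sub q hq) h
  exact ⟨C, gen.up q hq C h2 h3, h1⟩

lemma dec_ht {S : Set Q} (hS : InT N S) : Ht G S ∨ ∃ q ∈ G, IncQ S q := by
  obtain ⟨q, hq, h⟩ := gen.gen _ (qok.dec S hS) (fun p => by
    by_cases h : ∃ q ≤ p, BelQ S q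
    · obtain ⟨q, h1, h2⟩ := h
      exact ⟨q, Or.inl h2, h1⟩
    · push Not at h
      exact ⟨p, Or.inr h, le_rfl⟩)
  rcases h with h | h
  · exact Or.inl (ht_of_bel qok gen hS hq h)
  · exact Or.inr ⟨q, hq, h⟩

omit qok in
lemma not_ht {S : Set Q} {q : Q} (hq : q ∈ G) (h : IncQ S q) : ¬ Ht G S := by
  rintro ⟨C, hC, hCS⟩
  obtain ⟨r, _, h1, h2⟩ := gen.dir q hq C hC
  exact h r h1 ⟨C, hCS, h2⟩

lemma ht_of_fo {S : Set Q} (hS : InT N S) {q : Q} (hq : q ∈ G) (h : FoQ S q) : Ht G S := by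
  rcases dec_ht qok gen hS with h1 | ⟨q', hq', h1⟩
  · exact h1
  · exfalso
    obtain ⟨r, _, h2, h3⟩ := gen.dir q hq q' hq'
    obtain ⟨s, hs, h4⟩ := h r h2
    exact h1 s (hs.trans h3) h4

omit qok in
lemma all_ht {I : Type} (iok : IOk N I) {S : I → Set Q} (hS : InT N S) (h : ∀ i, InT N i → Ht G (S i)) :
    ∃ q ∈ G, ∀ i, FoQ (S i) q := by
  obtain ⟨q, hq, h1⟩ := gen.gen _ (iok.all S hS) (fun p => by
    by_cases h : ∀ i, FoQ (S i) p
    · exact ⟨p, Or.inl h, le_rfl⟩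
    · push Not at h
      obtain ⟨i, hi⟩ := h
      unfold FoQ at hi
      push Not at hi
      obtain ⟨q, hq, h2⟩ := hi
      exact ⟨q, Or.inr ⟨i, h2⟩, hq⟩)
  rcases h1 with h1 | h1
  · exact ⟨q, hq, h1⟩
  · obtain ⟨i, h2, h3⟩ := iok.allw S hS q (gen.sub q hq) h1
    exact (not_ht gen hq h2 (h i h3)).elim

end ht

/-- The names of the sets of conditions with index above `j`. -/
def tlQ (x : ℕ → Set Q) (j : ℕ) : Set Q := {C | ∃ k, j < k ∧ C ∈ x k}

lemma infQ_iff {x : ℕ → Set Q} {E : Q} : InfQ x E ↔ ∀ j, FoQ (tlQ x j) E := Iff.rfl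

lemma ht_tl {G : Set Q} {x : ℕ → Set Q} {j : ℕ} : Ht G (tlQ x j) ↔ ∃ k, j < k ∧ Ht G (x k) := by
  constructor
  · rintro ⟨C, hC, k, hk, hCk⟩
    exact ⟨k, hk, C, hC, hCk⟩
  · rintro ⟨k, hk, C, hC, hCk⟩
    exact ⟨C, hC, k, hk, hCk⟩

/-- The name of a set of natural numbers. -/
def rlN (x : ℕ → Set Q) : Nm Q := .mk (Σ n : ℕ, {q : Q // q ∈ x n}) (fun y => ck Q y.1) (fun y => y.2.1)

/-- Closure properties of `N` used for names of reals. -/
structure ROk (N : Set (Un Q)) : Prop where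
  rl : ∀ x : ℕ → Set Q, InT N x → InN N (rlN x)
  nat : ∀ n : ℕ, InT N n
  tl : ∀ x : ℕ → Set Q, InT N x → InT N (tlQ x)
  cap : ∀ x : ℕ → Set Q, InT N x → ∀ a : ℕ → Set Q, InT N a → InT N (capQ x a)
  dif : ∀ x : ℕ → Set Q, InT N x → ∀ a : ℕ → Set Q, InT N a → InT N (difQ x a)

lemma rok_club : ∀ᶠ N in club (Un Q), ROk N := by
  have h1 : ∀ᶠ N in club (Un Q), ∀ x : ℕ → Set Q, InT N x → InN N (rlN x) := diagT (fun x => club_inN _)
  have h2 : ∀ᶠ N in club (Un Q), ∀ n : ℕ, InT N n := club_all (fun n => club_inT _)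
  have h3 : ∀ᶠ N in club (Un Q), ∀ x : ℕ → Set Q, InT N x → InT N (tlQ x) := diagT (fun x => club_inT _)
  have h4 : ∀ᶠ N in club (Un Q), ∀ x : ℕ → Set Q, InT N x → ∀ a : ℕ → Set Q, InT N a → InT N (capQ x a) :=
    diagT (fun x => diagT (fun a => club_inT _))
  have h5 : ∀ᶠ N in club (Un Q), ∀ x : ℕ → Set Q, InT N x → ∀ a : ℕ → Set Q, InT N a → InT N (difQ x a) :=
    diagT (fun x => diagT (fun a => club_inT _))
  filter_upwards [h1, h2, h3, h4, h5] with N h1 h2 h3 h4 h5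
  exact ⟨h1, h2, h3, h4, h5⟩

section reals
variable {N : Set (Un Q)} {G : Set Q} (qok : QOk N) (iok : IOk N ℕ) (rok : ROk N) (gen : GenF N G)
include qok iok rok gen

lemma inT_nat (x : ℕ → Set Q) (hx : InT N x) (k : ℕ) : InT N (x k) := iok.app x hx k (rok.nat k)

/-- A set of natural numbers which is infinite in the model is forced to be infinite. -/
lemma inf_force {x : ℕ → Set Q} (hx : InT N x) (h : ∀ j, ∃ k, j < k ∧ Ht G (x k)) : ∃ q ∈ G, InfQ x q :=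
  all_ht gen iok (rok.tl x hx) (fun j _ => ht_tl.mpr (h j))

lemma inf_of_force {x : ℕ → Set Q} (hx : InT N x) {q : Q} (hq : q ∈ G) (h : InfQ x q) (j : ℕ) :
    ∃ k, j < k ∧ Ht G (x k) :=
  ht_tl.mp (ht_of_fo qok gen (inT_nat qok iok rok gen _ (rok.tl x hx) j) hq (h j))

lemma ht_cap {x a : ℕ → Set Q} (hx : InT N x) (ha : InT N a) (k : ℕ) : Ht G (capQ x a k) ↔ Ht G (x k) ∧ Ht G (a k) := by
  constructor
  · rintro ⟨q, hq, h1, h2⟩
    exact ⟨ht_of_bel qok gen (inT_nat qok iok rok gen x hx k) hq h1, ht_of_bel qok gen (inT_nat qok iok rok gen a ha k) hq h2⟩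
  · rintro ⟨⟨p, hp, h1⟩, q, hq, h2⟩
    obtain ⟨r, hr, h3, h4⟩ := gen.dir p hp q hq
    exact ⟨r, hr, ⟨p, h1, h3⟩, q, h2, h4⟩

lemma ht_dif {x a : ℕ → Set Q} (hx : InT N x) (ha : InT N a) (k : ℕ) : Ht G (difQ x a k) ↔ Ht G (x k) ∧ ¬ Ht G (a k) := by
  constructor
  · rintro ⟨q, hq, h1, h2⟩
    exact ⟨ht_of_bel qok gen (inT_nat qok iok rok gen x hx k) hq h1, not_ht gen hq h2⟩
  · rintro ⟨⟨p, hp, h1⟩, h⟩
    rcases dec_ht qok gen (inT_nat qok iok rok gen a ha k) with h2 | ⟨q, hq, h2⟩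
    · exact (h h2).elim
    · obtain ⟨r, hr, h3, h4⟩ := gen.dir p hp q hq
      exact ⟨r, hr, ⟨p, h1, h3⟩, incQ_mono h2 h4⟩

end reals

/-! ### Natural numbers and countable ordinals of the model -/

section nums
variable {N : Set (Un Q)} {G : Set Q}

/-- Closure properties of `N` used for countable ordinals. -/
structure OOk (N : Set (Un Q)) : Prop where
  ck : ∀ α : Ω1, InT N α → InN N (ck Q α)
  ckT : InN N (ckT Q Ω1)
  ckw : ∀ ρ : Nm Q, InN N ρ → (∃ α : Ω1, Lav.ck Q α = ρ) → ∃ α : Ω1, Lav.ck Q α = ρ ∧ InT N α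
  seg : ∀ α : Ω1, InT N α → ∀ β < α, InT N β
  ne : ∃ α : Ω1, InT N α

lemma ook_club : ∀ᶠ N in club (Un Q), OOk N := by
  have h1 : ∀ᶠ N in club (Un Q), ∀ α : Ω1, InT N α → InN N (ck Q α) := diagT (fun α => club_inN _)
  have h2 : ∀ᶠ N in club (Un Q), ∀ ρ : Nm Q, InN N ρ → (∃ α : Ω1, Lav.ck Q α = ρ) →
      ∃ α : Ω1, Lav.ck Q α = ρ ∧ InT N α := by
    refine diagN (fun ρ => ?_)
    by_cases h : ∃ α : Ω1, Lav.ck Q α = ρ
    · obtain ⟨i, hi⟩ := h
      exact (club_inT i).mono (fun N hN _ => ⟨i, hi, hN⟩)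
    · exact Filter.Eventually.of_forall (fun N h' => (h h').elim)
  have h3 : ∀ᶠ N in club (Un Q), ∀ α : Ω1, InT N α → ∀ β < α, InT N β := by
    refine diagT (fun α => ?_)
    have : Countable (Set.Iio α) := (om1_Iio α).to_subtype
    exact (club_all (fun β : Set.Iio α => club_inT β.1)).mono (fun N hN β hβ => hN ⟨β, hβ⟩)
  obtain ⟨α0⟩ := (inferInstance : Nonempty Ω1)
  filter_upwards [h1, h2, h3, club_inN (ckT Q Ω1), club_inT α0] with N h1 h2 h3 h4 h5
  exact ⟨h1, h4, h2, h3, α0, h5⟩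

/-- The natural number `n` of the model. -/
noncomputable def nv (G : Set Q) (zok : ZOk N) (n : ℕ) : MM N G := vl G (zok.nat n)

/-- The set of natural numbers of the model. -/
noncomputable def ww (G : Set Q) (zok : ZOk N) : MM N G := vl G zok.om

/-- A countable ordinal of the model. -/
noncomputable def ov (G : Set Q) (ook : OOk N) {α : Ω1} (h : InT N α) : MM N G := vl G (ook.ck α h)

/-- The cardinal `ω₁` of the model. -/
noncomputable def kk (G : Set Q) (ook : OOk N) : MM N G := vl G ook.ckT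

variable {zok : ZOk N} {ook : OOk N} (htop : (⊤ : Q) ∈ G)
include htop

lemma mem_nv {n : ℕ} {z : MM N G} : EE z (nv G zok n) ↔ ∃ m < n, z = nv G zok m := by
  refine (mem_ck htop).trans ⟨?_, ?_⟩
  · rintro ⟨m, h1, _, h3⟩
    exact ⟨m, h1, Subtype.ext h3.symm⟩
  · rintro ⟨m, h1, rfl⟩
    exact ⟨m, h1, zok.nat m, rfl⟩

lemma mem_ww {z : MM N G} : EE z (ww G zok) ↔ ∃ n, z = nv G zok n := by
  refine (mem_ckT htop).trans ⟨?_, ?_⟩
  · rintro ⟨m, _, h3⟩
    exact ⟨m, Subtype.ext h3.symm⟩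
  · rintro ⟨m, rfl⟩
    exact ⟨m, zok.nat m, rfl⟩

lemma mem_ov {α : Ω1} {h : InT N α} {z : MM N G} :
    EE z (ov G ook h) ↔ ∃ β, ∃ hβ : β < α, z = ov G ook (ook.seg α h β hβ) := by
  refine (mem_ck htop).trans ⟨?_, ?_⟩
  · rintro ⟨m, h1, _, h3⟩
    exact ⟨m, h1, Subtype.ext h3.symm⟩
  · rintro ⟨m, h1, rfl⟩
    exact ⟨m, h1, ook.ck _ (ook.seg α h m h1), rfl⟩

lemma mem_kk {z : MM N G} : EE z (kk G ook) ↔ ∃ α, ∃ h : InT N α, z = ov G ook h := by
  refine (mem_ckT htop).trans ⟨?_, ?_⟩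
  · rintro ⟨α, h1, h3⟩
    obtain ⟨β, h4, h5⟩ := ook.ckw _ h1 ⟨α, rfl⟩
    refine ⟨β, h5, Subtype.ext ?_⟩
    show z.1 = val N G (ck Q β)
    rw [h4, h3]
  · rintro ⟨α, h, rfl⟩
    exact ⟨α, ook.ck α h, rfl⟩

omit htop in
lemma ee_irrefl (x : MM N G) : ¬ EE x x := fun h => ZFSet.mem_irrefl _ h

omit htop in
lemma ee_asymm {x y : MM N G} (h : EE x y) : ¬ EE y x := fun h' => ZFSet.mem_asymm h h'

lemma nv_lt {m n : ℕ} : EE (nv G zok m) (nv G zok n) ↔ m < n := by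
  have key : ∀ m n, m < n → EE (nv G zok m) (nv G zok n) := fun m n h => (mem_nv htop).mpr ⟨m, h, rfl⟩
  constructor
  · intro h
    by_contra h'
    push Not at h'
    rcases h'.eq_or_lt with h1 | h1
    · rw [h1] at h; exact ee_irrefl _ h
    · exact ee_asymm h (key _ _ h1)
  · exact key m n

lemma nv_inj {m n : ℕ} (h : nv G zok m = nv G zok n) : m = n := by
  rcases lt_trichotomy m n with h1 | h1 | h1
  · have := (nv_lt (G := G) (zok := zok) htop).mpr h1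
    rw [h] at this; exact (ee_irrefl _ this).elim
  · exact h1
  · have := (nv_lt (G := G) (zok := zok) htop).mpr h1
    rw [h] at this; exact (ee_irrefl _ this).elim

lemma ov_lt {α β : Ω1} {hα : InT N α} {hβ : InT N β} : EE (ov G ook hα) (ov G ook hβ) ↔ α < β := by
  have key : ∀ (α β : Ω1) (hα : InT N α) (hβ : InT N β), α < β → EE (ov G ook hα) (ov G ook hβ) :=
    fun α β hα hβ h => (mem_ov htop).mpr ⟨α, h, rfl⟩
  constructor
  · intro h
    by_contra h'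
    push Not at h'
    rcases h'.eq_or_lt with h1 | h1
    · subst h1; exact ee_irrefl _ h
    · exact ee_asymm h (key _ _ _ _ h1)
  · exact key α β _ _

lemma ov_inj {α β : Ω1} {hα : InT N α} {hβ : InT N β} (h : ov G ook hα = ov G ook hβ) : α = β := by
  rcases lt_trichotomy α β with h1 | h1 | h1
  · have := (ov_lt (G := G) (ook := ook) htop (hα := hα) (hβ := hβ)).mpr h1
    rw [h] at this; exact (ee_irrefl _ this).elim
  · exact h1
  · have := (ov_lt (G := G) (ook := ook) htop (hα := hβ) (hβ := hα)).mpr h1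
    rw [h] at this; exact (ee_irrefl _ this).elim

lemma mem_rl {x : ℕ → Set Q} (hx : InN N (rlN x)) {z : MM N G} :
    EE z (vl G hx) ↔ ∃ n, z = nv G zok n ∧ Ht G (x n) := by
  constructor
  · intro h
    obtain ⟨⟨n, q, hq⟩, h1, h2, h3⟩ := mem_val.mp h
    exact ⟨n, Subtype.ext h3.symm, q, h2, hq⟩
  · rintro ⟨n, rfl, q, hq, hqx⟩
    exact mem_val.mpr ⟨⟨n, q, hqx⟩, zok.nat n, hq, rfl⟩

theorem isOmega_ww : IsOmega (EE (N := N) (G := G)) (ww G zok) := by
  refine ⟨⟨⟨nv G zok 0, (mem_ww htop).mpr ⟨0, rfl⟩, ?_⟩, ?_⟩, ?_⟩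
  · intro x hx
    obtain ⟨m, hm, _⟩ := (mem_nv htop).mp hx
    omega
  · intro x hx
    obtain ⟨n, rfl⟩ := (mem_ww htop).mp hx
    refine ⟨nv G zok (n + 1), (mem_ww htop).mpr ⟨n + 1, rfl⟩, fun z => ?_⟩
    rw [mem_nv htop, mem_nv htop]
    constructor
    · rintro ⟨m, hm, rfl⟩
      rcases Nat.lt_succ_iff_lt_or_eq.mp hm with h | h
      · exact Or.inl ⟨m, h, rfl⟩
      · exact Or.inr (by rw [h])
    · rintro (⟨m, hm, rfl⟩ | rfl)
      · exact ⟨m, by omega, rfl⟩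
      · exact ⟨n, by omega, rfl⟩
  · rintro v ⟨⟨e, he, he'⟩, hv⟩ x hx
    obtain ⟨n, rfl⟩ := (mem_ww htop).mp hx
    induction n with
    | zero =>
      have : nv G zok 0 = e := mm_ext (fun z => ⟨fun h => by
        obtain ⟨m, hm, _⟩ := (mem_nv htop).mp h
        omega, fun h => (he' z h).elim⟩)
      rw [this]; exact he
    | succ n ih =>
      obtain ⟨y, hy, hy'⟩ := hv _ (ih ((mem_ww htop).mpr ⟨n, rfl⟩))
      have : nv G zok (n + 1) = y := by
        refine mm_ext (fun z => ?_)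
        rw [hy' z, mem_nv htop, mem_nv htop]
        constructor
        · rintro ⟨m, hm, rfl⟩
          rcases Nat.lt_succ_iff_lt_or_eq.mp hm with h | h
          · exact Or.inl ⟨m, h, rfl⟩
          · exact Or.inr (by rw [h])
        · rintro (⟨m, hm, rfl⟩ | rfl)
          · exact ⟨m, by omega, rfl⟩
          · exact ⟨n, by omega, rfl⟩
      rw [this]; exact hy

end nums

end Pool.Agent.H55.Lav
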