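import Pool.Agent.H55.Lav.MLev

set_option autoImplicit false
set_option linter.all false

/-!
# Encoding and decoding
-/

namespace Pool.Agent.H55.Lav

open FirstOrder FirstOrder.Language Pool.Agent.H55.SC Pool.Agent.H55.ZFU Pool.Agent.H55.CS

variable {Q : Type} [Preorder Q] [OrderTop Q]

/-- Closure properties of `N` used for decoding relations of the model. -/
structure DOk (N : Set (Un Q)) : Prop where
  d12 : ∀ {m : ℕ} (ψ : Fml (m + 2)) (σ : Fin m → Nm Q), (∀ i, InN N (σ i)) →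
    InT N (fun (α : Ω1) (k : ℕ) => {q : Q | frc ψ (Fin.append σ ![ck Q α, ck Q k]) q})
  d22 : ∀ {m : ℕ} (ψ : Fml (m + 2)) (σ : Fin m → Nm Q), (∀ i, InN N (σ i)) →
    InT N (fun (n : ℕ) (k : ℕ) => {q : Q | frc ψ (Fin.append σ ![ck Q n, ck Q k]) q})
  d21 : ∀ {m : ℕ} (ψ : Fml (m + 2)) (σ : Fin m → Nm Q), (∀ i, InN N (σ i)) →
    InT N (fun (n : ℕ) (α : Ω1) => {q : Q | frc ψ (Fin.append σ ![ck Q n, ck Q α]) q})
  d1 : ∀ {m : ℕ} (ψ : Fml (m + 1)) (σ : Fin m → Nm Q), (∀ i, InN N (σ i)) →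
    InT N (fun (α : Ω1) => {q : Q | frc ψ (Fin.append σ (fun _ => ck Q α)) q})

lemma dok_club : ∀ᶠ N in club (Un Q), DOk N := by
  have h1 : ∀ᶠ N in club (Un Q), ∀ m : ℕ, ∀ ψ : Fml (m + 2), ∀ σ : Fin m → Nm Q, (∀ i, InN N (σ i)) →
      InT N (fun (α : Ω1) (k : ℕ) => {q : Q | frc ψ (Fin.append σ ![ck Q α, ck Q k]) q}) :=
    club_all (fun m => club_all (fun ψ => diagNs (fun σ => club_inT _)))
  have h2 : ∀ᶠ N in club (Un Q), ∀ m : ℕ, ∀ ψ : Fml (m + 2), ∀ σ : Fin m → Nm Q, (∀ i, InN N (σ i)) →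
      InT N (fun (n : ℕ) (k : ℕ) => {q : Q | frc ψ (Fin.append σ ![ck Q n, ck Q k]) q}) :=
    club_all (fun m => club_all (fun ψ => diagNs (fun σ => club_inT _)))
  have h3 : ∀ᶠ N in club (Un Q), ∀ m : ℕ, ∀ ψ : Fml (m + 2), ∀ σ : Fin m → Nm Q, (∀ i, InN N (σ i)) →
      InT N (fun (n : ℕ) (α : Ω1) => {q : Q | frc ψ (Fin.append σ ![ck Q n, ck Q α]) q}) :=
    club_all (fun m => club_all (fun ψ => diagNs (fun σ => club_inT _)))
  have h4 : ∀ᶠ N in club (Un Q), ∀ m : ℕ, ∀ ψ : Fml (m + 1), ∀ σ : Fin m → Nm Q, (∀ i, InN N (σ i)) →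
      InT N (fun (α : Ω1) => {q : Q | frc ψ (Fin.append σ (fun _ => ck Q α)) q}) :=
    club_all (fun m => club_all (fun ψ => diagNs (fun σ => club_inT _)))
  filter_upwards [h1, h2, h3, h4] with N h1 h2 h3 h4
  exact ⟨fun {m} ψ σ h => h1 m ψ σ h, fun {m} ψ σ h => h2 m ψ σ h, fun {m} ψ σ h => h3 m ψ σ h,
    fun {m} ψ σ h => h4 m ψ σ h⟩

/-- The name of the range of a family of names. -/
def rgNm {I : Type} (F : I → Nm Q) : Nm Q := .mk I F (fun _ => ⊤)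

/-- Closure properties of `N` used for a family of names. -/
structure FnOk (N : Set (Un Q)) {I : Type} (F : I → Nm Q) : Prop where
  fn : ∀ i : I, InT N i → InN N (F i)
  fw : ∀ ρ, InN N ρ → (∃ i, F i = ρ) → ∃ i, F i = ρ ∧ InT N i
  rg : InN N (rgNm F)

lemma fnOk_club {I : Type} (F : I → Nm Q) : ∀ᶠ N in club (Un Q), FnOk N F := by
  have h1 : ∀ᶠ N in club (Un Q), ∀ i : I, InT N i → InN N (F i) := diagT (fun i => club_inN _)
  have h2 : ∀ᶠ N in club (Un Q), ∀ ρ, InN N ρ → (∃ i, F i = ρ) → ∃ i, F i = ρ ∧ InT N i := by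
    refine diagN (fun ρ => ?_)
    by_cases h : ∃ i, F i = ρ
    · obtain ⟨i, hi⟩ := h
      exact (club_inT i).mono (fun N hN _ => ⟨i, hi, hN⟩)
    · exact Filter.Eventually.of_forall (fun N h' => (h h').elim)
  filter_upwards [h1, h2, club_inN (rgNm F)] with N h1 h2 h3
  exact ⟨h1, h2, h3⟩

section
variable {N : Set (Un Q)} {G : Set Q}

lemma mem_rg (htop : (⊤ : Q) ∈ G) {I : Type} {F : I → Nm Q} (fok' : FnOk N F) {z : MM N G} :
    EE z (vl G fok'.rg) ↔ ∃ i, ∃ h : InT N i, z = vl G (fok'.fn i h) := by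
  constructor
  · intro h
    obtain ⟨i, h1, _, h3⟩ := mem_val.mp h
    obtain ⟨j, h4, h5⟩ := fok'.fw _ h1 ⟨i, rfl⟩
    refine ⟨j, h5, Subtype.ext ?_⟩
    show z.1 = val N G (F j)
    rw [h4]; exact h3.symm
  · rintro ⟨i, h, rfl⟩
    exact mem_val.mpr ⟨i, fok'.fn i h, htop, rfl⟩

variable (ok : NOk N) (fok : FOk N) (zok : ZOk N) (gen : GenF N G)
include ok fok zok gen

lemma pair_uniq {p x y x' y' : MM N G} (h : IsPair EE p x y) (h' : IsPair EE p x' y') : x = x' ∧ y = y' := by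
  let _ := mdl ok fok zok gen
  have : ZFU.Pure (MM N G) := zPure (zf ok fok zok gen)
  have h1 := (pair_iff.mp h).symm.trans (pair_iff.mp h')
  rwa [opair_inj] at h1

/-- The relation given by a family of names of pairs. -/
lemma rel_rg {I : Type} {s t : I → Nm Q} (hs : ∀ i, InT N i → InN N (s i)) (ht : ∀ i, InT N i → InN N (t i))
    (fok' : FnOk N (fun i => opN (s i) (t i))) {x y : MM N G} :
    Rel EE (vl G fok'.rg) x y ↔ ∃ i, ∃ h : InT N i, x = vl G (hs i h) ∧ y = vl G (ht i h) := by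
  have htop := top_mem ok gen
  constructor
  · rintro ⟨p, hp, hpp⟩
    obtain ⟨i, h, rfl⟩ := (mem_rg htop fok').mp hp
    have h1 := op_pair ok zok gen (hs i h) (ht i h)
    obtain ⟨h2, h3⟩ := pair_uniq ok fok zok gen hpp h1
    exact ⟨i, h, h2, h3⟩
  · rintro ⟨i, h, rfl, rfl⟩
    exact ⟨_, (mem_rg htop fok').mpr ⟨i, h, rfl⟩, op_pair ok zok gen (hs i h) (ht i h)⟩

lemma decode12 (dok : DOk N) (ook : OOk N) (R : MM N G → MM N G → Prop)
    (hR : letI := mdl ok fok zok gen; Dfn2 R) : ∃ S : Ω1 → ℕ → Set Q, InT N S ∧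
      ∀ α (h : InT N α) k, R (ov G ook h) (nv G zok k) ↔ Ht G (S α k) := by
  let _ := mdl ok fok zok gen
  obtain ⟨m, ψ, σ, hσ, h⟩ := decode ok fok gen hR.out
  refine ⟨_, dok.d12 ψ σ hσ, fun α hα k => ?_⟩
  have hv : ∀ i, InN N ((![ck Q α, ck Q k] : Fin 2 → Nm Q) i) := by
    intro i
    fin_cases i
    · exact ook.ck α hα
    · exact zok.nat k
  exact h ![ck Q α, ck Q k] hv

lemma decode21 (dok : DOk N) (ook : OOk N) (R : MM N G → MM N G → Prop)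
    (hR : letI := mdl ok fok zok gen; Dfn2 R) : ∃ S : ℕ → Ω1 → Set Q, InT N S ∧
      ∀ α (h : InT N α) k, R (nv G zok k) (ov G ook h) ↔ Ht G (S k α) := by
  let _ := mdl ok fok zok gen
  obtain ⟨m, ψ, σ, hσ, h⟩ := decode ok fok gen hR.out
  refine ⟨_, dok.d21 ψ σ hσ, fun α hα k => ?_⟩
  have hv : ∀ i, InN N ((![ck Q k, ck Q α] : Fin 2 → Nm Q) i) := by
    intro i
    fin_cases i
    · exact zok.nat k
    · exact ook.ck α hα
  exact h ![ck Q k, ck Q α] hv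

lemma decode22 (dok : DOk N) (R : MM N G → MM N G → Prop)
    (hR : letI := mdl ok fok zok gen; Dfn2 R) : ∃ S : ℕ → ℕ → Set Q, InT N S ∧
      ∀ n k, R (nv G zok n) (nv G zok k) ↔ Ht G (S n k) := by
  let _ := mdl ok fok zok gen
  obtain ⟨m, ψ, σ, hσ, h⟩ := decode ok fok gen hR.out
  refine ⟨_, dok.d22 ψ σ hσ, fun n k => ?_⟩
  have hv : ∀ i, InN N ((![ck Q n, ck Q k] : Fin 2 → Nm Q) i) := by
    intro i
    fin_cases i
    · exact zok.nat n
    · exact zok.nat k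
  exact h ![ck Q n, ck Q k] hv

lemma decode1 (dok : DOk N) (ook : OOk N) (R : MM N G → Prop)
    (hR : letI := mdl ok fok zok gen; Dfn1 R) : ∃ S : Ω1 → Set Q, InT N S ∧
      ∀ α (h : InT N α), R (ov G ook h) ↔ Ht G (S α) := by
  let _ := mdl ok fok zok gen
  obtain ⟨m, ψ, σ, hσ, h⟩ := decode ok fok gen hR.out
  refine ⟨_, dok.d1 ψ σ hσ, fun α hα => ?_⟩
  exact h (fun _ => ck Q α) (fun _ => ook.ck α hα)

end

end Pool.Agent.H55.Lav
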