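import Pool.Agent.H55.Lav.Lim2

set_option autoImplicit false
set_option linter.unusedSectionVars false

/-!
# The iteration theorem
-/

namespace Pool.Agent.H55.Lav

open Cond

section build
variable {W : Type} [LinearOrder W] [WellFoundedLT W]

open Classical in
/-- The condition given by a system of trees above a condition. -/
noncomputable def bld {A : Set W} (hA : A.Countable) {β γ : W} {r : Cond W} (hr : r ∈ P β)
    {st : W → Z W → List ℕ} {su : W → Z W → List ℕ → Set ℕ} (sys : Sys A β γ r.body st su) : Cond W where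
  st δ := if δ < β then r.st δ else if δ < γ then st δ else fun _ => []
  su δ := if δ < β then r.su δ else if δ < γ then su δ else fun _ _ => Set.univ
  supp := r.supp ∪ {δ | δ ∈ A ∧ δ < γ}
  count := r.count.union (hA.mono (fun _ h => h.1))
  dep := by
    intro δ z z' h
    by_cases h1 : δ < β
    · simp only [h1, if_true]
      exact r.dep δ z z' (fun ε hε hε' => h ε (Or.inl hε) hε')
    · by_cases h2 : δ < γ
      · simp only [h1, h2, if_false, if_true]
        have h3 : ∀ ε ∈ A, ε < δ → z ε = z' ε := fun ε hε hε' => h ε (Or.inr ⟨hε, hε'.trans h2⟩) hε'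
        exact ⟨(sys.dep δ).1 z z' h3, (sys.dep δ).2 z z' h3⟩
      · simp [h1, h2]
  triv := by
    intro δ hδ z
    by_cases h1 : δ < β
    · simp only [h1, if_true]
      exact r.triv δ (fun h => hδ (Or.inl h)) z
    · by_cases h2 : δ < γ
      · simp only [h1, h2, if_false, if_true]
        exact sys.triv δ (fun h => hδ (Or.inr ⟨h, h2⟩)) z
      · simp [h1, h2]
  inf := by
    intro δ z t
    by_cases h1 : δ < β
    · simp only [h1, if_true]
      exact r.inf δ z t
    · by_cases h2 : δ < γ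
      · simp only [h1, h2, if_false, if_true]
        exact sys.inf δ z t
      · simp only [h1, h2, if_false]
        exact Set.infinite_univ
  lcst := by
    intro δ z hz
    by_cases h1 : δ < β
    · simp only [h1, if_true]
      refine (r.lcst δ z ?_).mono ?_ le_rfl
      · intro ε hε
        simpa [hε.trans h1] using hz ε hε
      · intro w hw ε hε
        simpa [hε.trans h1] using hw ε hε
    · by_cases h2 : δ < γ
      · simp only [h1, h2, if_false, if_true]
        have key : ∀ w, (∀ ε < δ, Br ((if ε < β then r.st ε else if ε < γ then st ε else fun _ => []) w)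
            ((if ε < β then r.su ε else if ε < γ then su ε else fun _ _ => Set.univ) w) (w ε)) →
            w ∈ YY β r.body st su δ := by
          intro w hw
          refine ⟨?_, fun ε hε hε' => ?_⟩
          · rw [body_eq hr]
            intro ε hε
            simpa [hε] using hw ε (hε.trans_le (not_lt.mp h1))
          · simpa [not_lt.mpr hε, hε'.trans h2] using hw ε hε'
        exact (sys.lcst δ (not_lt.mp h1) h2 z (key z hz)).mono (fun w hw => key w hw) le_rfl
      · simp only [h1, h2, if_false]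
        exact LCat.const _
  lcsu := by
    intro δ t m z hz
    by_cases h1 : δ < β
    · simp only [h1, if_true]
      refine (r.lcsu δ t m z ?_).mono ?_ le_rfl
      · intro ε hε
        simpa [hε.trans h1] using hz ε hε
      · intro w hw ε hε
        simpa [hε.trans h1] using hw ε hε
    · by_cases h2 : δ < γ
      · simp only [h1, h2, if_false, if_true]
        have key : ∀ w, (∀ ε < δ, Br ((if ε < β then r.st ε else if ε < γ then st ε else fun _ => []) w)
            ((if ε < β then r.su ε else if ε < γ then su ε else fun _ _ => Set.univ) w) (w ε)) →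
            w ∈ YY β r.body st su δ := by
          intro w hw
          refine ⟨?_, fun ε hε hε' => ?_⟩
          · rw [body_eq hr]
            intro ε hε
            simpa [hε] using hw ε (hε.trans_le (not_lt.mp h1))
          · simpa [not_lt.mpr hε, hε'.trans h2] using hw ε hε'
        exact (sys.lcsu δ (not_lt.mp h1) h2 t m z (key z hz)).mono (fun w hw => key w hw) le_rfl
      · simp only [h1, h2, if_false]
        exact LCat.const _

variable {A : Set W} {hA : A.Countable} {β γ : W} {r : Cond W} {hr : r ∈ P β}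
    {st : W → Z W → List ℕ} {su : W → Z W → List ℕ → Set ℕ} {sys : Sys A β γ r.body st su}

lemma bld_mem (h : β ≤ γ) : bld hA hr sys ∈ P γ := by
  rintro δ (hδ | hδ)
  · exact (hr δ hδ).trans_le h
  · exact hδ.2

lemma bld_Bd : (bld hA hr sys).Bd β = r.body := by
  rw [body_eq hr]
  ext z
  refine forall₂_congr (fun δ hδ => ?_)
  have e1 : (bld hA hr sys).st δ = r.st δ := by simp [bld, hδ]
  have e2 : (bld hA hr sys).su δ = r.su δ := by simp [bld, hδ]
  rw [e1, e2]

lemma bld_body (h : β ≤ γ) : (bld hA hr sys).body = YY β r.body st su γ := by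
  rw [body_eq (bld_mem (hA := hA) (hr := hr) (sys := sys) h)]
  have key : ∀ δ, β ≤ δ → δ < γ → (bld hA hr sys).st δ = st δ ∧ (bld hA hr sys).su δ = su δ := by
    intro δ h1 h2
    simp [bld, not_lt.mpr h1, h2]
  ext z
  constructor
  · intro hz
    refine ⟨?_, fun δ hδ hδ' => ?_⟩
    · rw [← bld_Bd (hA := hA) (hr := hr) (sys := sys)]
      exact Bd_mono h hz
    · have := hz δ hδ'
      rwa [(key δ hδ hδ').1, (key δ hδ hδ').2] at this
  · rintro ⟨h1, h2⟩ δ hδ
    by_cases h3 : δ < β
    · rw [← bld_Bd (hA := hA) (hr := hr) (sys := sys)] at h1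
      exact h1 δ h3
    · rw [(key δ (not_lt.mp h3) hδ).1, (key δ (not_lt.mp h3) hδ).2]
      exact h2 δ (not_lt.mp h3) hδ

end build

variable {W T : Type} [LinearOrder W] [WellFoundedLT W] [OrderBot W]

/-- The extension property up to `γ`. -/
def HasClaim (T : Type) (γ : W) : Prop :=
  ∀ᶠ N in club (Ob W T), ∀ A : Set W, (∀ γ, Ob.w γ ∈ N → γ ∈ A) → ∀ 𝓔 : Set (Set ℕ), 𝓔.Countable → 𝓔.Nonempty →
    ∀ β, Ob.w β ∈ N → β ≤ γ → Claim N A 𝓔 β γ

lemma P_bot {C : Cond W} (hC : C ∈ P (⊥ : W)) : C.body = Set.univ := by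
  rw [body_eq hC]
  ext z
  exact ⟨fun _ => trivial, fun _ δ hδ => (not_lt_bot hδ).elim⟩

lemma gen_bot {N : Set (Ob W T)} (ok : Ok N (⊥ : W)) : Gen N (⊥ : W) Set.univ := by
  intro D hD hd z _
  obtain ⟨C, h1, h2, _⟩ := hd one (one_mem _)
  obtain ⟨C', h3, h4, h5, _⟩ := ok.wit D one hD ok.one ⟨C, h1, h2, by rw [le_def, P_bot h2]; exact Set.subset_univ _⟩
  exact ⟨C', h3, h4, h5, ∅, 0, by simp, fun z' _ _ => by rw [P_bot h4]; trivial⟩

lemma hasGen_of_claim {γ : W} (h : HasClaim T γ) : HasGen T γ := by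
  filter_upwards [h, ok_club, club_mem (Ob.w (⊥ : W))] with N h1 h2 h3 G hG hGN
  have ok := h2 ⊥ h3
  have h4 := h1 {γ | Ob.w γ ∈ N} (fun _ h => h) {Set.univ} (Set.countable_singleton _) ⟨_, rfl⟩ ⊥ h3 bot_le
  have hA : ({γ | Ob.w γ ∈ N} : Set W).Countable := ok.cnt.preimage_of_injOn Ob.w_inj.injOn
  obtain ⟨st, su, sys, g1, e1, m1⟩ := h4 (one : Cond W).body (fun _ => G)
    { gen := (gen_bot ok).mono (Set.subset_univ _)
      epr := fun x _ z _ h e he => by rw [Set.mem_singleton_iff.mp he, Set.inter_univ]; exact h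
      xdep := fun z z' _ => by simp only [one_body]; rfl
      cN := fun _ => hGN
      cP := fun z _ => ⟨hG, fun δ hδ => (not_lt_bot hδ).elim⟩
      cdep := fun _ _ _ => rfl
      clc := fun z _ => LCat.const _ }
  refine ⟨bld hA (one_mem ⊥) sys, bld_mem bot_le, ?_, ?_⟩
  · rw [le_def, bld_body bot_le]; exact m1
  · rw [bld_body bot_le]; exact g1

theorem hasClaim (γ : W) : HasClaim T γ := by
  induction γ using (wellFounded_lt (α := W)).induction with
  | _ γ IH =>
  by_cases h1 : ∃ δ, ∀ ε, ε < γ ↔ ε ≤ δ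
  · obtain ⟨δ, hδ⟩ := h1
    have hδγ : δ < γ := (hδ δ).mpr le_rfl
    filter_upwards [IH δ hδγ, stepOk_club, club_mem (Ob.w δ),
      club_mem (Ob.w γ)] with N h2 h3 h4 h5 A hA 𝓔 h𝓔 h𝓔' β hβ hβγ
    rcases hβγ.eq_or_lt with h | h
    · rw [h]; exact claim_refl
    · have sok := h3 δ h4 γ h5
      exact claim_trans sok.cr ((hδ β).mp h) hδγ.le (h2 A hA 𝓔 h𝓔 h𝓔' β hβ ((hδ β).mp h))
        (claim_succ hδ sok (hasGen_of_claim (IH δ hδγ)) hA h4 h𝓔 h𝓔')
  · have h2 : ∀ δ, δ < γ → ∃ δ', δ < δ' ∧ δ' < γ := by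
      intro δ hδ
      by_contra hcon
      push Not at hcon
      exact h1 ⟨δ, fun ε => ⟨fun hε => by
        by_contra h
        exact absurd hε (not_lt.mpr (hcon ε (not_le.mp h))), fun hε => hε.trans_lt hδ⟩⟩
    have h3 : ∀ᶠ N in club (Ob W T), ∀ δ, Ob.w δ ∈ N → δ < γ → ∃ δ', Ob.w δ' ∈ N ∧ δ < δ' ∧ δ' < γ := by
      refine club_diag' _ Ob.w_inj (fun δ => ?_)
      by_cases h : δ < γ
      · obtain ⟨δ', h4, h5⟩ := h2 δ h
        exact (club_mem (Ob.w δ')).mono (fun N hN _ => ⟨δ', hN, h4, h5⟩)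
      · exact Filter.Eventually.of_forall (fun N h' => (h h').elim)
    have h4 : ∀ᶠ N in club (Ob W T), ∀ δ, Ob.w δ ∈ N → δ < γ → ∀ A : Set W, (∀ γ, Ob.w γ ∈ N → γ ∈ A) →
        ∀ 𝓔 : Set (Set ℕ), 𝓔.Countable → 𝓔.Nonempty → ∀ β, Ob.w β ∈ N → β ≤ δ → Claim N A 𝓔 β δ := by
      refine club_diag' _ Ob.w_inj (fun δ => ?_)
      by_cases h : δ < γ
      · exact (IH δ h).mono (fun N hN _ => hN)
      · exact Filter.Eventually.of_forall (fun N h' => (h h').elim)
    filter_upwards [h3, h4, limOk_club, club_mem (Ob.w γ), club_mem (Ob.x (fun _ => ∅))] with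
      N h3 h4 h5 h6 h7 A hA 𝓔 h𝓔 h𝓔' β hβ hβγ
    rcases hβγ.eq_or_lt with h | h
    · rw [h]; exact claim_refl
    · exact claim_lim (fun δ hδ => h5 δ hδ γ h6) hA hβ h h3
        (fun δ δ' hδ hδ' hle hlt => h4 δ' hδ' hlt A hA 𝓔 h𝓔 h𝓔' δ hδ hle) h𝓔 h𝓔' ⟨_, h7⟩

theorem hasGen (γ : W) : HasGen T γ := hasGen_of_claim (hasClaim γ)

end Pool.Agent.H55.Lav
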