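import Pool.Agent.H55.Lav.Main

set_option autoImplicit false
set_option linter.unusedSectionVars false

/-!
# Wellorders of regular length
-/

namespace Pool.Agent.H55.Lav

open Cond Cardinal

section reg
variable {c : Cardinal.{0}}

lemma exists_bound (hc : c.IsRegular) {s : Set c.ord.ToType} (hs : #s < c) : ∃ b, ∀ a ∈ s, a < b := by
  by_contra hcon
  push Not at hcon
  have h1 : IsCofinal s := fun b => by
    obtain ⟨a, ha, hab⟩ := hcon b
    exact ⟨a, ha, hab⟩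
  have h2 := Order.cof_le h1
  rw [Ordinal.cof_toType, hc.cof_ord] at h2
  exact absurd hs (not_lt.mpr h2)

lemma card_Iio_lt (i : c.ord.ToType) : #(Set.Iio i) < c := by
  simpa using mk_Iio_lt i

end reg

/-- The wellordered type of order type `ω₁`. -/
abbrev Ω1 : Type := (ℵ₁ : Cardinal.{0}).ord.ToType

lemma om1_Iio (α : Ω1) : (Set.Iio α).Countable := by
  have h := card_Iio_lt (c := ℵ₁) α
  rw [← Cardinal.le_aleph0_iff_set_countable]
  rwa [Cardinal.lt_aleph_one_iff] at h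

lemma om1_bound {s : Set Ω1} (hs : s.Countable) : ∃ b, ∀ a ∈ s, a < b := by
  apply exists_bound isRegular_aleph_one
  rw [Cardinal.lt_aleph_one_iff]
  exact Cardinal.le_aleph0_iff_set_countable.mpr hs

lemma om1_uncountable : ¬ (Set.univ : Set Ω1).Countable := by
  intro h
  obtain ⟨b, hb⟩ := om1_bound h
  exact lt_irrefl b (hb b trivial)

instance : Nonempty Ω1 := by
  obtain ⟨b, _⟩ := om1_bound (Set.countable_empty)
  exact ⟨b⟩

lemma om1_lt (α : Ω1) : ∃ β, α < β := by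
  obtain ⟨b, hb⟩ := om1_bound (Set.countable_singleton α)
  exact ⟨b, hb α rfl⟩

/-- A countable initial segment has a least strict upper bound. -/
lemma om1_seg {s : Set Ω1} (hs : s.Countable) (h : ∀ α ∈ s, ∀ β < α, β ∈ s) : ∃ δ, ∀ α, α ∈ s ↔ α < δ := by
  obtain ⟨b, hb⟩ := om1_bound hs
  have hne : (sᶜ).Nonempty := ⟨b, fun hb' => lt_irrefl b (hb b hb')⟩
  refine ⟨(wellFounded_lt (α := Ω1)).min sᶜ hne, fun α => ⟨fun hα => ?_, fun hα => ?_⟩⟩
  · by_contra h1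
    push Not at h1
    have h2 := (wellFounded_lt (α := Ω1)).min_mem sᶜ hne
    rcases h1.eq_or_lt with h3 | h3
    · exact h2 (h3 ▸ hα)
    · exact h2 (h α hα _ h3)
  · by_contra h1
    exact (wellFounded_lt (α := Ω1)).not_lt_min sᶜ h1 hα

section
variable {W : Type} [LinearOrder W] [WellFoundedLT W]

lemma delta_club : ∀ᶠ N in club (Ob W Ω1), ∃ δ : Ω1, (∀ α, Ob.t α ∈ N ↔ α < δ) ∧ (∃ α, α < δ) ∧
    ∀ α < δ, ∃ β, α < β ∧ β < δ := by
  have h1 : ∀ᶠ N in club (Ob W Ω1), ∀ α : Ω1, Ob.t α ∈ N → ∀ β < α, Ob.t β ∈ N := by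
    refine club_diag' _ Ob.t_inj (fun α => ?_)
    have : Countable (Set.Iio α) := (om1_Iio α).to_subtype
    exact (club_all (fun β : Set.Iio α => club_mem (Ob.t β.1))).mono (fun N hN β hβ => hN ⟨β, hβ⟩)
  have h2 : ∀ᶠ N in club (Ob W Ω1), ∀ α : Ω1, Ob.t α ∈ N → ∃ β, α < β ∧ Ob.t β ∈ N := by
    refine club_diag' _ Ob.t_inj (fun α => ?_)
    obtain ⟨β, hβ⟩ := om1_lt α
    exact (club_mem (Ob.t β)).mono (fun N hN => ⟨β, hβ, hN⟩)
  filter_upwards [club_countable, h1, h2, club_mem (Ob.t (Classical.arbitrary Ω1))] with N h0 h1 h2 h3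
  obtain ⟨δ, hδ⟩ := om1_seg (s := {α | Ob.t α ∈ N}) (h0.preimage_of_injOn Ob.t_inj.injOn) h1
  refine ⟨δ, hδ, ⟨_, (hδ _).mp h3⟩, fun α hα => ?_⟩
  obtain ⟨β, hβ, hβ'⟩ := h2 α ((hδ α).mpr hα)
  exact ⟨β, hβ, (hδ β).mp hβ'⟩

end

end Pool.Agent.H55.Lav
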