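import Pool.Agent.H55.Lav.Front

set_option autoImplicit false
set_option linter.unusedSectionVars false

/-!
# The pure front lemma
-/

namespace Pool.Agent.H55.Lav

open Cond

variable {W T : Type} [LinearOrder W] [WellFoundedLT W]

/-- Below every condition of `N` there is a condition generic over `N`. -/
def HasGen (T : Type) (β : W) : Prop :=
  ∀ᶠ N in club (Ob W T), ∀ G ∈ P β, Ob.c G ∈ N → ∃ r ∈ P β, r ≤ G ∧ Gen N β r.body

lemma exists_stc {δ : W} {E : Cond W} {z : Z W} (hz : z ∈ E.Bd δ) :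
    ∃ G ∈ P δ, G ≤ E.restr δ ∧ z ∈ G.body ∧ ∀ w ∈ G.body, E.st δ w = E.st δ z := by
  have h1 : LocIn δ (E.restr δ).body z {w | E.st δ w = E.st δ z} := by
    rw [restr_body]
    exact ((E.lcst δ z hz).comp (fun s => s = E.st δ z)).locIn rfl
  obtain ⟨G, h2, h3, h4, h5⟩ := h1.cond restr_mem (by rw [restr_body]; exact hz)
  exact ⟨G, h2, h3, h4, h5⟩

theorem pure_front {δ δ' : W} (hs : ∀ γ : W, γ < δ' ↔ γ ≤ δ) (hgen : HasGen T δ) {C : Cond W} (hC : C ∈ P δ')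
    {S : Set (Cond W)} (hS : ∀ E ∈ P δ', E ≤ C → ∃ E' ∈ S, E' ∈ P δ' ∧ E' ≤ E) :
    ∃ E ∈ P δ', Pure δ E C ∧ Front δ E {D | D ∈ S ∧ D ∈ P δ'} := by
  classical
  by_contra hcon
  push Not at hcon
  set 𝒮 : Set (Cond W) := {D | D ∈ S ∧ D ∈ P δ'} with h𝒮
  set 𝒢 : Set (Cond W) := {E | Front δ E 𝒮} with h𝒢
  obtain ⟨N, gok, hN⟩ := ((gok_club δ δ' 𝒢 C).and hgen).exists
  have ok := gok.ok
  obtain ⟨r, hr, hrC', gen⟩ := hN _ restr_mem (gok.cr C gok.cC)
  have hrC : r.body ⊆ C.Bd δ := by rw [le_def, restr_body] at hrC'; exact hrC'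
  have hrBd : r.Bd δ = r.body := (body_eq hr).symm
  have hg : ∀ E ∈ P δ', Front δ E 𝒢 → E ∈ 𝒢 := fun E _ h => h.front
  have claim1 : ∀ z ∈ r.body, ¬ Hit N δ (K δ δ' 𝒢 C (C.st δ z)) z := by
    rintro z hz ⟨G, ⟨_, E, h1, h2, h3, h4, h5⟩, h6, h7, h8⟩
    have hzE : z ∈ E.Bd δ := by rw [← restr_body]; exact h5 h8
    have h9 : LocIn δ (E.restr δ).body z {w | C.st δ w = C.st δ z} := by
      rw [restr_body]
      exact ((((C.lcst δ z (hrC hz)).comp (fun s => s = C.st δ z))).mono (le_Bd h2) le_rfl).locIn rfl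
    obtain ⟨G', i1, i2, i3, i4⟩ := h9.cond restr_mem (by rw [restr_body]; exact hzE)
    have i5 : G'.Bd δ ⊆ E.Bd δ := by
      rw [← body_eq i1, ← restr_body]; exact i2
    refine hcon (amal G' E δ i5) (amal_mem h1 ((hs δ).mpr le_rfl).le) ⟨amal_le.trans h2, fun w hw => ?_⟩
      (h4.pure (amal_pure i5))
    rw [amal_Bd le_rfl] at hw
    rw [amal_st_ge le_rfl, h3 w (i5 hw)]
    rw [← body_eq i1] at hw
    rw [i4 hw, ← h3 z hzE]
  -- the tree of bad nodes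
  let Sin : (List ℕ → Prop) → (List ℕ → Prop) → (List ℕ → Set ℕ) → List ℕ → Set ℕ := fun nd hit su u =>
    if nd u ∧ ¬ hit u then {m | m ∈ su u ∧ ¬ hit (u ++ [m])} else Set.univ
  let Sb : Z W → List ℕ → Set ℕ := fun z =>
    Sin (fun u => Nd (C.st δ z) (C.su δ z) u) (fun u => Hit N δ (K δ δ' 𝒢 C u) z) (C.su δ z)
  have hSb : ∀ z u, Sb z u = if Nd (C.st δ z) (C.su δ z) u ∧ ¬ Hit N δ (K δ δ' 𝒢 C u) z then
      {m | m ∈ C.su δ z u ∧ ¬ Hit N δ (K δ δ' 𝒢 C (u ++ [m])) z} else Set.univ := fun z u => rfl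
  set A : Set W := {γ | Ob.w γ ∈ N} ∪ C.supp with hAdef
  have hAc : A.Countable := (ok.cnt.preimage_of_injOn Ob.w_inj.injOn).union C.count
  have hdep : ∀ z z' : Z W, (∀ γ ∈ A, γ < δ → z γ = z' γ) → C.st δ z = C.st δ z' ∧ Sb z = Sb z' := by
    intro z z' h
    obtain ⟨i1, i2⟩ := C.dep δ z z' (fun γ hγ => h γ (Or.inr hγ))
    have i3 : (fun u => Hit N δ (K δ δ' 𝒢 C u) z) = (fun u => Hit N δ (K δ δ' 𝒢 C u) z') := by
      funext m
      apply propext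
      refine exists_congr (fun G => and_congr_right (fun _ => and_congr_right (fun h1 => and_congr_right (fun h2 => ?_))))
      rw [body_eq h1]
      exact Bd_iff_supp (fun γ hγ => h γ (Or.inl (ok.supp G h2 γ hγ)))
    refine ⟨i1, ?_⟩
    simp only [Sb, i1, i2, i3]
  have hSinf : ∀ z ∈ r.Bd δ, ∀ u, (Sb z u).Infinite := by
    intro z hz u
    rw [hrBd] at hz
    rw [hSb]
    split_ifs with h1
    · have h2 : ¬ {m | m ∈ C.su δ z u ∧ Hit N δ (K δ δ' 𝒢 C (u ++ [m])) z}.Infinite :=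
        fun h => h1.2 (glue hs hg gok hr gen hrC hz h1.1 h)
      have h3 := (C.inf δ z u).sdiff (Set.not_infinite.mp h2)
      refine h3.mono (fun m hm => ⟨hm.1, fun h => hm.2 ⟨hm.1, h⟩⟩)
    · exact Set.infinite_univ
  have hlcH : ∀ z ∈ r.body, ∀ u, LCat δ r.body (fun z => Hit N δ (K δ δ' 𝒢 C u) z) z :=
    fun z hz u => lc_hit ok gen hz (gok.kd u)
  have hlcs : LC δ (r.Bd δ) (C.st δ) := by
    rw [hrBd]
    exact fun z hz => (C.lcst δ z (hrC hz)).mono hrC le_rfl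
  have hSlc : ∀ u m, LC δ (r.Bd δ) (fun z => m ∈ Sb z u) := by
    intro u m
    rw [hrBd]
    intro z hz
    have h1 : (fun z => m ∈ Sb z u) = fun z => if Nd (C.st δ z) (C.su δ z) u ∧ ¬ Hit N δ (K δ δ' 𝒢 C u) z then
      (m ∈ C.su δ z u ∧ ¬ Hit N δ (K δ δ' 𝒢 C (u ++ [m])) z) else True := by
      funext z
      rw [hSb]
      split_ifs <;> simp
    rw [h1]
    have h2 : ∀ t m, LCat δ r.body (fun z => m ∈ C.su δ z t) z := fun t m =>
      (C.lcsu δ t m z (hrC hz)).mono hrC le_rfl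
    refine LCat.ite ((LCat.nd ((C.lcst δ z (hrC hz)).mono hrC le_rfl) h2 u).and (hlcH z hz u).not)
      (fun _ => (h2 u m).and (hlcH z hz _).not) (fun _ => LCat.const _)
  set Eb := ext1 r hr (C.st δ) Sb A hAc hdep hSinf hlcs hSlc with hEb
  have hEbP : Eb ∈ P δ' := ext1_mem hs
  have hEbm : ∀ w, w ∈ Eb.body ↔ w ∈ r.body ∧ Br (C.st δ w) (Sb w) (w δ) := fun w => by rw [hEb, mem_ext1 hs, hrBd]
  have hEbBd : Eb.Bd δ = r.body := by rw [hEb, ext1_Bd, hrBd]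
  have hEbst : Eb.st δ = C.st δ := ext1_st
  have nodes : ∀ w ∈ Eb.body, ∀ n, (C.st δ w).length ≤ n →
      Nd (C.st δ w) (C.su δ w) (res (w δ) n) ∧ ¬ Hit N δ (K δ δ' 𝒢 C (res (w δ) n)) w := by
    intro w hw
    obtain ⟨h1, h2⟩ := (hEbm w).mp hw
    intro n hn
    induction n, hn using Nat.le_induction with
    | base =>
      rw [h2.1]
      exact ⟨.base, claim1 w h1⟩
    | succ n hn ih =>
      have h3 := h2.2 n hn
      rw [hSb, if_pos ih] at h3
      exact ⟨.step _ _ ih.1 h3.1, h3.2⟩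
  have hEbC : Eb ≤ C := by
    intro w hw
    obtain ⟨h1, h2⟩ := (hEbm w).mp hw
    rw [section_mem hs hC]
    refine ⟨hrC h1, h2.1, fun n hn => ?_⟩
    have h3 := h2.2 n hn
    rw [hSb, if_pos (nodes w hw n hn)] at h3
    exact h3.1
  obtain ⟨E1, j1, j2, j3⟩ := hS Eb hEbP hEbC
  obtain ⟨z1, hz1⟩ := E1.body_nonempty
  have hz1Bd : z1 ∈ E1.Bd δ := body_sub_Bd hz1
  obtain ⟨G, k1, k2, k3, k4⟩ := exists_stc hz1Bd
  have hGE1 : G.body ⊆ E1.Bd δ := by rw [le_def, restr_body] at k2; exact k2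
  have hGBd : G.Bd δ = G.body := (body_eq k1).symm
  have hGr : G.body ⊆ r.body := by
    refine hGE1.trans ?_
    rw [← hEbBd]
    exact le_Bd j3
  set t1 := E1.st δ z1 with ht1
  -- every `G' ≤ G` belongs to `K` for the node `t1`
  have hK : ∀ G' ∈ P δ, G' ≤ G → G' ∈ K δ δ' 𝒢 C t1 := by
    intro G' hG' hle
    have h1 : G'.Bd δ ⊆ E1.Bd δ := by rw [← body_eq hG']; exact Set.Subset.trans hle hGE1
    have h2 : StC δ (amal G' E1 δ h1) t1 := amal_stc h1 (fun z hz => by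
      rw [← body_eq hG'] at hz
      exact k4 z (hle hz))
    refine ⟨hG', amal G' E1 δ h1, amal_mem j2 ((hs δ).mpr le_rfl).le, amal_le.trans (j3.trans hEbC), h2, ?_, ?_⟩
    · refine ⟨{E1}, Set.countable_singleton _, by rw [Set.singleton_subset_iff]; exact ⟨j1, j2⟩, fun z hz => ?_⟩
      refine ⟨E1, rfl, ∅, 0, t1.length, by simp, by rw [h2 z (body_sub_Bd hz)], fun z' hz' _ hr' => ?_⟩
      have h3 : z' ∈ E1.body := amal_le hz'
      refine ⟨h3, ?_⟩
      have h4 : E1.st δ z' = t1 := by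
        have := h2 z' (body_sub_Bd hz')
        rwa [amal_st_ge le_rfl] at this
      have h5 := (h3 δ).1
      rw [h4] at h5
      rw [h4, ← hr', h5]
    · rw [le_def, restr_body, amal_Bd le_rfl, body_eq hG']
  have hlen : (C.st δ z1).length ≤ t1.length := by
    have := (st_nd j3 hz1Bd).len
    rwa [hEbst] at this
  have hno := (nodes z1 (j3 hz1) t1.length hlen).2
  rw [show res (z1 δ) t1.length = t1 from (hz1 δ).1] at hno
  have hz1r : z1 ∈ r.body := hGr k3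
  obtain ⟨E0, l1, l2, l3, l4, l5⟩ := (decide_hit ok gen hz1r (gok.kd t1)).resolve_left hno
  obtain ⟨G', m1, m2, m3, m4⟩ := (l4.mono_left hGr).cond k1 k3
  exact l5 G' (hK G' m1 m2) m1 G' m1 m4 le_rfl

end Pool.Agent.H55.Lav
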