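import Pool.Agent.H55.Lav.StepDefs

set_option autoImplicit false
set_option linter.unusedSectionVars false

/-!
# The one-coordinate extension: construction of the tree
-/

namespace Pool.Agent.H55.Lav

open Cond

variable {W T : Type} [LinearOrder W] [WellFoundedLT W]

/-- For all names in `N` of infinite sets and all `e ∈ 𝓔`, the intersection with `e` is infinite. -/
def Epr (N : Set (Ob W T)) (β : W) (X : Set (Z W)) (𝓔 : Set (Set ℕ)) : Prop :=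
  ∀ x, Ob.x x ∈ N → ∀ z ∈ X, {k | Hit N β (x k) z}.Infinite → ∀ e ∈ 𝓔, ({k | Hit N β (x k) z} ∩ e).Infinite

/-- Data for the construction of the tree at coordinate `δ`. -/
structure Dat (W T : Type) [LinearOrder W] where
  N : Set (Ob W T)
  δ : W
  δ' : W
  ν : ℕ → Cond W
  dn : ℕ → Set (Cond W)
  tx : ℕ → ℕ → Set (Cond W)
  tj : ℕ → ℕ
  te : ℕ → Set ℕ
  a : Z W → Set ℕ
  C : Z W → Cond W
  X : Set (Z W)
  A : Set W
  𝓔 : Set (Set ℕ)

namespace Dat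

variable (D : Dat W T)

/-- Hypotheses on the data. -/
structure Hyp : Prop where
  hs : ∀ γ, γ < D.δ' ↔ γ ≤ D.δ
  sok : StepOk D.N D.δ D.δ'
  hg : HasGen T D.δ
  hν : ∀ E, Ob.c E ∈ D.N ↔ ∃ i, D.ν i = E
  hdn : ∀ n, Ob.d (D.dn n) ∈ D.N ∧ DenseIn D.δ' (D.dn n)
  hdn' : ∀ S, Ob.d S ∈ D.N → DenseIn D.δ' S → ∀ n0, ∃ n, n0 ≤ n ∧ D.dn n = S
  htx : ∀ l, Ob.x (D.tx l) ∈ D.N
  hte : ∀ l, D.te l ∈ D.𝓔
  htk : ∀ x, Ob.x x ∈ D.N → ∀ j, ∀ e ∈ D.𝓔, ∃ l, D.tx l = x ∧ D.tj l = j ∧ D.te l = e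
  gen : Gen D.N D.δ D.X
  epr : Epr D.N D.δ D.X D.𝓔
  hXA : ∀ z z', (∀ γ ∈ D.A, γ < D.δ → z γ = z' γ) → z ∈ D.X → z' ∈ D.X
  hAN : ∀ γ, Ob.w γ ∈ D.N → γ ∈ D.A
  hadep : ∀ z z', (∀ γ ∈ D.A, γ < D.δ → z γ = z' γ) → D.a z = D.a z'
  halc : ∀ k, LC D.δ D.X (fun z => k ∈ D.a z)
  hac : ∀ x, Ob.x x ∈ D.N → ∀ z ∈ D.X, {k | Hit D.N D.δ (x k) z}.Infinite →
    ({k | Hit D.N D.δ (x k) z} ∩ D.a z).Infinite
  hea : (∀ e ∈ D.𝓔, e = Set.univ) ∨ (∀ z ∈ D.X, D.a z = Set.univ)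
  hCN : ∀ z, Ob.c (D.C z) ∈ D.N
  hC : ∀ z ∈ D.X, D.C z ∈ P D.δ' ∧ z ∈ (D.C z).Bd D.δ
  hCdep : ∀ z z', (∀ γ ∈ D.A, γ < D.δ → z γ = z' γ) → D.C z = D.C z'
  hClc : LC D.δ D.X D.C

def v (z : Z W) (i : ℕ) : Prop := z ∈ (D.ν i).Bd D.δ
def Q1 (i n i1 : ℕ) : Prop := D.ν i1 ∈ P D.δ' ∧ Pure D.δ (D.ν i1) (D.ν i) ∧
  Front D.δ (D.ν i1) {E | E ∈ D.dn n ∧ E ∈ P D.δ'}
def Q2 (i l i1 : ℕ) : Prop := D.ν i1 ∈ P D.δ' ∧ Pure D.δ (D.ν i1) (D.ν i) ∧
  Front D.δ (D.ν i1) {E | E ∈ DD D.δ D.δ' (D.tx l) ∧ E ∈ P D.δ'}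
def Q3 (i l i1 : ℕ) : Prop := D.ν i1 ∈ P D.δ' ∧ Pure D.δ (D.ν i1) (D.ν i) ∧ D.ν i1 ∈ DD D.δ D.δ' (D.tx l)
noncomputable def P1 (z : Z W) (i n : ℕ) : ℕ := sInf {i1 | D.Q1 i n i1 ∧ D.v z i1}
noncomputable def P2 (z : Z W) (i l : ℕ) : ℕ := sInf {i1 | D.Q2 i l i1 ∧ D.v z i1}
def Act (z : Z W) (i l : ℕ) : Prop := ∃ i1, D.Q3 i l i1 ∧ D.v z i1
open Classical in
noncomputable def P3 (z : Z W) (i l : ℕ) : ℕ := if D.Act z i l then sInf {i1 | D.Q3 i l i1 ∧ D.v z i1} else i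
noncomputable def J2 (z : Z W) (i l n : ℕ) : ℕ := D.P2 z (D.P1 z i n) l
noncomputable def J3 (z : Z W) (i l n : ℕ) : ℕ := D.P3 z (D.J2 z i l n) l
def ActN (z : Z W) (i l n : ℕ) : Prop := D.Act z (D.J2 z i l n) l

/-- The condition on a successor `m`, for a given condition `ν j`. -/
def AC (z : Z W) (l : ℕ) (act : Prop) (t : List ℕ) (m j : ℕ) : Prop :=
  m ∈ (D.ν j).su D.δ z t ∧ m ∈ D.a z ∧ (act → (∃ u f, II D.δ D.δ' (D.tx l) (D.ν j) u f) →
    MF D.δ D.δ' (D.tx l) (D.ν j) z m ∈ D.te l ∧ D.tj l < MF D.δ D.δ' (D.tx l) (D.ν j) z m)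

/-- The successor set. -/
def AS (z : Z W) (i l n : ℕ) (t : List ℕ) : Set ℕ := {m | D.AC z l (D.ActN z i l n) t m (D.J3 z i l n)}

open Classical in
noncomputable def nxt (z : Z W) (i l n : ℕ) (t : List ℕ) (m : ℕ) : ℕ × ℕ :=
  (sInf {i' | D.ν i' = (D.ν (D.J3 z i l n)).node D.δ (t ++ [m])}, if D.ActN z i l n then l + 1 else l)

noncomputable def i0 (z : Z W) : ℕ := sInf {i | D.ν i = D.C z}
def s0 (z : Z W) : List ℕ := (D.C z).st D.δ z

open Classical in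
/-- The state at a node, given by the reversed list. -/
noncomputable def runR (z : Z W) : List ℕ → Option (ℕ × ℕ)
  | [] => if D.s0 z = [] then some (D.i0 z, 0) else none
  | m :: t => if t.reverse ++ [m] = D.s0 z then some (D.i0 z, 0) else
      (runR z t).bind (fun p => if m ∈ D.AS z p.1 p.2 t.length t.reverse then
        some (D.nxt z p.1 p.2 t.length t.reverse m) else none)

/-- The state at a node. -/
noncomputable def run (z : Z W) (t : List ℕ) : Option (ℕ × ℕ) := D.runR z t.reverse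

open Classical in
/-- The successor sets of the tree. -/
noncomputable def SU (z : Z W) (t : List ℕ) : Set ℕ :=
  match D.run z t with
  | none => Set.univ
  | some p => D.AS z p.1 p.2 t.length t

lemma run_nil (z : Z W) : D.run z [] = open Classical in if D.s0 z = [] then some (D.i0 z, 0) else none := by
  simp [run, runR]

lemma run_snoc (z : Z W) (t : List ℕ) (m : ℕ) : D.run z (t ++ [m]) = open Classical in
    if t ++ [m] = D.s0 z then some (D.i0 z, 0) else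
      (D.run z t).bind (fun p => if m ∈ D.AS z p.1 p.2 t.length t then some (D.nxt z p.1 p.2 t.length t m) else none) := by
  have e : (t ++ [m]).reverse = m :: t.reverse := by simp
  rw [run, e, runR, List.reverse_reverse, List.length_reverse]
  rfl

variable {D} (H : D.Hyp)
include H

lemma νN (i : ℕ) : Ob.c (D.ν i) ∈ D.N := (H.hν _).mpr ⟨i, rfl⟩

lemma lt_succ : D.δ < D.δ' := (H.hs _).mpr le_rfl

/-- The part of the front lemma used below. -/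
lemma hit_front {z : Z W} (hz : z ∈ D.X) {i : ℕ} (hi : D.ν i ∈ P D.δ') (hv : D.v z i) {S : Set (Cond W)}
    (hS : Ob.d S ∈ D.N) (hd : ∀ E ∈ P D.δ', E ≤ D.ν i → ∃ E' ∈ S, E' ∈ P D.δ' ∧ E' ≤ E) :
    ∃ i1, (D.ν i1 ∈ P D.δ' ∧ Pure D.δ (D.ν i1) (D.ν i) ∧ Front D.δ (D.ν i1) {E | E ∈ S ∧ E ∈ P D.δ'}) ∧ D.v z i1 := by
  have h1 : Hit D.N D.δ (QF D.δ D.δ' (D.ν i) S) z := by
    refine hit_of_fo H.sok.ok H.gen hz (H.sok.qf _ _ (νN H i) hS) (E := (D.ν i).restr D.δ) restr_mem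
      (H.sok.cr _ (νN H i)) (by rw [restr_body]; exact hv) ?_
    intro G hG hle
    have hG' : G.Bd D.δ ⊆ (D.ν i).Bd D.δ := by rw [← body_eq hG, ← restr_body]; exact hle
    have hCP : amal G (D.ν i) D.δ hG' ∈ P D.δ' := amal_mem hi (lt_succ H).le
    obtain ⟨E, h2, h3, h4⟩ := pure_front (T := T) H.hs H.hg hCP (S := S) (fun E h5 h6 => hd E h5 (h6.trans amal_le))
    have h5 : (E.restr D.δ).body ⊆ G.body := by
      rw [restr_body]
      refine (le_Bd h3.1).trans ?_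
      rw [amal_Bd le_rfl, body_eq hG]
    exact ⟨E.restr D.δ, restr_mem, h5, E.restr D.δ, ⟨restr_mem, E, h2, h3.trans (amal_pure hG'), h4, le_rfl⟩,
      restr_mem, le_rfl⟩
  obtain ⟨G, h2, h3, h4, h5⟩ := h1
  obtain ⟨E, h6, h7, h8, h9, h10⟩ := H.sok.qfw _ _ G (νN H i) hS h4 h2
  obtain ⟨i1, rfl⟩ := (H.hν E).mp h7
  refine ⟨i1, ⟨h6, h8, h9⟩, ?_⟩
  have := h10 h5
  rwa [restr_body] at this

lemma P1_spec {z : Z W} (hz : z ∈ D.X) {i : ℕ} (hi : D.ν i ∈ P D.δ') (hv : D.v z i) (n : ℕ) :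
    D.Q1 i n (D.P1 z i n) ∧ D.v z (D.P1 z i n) := by
  have h1 : ∃ i1, D.Q1 i n i1 ∧ D.v z i1 := hit_front H hz hi hv (H.hdn n).1 (fun E hE _ => by
    obtain ⟨C, h1, h2, h3⟩ := (H.hdn n).2 E hE
    exact ⟨C, h1, h2, h3⟩)
  exact Nat.sInf_mem (s := {i1 | D.Q1 i n i1 ∧ D.v z i1}) h1

lemma P2_spec {z : Z W} (hz : z ∈ D.X) {i : ℕ} (hi : D.ν i ∈ P D.δ') (hv : D.v z i) (l : ℕ) :
    D.Q2 i l (D.P2 z i l) ∧ D.v z (D.P2 z i l) := by
  have h1 : ∃ i1, D.Q2 i l i1 ∧ D.v z i1 := hit_front H hz hi hv (H.sok.dd _ (H.htx l)) (fun E hE _ => by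
    obtain ⟨E', h1, h2⟩ := dd_dense (T := T) H.hs H.hg (D.tx l) hE
    exact ⟨E', h1, h1.1, h2⟩)
  exact Nat.sInf_mem (s := {i1 | D.Q2 i l i1 ∧ D.v z i1}) h1

lemma lcv {z : Z W} (hz : z ∈ D.X) (i : ℕ) : LCat D.δ D.X (fun z => D.v z i) z := by
  have := lc_mem H.sok.ok H.gen hz (H.sok.cr _ (νN H i)) restr_mem
  simp only [restr_body] at this
  exact this

lemma lcP1 {z : Z W} (hz : z ∈ D.X) {i : ℕ} (hi : D.ν i ∈ P D.δ') (hv : D.v z i) (n : ℕ) :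
    LCat D.δ D.X (fun z => D.P1 z i n) z :=
  LCat.least (p := fun i1 z => D.Q1 i n i1 ∧ D.v z i1) (fun i1 => (LCat.const _).and (lcv H hz i1))
    ⟨_, P1_spec H hz hi hv n⟩

lemma lcP2 {z : Z W} (hz : z ∈ D.X) {i : ℕ} (hi : D.ν i ∈ P D.δ') (hv : D.v z i) (l : ℕ) :
    LCat D.δ D.X (fun z => D.P2 z i l) z :=
  LCat.least (p := fun i1 z => D.Q2 i l i1 ∧ D.v z i1) (fun i1 => (LCat.const _).and (lcv H hz i1))
    ⟨_, P2_spec H hz hi hv l⟩

lemma act_iff {z : Z W} {i l : ℕ} :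
    D.Act z i l ↔ Hit D.N D.δ (QA D.δ D.δ' (D.ν i) (DD D.δ D.δ' (D.tx l))) z := by
  constructor
  · rintro ⟨i1, ⟨h1, h2, h3⟩, h4⟩
    exact ⟨(D.ν i1).restr D.δ, ⟨restr_mem, _, h1, h2, h3, le_rfl⟩, restr_mem, H.sok.cr _ (νN H i1),
      by rw [restr_body]; exact h4⟩
  · rintro ⟨G, h2, h3, h4, h5⟩
    obtain ⟨E, h6, h7, h8, h9, h10⟩ := H.sok.qaw _ _ G (νN H i) (H.sok.dd _ (H.htx l)) h4 h2
    obtain ⟨i1, rfl⟩ := (H.hν E).mp h7
    refine ⟨i1, ⟨h6, h8, h9⟩, ?_⟩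
    have := h10 h5
    rwa [restr_body] at this

lemma lcAct {z : Z W} (hz : z ∈ D.X) (i l : ℕ) : LCat D.δ D.X (fun z => D.Act z i l) z := by
  have h1 : (fun z => D.Act z i l) = fun z => Hit D.N D.δ (QA D.δ D.δ' (D.ν i) (DD D.δ D.δ' (D.tx l))) z := by
    funext z
    exact propext (act_iff H)
  rw [h1]
  exact lc_hit H.sok.ok H.gen hz (H.sok.qa _ _ (νN H i) (H.sok.dd _ (H.htx l)))

lemma P3_spec {z : Z W} {i l : ℕ} (hi : D.ν i ∈ P D.δ') (hv : D.v z i) :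
    D.ν (D.P3 z i l) ∈ P D.δ' ∧ Pure D.δ (D.ν (D.P3 z i l)) (D.ν i) ∧ D.v z (D.P3 z i l) ∧
      (D.Act z i l → D.ν (D.P3 z i l) ∈ DD D.δ D.δ' (D.tx l)) := by
  by_cases h : D.Act z i l
  · have h1 := Nat.sInf_mem (s := {i1 | D.Q3 i l i1 ∧ D.v z i1}) h
    simp only [P3, h, if_true]
    exact ⟨h1.1.1, h1.1.2.1, h1.2, fun _ => h1.1.2.2⟩
  · simp only [P3, h, if_false]
    exact ⟨hi, Pure.refl _ _, hv, fun h' => h'.elim⟩

lemma lcP3 {z : Z W} (hz : z ∈ D.X) (i l : ℕ) : LCat D.δ D.X (fun z => D.P3 z i l) z := by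
  classical
  refine LCat.ite (lcAct H hz i l) (fun h => ?_) (fun _ => LCat.const _)
  exact LCat.least (p := fun i1 z => D.Q3 i l i1 ∧ D.v z i1) (fun i1 => (LCat.const _).and (lcv H hz i1)) h

lemma J2_spec {z : Z W} (hz : z ∈ D.X) {i : ℕ} (hi : D.ν i ∈ P D.δ') (hv : D.v z i) (l n : ℕ) :
    D.ν (D.J2 z i l n) ∈ P D.δ' ∧ Pure D.δ (D.ν (D.J2 z i l n)) (D.ν (D.P1 z i n)) ∧
      Pure D.δ (D.ν (D.J2 z i l n)) (D.ν i) ∧ D.v z (D.J2 z i l n) ∧
      Front D.δ (D.ν (D.J2 z i l n)) {E | E ∈ DD D.δ D.δ' (D.tx l) ∧ E ∈ P D.δ'} := by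
  obtain ⟨⟨h1, h2, h3⟩, h4⟩ := P1_spec H hz hi hv n
  obtain ⟨⟨h5, h6, h7⟩, h8⟩ := P2_spec H hz h1 h4 l
  exact ⟨h5, h6, h6.trans h2, h8, h7⟩

lemma J3_spec {z : Z W} (hz : z ∈ D.X) {i : ℕ} (hi : D.ν i ∈ P D.δ') (hv : D.v z i) (l n : ℕ) :
    D.ν (D.J3 z i l n) ∈ P D.δ' ∧ Pure D.δ (D.ν (D.J3 z i l n)) (D.ν (D.J2 z i l n)) ∧
      Pure D.δ (D.ν (D.J3 z i l n)) (D.ν i) ∧ D.v z (D.J3 z i l n) ∧
      (D.ActN z i l n → D.ν (D.J3 z i l n) ∈ DD D.δ D.δ' (D.tx l)) := by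
  obtain ⟨h1, h2, h3, h4, h5⟩ := J2_spec H hz hi hv l n
  obtain ⟨h6, h7, h8, h9⟩ := P3_spec H (l := l) h1 h4
  exact ⟨h6, h7, h7.trans h3, h8, h9⟩

lemma lcJ2 {z : Z W} (hz : z ∈ D.X) {i : ℕ} (hi : D.ν i ∈ P D.δ') (hv : D.v z i) (l n : ℕ) :
    LCat D.δ D.X (fun z => D.J2 z i l n) z := by
  obtain ⟨⟨h1, h2, h3⟩, h4⟩ := P1_spec H hz hi hv n
  exact LCat.bind (g := fun j z => D.P2 z j l) (lcP1 H hz hi hv n) (lcP2 H hz h1 h4 l)

lemma lcJ3 {z : Z W} (hz : z ∈ D.X) {i : ℕ} (hi : D.ν i ∈ P D.δ') (hv : D.v z i) (l n : ℕ) :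
    LCat D.δ D.X (fun z => D.J3 z i l n) z :=
  LCat.bind (g := fun j z => D.P3 z j l) (lcJ2 H hz hi hv l n) (lcP3 H hz _ l)

lemma lcActN {z : Z W} (hz : z ∈ D.X) {i : ℕ} (hi : D.ν i ∈ P D.δ') (hv : D.v z i) (l n : ℕ) :
    LCat D.δ D.X (fun z => D.ActN z i l n) z :=
  LCat.bind (g := fun j z => D.Act z j l) (lcJ2 H hz hi hv l n) (lcAct H hz _ l)

lemma lcAS {z : Z W} (hz : z ∈ D.X) {i : ℕ} (hi : D.ν i ∈ P D.δ') (hv : D.v z i) (l n : ℕ) (t : List ℕ) (m : ℕ) :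
    LCat D.δ D.X (fun z => m ∈ D.AS z i l n t) z := by
  refine LCat.bind (g := fun j z => D.AC z l (D.ActN z i l n) t m j) (lcJ3 H hz hi hv l n) ?_
  obtain ⟨_, _, _, h1, _⟩ := J3_spec H hz hi hv l n
  have hloc := (lcv H hz (D.J3 z i l n)).locIn h1
  refine LCat.and (((D.ν _).lcsu D.δ t m z h1).of_locIn hloc) (LCat.and (H.halc m z hz) ?_)
  by_cases hII : ∃ u f, II D.δ D.δ' (D.tx l) (D.ν (D.J3 z i l n)) u f
  · simp only [hII, true_imp_iff]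
    obtain ⟨_, _, h3, _⟩ := mf_spec hII
    exact (lcActN H hz hi hv l n).comp₂ ((h3 m z h1).of_locIn hloc)
      (fun p f => (p → f ∈ D.te l ∧ D.tj l < f))
  · simp only [hII, false_imp_iff, imp_true_iff]
    exact LCat.const _

lemma lcnxt {z : Z W} (hz : z ∈ D.X) {i : ℕ} (hi : D.ν i ∈ P D.δ') (hv : D.v z i) (l n : ℕ) (t : List ℕ) (m : ℕ) :
    LCat D.δ D.X (fun z => D.nxt z i l n t m) z := by
  classical
  exact (lcJ3 H hz hi hv l n).comp₂ (lcActN H hz hi hv l n)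
    (fun j p => (sInf {i' | D.ν i' = (D.ν j).node D.δ (t ++ [m])}, if p then l + 1 else l))

lemma i0_spec {z : Z W} (hz : z ∈ D.X) : D.ν (D.i0 z) = D.C z :=
  Nat.sInf_mem (s := {i | D.ν i = D.C z}) ((H.hν _).mp (H.hCN z))

lemma nxt_spec {z : Z W} {i l n : ℕ} {t : List ℕ} {m : ℕ} :
    D.ν (D.nxt z i l n t m).1 = (D.ν (D.J3 z i l n)).node D.δ (t ++ [m]) :=
  Nat.sInf_mem (s := {i' | D.ν i' = (D.ν (D.J3 z i l n)).node D.δ (t ++ [m])})
    ((H.hν _).mp (H.sok.nd _ _ (νN H _)))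

/-- The invariant. -/
lemma inv {z : Z W} (hz : z ∈ D.X) (t : List ℕ) : ∀ i l, D.run z t = some (i, l) →
    D.ν i ∈ P D.δ' ∧ D.v z i ∧ (D.ν i).st D.δ z = t := by
  classical
  have h0 : D.ν (D.i0 z) ∈ P D.δ' ∧ D.v z (D.i0 z) ∧ (D.ν (D.i0 z)).st D.δ z = D.s0 z := by
    simp only [v]
    rw [i0_spec H hz]
    obtain ⟨h1, h2⟩ := H.hC z hz
    exact ⟨h1, h2, rfl⟩
  induction t using List.reverseRecOn with
  | nil =>
    intro i l h
    rw [run_nil] at h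
    split_ifs at h with h1
    simp only [Option.some.injEq, Prod.mk.injEq] at h
    rw [← h.1, ← h1]
    exact h0
  | append_singleton t m ih =>
    intro i l h
    rw [run_snoc] at h
    split_ifs at h with h1
    · simp only [Option.some.injEq, Prod.mk.injEq] at h
      rw [← h.1, h1]
      exact h0
    · rw [Option.bind_eq_some_iff] at h
      obtain ⟨p, h2, h3⟩ := h
      split_ifs at h3 with h4
      obtain ⟨h5, h6, h7⟩ := ih p.1 p.2 h2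
      obtain ⟨h8, h9, h10, h11, _⟩ := J3_spec H hz h5 h6 p.2 t.length
      have h12 : i = (D.nxt z p.1 p.2 t.length t m).1 := by
        simp only [Option.some.injEq] at h3
        rw [h3]
      have h13 : D.ν i = (D.ν (D.J3 z p.1 p.2 t.length)).node D.δ (t ++ [m]) := by rw [h12]; exact nxt_spec H
      have h14 : (D.ν (D.J3 z p.1 p.2 t.length)).st D.δ z = t := by rw [h10.2 z h11, h7]
      simp only [v]
      rw [h13]
      refine ⟨node_mem h8 (lt_succ H), ?_, ?_⟩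
      · rw [node_Bd le_rfl]; exact h11
      · apply node_st
        refine .step _ _ ?_ h4.1
        rw [h14]
        exact .base

lemma lcrun {z : Z W} (hz : z ∈ D.X) (t : List ℕ) : LCat D.δ D.X (fun z => D.run z t) z := by
  classical
  have hs0 : LCat D.δ D.X D.s0 z := by
    refine LCat.bind (g := fun (C : Cond W) z => C.st D.δ z) (H.hClc z hz) ?_
    obtain ⟨h1, h3⟩ := H.hC z hz
    obtain ⟨i, hi⟩ := (H.hν _).mp (H.hCN z)
    have := (lcv H hz i).locIn (by rw [v, hi]; exact h3)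
    refine ((D.C z).lcst D.δ z h3).of_locIn (this.mono ?_)
    intro w hw
    have : w ∈ (D.ν i).Bd D.δ := hw
    rwa [hi] at this
  have hi0 : LCat D.δ D.X D.i0 z := (H.hClc z hz).comp (fun C => sInf {i | D.ν i = C})
  induction t using List.reverseRecOn with
  | nil =>
    have : (fun z => D.run z []) = fun z => if D.s0 z = [] then some (D.i0 z, 0) else none := by
      funext z; rw [run_nil]
    rw [this]
    exact LCat.ite (hs0.comp (fun s => s = [])) (fun _ => hi0.comp (fun i => some (i, 0))) (fun _ => LCat.const _)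
  | append_singleton t m ih =>
    have : (fun z => D.run z (t ++ [m])) = fun z => if t ++ [m] = D.s0 z then some (D.i0 z, 0) else
      (D.run z t).bind (fun p => if m ∈ D.AS z p.1 p.2 t.length t then some (D.nxt z p.1 p.2 t.length t m) else none) := by
      funext z; rw [run_snoc]
    rw [this]
    refine LCat.ite (hs0.comp (fun s => t ++ [m] = s)) (fun _ => hi0.comp (fun i => some (i, 0))) (fun _ => ?_)
    refine LCat.bind (g := fun o z => o.bind (fun p => if m ∈ D.AS z p.1 p.2 t.length t then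
      some (D.nxt z p.1 p.2 t.length t m) else none)) ih ?_
    cases h : D.run z t with
    | none => exact LCat.const _
    | some p =>
      obtain ⟨h5, h6, h7⟩ := inv H hz t p.1 p.2 h
      simp only [Option.bind_some]
      exact LCat.ite (lcAS H hz h5 h6 _ _ _ _) (fun _ => (lcnxt H hz h5 h6 _ _ _ _).comp some) (fun _ => LCat.const _)

lemma lcs0 {z : Z W} (hz : z ∈ D.X) : LCat D.δ D.X D.s0 z := by
  refine LCat.bind (g := fun (C : Cond W) z => C.st D.δ z) (H.hClc z hz) ?_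
  obtain ⟨h1, h3⟩ := H.hC z hz
  obtain ⟨i, hi⟩ := (H.hν _).mp (H.hCN z)
  have := (lcv H hz i).locIn (by rw [v, hi]; exact h3)
  refine ((D.C z).lcst D.δ z h3).of_locIn (this.mono ?_)
  intro w hw
  have : w ∈ (D.ν i).Bd D.δ := hw
  rwa [hi] at this

lemma lcSU {z : Z W} (hz : z ∈ D.X) (t : List ℕ) (m : ℕ) : LCat D.δ D.X (fun z => m ∈ D.SU z t) z := by
  refine LCat.bind (g := fun (o : Option (ℕ × ℕ)) z => m ∈ (match o with
    | none => Set.univ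
    | some p => D.AS z p.1 p.2 t.length t)) (lcrun H hz t) ?_
  cases h : D.run z t with
  | none => exact LCat.const _
  | some p =>
    obtain ⟨h5, h6, h7⟩ := inv H hz t p.1 p.2 h
    exact lcAS H hz h5 h6 _ _ _ _

/-- Dependence on countably many coordinates. -/
lemma dep {z z' : Z W} (h : ∀ γ ∈ D.A, γ < D.δ → z γ = z' γ) : D.s0 z = D.s0 z' ∧ D.SU z = D.SU z' := by
  classical
  have hN : ∀ γ, Ob.w γ ∈ D.N → γ < D.δ → z γ = z' γ := fun γ hγ => h γ (H.hAN γ hγ)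
  have hv : ∀ i, D.v z i = D.v z' i := fun i =>
    propext (Bd_iff_supp (fun γ hγ => hN γ (H.sok.ok.supp _ (νN H i) γ hγ)))
  have hst : ∀ i, (D.ν i).st D.δ z = (D.ν i).st D.δ z' ∧ (D.ν i).su D.δ z = (D.ν i).su D.δ z' := fun i =>
    (D.ν i).dep D.δ z z' (fun γ hγ => hN γ (H.sok.ok.supp _ (νN H i) γ hγ))
  have hP1 : ∀ i n, D.P1 z i n = D.P1 z' i n := fun i n => by simp only [P1, hv]
  have hP2 : ∀ i n, D.P2 z i n = D.P2 z' i n := fun i n => by simp only [P2, hv]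
  have hAct : ∀ i n, D.Act z i n = D.Act z' i n := fun i n => by simp only [Act, hv]
  have hP3 : ∀ i n, D.P3 z i n = D.P3 z' i n := fun i n => by simp only [P3, hv, hAct]
  have hJ2 : ∀ i l n, D.J2 z i l n = D.J2 z' i l n := fun i l n => by simp only [J2, hP1, hP2]
  have hJ3 : ∀ i l n, D.J3 z i l n = D.J3 z' i l n := fun i l n => by simp only [J3, hP3, hJ2]
  have hActN : ∀ i l n, D.ActN z i l n = D.ActN z' i l n := fun i l n => by simp only [ActN, hAct, hJ2]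
  have ha := H.hadep z z' h
  have hAS : ∀ i l n t, D.AS z i l n t = D.AS z' i l n t := fun i l n t => by
    ext m
    simp only [AS, AC, Set.mem_ofPred_eq, hJ3, hActN, ha, (hst _).2]
    rw [H.sok.fdep _ _ (νN H _) (H.htx l) z z' hN]
  have hnxt : ∀ i l n t m, D.nxt z i l n t m = D.nxt z' i l n t m := fun i l n t m => by
    simp only [nxt, hJ3, hActN]
  have hC := H.hCdep z z' h
  have hi0 : D.i0 z = D.i0 z' := by simp only [i0, hC]
  have hs0 : D.s0 z = D.s0 z' := by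
    simp only [s0, hC]
    obtain ⟨i, hi⟩ := (H.hν _).mp (H.hCN z')
    rw [← hi]
    exact (hst i).1
  have hrun : ∀ t, D.run z t = D.run z' t := by
    intro t
    induction t using List.reverseRecOn with
    | nil => rw [run_nil, run_nil, hs0, hi0]
    | append_singleton t m ih => rw [run_snoc, run_snoc, hs0, hi0, ih]; simp only [hAS, hnxt]
  refine ⟨hs0, ?_⟩
  funext t
  simp only [SU, hrun, hAS]

end Dat

end Pool.Agent.H55.Lav
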