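import Pool.Agent.H55.Lav.Step

set_option autoImplicit false
set_option linter.unusedSectionVars false

/-!
# The one-coordinate extension: properties
-/

namespace Pool.Agent.H55.Lav

open Cond

variable {W T : Type} [LinearOrder W] [WellFoundedLT W]

namespace Dat

variable {D : Dat W T} (H : D.Hyp)
include H

lemma hit_sn {z : Z W} (hz : z ∈ D.X) {j : ℕ} (hv : D.v z j) (t : List ℕ) (m : ℕ) :
    Hit D.N D.δ (SN D.δ (D.ν j) t m) z ↔ m ∈ (D.ν j).su D.δ z t := by
  constructor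
  · rintro ⟨G, h1, _, _, h2⟩
    exact h1.2 z h2
  · intro h
    refine hit_loc H.sok.ok H.gen hz restr_mem (H.sok.cr _ (νN H j)) (by rw [restr_body]; exact hv)
      (Y := {z | m ∈ (D.ν j).su D.δ z t}) ?_ (H.sok.ok.nm _ m (H.sok.sn _ t (νN H j))) (fun G hG _ h => ⟨hG, h⟩)
    rw [restr_body]
    exact ((D.ν j).lcsu D.δ t m z hv).locIn h

lemma su_inter_inf {z : Z W} (hz : z ∈ D.X) {j : ℕ} (hv : D.v z j) (t : List ℕ) :
    ((D.ν j).su D.δ z t ∩ D.a z).Infinite := by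
  have h1 : {m | Hit D.N D.δ (SN D.δ (D.ν j) t m) z} = (D.ν j).su D.δ z t := by
    ext m; exact hit_sn H hz hv t m
  have := H.hac _ (H.sok.sn _ t (νN H j)) z hz (by rw [h1]; exact (D.ν j).inf _ _ _)
  rwa [h1] at this

lemma as_inf {z : Z W} (hz : z ∈ D.X) {i : ℕ} (hi : D.ν i ∈ P D.δ') (hv : D.v z i) {t : List ℕ}
    (hst : (D.ν i).st D.δ z = t) (l n : ℕ) : (D.AS z i l n t).Infinite := by
  obtain ⟨h1, h2, h3, h4, h5⟩ := J3_spec H hz hi hv l n
  have hst' : (D.ν (D.J3 z i l n)).st D.δ z = t := by rw [h3.2 z h4, hst]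
  by_cases hact : ActN D z i l n ∧ ∃ u f, II D.δ D.δ' (D.tx l) (D.ν (D.J3 z i l n)) u f
  · obtain ⟨ha1, ha2⟩ := hact
    obtain ⟨_, g1, g2, g3, g4⟩ := mf_spec ha2
    have hMU : MU D.δ D.δ' (D.tx l) (D.ν (D.J3 z i l n)) = t := by rw [← g1 z h4, hst']
    set f := MF D.δ D.δ' (D.tx l) (D.ν (D.J3 z i l n)) z with hf
    have hinj : Set.InjOn f ((D.ν (D.J3 z i l n)).su D.δ z t) := by rw [← hMU]; exact g3 z h4
    have hAS : D.AS z i l n t = {m | m ∈ (D.ν (D.J3 z i l n)).su D.δ z t ∧ m ∈ D.a z ∧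
        (f m ∈ D.te l ∧ D.tj l < f m)} := by
      ext m
      simp only [AS, AC, Set.mem_ofPred_eq, ha1, ha2, true_imp_iff]
      rfl
    rw [hAS]
    rcases H.hea with he | he
    · have h6 := su_inter_inf H hz h4 t
      have h7 : {m | m ∈ (D.ν (D.J3 z i l n)).su D.δ z t ∧ f m ≤ D.tj l}.Finite := by
        refine Set.Finite.of_finite_image (f := f) ((Set.finite_Iic (D.tj l)).subset ?_) (hinj.mono (fun m hm => hm.1))
        rintro _ ⟨m, hm, rfl⟩
        exact hm.2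
      refine (h6.sdiff h7).mono ?_
      rintro m ⟨⟨h8, h9⟩, h10⟩
      refine ⟨h8, h9, ?_, ?_⟩
      · rw [he _ (H.hte l)]; trivial
      · by_contra h11
        exact h10 ⟨h8, not_lt.mp h11⟩
    · have haz := he z hz
      have hyn : {k | Hit D.N D.δ (YN D.δ D.δ' (D.tx l) (D.ν (D.J3 z i l n)) k) z} =
          f '' ((D.ν (D.J3 z i l n)).su D.δ z t) := by
        ext k
        constructor
        · rintro ⟨G, ⟨_, m, k1⟩, k2, k3, k4⟩
          obtain ⟨k5, k6⟩ := k1 z k4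
          rw [hMU] at k5
          exact ⟨m, k5, k6⟩
        · rintro ⟨m, k1, k2⟩
          refine hit_loc H.sok.ok H.gen hz restr_mem (H.sok.cr _ (νN H (D.J3 z i l n)))
            (by rw [restr_body]; exact h4)
            (Y := {w | m ∈ (D.ν (D.J3 z i l n)).su D.δ w t} ∩
              {w | MF D.δ D.δ' (D.tx l) (D.ν (D.J3 z i l n)) w m = k}) ?_
            (H.sok.ok.nm _ k (H.sok.yn _ _ (νN H _) (H.htx l)))
            (fun G hG _ h => ⟨hG, m, fun w hw => ⟨?_, (h hw).2⟩⟩)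
          · rw [restr_body]
            have k3 : LocIn D.δ ((D.ν (D.J3 z i l n)).Bd D.δ) z {w | m ∈ (D.ν (D.J3 z i l n)).su D.δ w t} :=
              ((D.ν _).lcsu D.δ t m z h4).locIn k1
            exact k3.inter ((LCat.comp (g2 m z h4) (fun r => r = k)).locIn k2)
          · rw [hMU]
            have := (h hw).1
            rwa [Set.mem_ofPred_eq] at this
      have h6 := H.epr _ (H.sok.yn _ _ (νN H (D.J3 z i l n)) (H.htx l)) z hz (by
        rw [hyn]
        exact ((D.ν _).inf _ _ _).image hinj) _ (H.hte l)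
      rw [hyn] at h6
      intro hfin
      apply h6
      refine ((hfin.image f).union (Set.finite_Iic (D.tj l))).subset ?_
      rintro _ ⟨⟨m, hm, rfl⟩, h7⟩
      by_cases h8 : D.tj l < f m
      · left
        exact ⟨m, ⟨hm, by rw [haz]; trivial, h7, h8⟩, rfl⟩
      · right
        exact not_lt.mp h8
  · refine (su_inter_inf H hz h4 t).mono ?_
    rintro m ⟨h6, h7⟩
    exact ⟨h6, h7, fun h8 h9 => (hact ⟨h8, h9⟩).elim⟩

lemma su_inf {z : Z W} (hz : z ∈ D.X) (t : List ℕ) : (D.SU z t).Infinite := by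
  simp only [SU]
  cases h : D.run z t with
  | none => exact Set.infinite_univ
  | some p =>
    obtain ⟨h5, h6, h7⟩ := inv H hz t p.1 p.2 h
    exact as_inf H hz h5 h6 h7 _ _

omit H in
lemma run_s0 (z : Z W) : D.run z (D.s0 z) = some (D.i0 z, 0) := by
  classical
  rcases List.eq_nil_or_concat (D.s0 z) with h | ⟨t, m, h⟩
  · have := D.run_nil z
    rw [h, this, if_pos h]
  · have := D.run_snoc z t m
    rw [List.concat_eq_append] at h
    rw [h, this, if_pos h.symm]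

/-- The set of points which belong to the constructed tree. -/
def Y (D : Dat W T) : Set (Z W) := {w | w ∈ D.X ∧ Br (D.s0 w) (D.SU w) (w D.δ)}

omit H in
lemma run_step {w : Z W} (hw : w ∈ D.Y) {n : ℕ} (hn : (D.s0 w).length ≤ n) {p : ℕ × ℕ}
    (hp : D.run w (res (w D.δ) n) = some p) : w D.δ n ∈ D.AS w p.1 p.2 n (res (w D.δ) n) ∧
      D.run w (res (w D.δ) (n + 1)) = some (D.nxt w p.1 p.2 n (res (w D.δ) n) (w D.δ n)) := by
  classical
  have h1 : w D.δ n ∈ D.AS w p.1 p.2 n (res (w D.δ) n) := by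
    have := hw.2.2 n hn
    simp only [SU, hp, length_res] at this
    exact this
  refine ⟨h1, ?_⟩
  rw [res_succ, run_snoc, if_neg, hp, Option.bind_some, length_res, if_pos h1]
  intro h
  have := congrArg List.length h
  simp at this
  omega

omit H in
lemma run_some {w : Z W} (hw : w ∈ D.Y) {n : ℕ} (hn : (D.s0 w).length ≤ n) :
    ∃ p, D.run w (res (w D.δ) n) = some p := by
  induction n, hn using Nat.le_induction with
  | base => rw [hw.2.1, run_s0]; exact ⟨_, rfl⟩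
  | succ n hn ih =>
    obtain ⟨p, hp⟩ := ih
    exact ⟨_, (run_step hw hn hp).2⟩

lemma chain {w : Z W} (hw : w ∈ D.Y) {n k : ℕ} (hn : (D.s0 w).length ≤ n) (hnk : n ≤ k) {p q : ℕ × ℕ}
    (hp : D.run w (res (w D.δ) n) = some p) (hq : D.run w (res (w D.δ) k) = some q) : D.ν q.1 ≤ D.ν p.1 := by
  induction k, hnk using Nat.le_induction generalizing q with
  | base => rw [hp] at hq; simp only [Option.some.injEq] at hq; rw [hq]
  | succ k hk ih =>
    obtain ⟨r, hr⟩ := run_some hw (hn.trans hk)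
    have h1 := ih hr
    have h2 := (run_step hw (hn.trans hk) hr).2
    rw [hq] at h2
    simp only [Option.some.injEq] at h2
    obtain ⟨h5, h6, h7⟩ := inv H hw.1 _ r.1 r.2 hr
    have h3 := (J3_spec H hw.1 h5 h6 r.2 k).2.2.1.1
    refine le_trans ?_ h1
    rw [h2, nxt_spec H]
    exact node_le.trans h3

lemma mem_nu {w : Z W} (hw : w ∈ D.Y) {n : ℕ} (hn : (D.s0 w).length ≤ n) {p : ℕ × ℕ}
    (hp : D.run w (res (w D.δ) n) = some p) : w ∈ (D.ν p.1).body := by
  obtain ⟨h5, h6, h7⟩ := inv H hw.1 _ p.1 p.2 hp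
  rw [section_mem H.hs h5]
  refine ⟨h6, ?_⟩
  rw [h7]
  refine ⟨by simp, fun k hk => ?_⟩
  rw [length_res] at hk
  obtain ⟨q, hq⟩ := run_some hw (hn.trans hk)
  obtain ⟨g5, g6, g7⟩ := inv H hw.1 _ q.1 q.2 hq
  have h8 := (run_step hw (hn.trans hk) hq).1
  obtain ⟨j1, _, j3, j4, _⟩ := J3_spec H hw.1 g5 g6 q.2 k
  have h9 : D.ν (D.J3 w q.1 q.2 k) ≤ D.ν p.1 := j3.1.trans (chain H hw hn hk hp hq)
  have h10 := su_sub h9 j4 (t := res (w D.δ) k) (by
    have : (D.ν (D.J3 w q.1 q.2 k)).st D.δ w = res (w D.δ) k := by rw [j3.2 w j4, g7]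
    rw [this]
    exact .base)
  exact h10 h8.1

lemma mem_J3 {w : Z W} (hw : w ∈ D.Y) {n : ℕ} (hn : (D.s0 w).length ≤ n) {p : ℕ × ℕ}
    (hp : D.run w (res (w D.δ) n) = some p) : w ∈ (D.ν (D.J3 w p.1 p.2 n)).body := by
  have h1 := (run_step hw hn hp).2
  have h2 := mem_nu H hw (by omega) h1
  rw [nxt_spec H] at h2
  exact node_le h2

lemma mem_C {w : Z W} (hw : w ∈ D.Y) : w ∈ (D.C w).body := by
  have h1 := mem_nu H hw le_rfl (p := (D.i0 w, 0)) (by rw [hw.2.1, run_s0])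
  rwa [i0_spec H hw.1] at h1

lemma su_sub_a {z : Z W} {t : List ℕ} (ht : Nd (D.s0 z) (D.SU z) t) : D.SU z t ⊆ D.a z := by
  classical
  have key : ∃ p, D.run z t = some p := by
    induction ht with
    | base => exact ⟨_, run_s0 z⟩
    | step t m h1 h2 ih =>
      obtain ⟨p, hp⟩ := ih
      rw [run_snoc]
      split_ifs with h3
      · exact ⟨_, rfl⟩
      · rw [hp, Option.bind_some]
        simp only [SU, hp] at h2
        rw [if_pos h2]
        exact ⟨_, rfl⟩
  obtain ⟨p, hp⟩ := key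
  simp only [SU, hp]
  intro m hm
  exact hm.2.1

/-- The result is generic. -/
lemma gen_Y : Gen D.N D.δ' D.Y := by
  classical
  intro S hS hd w hw
  obtain ⟨n, hn, hdn⟩ := H.hdn' S hS hd (D.s0 w).length
  obtain ⟨p, hp⟩ := run_some hw hn
  obtain ⟨h5, h6, h7⟩ := inv H hw.1 _ p.1 p.2 hp
  obtain ⟨⟨i1, i2, i3⟩, i4⟩ := P1_spec H hw.1 h5 h6 n
  rw [hdn] at i3
  have i5 := H.sok.frn _ _ (νN H _) hS i3
  have hle : ∀ w' ∈ D.Y, ∀ p', D.run w' (res (w' D.δ) n) = some p' → (D.s0 w').length ≤ n →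
      w' ∈ (D.ν (D.P1 w' p'.1 n)).body := by
    intro w' hw' p' hp' hn'
    obtain ⟨h5', h6', h7'⟩ := inv H hw'.1 _ p'.1 p'.2 hp'
    have h8 := mem_J3 H hw' hn' hp'
    exact (J2_spec H hw'.1 h5' h6' p'.2 n).2.1.1 ((J3_spec H hw'.1 h5' h6' p'.2 n).2.1.1 h8)
  have hwb := hle w hw p hp hn
  obtain ⟨𝓕, _, f2, f3⟩ := i5
  obtain ⟨E, hE, F, k, n', g1, g2, g3⟩ := f3 w hwb
  obtain ⟨⟨hES, hEP⟩, hEN⟩ := f2 hE
  refine ⟨E, hES, hEP, hEN, ?_⟩
  obtain ⟨F2, k2, l1, l2⟩ := (lcrun H hw.1 (res (w D.δ) n)).comp₂ ((lcP1 H hw.1 h5 h6 n).comp₂ (lcs0 H hw.1)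
    (fun a b => (a, b))) (fun a b => (a, b))
  refine ⟨insert D.δ (F ∪ F2), max (max k k2) (max n n'), ?_, ?_⟩
  · intro γ hγ
    rcases Finset.mem_insert.mp hγ with h | h
    · rw [h]; exact lt_succ H
    · rcases Finset.mem_union.mp h with h | h
      · exact (g1 γ h).trans (lt_succ H)
      · exact (l1 γ h).trans (lt_succ H)
  · intro w' hw' ha
    have hres : ∀ m ≤ max n n', res (w D.δ) m = res (w' D.δ) m := fun m hm =>
      ha.res (Finset.mem_insert_self _ _) (hm.trans (le_max_right _ _))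
    have e := l2 w' hw'.1 (ha.mono (fun γ hγ => Finset.mem_insert_of_mem (Finset.mem_union_right _ hγ))
      ((le_max_right _ _).trans (le_max_left _ _)))
    simp only [Prod.mk.injEq] at e
    obtain ⟨e1, e2, e3⟩ := e
    have h8 : D.run w' (res (w' D.δ) n) = some p := by
      rw [← hres n (le_max_left _ _), e1, hp]
    have h9 := hle w' hw' p h8 (by rw [e3]; exact hn)
    rw [e2] at h9
    exact (g3 w' h9 (ha.mono (fun γ hγ => Finset.mem_insert_of_mem (Finset.mem_union_left _ hγ))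
      ((le_max_left _ _).trans (le_max_left _ _))) (hres n' (le_max_right _ _)).symm).1

end Dat

end Pool.Agent.H55.Lav
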