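import Pool.Agent.H55.Lav.Step2

set_option autoImplicit false
set_option linter.unusedSectionVars false

/-!
# The one-coordinate extension: the tasks are carried out
-/

namespace Pool.Agent.H55.Lav

open Cond

variable {W T : Type} [LinearOrder W] [WellFoundedLT W]

namespace Dat

variable {D : Dat W T} (H : D.Hyp)
include H

lemma node_stem {w : Z W} (hw : w ∈ D.Y) {n : ℕ} {p : ℕ × ℕ}
    (hp : D.run w (res (w D.δ) n) = some p) : (D.ν (D.J2 w p.1 p.2 n)).st D.δ w = res (w D.δ) n := by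
  obtain ⟨h5, h6, h7⟩ := inv H hw.1 _ p.1 p.2 hp
  obtain ⟨_, _, h3, h4, _⟩ := J2_spec H hw.1 h5 h6 p.2 n
  rw [h3.2 w h4, h7]

lemma progress {w : Z W} (hw : w ∈ D.Y) {n0 : ℕ} (hn0 : (D.s0 w).length ≤ n0) {p : ℕ × ℕ}
    (hp : D.run w (res (w D.δ) n0) = some p) :
    ∃ n, n0 ≤ n ∧ ∃ q, D.run w (res (w D.δ) n) = some q ∧ q.2 = p.2 ∧ D.ActN w q.1 q.2 n := by
  classical
  by_contra hcon
  push Not at hcon
  have hl : ∀ n, n0 ≤ n → ∀ q, D.run w (res (w D.δ) n) = some q → q.2 = p.2 := by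
    intro n hn
    induction n, hn using Nat.le_induction with
    | base => intro q hq; rw [hp] at hq; simp only [Option.some.injEq] at hq; rw [hq]
    | succ n hn ih =>
      intro q hq
      obtain ⟨r, hr⟩ := run_some hw (hn0.trans hn)
      have h1 := ih r hr
      have h2 := hcon n hn r hr h1
      have h3 := (run_step hw (hn0.trans hn) hr).2
      rw [hq] at h3
      simp only [Option.some.injEq] at h3
      rw [h3]
      simp only [nxt, h2, if_false]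
      exact h1
  obtain ⟨h5, h6, h7⟩ := inv H hw.1 _ p.1 p.2 hp
  obtain ⟨a1, a2, a3, a4, a5⟩ := J2_spec H hw.1 h5 h6 p.2 n0
  have hwJ2 : w ∈ (D.ν (D.J2 w p.1 p.2 n0)).body := (J3_spec H hw.1 h5 h6 p.2 n0).2.1.1 (mem_J3 H hw hn0 hp)
  obtain ⟨𝓕, _, f2, f3⟩ := a5
  obtain ⟨D0, hD0, F, k, n', g1, g2, g3⟩ := f3 w hwJ2
  obtain ⟨hD0D, hD0P⟩ := f2 hD0
  rw [node_stem H hw hp, length_res] at g2
  obtain ⟨q, hq⟩ := run_some hw (hn0.trans g2)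
  have hq2 := hl n' g2 q hq
  refine hcon n' g2 q hq hq2 ?_
  obtain ⟨b5, b6, b7⟩ := inv H hw.1 _ q.1 q.2 hq
  obtain ⟨c1, c2, c3, c4, _⟩ := J2_spec H hw.1 b5 b6 q.2 n'
  have hstq := node_stem H hw hq
  set J := D.J2 w q.1 q.2 n' with hJ
  have hle : D.ν J ≤ D.ν (D.J2 w p.1 p.2 n0) := by
    rcases Nat.eq_or_lt_of_le g2 with h | h
    · have hqp : q = p := by
        rw [← h, hp] at hq
        simp only [Option.some.injEq] at hq
        exact hq.symm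
      rw [hJ, hqp, ← h]
    · have h8 := (run_step hw hn0 hp).2
      have h9 := chain H hw (by omega) (show n0 + 1 ≤ n' by omega) h8 hq
      rw [nxt_spec H] at h9
      exact c3.1.trans (h9.trans (node_le.trans (J3_spec H hw.1 h5 h6 p.2 n0).2.1.1))
  show D.Act w (D.J2 w q.1 q.2 n') q.2
  rw [act_iff H]
  by_contra hno
  obtain ⟨E0, e1, e2, e3, _, e5⟩ := (decide_hit H.sok.ok H.gen hw.1
    (H.sok.qa _ _ (νN H _) (H.sok.dd _ (H.htx q.2)))).resolve_left hno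
  obtain ⟨E1, d1, d2, d3, d4, d5, _⟩ := directed H.sok.ok H.gen hw.1 e2 (H.sok.cr _ (νN H J)) e1 restr_mem e3
    (by rw [restr_body]; exact c4)
  have hE1 : E1.body ⊆ (D.ν J).Bd D.δ := by rw [← restr_body]; exact d4
  have hloc : LocIn D.δ E1.body w ({w' | Agr F k w w'} ∩ {w' | (D.ν J).st D.δ w' = (D.ν J).st D.δ w}) := by
    refine LocIn.inter ⟨F, k, g1, fun z' _ ha => ha⟩ ?_
    exact (((((D.ν J).lcst D.δ w c4).mono hE1 le_rfl)).comp (fun s => s = (D.ν J).st D.δ w)).locIn rfl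
  obtain ⟨G, k1, k2, k3, k4⟩ := hloc.cond d1 d5
  have hG : G.Bd D.δ ⊆ (D.ν J).Bd D.δ := by rw [← body_eq k1]; exact Set.Subset.trans k2 hE1
  have hEP : amal G (D.ν J) D.δ hG ∈ P D.δ' := amal_mem c1 (lt_succ H).le
  have key : ∀ w' ∈ (amal G (D.ν J) D.δ hG).body, w' ∈ D0.body ∧ D0.st D.δ w' = res (w D.δ) n' := by
    intro w' hw'
    obtain ⟨m1, m2⟩ := mem_amal.mp hw'
    rw [← body_eq k1] at m1
    obtain ⟨m3, m4⟩ := k4 m1
    refine g3 w' (hle m2) m3 ?_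
    have m5 := (m2 D.δ).1
    rw [show (D.ν J).st D.δ w' = res (w D.δ) n' by rw [m4, hstq], length_res] at m5
    exact m5
  have hpure : Pure D.δ (amal G (D.ν J) D.δ hG) D0 := by
    refine ⟨fun w' hw' => (key w' hw').1, fun z hz => ?_⟩
    obtain ⟨w', hw', hag⟩ := exists_ext hz
    obtain ⟨_, m2⟩ := key w' hw'
    rw [(depEq (C := D0) (γ := D.δ) (z := w') (z' := z) (fun γ hγ => hag γ hγ)).1] at m2
    rw [m2, amal_st_ge le_rfl]
    rw [amal_Bd le_rfl, ← body_eq k1] at hz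
    rw [show (D.ν J).st D.δ z = (D.ν J).st D.δ w from (k4 hz).2, hstq]
  have hDD : amal G (D.ν J) D.δ hG ∈ DD D.δ D.δ' (D.tx q.2) := by
    rw [hq2]
    exact dd_pure hD0D hEP hpure
  refine e5 G ⟨k1, _, hEP, amal_pure hG, hDD, ?_⟩ k1 G k1 (k2.trans d3) le_rfl
  rw [le_def, restr_body, amal_Bd le_rfl, body_eq k1]

lemma reach {w : Z W} (hw : w ∈ D.Y) (l : ℕ) :
    ∃ n, (D.s0 w).length ≤ n ∧ ∃ q, D.run w (res (w D.δ) n) = some q ∧ q.2 = l ∧ D.ActN w q.1 q.2 n := by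
  classical
  induction l with
  | zero =>
    obtain ⟨n, h1, q, h2, h3, h4⟩ := progress H hw le_rfl (p := (D.i0 w, 0)) (by rw [hw.2.1, run_s0])
    exact ⟨n, h1, q, h2, h3, h4⟩
  | succ l ih =>
    obtain ⟨n, h1, q, h2, h3, h4⟩ := ih
    have h5 := (run_step hw h1 h2).2
    obtain ⟨n', h6, q', h7, h8, h9⟩ := progress H hw (by omega) h5
    refine ⟨n', by omega, q', h7, ?_, h9⟩
    rw [h8]
    simp only [nxt, h4, if_true]
    rw [h3]

lemma epr_Y : Epr D.N D.δ' D.Y D.𝓔 := by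
  classical
  intro x hx w hw hinf e he
  rw [Set.infinite_iff_exists_gt]
  intro j
  obtain ⟨l, l1, l2, l3⟩ := H.htk x hx j e he
  obtain ⟨n, h1, q, h2, h3, h4⟩ := reach H hw l
  obtain ⟨b5, b6, b7⟩ := inv H hw.1 _ q.1 q.2 h2
  obtain ⟨c1, c2, c3, c4, c5⟩ := J3_spec H hw.1 b5 b6 q.2 n
  have hwE := mem_J3 H hw h1 h2
  have hAS := (run_step hw h1 h2).1
  have hst : (D.ν (D.J3 w q.1 q.2 n)).st D.δ w = res (w D.δ) n := by rw [c3.2 w c4, b7]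
  set E := D.ν (D.J3 w q.1 q.2 n) with hE
  have hEN : Ob.c E ∈ D.N := νN H _
  have hDD := c5 h4
  have l1' : D.tx q.2 = x := by rw [h3]; exact l1
  have l2' : D.tj q.2 = j := by rw [h3]; exact l2
  have l3' : D.te q.2 = e := by rw [h3]; exact l3
  rw [l1'] at hDD
  obtain ⟨_, ⟨j0, hInc⟩ | hII⟩ := hDD
  · exfalso
    apply not_hit_of_inc H.sok.ok' (gen_Y H) hw c1 hEN hwE hInc
    obtain ⟨k, ⟨C, hk1, hk2⟩, hk3⟩ := hinf.exists_gt j0
    exact ⟨C, ⟨k, hk3, hk1⟩, hk2⟩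
  · obtain ⟨_, g1, g2, g3, g4⟩ := mf_spec hII
    have hII' : ∃ u f, II D.δ D.δ' (D.tx q.2) (D.ν (D.J3 w q.1 q.2 n)) u f := by rw [l1']; exact hII
    have h5 := hAS.2.2 h4 hII'
    rw [l1', l2', l3', ← hE] at h5
    set f := MF D.δ D.δ' x E with hf
    have hMU : MU D.δ D.δ' x E = res (w D.δ) n := by rw [← g1 w c4, hst]
    refine ⟨f w (w D.δ n), ⟨?_, h5.1⟩, h5.2⟩
    show Hit D.N D.δ' (x (f w (w D.δ n))) w
    by_contra hno
    obtain ⟨E0, e1, e2, e3, _, e5⟩ := (decide_hit H.sok.ok' (gen_Y H) hw (H.sok.ok'.nm x _ hx)).resolve_left hno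
    obtain ⟨E1, d1, d2, d3, d4, d5, _⟩ := directed H.sok.ok' (gen_Y H) hw e2 hEN e1 c1 e3 hwE
    have hloc : LocIn D.δ' E1.body w ({w' | w' D.δ n = w D.δ n} ∩ {w' | f w' (w D.δ n) = f w (w D.δ n)}) := by
      refine LocIn.inter ⟨{D.δ}, n + 1, ?_, fun z' _ ha => (ha D.δ (Finset.mem_singleton_self _) n (by omega)).symm⟩ ?_
      · intro γ hγ
        rw [Finset.mem_singleton] at hγ
        rw [hγ]; exact lt_succ H
      · have h6 : E1.body ⊆ E.Bd D.δ := Set.Subset.trans d4 body_sub_Bd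
        exact ((LCat.comp (g2 (w D.δ n) w c4) (fun r => r = f w (w D.δ n))).mono h6 (lt_succ H).le).locIn rfl
    obtain ⟨E2, k1, k2, k3, k4⟩ := hloc.cond d1 d5
    have h7 := g4 (w D.δ n) (f w (w D.δ n)) E2 k1 (k2.trans d4) (fun z hz => by
      rw [hMU, length_res]
      exact k4 hz)
    obtain ⟨E3, i1, i2, C, i3, i4, i5⟩ := h7 E2 k1 le_rfl
    exact e5 C i3 i4 E3 i1 (i2.trans (k2.trans d3)) i5

end Dat

/-- The one-coordinate extension. -/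
theorem one_step {N : Set (Ob W T)} {δ δ' : W} (hs : ∀ γ, γ < δ' ↔ γ ≤ δ) (sok : StepOk N δ δ') (hg : HasGen T δ)
    {A : Set W} (hAN : ∀ γ, Ob.w γ ∈ N → γ ∈ A) {X : Set (Z W)} (gen : Gen N δ X)
    (hXA : ∀ z z', (∀ γ ∈ A, γ < δ → z γ = z' γ) → z ∈ X → z' ∈ X)
    {𝓔 : Set (Set ℕ)} (h𝓔 : 𝓔.Countable) (h𝓔' : 𝓔.Nonempty) (epr : Epr N δ X 𝓔) {a : Z W → Set ℕ}
    (hadep : ∀ z z', (∀ γ ∈ A, γ < δ → z γ = z' γ) → a z = a z') (halc : ∀ k, LC δ X (fun z => k ∈ a z))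
    (hac : ∀ x, Ob.x x ∈ N → ∀ z ∈ X, {k | Hit N δ (x k) z}.Infinite → ({k | Hit N δ (x k) z} ∩ a z).Infinite)
    (hea : (∀ e ∈ 𝓔, e = Set.univ) ∨ (∀ z ∈ X, a z = Set.univ)) {C : Z W → Cond W}
    (hCN : ∀ z, Ob.c (C z) ∈ N) (hC : ∀ z ∈ X, C z ∈ P δ' ∧ z ∈ (C z).Bd δ)
    (hCdep : ∀ z z', (∀ γ ∈ A, γ < δ → z γ = z' γ) → C z = C z') (hClc : LC δ X C) :
    ∃ (st : Z W → List ℕ) (su : Z W → List ℕ → Set ℕ),
      (∀ z z', (∀ γ ∈ A, γ < δ → z γ = z' γ) → st z = st z' ∧ su z = su z') ∧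
      (∀ z ∈ X, ∀ t, (su z t).Infinite) ∧ LC δ X st ∧ (∀ t m, LC δ X (fun z => m ∈ su z t)) ∧
      (∀ z t, Nd (st z) (su z) t → su z t ⊆ a z) ∧
      Gen N δ' {z | z ∈ X ∧ Br (st z) (su z) (z δ)} ∧ Epr N δ' {z | z ∈ X ∧ Br (st z) (su z) (z δ)} 𝓔 ∧
      ∀ z ∈ X, Br (st z) (su z) (z δ) → z ∈ (C z).body := by
  classical
  have ok := sok.ok
  obtain ⟨ν, hν⟩ : ∃ ν : ℕ → Cond W, ∀ E, Ob.c E ∈ N ↔ ∃ i, ν i = E := by
    have h1 : {E : Cond W | Ob.c E ∈ N}.Countable := ok.cnt.preimage_of_injOn Ob.c_inj.injOn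
    obtain ⟨ν, h2⟩ := h1.exists_eq_range ⟨_, ok.one⟩
    exact ⟨ν, fun E => by rw [← Set.mem_range, ← h2]; rfl⟩
  have hne : ({x : ℕ → Set (Cond W) | Ob.x x ∈ N}).Nonempty := ⟨_, sok.sn one [] ok.one⟩
  obtain ⟨dn, hdn⟩ : ∃ dn : ℕ → Set (Cond W), ∀ S, (Ob.d S ∈ N ∧ DenseIn δ' S) ↔ ∃ i, dn i = S := by
    have h1 : {S : Set (Cond W) | Ob.d S ∈ N ∧ DenseIn δ' S}.Countable :=
      (ok.cnt.preimage_of_injOn Ob.d_inj.injOn).mono (fun S hS => hS.1)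
    obtain ⟨x, hx⟩ := hne
    obtain ⟨dn, h2⟩ := h1.exists_eq_range ⟨Dec δ' (x 0), sok.ok'.dec _ (ok.nm x 0 hx), dec_dense _ _⟩
    exact ⟨dn, fun E => by rw [← Set.mem_range, ← h2]; rfl⟩
  obtain ⟨tk, htk⟩ : ∃ tk : ℕ → (ℕ → Set (Cond W)) × ℕ × Set ℕ, ∀ q : (ℕ → Set (Cond W)) × ℕ × Set ℕ,
      (Ob.x q.1 ∈ N ∧ q.2.2 ∈ 𝓔) ↔ ∃ i, tk i = q := by
    have h1 : {q : (ℕ → Set (Cond W)) × ℕ × Set ℕ | Ob.x q.1 ∈ N ∧ q.2.2 ∈ 𝓔}.Countable := by
      have h2 : {x : ℕ → Set (Cond W) | Ob.x x ∈ N}.Countable := ok.cnt.preimage_of_injOn Ob.x_inj.injOn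
      refine (h2.prod ((Set.countable_univ (α := ℕ)).prod h𝓔)).mono ?_
      rintro ⟨x, j, e⟩ ⟨h3, h4⟩
      exact ⟨h3, trivial, h4⟩
    obtain ⟨x, hx⟩ := hne
    obtain ⟨e, he⟩ := h𝓔'
    obtain ⟨tk, h2⟩ := h1.exists_eq_range ⟨(x, 0, e), hx, he⟩
    exact ⟨tk, fun E => by rw [← Set.mem_range, ← h2]; rfl⟩
  let D : Dat W T := ⟨N, δ, δ', ν, fun n => dn n.unpair.1, fun l => (tk l).1, fun l => (tk l).2.1,
    fun l => (tk l).2.2, a, C, X, A, 𝓔⟩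
  have H : D.Hyp :=
    { hs := hs
      sok := sok
      hg := hg
      hν := hν
      hdn := fun n => (hdn _).mpr ⟨_, rfl⟩
      hdn' := by
        intro S hS hd n0
        obtain ⟨i, hi⟩ := (hdn S).mp ⟨hS, hd⟩
        refine ⟨Nat.pair i n0, Nat.right_le_pair i n0, ?_⟩
        show dn (Nat.pair i n0).unpair.1 = S
        rw [Nat.unpair_pair]; exact hi
      htx := fun l => ((htk _).mpr ⟨l, rfl⟩).1
      hte := fun l => ((htk _).mpr ⟨l, rfl⟩).2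
      htk := by
        intro x hx j e he
        obtain ⟨l, hl⟩ := (htk (x, j, e)).mp ⟨hx, he⟩
        refine ⟨l, ?_, ?_, ?_⟩
        · show (tk l).1 = x
          rw [hl]
        · show (tk l).2.1 = j
          rw [hl]
        · show (tk l).2.2 = e
          rw [hl]
      gen := gen
      epr := epr
      hXA := hXA
      hAN := hAN
      hadep := hadep
      halc := halc
      hac := hac
      hea := hea
      hCN := hCN
      hC := hC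
      hCdep := hCdep
      hClc := hClc }
  exact ⟨D.s0, D.SU, fun z z' h => Dat.dep H h, fun z hz t => Dat.su_inf H hz t, fun z hz => Dat.lcs0 H hz,
    fun t m z hz => Dat.lcSU H hz t m, fun z t ht => Dat.su_sub_a H ht, Dat.gen_Y H, Dat.epr_Y H,
    fun z hz hbr => Dat.mem_C H ⟨hz, hbr⟩⟩

end Pool.Agent.H55.Lav
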