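import Pool.Agent.H55.Lav.DD

set_option autoImplicit false
set_option linter.unusedSectionVars false

/-!
# The one-coordinate extension: closure properties
-/

namespace Pool.Agent.H55.Lav

open Cond

variable {W T : Type} [LinearOrder W] [WellFoundedLT W]

/-- Conditions below the restriction of a pure extension of `C` with a front in `S`. -/
def QF (δ δ' : W) (C : Cond W) (S : Set (Cond W)) : Set (Cond W) :=
  {G | G ∈ P δ ∧ ∃ E ∈ P δ', Pure δ E C ∧ Front δ E {D | D ∈ S ∧ D ∈ P δ'} ∧ G ≤ E.restr δ}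

/-- Conditions below the restriction of a pure extension of `C` which belongs to `S`. -/
def QA (δ δ' : W) (C : Cond W) (S : Set (Cond W)) : Set (Cond W) :=
  {G | G ∈ P δ ∧ ∃ E ∈ P δ', Pure δ E C ∧ E ∈ S ∧ G ≤ E.restr δ}

/-- The name of the set of immediate successors of `t` in `E`. -/
def SN (δ : W) (E : Cond W) (t : List ℕ) (m : ℕ) : Set (Cond W) := {G | G ∈ P δ ∧ ∀ z ∈ G.body, m ∈ E.su δ z t}

open Classical in
/-- A choice of the stem in a matching. -/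
noncomputable def MU (δ δ' : W) (x : ℕ → Set (Cond W)) (E : Cond W) : List ℕ :=
  if h : ∃ u f, II δ δ' x E u f then h.choose else []

open Classical in
/-- A choice of the function in a matching. -/
noncomputable def MF (δ δ' : W) (x : ℕ → Set (Cond W)) (E : Cond W) : Z W → ℕ → ℕ :=
  if h : ∃ u f, II δ δ' x E u f then h.choose_spec.choose else fun _ _ => 0

lemma mf_spec {δ δ' : W} {x : ℕ → Set (Cond W)} {E : Cond W} (h : ∃ u f, II δ δ' x E u f) :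
    II δ δ' x E (MU δ δ' x E) (MF δ δ' x E) := by
  have h1 : MU δ δ' x E = h.choose := by simp only [MU, h, dif_pos]
  have h2 : MF δ δ' x E = h.choose_spec.choose := by simp only [MF, h, dif_pos]
  rw [h1, h2]
  exact h.choose_spec.choose_spec

/-- The name of the set of values of the matching. -/
def YN (δ δ' : W) (x : ℕ → Set (Cond W)) (E : Cond W) (k : ℕ) : Set (Cond W) :=
  {G | G ∈ P δ ∧ ∃ m, ∀ z ∈ G.body, m ∈ E.su δ z (MU δ δ' x E) ∧ MF δ δ' x E z m = k}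

/-- Closure properties of `N` used for the extension at coordinate `δ`. -/
structure StepOk (N : Set (Ob W T)) (δ δ' : W) : Prop where
  ok : Ok N δ
  ok' : Ok N δ'
  cr : ∀ E, Ob.c E ∈ N → Ob.c (E.restr δ) ∈ N
  nd : ∀ E v, Ob.c E ∈ N → Ob.c (E.node δ v) ∈ N
  qf : ∀ C S, Ob.c C ∈ N → Ob.d S ∈ N → Ob.d (QF δ δ' C S) ∈ N
  qfw : ∀ C S G, Ob.c C ∈ N → Ob.d S ∈ N → Ob.c G ∈ N → G ∈ QF δ δ' C S →
    ∃ E ∈ P δ', Ob.c E ∈ N ∧ Pure δ E C ∧ Front δ E {D | D ∈ S ∧ D ∈ P δ'} ∧ G ≤ E.restr δ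
  qa : ∀ C S, Ob.c C ∈ N → Ob.d S ∈ N → Ob.d (QA δ δ' C S) ∈ N
  qaw : ∀ C S G, Ob.c C ∈ N → Ob.d S ∈ N → Ob.c G ∈ N → G ∈ QA δ δ' C S →
    ∃ E ∈ P δ', Ob.c E ∈ N ∧ Pure δ E C ∧ E ∈ S ∧ G ≤ E.restr δ
  frn : ∀ E S, Ob.c E ∈ N → Ob.d S ∈ N → Front δ E {D | D ∈ S ∧ D ∈ P δ'} →
    Front δ E {D | (D ∈ S ∧ D ∈ P δ') ∧ Ob.c D ∈ N}
  dd : ∀ x, Ob.x x ∈ N → Ob.d (DD δ δ' x) ∈ N
  sn : ∀ E t, Ob.c E ∈ N → Ob.x (SN δ E t) ∈ N
  yn : ∀ E x, Ob.c E ∈ N → Ob.x x ∈ N → Ob.x (YN δ δ' x E) ∈ N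
  fdep : ∀ E x, Ob.c E ∈ N → Ob.x x ∈ N → ∀ z z' : Z W, (∀ γ, Ob.w γ ∈ N → γ < δ → z γ = z' γ) →
    MF δ δ' x E z = MF δ δ' x E z'

lemma stepOk_club : ∀ᶠ N in club (Ob W T), ∀ δ, Ob.w δ ∈ N → ∀ δ', Ob.w δ' ∈ N → StepOk N δ δ' := by
  classical
  have h1 : ∀ᶠ N in club (Ob W T), ∀ E, Ob.c E ∈ N → ∀ δ, Ob.w δ ∈ N → Ob.c (E.restr δ) ∈ N :=
    club_diag' _ Ob.c_inj (fun _ => club_diag' _ Ob.w_inj (fun _ => club_mem _))
  have h2 : ∀ᶠ N in club (Ob W T), ∀ E, Ob.c E ∈ N → ∀ δ, Ob.w δ ∈ N → ∀ v, Ob.c (E.node δ v) ∈ N :=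
    club_diag' _ Ob.c_inj (fun _ => club_diag' _ Ob.w_inj (fun _ => club_all (fun _ => club_mem _)))
  have h3 : ∀ᶠ N in club (Ob W T), ∀ C, Ob.c C ∈ N → ∀ S, Ob.d S ∈ N → ∀ δ, Ob.w δ ∈ N → ∀ δ', Ob.w δ' ∈ N →
      Ob.d (QF δ δ' C S) ∈ N :=
    club_diag' _ Ob.c_inj (fun _ => club_diag' _ Ob.d_inj (fun _ => club_diag' _ Ob.w_inj (fun _ =>
      club_diag' _ Ob.w_inj (fun _ => club_mem _))))
  have h4 : ∀ᶠ N in club (Ob W T), ∀ C, Ob.c C ∈ N → ∀ S, Ob.d S ∈ N → ∀ δ, Ob.w δ ∈ N → ∀ δ', Ob.w δ' ∈ N →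
      ∀ G, Ob.c G ∈ N → G ∈ QF δ δ' C S →
        ∃ E ∈ P δ', Ob.c E ∈ N ∧ Pure δ E C ∧ Front δ E {D | D ∈ S ∧ D ∈ P δ'} ∧ G ≤ E.restr δ := by
    refine club_diag' _ Ob.c_inj (fun C => club_diag' _ Ob.d_inj (fun S => club_diag' _ Ob.w_inj (fun δ =>
      club_diag' _ Ob.w_inj (fun δ' => club_diag' _ Ob.c_inj (fun G => ?_)))))
    by_cases h : G ∈ QF δ δ' C S
    · obtain ⟨_, E, h1, h2, h3, h4⟩ := h
      exact (club_mem (Ob.c E)).mono (fun N hN _ => ⟨E, h1, hN, h2, h3, h4⟩)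
    · exact Filter.Eventually.of_forall (fun N h' => (h h').elim)
  have h5 : ∀ᶠ N in club (Ob W T), ∀ C, Ob.c C ∈ N → ∀ S, Ob.d S ∈ N → ∀ δ, Ob.w δ ∈ N → ∀ δ', Ob.w δ' ∈ N →
      Ob.d (QA δ δ' C S) ∈ N :=
    club_diag' _ Ob.c_inj (fun _ => club_diag' _ Ob.d_inj (fun _ => club_diag' _ Ob.w_inj (fun _ =>
      club_diag' _ Ob.w_inj (fun _ => club_mem _))))
  have h6 : ∀ᶠ N in club (Ob W T), ∀ C, Ob.c C ∈ N → ∀ S, Ob.d S ∈ N → ∀ δ, Ob.w δ ∈ N → ∀ δ', Ob.w δ' ∈ N →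
      ∀ G, Ob.c G ∈ N → G ∈ QA δ δ' C S →
        ∃ E ∈ P δ', Ob.c E ∈ N ∧ Pure δ E C ∧ E ∈ S ∧ G ≤ E.restr δ := by
    refine club_diag' _ Ob.c_inj (fun C => club_diag' _ Ob.d_inj (fun S => club_diag' _ Ob.w_inj (fun δ =>
      club_diag' _ Ob.w_inj (fun δ' => club_diag' _ Ob.c_inj (fun G => ?_)))))
    by_cases h : G ∈ QA δ δ' C S
    · obtain ⟨_, E, h1, h2, h3, h4⟩ := h
      exact (club_mem (Ob.c E)).mono (fun N hN _ => ⟨E, h1, hN, h2, h3, h4⟩)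
    · exact Filter.Eventually.of_forall (fun N h' => (h h').elim)
  have h7 : ∀ᶠ N in club (Ob W T), ∀ E, Ob.c E ∈ N → ∀ S, Ob.d S ∈ N → ∀ δ, Ob.w δ ∈ N → ∀ δ', Ob.w δ' ∈ N →
      Front δ E {D | D ∈ S ∧ D ∈ P δ'} → Front δ E {D | (D ∈ S ∧ D ∈ P δ') ∧ Ob.c D ∈ N} := by
    refine club_diag' _ Ob.c_inj (fun E => club_diag' _ Ob.d_inj (fun S => club_diag' _ Ob.w_inj (fun δ =>
      club_diag' _ Ob.w_inj (fun δ' => ?_))))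
    by_cases h : Front δ E {D | D ∈ S ∧ D ∈ P δ'}
    · obtain ⟨𝓕, h1, h2, h3⟩ := h
      have : Countable 𝓕 := h1.to_subtype
      refine (club_all (fun D : 𝓕 => club_mem (Ob.c D.1))).mono (fun N hN _ => ?_)
      exact ⟨𝓕, h1, fun D hD => ⟨h2 hD, hN ⟨D, hD⟩⟩, h3⟩
    · exact Filter.Eventually.of_forall (fun N h' => (h h').elim)
  have h8 : ∀ᶠ N in club (Ob W T), ∀ x, Ob.x x ∈ N → ∀ δ, Ob.w δ ∈ N → ∀ δ', Ob.w δ' ∈ N → Ob.d (DD δ δ' x) ∈ N :=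
    club_diag' _ Ob.x_inj (fun _ => club_diag' _ Ob.w_inj (fun _ => club_diag' _ Ob.w_inj (fun _ => club_mem _)))
  have h9 : ∀ᶠ N in club (Ob W T), ∀ E, Ob.c E ∈ N → ∀ δ, Ob.w δ ∈ N → ∀ t, Ob.x (SN δ E t) ∈ N :=
    club_diag' _ Ob.c_inj (fun _ => club_diag' _ Ob.w_inj (fun _ => club_all (fun _ => club_mem _)))
  have h10 : ∀ᶠ N in club (Ob W T), ∀ E, Ob.c E ∈ N → ∀ x, Ob.x x ∈ N → ∀ δ, Ob.w δ ∈ N → ∀ δ', Ob.w δ' ∈ N →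
      Ob.x (YN δ δ' x E) ∈ N :=
    club_diag' _ Ob.c_inj (fun _ => club_diag' _ Ob.x_inj (fun _ => club_diag' _ Ob.w_inj (fun _ =>
      club_diag' _ Ob.w_inj (fun _ => club_mem _))))
  have h11 : ∀ᶠ N in club (Ob W T), ∀ E, Ob.c E ∈ N → ∀ x, Ob.x x ∈ N → ∀ δ, Ob.w δ ∈ N → ∀ δ', Ob.w δ' ∈ N →
      ∀ z z' : Z W, (∀ γ, Ob.w γ ∈ N → γ < δ → z γ = z' γ) → MF δ δ' x E z = MF δ δ' x E z' := by
    refine club_diag' _ Ob.c_inj (fun E => club_diag' _ Ob.x_inj (fun x => club_diag' _ Ob.w_inj (fun δ =>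
      club_diag' _ Ob.w_inj (fun δ' => ?_))))
    by_cases h : ∃ u f, II δ δ' x E u f
    · obtain ⟨⟨B, hB1, hB2⟩, _⟩ := mf_spec h
      have : Countable B := hB1.to_subtype
      refine (club_all (fun γ : B => club_mem (Ob.w γ.1))).mono (fun N hN z z' hz => ?_)
      exact hB2 z z' (fun γ hγ => hz γ (hN ⟨γ, hγ⟩))
    · refine Filter.Eventually.of_forall (fun N z z' _ => ?_)
      simp only [MF, h, dif_neg, not_false_eq_true]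
  filter_upwards [ok_club, h1, h2, h3, h4, h5, h6, h7, h8, h9, h10, h11] with
    N h0 h1 h2 h3 h4 h5 h6 h7 h8 h9 h10 h11 δ hδ δ' hδ'
  exact ⟨h0 δ hδ, h0 δ' hδ', fun E hE => h1 E hE δ hδ, fun E v hE => h2 E hE δ hδ v,
    fun C S hC hS => h3 C hC S hS δ hδ δ' hδ', fun C S G hC hS hG => h4 C hC S hS δ hδ δ' hδ' G hG,
    fun C S hC hS => h5 C hC S hS δ hδ δ' hδ', fun C S G hC hS hG => h6 C hC S hS δ hδ δ' hδ' G hG,
    fun E S hE hS => h7 E hE S hS δ hδ δ' hδ', fun x hx => h8 x hx δ hδ δ' hδ', fun E t hE => h9 E hE δ hδ t,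
    fun E x hE hx => h10 E hE x hx δ hδ δ' hδ', fun E x hE hx => h11 E hE x hx δ hδ δ' hδ'⟩

end Pool.Agent.H55.Lav
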