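import Pool.Agent.H55.Lav.Om1

set_option autoImplicit false
set_option linter.unusedSectionVars false

/-!
# The one-coordinate extension as a system of trees
-/

namespace Pool.Agent.H55.Lav

open Cond

variable {W T : Type} [LinearOrder W] [WellFoundedLT W]

lemma step_sys {N : Set (Ob W T)} {A : Set W} {𝓔 : Set (Set ℕ)} {δ δ' : W} (hs : ∀ γ, γ < δ' ↔ γ ≤ δ)
    (sok : StepOk N δ δ') (hg : HasGen T δ) (hAN : ∀ γ, Ob.w γ ∈ N → γ ∈ A) (hδ : Ob.w δ ∈ N)
    (h𝓔 : 𝓔.Countable) (h𝓔' : 𝓔.Nonempty) {X : Set (Z W)} {C : Z W → Cond W} (good : Good N A 𝓔 δ δ' X C)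
    {a : Z W → Set ℕ} (hadep : DepOn A δ a) (halc : ∀ k, LC δ X (fun z => k ∈ a z))
    (hac : ∀ x, Ob.x x ∈ N → ∀ z ∈ X, {k | Hit N δ (x k) z}.Infinite → ({k | Hit N δ (x k) z} ∩ a z).Infinite)
    (hea : (∀ e ∈ 𝓔, e = Set.univ) ∨ (∀ z ∈ X, a z = Set.univ)) :
    ∃ st su, Sys A δ δ' X st su ∧ Gen N δ' (YY δ X st su δ') ∧
      Epr N δ' (YY δ X st su δ') 𝓔 ∧ (∀ z ∈ YY δ X st su δ', z ∈ (C z).body) ∧
      (∀ z ∈ X, ∀ t, Nd (st δ z) (su δ z) t → su δ z t ⊆ a z) ∧
      ∀ z, z ∈ YY δ X st su δ' ↔ z ∈ X ∧ Br (st δ z) (su δ z) (z δ) := by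
  classical
  have hXA : ∀ z z', (∀ γ ∈ A, γ < δ → z γ = z' γ) → (z ∈ X ↔ z' ∈ X) := fun z z' h => by
    simpa using good.xdep z z' h
  obtain ⟨st, su, h1, h2, h3, h4, h5, h6, h7, h8⟩ := one_step hs sok hg hAN good.gen
    (fun z z' h => (hXA z z' h).mp) h𝓔 h𝓔' good.epr (a := a) hadep halc hac hea good.cN good.cP
    good.cdep good.clc
  have hsucc : ∀ ε, δ ≤ ε → ε < δ' → ε = δ := fun ε h1 h2 => le_antisymm ((hs ε).mp h2) h1
  let su' : Z W → List ℕ → Set ℕ := fun z t => if z ∈ X then su z t else Set.univ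
  let ST : W → Z W → List ℕ := fun ε z => if ε = δ then st z else []
  let SU : W → Z W → List ℕ → Set ℕ := fun ε z => if ε = δ then su' z else fun _ => Set.univ
  have hYδ : YY δ X ST SU δ = X := YY_self
  have hST : ∀ z, ST δ z = st z := fun z => by simp [ST]
  have hSU : ∀ z ∈ X, SU δ z = su z := fun z hz => by
    funext t; simp [SU, su', hz]
  have hmem : ∀ z, z ∈ YY δ X ST SU δ' ↔ z ∈ X ∧ Br (ST δ z) (SU δ z) (z δ) := by
    intro z
    constructor
    · rintro ⟨hz, h⟩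
      exact ⟨hz, h δ le_rfl ((hs δ).mpr le_rfl)⟩
    · rintro ⟨hz, h⟩
      refine ⟨hz, fun ε hε hε' => ?_⟩
      have := hsucc ε hε hε'
      subst this
      exact h
  have hY : YY δ X ST SU δ' = {z | z ∈ X ∧ Br (st z) (su z) (z δ)} := by
    ext z
    rw [hmem]
    constructor
    · rintro ⟨hz, h⟩
      rw [hST, hSU z hz] at h
      exact ⟨hz, h⟩
    · rintro ⟨hz, h⟩
      refine ⟨hz, ?_⟩
      rw [hST, hSU z hz]; exact h
  refine ⟨ST, SU, ⟨?_, ?_, ?_, ?_, ?_⟩, ?_, ?_, ?_, ?_, hmem⟩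
  · intro ε
    by_cases h : ε = δ
    · subst h
      refine ⟨fun z z' hzz => ?_, fun z z' hzz => ?_⟩
      · simp only [ST, if_true]; exact (h1 z z' hzz).1
      · simp only [SU, if_true, su']
        rw [(h1 z z' hzz).2]
        funext t
        simp only [hXA z z' hzz]
    · refine ⟨fun z z' _ => by simp [ST, h], fun z z' _ => by simp [SU, h]⟩
  · intro ε hε z
    have : ε ≠ δ := fun h => hε (h ▸ hAN δ hδ)
    simp [ST, SU, this]
  · intro ε z t
    by_cases h : ε = δ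
    · simp only [SU, h, if_true, su']
      split_ifs with hz
      · exact h2 z hz t
      · exact Set.infinite_univ
    · simp only [SU, h, if_false]; exact Set.infinite_univ
  · intro ε hε hε'
    have := hsucc ε hε hε'
    subst this
    rw [hYδ]
    simp only [ST, if_true]
    exact h3
  · intro ε hε hε' t m
    have := hsucc ε hε hε'
    subst this
    rw [hYδ]
    simp only [SU, if_true]
    intro z hz
    refine (h4 t m z hz).congr hz (fun z' hz' => ?_)
    simp [su', hz']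
  · rw [hY]; exact h6
  · rw [hY]; exact h7
  · rw [hY]; exact fun z hz => h8 z hz.1 hz.2
  · intro z hz t ht
    rw [hST, hSU z hz] at ht
    rw [hSU z hz]
    exact h5 z t ht

end Pool.Agent.H55.Lav
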