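import Pool.Agent.H55.Lav.Count

set_option autoImplicit false
set_option linter.unusedSectionVars false

/-!
# Preservation of `ω₁`, splitting by ground model reals, and the collapse of the continuum
-/

namespace Pool.Agent.H55.Lav

open Cond Cardinal

variable {W : Type} [LinearOrder W] [WellFoundedLT W] [OrderBot W] [OrderTop W]

/-- Names for functions from `ω` to `ω₁` are bounded. -/
theorem thmA (f : ℕ → Ω1 → Set (Cond W)) {p : Cond W} (hp : p ∈ P (⊤ : W)) :
    ∃ q ∈ P (⊤ : W), q ≤ p ∧ ∃ γ : Ω1, ∀ n α, ∀ E ∈ P (⊤ : W), E ≤ q → Bel (f n α) E →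
      ∃ E' ∈ P (⊤ : W), E' ≤ E ∧ ∃ β < γ, Bel (f n β) E' := by
  have h1 : ∀ᶠ N in club (Ob W Ω1), ∀ n : ℕ, ∀ C, Ob.c C ∈ N → (∃ β, C ∈ f n β) → ∃ β, Ob.t β ∈ N ∧ C ∈ f n β := by
    refine club_all (fun n => club_diag' _ Ob.c_inj (fun C => ?_))
    by_cases h : ∃ β, C ∈ f n β
    · obtain ⟨β, hβ⟩ := h
      exact (club_mem (Ob.t β)).mono (fun N hN _ => ⟨β, hN, hβ⟩)
    · exact Filter.Eventually.of_forall (fun N h' => (h h').elim)
  have h2 : ∀ᶠ N in club (Ob W Ω1), ∀ n : ℕ, Ob.d {C | ∃ β, C ∈ f n β} ∈ N := club_all (fun n => club_mem _)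
  obtain ⟨N, h1, h2, hgen, hok, ⟨δ, hδ, _, _⟩, hcp, hwT⟩ := (h1.and (h2.and ((hasGen (T := Ω1) (⊤ : W)).and
    (ok_club.and (delta_club.and ((club_mem (Ob.c p)).and (club_mem (Ob.w (⊤ : W))))))))).exists
  have ok := hok ⊤ hwT
  obtain ⟨q, hq, hqp, gen⟩ := hgen p hp hcp
  refine ⟨q, hq, hqp, δ, fun n α E hE hEq hb => ?_⟩
  obtain ⟨z, hz⟩ := body_nonempty E
  rcases decide_hit ok gen (hEq hz) (h2 n) with ⟨C, ⟨β, hβ⟩, c2, c3, c4⟩ | ⟨E1, e1, e2, e3, e4, e5⟩
  · obtain ⟨β', b1, b2⟩ := h1 n C c3 ⟨β, hβ⟩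
    obtain ⟨E', i1, i2, _, i4⟩ := ((locIn_of_mem ok gen (hEq hz) c3 c2 c4).mono_left hEq).cond hE hz
    exact ⟨E', i1, i2, β', (hδ β').mp b1, C, b2, c2, i4⟩
  · exfalso
    obtain ⟨E', i1, i2, _, i4⟩ := (e4.mono_left hEq).cond hE hz
    obtain ⟨C, c1, c2, c3⟩ := hb
    exact e5 C ⟨α, c1⟩ c2 E' i1 i4 (i2.trans c3)

/-- A set splitting countably many infinite sets. -/
lemma exists_split (S : ℕ → Set ℕ) (hS : ∀ i, (S i).Infinite) : ∃ e : Set ℕ, ∀ i, (S i ∩ e).Infinite ∧ (S i ∩ eᶜ).Infinite := by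
  classical
  let t : ℕ → ℕ := fun n => (n / 2).unpair.1
  choose f hf1 hf2 using fun (i j : ℕ) => (hS i).exists_gt j
  let m : ℕ → ℕ := fun n => Nat.rec (f (t 0) 0) (fun n p => f (t (n + 1)) p) n
  have hm : ∀ n, m (n + 1) = f (t (n + 1)) (m n) := fun n => rfl
  have hmem : ∀ n, m n ∈ S (t n) := by
    intro n
    cases n with
    | zero => exact hf1 _ _
    | succ n => rw [hm]; exact hf1 _ _
  have hmono : StrictMono m := strictMono_nat_of_lt_succ (fun n => by rw [hm]; exact hf2 _ _)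
  refine ⟨{k | ∃ n, k = m (2 * n)}, fun i => ⟨?_, ?_⟩⟩
  · rw [Set.infinite_iff_exists_gt]
    intro j
    set n := Nat.pair i (j + 1) with hn
    refine ⟨m (2 * n), ⟨?_, n, rfl⟩, ?_⟩
    · have h1 := hmem (2 * n)
      have h2 : t (2 * n) = i := by simp [t, hn]
      rwa [h2] at h1
    · have h1 : j + 1 ≤ n := Nat.right_le_pair i (j + 1)
      have h2 := hmono.id_le (2 * n)
      simp only [id] at h2
      omega
  · rw [Set.infinite_iff_exists_gt]
    intro j
    set n := Nat.pair i (j + 1) with hn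
    refine ⟨m (2 * n + 1), ⟨?_, ?_⟩, ?_⟩
    · have h1 := hmem (2 * n + 1)
      have h2 : t (2 * n + 1) = i := by
        have h3 : (2 * n + 1) / 2 = n := by omega
        show ((2 * n + 1) / 2).unpair.1 = i
        rw [h3, hn, Nat.unpair_pair]
      rwa [h2] at h1
    · rintro ⟨n', hn'⟩
      have := hmono.injective (a₁ := 2 * n + 1) (a₂ := 2 * n') hn'
      omega
    · have h1 : j + 1 ≤ n := Nat.right_le_pair i (j + 1)
      have h2 := hmono.id_le (2 * n + 1)
      simp only [id] at h2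
      omega

/-- The name of the intersection with a ground model set. -/
def resN (x : ℕ → Set (Cond W)) (e : Set ℕ) (k : ℕ) : Set (Cond W) := {C | C ∈ x k ∧ k ∈ e}

/-- Countably many names of infinite sets are split by a ground model set. -/
theorem thmB (x : ℕ → ℕ → Set (Cond W)) {p : Cond W} (hp : p ∈ P (⊤ : W)) :
    ∃ q ∈ P (⊤ : W), q ≤ p ∧ ∃ e : Set ℕ, ∀ n, ∀ E ∈ P (⊤ : W), E ≤ q → InfN (x n) E →
      InfN (resN (x n) e) E ∧ InfN (resN (x n) eᶜ) E := by
  classical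
  have h1 : ∀ᶠ N in club (Ob W Ω1), ∀ n : ℕ, Ob.x (x n) ∈ N := club_all (fun n => club_mem _)
  obtain ⟨N, h1, hcl, hok, hcp, hwT, hwB⟩ := (h1.and ((hasClaim (T := Ω1) (⊤ : W)).and
    (ok_club.and ((club_mem (Ob.c p)).and ((club_mem (Ob.w (⊤ : W))).and (club_mem (Ob.w (⊥ : W)))))))).exists
  have ok := hok ⊤ hwT
  have okB := hok ⊥ hwB
  -- the family to be split
  obtain ⟨z0, _⟩ := body_nonempty p
  let K : Set (Set ℕ) := {S | S = Set.univ ∨ ∃ y, Ob.x y ∈ N ∧ S = {k | Hit N ⊥ (y k) z0} ∧ S.Infinite}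
  have hK : K.Countable := by
    have h2 : {y : ℕ → Set (Cond W) | Ob.x y ∈ N}.Countable := ok.cnt.preimage_of_injOn Ob.x_inj.injOn
    refine ((Set.countable_singleton (Set.univ : Set ℕ)).union (h2.image (fun y => {k | Hit N ⊥ (y k) z0}))).mono ?_
    rintro S (h | ⟨y, hy, h, _⟩)
    · exact Or.inl h
    · exact Or.inr ⟨y, hy, h.symm⟩
  obtain ⟨S, hS⟩ := hK.exists_eq_range ⟨_, Or.inl rfl⟩
  have hSinf : ∀ i, (S i).Infinite := by
    intro i
    have : S i ∈ K := by rw [hS]; exact ⟨i, rfl⟩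
    rcases this with h | ⟨y, _, _, h⟩
    · rw [h]; exact Set.infinite_univ
    · exact h
  obtain ⟨e, he⟩ := exists_split S hSinf
  have hindep : ∀ Q z, Hit N ⊥ Q z ↔ Hit N ⊥ Q z0 := by
    intro Q z
    constructor <;> rintro ⟨C, c1, c2, c3, _⟩ <;> exact ⟨C, c1, c2, c3, by rw [P_bot c2]; trivial⟩
  have hA : ({γ | Ob.w γ ∈ N} : Set W).Countable := ok.cnt.preimage_of_injOn Ob.w_inj.injOn
  obtain ⟨st, su, sys, g1, e1, m1⟩ := hcl {γ | Ob.w γ ∈ N} (fun _ h => h) {e, eᶜ} (by simp) ⟨e, Or.inl rfl⟩ ⊥ hwB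
    bot_le (one : Cond W).body (fun _ => p)
    { gen := (gen_bot okB).mono (Set.subset_univ _)
      epr := by
        intro y hy z _ hinf e' he'
        have h2 : {k | Hit N ⊥ (y k) z} = {k | Hit N ⊥ (y k) z0} := by
          ext k; exact hindep _ z
        rw [h2] at hinf ⊢
        have h3 : {k | Hit N ⊥ (y k) z0} ∈ K := Or.inr ⟨y, hy, rfl, hinf⟩
        rw [hS] at h3
        obtain ⟨i, hi⟩ := h3
        rw [← hi]
        rcases he' with h | h
        · rw [h]; exact (he i).1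
        · rw [Set.mem_singleton_iff.mp h]; exact (he i).2
      xdep := fun z z' _ => by simp only [one_body]; rfl
      cN := fun _ => hcp
      cP := fun z _ => ⟨hp, fun δ hδ => (not_lt_bot hδ).elim⟩
      cdep := fun _ _ _ => rfl
      clc := fun z _ => LCat.const _ }
  set q := bld hA (one_mem ⊥) sys with hq
  have hqb : q.body = YY ⊥ (one : Cond W).body st su ⊤ := bld_body bot_le
  have hgen : Gen N ⊤ q.body := by rw [hqb]; exact g1
  have hepr : Epr N ⊤ q.body {e, eᶜ} := by rw [hqb]; exact e1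
  refine ⟨q, bld_mem bot_le, by rw [Cond.le_def, hqb]; exact m1, e, fun n E hE hEq hinf => ?_⟩
  have key : ∀ e' ∈ ({e, eᶜ} : Set (Set ℕ)), InfN (resN (x n) e') E := by
    intro e' he' j E1 hE1 hle
    obtain ⟨z, hz⟩ := body_nonempty E1
    have hzq : z ∈ q.body := hEq (hle hz)
    have h2 : {k | Hit N ⊤ (x n k) z}.Infinite := by
      rw [Set.infinite_iff_exists_gt]
      intro i
      rcases decide_hit ok hgen hzq (ok.tl _ i (h1 n)) with ⟨C, ⟨k, hk, c1⟩, c2, c3, c4⟩ | ⟨F, f1, f2, f3, f4, f5⟩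
      · exact ⟨k, ⟨C, c1, c2, c3, c4⟩, hk⟩
      · exfalso
        obtain ⟨E2, i1, i2, _, i4⟩ := (f4.mono_left (show E1.body ⊆ q.body from fun w hw => hEq (hle hw))).cond hE1 hz
        obtain ⟨E3, k1, k2, C, k3, k4, k5⟩ := hinf i E2 i1 (i2.trans hle)
        exact f5 C k3 k4 E3 k1 (k2.trans i4) k5
    obtain ⟨k, ⟨⟨C, c1, c2, c3, c4⟩, hke⟩, hjk⟩ := (hepr (x n) (h1 n) z hzq h2 e' he').exists_gt j
    obtain ⟨E2, i1, i2, _, i4⟩ := ((locIn_of_mem ok hgen hzq c3 c2 c4).mono_left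
      (show E1.body ⊆ q.body from fun w hw => hEq (hle hw))).cond hE1 hz
    exact ⟨E2, i1, i2, C, ⟨k, hjk, c1, hke⟩, c2, i4⟩
  exact ⟨key e (Or.inl rfl), key eᶜ (Or.inr rfl)⟩

/-- Fixing the first values at countably many new coordinates. -/
def fixN (p : Cond W) (v : W → Option ℕ) (hv : {γ | v γ ≠ none}.Countable) (hd : ∀ γ ∈ p.supp, v γ = none) : Cond W where
  st γ z := match v γ with
    | some m => [m]
    | none => p.st γ z
  su := p.su
  supp := p.supp ∪ {γ | v γ ≠ none}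
  count := p.count.union hv
  dep := by
    intro γ z z' h
    obtain ⟨h1, h2⟩ := p.dep γ z z' (fun δ hδ => h δ (Or.inl hδ))
    refine ⟨?_, h2⟩
    rw [h1]
  triv := by
    intro γ hγ z
    have h1 : v γ = none := by
      by_contra h
      exact hγ (Or.inr h)
    simp only [h1]
    exact p.triv γ (fun h => hγ (Or.inl h)) z
  inf := p.inf
  lcst := by
    have key : ∀ γ, BdF (fun γ z => match v γ with | some m => [m] | none => p.st γ z) p.su γ ⊆ BdF p.st p.su γ := by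
      intro γ z hz δ hδ
      have h1 := hz δ hδ
      simp only at h1
      by_cases h : v δ = none
      · rw [h] at h1; exact h1
      · have h2 : δ ∉ p.supp := fun h' => h (hd δ h')
        obtain ⟨h3, h4⟩ := p.triv δ h2 z
        rw [h3, h4]
        exact ⟨rfl, fun _ _ => trivial⟩
    intro γ z hz
    by_cases h : v γ = none
    · simp only [h]
      exact (p.lcst γ z (key γ hz)).mono (key γ) le_rfl
    · obtain ⟨m, hm⟩ := Option.ne_none_iff_exists'.mp h
      simp only [hm]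
      exact LCat.const _
  lcsu := by
    have key : ∀ γ, BdF (fun γ z => match v γ with | some m => [m] | none => p.st γ z) p.su γ ⊆ BdF p.st p.su γ := by
      intro γ z hz δ hδ
      have h1 := hz δ hδ
      simp only at h1
      by_cases h : v δ = none
      · rw [h] at h1; exact h1
      · have h2 : δ ∉ p.supp := fun h' => h (hd δ h')
        obtain ⟨h3, h4⟩ := p.triv δ h2 z
        rw [h3, h4]
        exact ⟨rfl, fun _ _ => trivial⟩
    intro γ t m z hz
    exact (p.lcsu γ t m z (key γ hz)).mono (key γ) le_rfl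

lemma fixN_le {p : Cond W} {v : W → Option ℕ} {hv : {γ | v γ ≠ none}.Countable} {hd : ∀ γ ∈ p.supp, v γ = none} :
    fixN p v hv hd ≤ p := by
  intro z hz γ
  have h1 := hz γ
  simp only [fixN] at h1
  by_cases h : v γ = none
  · rw [h] at h1; exact h1
  · have h2 : γ ∉ p.supp := fun h' => h (hd γ h')
    obtain ⟨h3, h4⟩ := p.triv γ h2 z
    rw [h3, h4]
    exact ⟨rfl, fun _ _ => trivial⟩

lemma fixN_val {p : Cond W} {v : W → Option ℕ} {hv : {γ | v γ ≠ none}.Countable} {hd : ∀ γ ∈ p.supp, v γ = none}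
    {z : Z W} (hz : z ∈ (fixN p v hv hd).body) {γ : W} {m : ℕ} (h : v γ = some m) : z γ 0 = m := by
  have h1 := (hz γ).1
  have h2 : (fixN p v hv hd).st γ z = [m] := by simp [fixN, h]
  rw [h2] at h1
  simpa [res] using h1

/-- The name of the sequence of ground model reals. -/
def colN (ι : Ω1 → ℕ → W) (α : Ω1) (n : ℕ) : Set (Cond W) := {E | ∀ z ∈ E.body, z (ι α n) 0 = 1}

/-- Every ground model real occurs in the sequence. -/
theorem thmD {ι : Ω1 → ℕ → W} (hι : ∀ α β m n, ι α m = ι β n → α = β ∧ m = n) (hι' : ∀ α n, ι α n < ⊤) (e : Set ℕ)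
    {p : Cond W} (hp : p ∈ P (⊤ : W)) : ∃ q ∈ P (⊤ : W), q ≤ p ∧ ∃ α : Ω1, ∀ n,
      (n ∈ e → q ∈ colN ι α n) ∧ (n ∉ e → Inc ⊤ (colN ι α n) q) := by
  classical
  obtain ⟨α, hα⟩ : ∃ α : Ω1, ∀ n, ι α n ∉ p.supp := by
    by_contra hcon
    push Not at hcon
    choose n hn using hcon
    have h1 : Function.Injective (fun α => ι α (n α)) := fun α β h => (hι _ _ _ _ h).1
    have h2 : (Set.univ : Set Ω1).Countable :=
      (p.count.preimage_of_injOn (f := fun α => ι α (n α)) h1.injOn).mono (fun α _ => hn α)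
    exact om1_uncountable h2
  let v : W → Option ℕ := fun γ => if h : ∃ n, γ = ι α n then some (if h.choose ∈ e then 1 else 0) else none
  have hv1 : ∀ n, v (ι α n) = some (if n ∈ e then 1 else 0) := by
    intro n
    have h : ∃ n', ι α n = ι α n' := ⟨n, rfl⟩
    have h1 : h.choose = n := ((hι _ _ _ _ h.choose_spec).2).symm
    simp only [v, dif_pos h, h1]
  have hv2 : ∀ γ, v γ ≠ none → ∃ n, γ = ι α n := by
    intro γ h
    by_contra h'
    exact h (by simp only [v, dif_neg h'])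
  have hv : {γ | v γ ≠ none}.Countable := (Set.countable_range (fun n => ι α n)).mono (by
    intro γ hγ
    obtain ⟨n, hn⟩ := hv2 γ hγ
    exact ⟨n, hn.symm⟩)
  have hd : ∀ γ ∈ p.supp, v γ = none := by
    intro γ hγ
    by_contra h
    obtain ⟨n, rfl⟩ := hv2 γ h
    exact hα n hγ
  refine ⟨fixN p v hv hd, ?_, fixN_le, α, fun n => ⟨fun hn => ?_, fun hn => ?_⟩⟩
  · rintro γ (h | h)
    · exact hp γ h
    · obtain ⟨n, rfl⟩ := hv2 γ h
      exact hι' α n
  · intro z hz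
    exact fixN_val hz (by rw [hv1, if_pos hn])
  · intro C hC _ E _ hle hleC
    obtain ⟨z, hz⟩ := body_nonempty E
    have h1 := hC z (hleC hz)
    have h2 := fixN_val (hle hz) (γ := ι α n) (m := 0) (by rw [hv1, if_neg hn])
    omega

end Pool.Agent.H55.Lav
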