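import Pool.Agent.H55.Lav.StepSys

set_option autoImplicit false
set_option linter.unusedSectionVars false

/-!
# No sequence of names is club-splitting
-/

namespace Pool.Agent.H55.Lav

open Cond

variable {W : Type} [LinearOrder W] [WellFoundedLT W] [OrderBot W] [OrderTop W]

/-- `x` is forced by `q` to be infinite. -/
def InfN (x : ℕ → Set (Cond W)) (q : Cond W) : Prop := ∀ j, Fo ⊤ (tl x j) q

/-- `E` is below a member of `Q`. -/
def Bel (Q : Set (Cond W)) (E : Cond W) : Prop := ∃ C ∈ Q, C ∈ P (⊤ : W) ∧ E ≤ C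

/-- The name of the intersection. -/
def capN (x a : ℕ → Set (Cond W)) (k : ℕ) : Set (Cond W) := {E | Bel (x k) E ∧ Bel (a k) E}

/-- The name of the difference. -/
def difN (x a : ℕ → Set (Cond W)) (k : ℕ) : Set (Cond W) := {E | Bel (x k) E ∧ Inc ⊤ (a k) E}

/-- `q` forces that `C` is a closed unbounded set such that `a α` splits `x` for all `α` in `C`. -/
structure ClubName (a : Ω1 → ℕ → Set (Cond W)) (x : ℕ → Set (Cond W)) (C : Ω1 → Set (Cond W)) (q : Cond W) : Prop where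
  unb : ∀ α, Fo ⊤ {E | ∃ β, α < β ∧ E ∈ C β} q
  cls : ∀ δ, (∃ α, α < δ) → ∀ q' ∈ P (⊤ : W), q' ≤ q →
    (∀ α < δ, Fo ⊤ {E | ∃ β, α < β ∧ β < δ ∧ E ∈ C β} q') → Fo ⊤ (C δ) q'
  spl : ∀ δ, ∀ q' ∈ P (⊤ : W), q' ≤ q → Bel (C δ) q' → InfN (capN x (a δ)) q' ∧ InfN (difN x (a δ)) q'

/-- Conditions which have a club name or are incompatible with `E`. -/
def Dcl (a : Ω1 → ℕ → Set (Cond W)) (x : ℕ → Set (Cond W)) (E : Cond W) : Set (Cond W) :=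
  {q | q ∈ P (⊤ : W) ∧ ((∃ C, ClubName a x C q) ∨ Inc ⊤ {E} q)}

/-- Closure properties of `N` used below. -/
structure COk (N : Set (Ob W Ω1)) (a : Ω1 → ℕ → Set (Cond W)) (δ : Ω1) : Prop where
  ok : Ok N (⊤ : W)
  pos : ∃ α, α < δ
  dcl : ∀ x E, Ob.x x ∈ N → Ob.c E ∈ N → Ob.d (Dcl a x E) ∈ N
  cw : ∀ x q, Ob.x x ∈ N → Ob.c q ∈ N → (∃ C, ClubName a x C q) → ∃ C, ClubName a x C q ∧
    (∀ α < δ, Ob.d {E | ∃ β, α < β ∧ E ∈ C β} ∈ N) ∧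
    ∀ α < δ, ∀ D, Ob.c D ∈ N → (∃ β, α < β ∧ D ∈ C β) → ∃ β, α < β ∧ β < δ ∧ D ∈ C β

lemma cok_club (a : Ω1 → ℕ → Set (Cond W)) : ∀ᶠ N in club (Ob W Ω1), ∃ δ, COk N a δ := by
  have h1 : ∀ᶠ N in club (Ob W Ω1), ∀ x, Ob.x x ∈ N → ∀ E, Ob.c E ∈ N → Ob.d (Dcl a x E) ∈ N :=
    club_diag' _ Ob.x_inj (fun x => club_diag' _ Ob.c_inj (fun E => club_mem _))
  have h2 : ∀ᶠ N in club (Ob W Ω1), ∀ x, Ob.x x ∈ N → ∀ q, Ob.c q ∈ N → (∃ C, ClubName a x C q) →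
      ∃ C, ClubName a x C q ∧ (∀ α, Ob.t α ∈ N → Ob.d {E | ∃ β, α < β ∧ E ∈ C β} ∈ N) ∧
        ∀ α, Ob.t α ∈ N → ∀ D, Ob.c D ∈ N → (∃ β, α < β ∧ D ∈ C β) → ∃ β, α < β ∧ Ob.t β ∈ N ∧ D ∈ C β := by
    refine club_diag' _ Ob.x_inj (fun x => club_diag' _ Ob.c_inj (fun q => ?_))
    by_cases h : ∃ C, ClubName a x C q
    · obtain ⟨C, hC⟩ := h
      have h3 : ∀ᶠ N in club (Ob W Ω1), ∀ α, Ob.t α ∈ N → Ob.d {E | ∃ β, α < β ∧ E ∈ C β} ∈ N :=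
        club_diag' _ Ob.t_inj (fun α => club_mem _)
      have h4 : ∀ᶠ N in club (Ob W Ω1), ∀ α, Ob.t α ∈ N → ∀ D, Ob.c D ∈ N → (∃ β, α < β ∧ D ∈ C β) →
          ∃ β, α < β ∧ Ob.t β ∈ N ∧ D ∈ C β := by
        refine club_diag' _ Ob.t_inj (fun α => club_diag' _ Ob.c_inj (fun D => ?_))
        by_cases h : ∃ β, α < β ∧ D ∈ C β
        · obtain ⟨β, h1, h2⟩ := h
          exact (club_mem (Ob.t β)).mono (fun N hN _ => ⟨β, h1, hN, h2⟩)
        · exact Filter.Eventually.of_forall (fun N h' => (h h').elim)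
      filter_upwards [h3, h4] with N h3 h4 _
      exact ⟨C, hC, h3, h4⟩
    · exact Filter.Eventually.of_forall (fun N h' => (h h').elim)
  filter_upwards [ok_club, h1, h2, delta_club, club_mem (Ob.w (⊤ : W))] with N h0 h1 h2 h3 h4
  obtain ⟨δ, hδ, hpos, _⟩ := h3
  refine ⟨δ, h0 ⊤ h4, hpos, fun x E hx hE => h1 x hx E hE, fun x q hx hq h => ?_⟩
  obtain ⟨C, i1, i2, i3⟩ := h2 x hx q hq h
  refine ⟨C, i1, fun α hα => i2 α ((hδ α).mpr hα), fun α hα D hD hex => ?_⟩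
  obtain ⟨β, j1, j2, j3⟩ := i3 α ((hδ α).mpr hα) D hD hex
  exact ⟨β, j1, (hδ β).mp j2, j3⟩

lemma split_at {N : Set (Ob W Ω1)} {a : Ω1 → ℕ → Set (Cond W)} {δ : Ω1} (cok : COk N a δ) {p : Cond W}
    (hH : ∀ x, ∀ q ∈ P (⊤ : W), q ≤ p → InfN x q → ∃ q' ∈ P (⊤ : W), q' ≤ q ∧ ∃ C, ClubName a x C q')
    {Y : Set (Z W)} (gen : Gen N ⊤ Y) (hpN : Ob.c p ∈ N) (hp : p ∈ P (⊤ : W)) (hYp : Y ⊆ p.body)
    {x : ℕ → Set (Cond W)} (hx : Ob.x x ∈ N) {z : Z W} (hz : z ∈ Y) (hinf : {k | Hit N ⊤ (x k) z}.Infinite)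
    {E : Cond W} (hE : E ∈ P (⊤ : W)) (hEY : E.body ⊆ Y) (hzE : z ∈ E.body) :
    ∃ E' ∈ P (⊤ : W), E' ≤ E ∧ InfN (capN x (a δ)) E' ∧ InfN (difN x (a δ)) E' := by
  have ok := cok.ok
  obtain ⟨E0, a1, a2, a3, a4⟩ := exists_inf ok gen hz hx hinf
  obtain ⟨E1, b1, b2, b3, b4, b5, _⟩ := directed ok gen hz a2 hpN a1 hp a3 (hYp hz)
  obtain ⟨q, c1, c2, c3, c4⟩ := gen _ (cok.dcl x E1 hx b2) (by
    intro E hE
    by_cases h : Inc ⊤ {E1} E
    · exact ⟨E, ⟨hE, Or.inr h⟩, hE, le_rfl⟩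
    · simp only [Inc, Set.mem_singleton_iff] at h
      push Not at h
      obtain ⟨C, rfl, _, E', h2, h3, h4⟩ := h
      obtain ⟨q', h5, h6, h7⟩ := hH x E' h2 (h4.trans b4) (fun j F hF hFle => a4 j F hF (hFle.trans (h4.trans b3)))
      exact ⟨q', ⟨h5, Or.inl h7⟩, h5, h6.trans h3⟩) z hz
  rcases c1.2 with h | h
  · obtain ⟨C, hC, d1, d2⟩ := cok.cw x q hx c3 h
    obtain ⟨E3, e1, e2, e3, e4⟩ := (c4.mono_left hEY).cond hE hzE
    have hfo : Fo ⊤ (C δ) E3 := by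
      refine hC.cls δ cok.pos E3 e1 e4 (fun α hα E4 hE4 hle => ?_)
      obtain ⟨z4, hz4⟩ := body_nonempty E4
      have hz4Y : z4 ∈ Y := hEY (e2 (hle hz4))
      obtain ⟨D, f1, f2, f3, f4⟩ := hit_of_fo ok gen hz4Y (d1 α hα) c2 c3 (e4 (hle hz4)) (hC.unb α)
      have h5 := (locIn_of_mem ok gen hz4Y f3 f2 f4).mono_left
        (show E4.body ⊆ Y from fun w hw => hEY (e2 (hle hw)))
      obtain ⟨E5, g1, g2, _, g4⟩ := h5.cond hE4 hz4
      obtain ⟨β, i1, i2, i3⟩ := d2 α hα D f3 f1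
      exact ⟨E5, g1, g2, D, ⟨β, i1, i2, i3⟩, f2, g4⟩
    obtain ⟨E6, g1, g2, D, g3, g4, g5⟩ := hfo E3 e1 le_rfl
    exact ⟨E6, g1, g2.trans e2, hC.spl δ E6 g1 (g2.trans e4) ⟨D, g3, g4, g5⟩⟩
  · exfalso
    obtain ⟨E2, e1, _, e3, e4, _, _⟩ := directed ok gen hz c3 b2 c2 b1 (c4.mem hz) b5
    exact h E1 rfl b1 E2 e1 e3 e4

/-- The data for a constant condition. -/
lemma good_const {T : Type} {N : Set (Ob W T)} {A : Set W} {β γ : W} {r p : Cond W} (hr : r ∈ P β) (gen : Gen N β r.body)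
    (hA : ∀ γ ∈ r.supp, γ ∈ A) (hpN : Ob.c p ∈ N) (hp : p ∈ P γ) (hle : r ≤ p) :
    Good N A {Set.univ} β γ r.body (fun _ => p) where
  gen := gen
  epr := fun x _ z _ h e he => by rw [Set.mem_singleton_iff.mp he, Set.inter_univ]; exact h
  xdep := fun z z' h => propext (body_iff_supp hr (fun γ hγ => h γ (hA γ hγ) (hr γ hγ)))
  cN := fun _ => hpN
  cP := fun z hz => ⟨hp, body_sub_Bd (hle hz)⟩
  cdep := fun _ _ _ => rfl
  clc := fun z _ => LCat.const _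

/-- The name of the range of the generic real at coordinate `ξ`. -/
def rgN (ξ : W) (k : ℕ) : Set (Cond W) := {q | ∀ z ∈ q.body, ∃ i, z ξ i = k}

lemma rg_dense {ξ : W} (hξ : ξ < ⊤) (j : ℕ) : DenseIn ⊤ (tl (rgN ξ) j) := by
  classical
  intro E hE
  obtain ⟨z, hz⟩ := body_nonempty E
  set s := E.st ξ z with hs
  obtain ⟨m, hm, hjm⟩ := (E.inf ξ z s).exists_gt j
  have hnd : Nd s (E.su ξ z) (s ++ [m]) := nd_snoc.mpr (Or.inr ⟨.base, hm⟩)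
  obtain ⟨y, hy⟩ := exists_br (E.inf ξ z) (s ++ [m])
  have hy' : Br s (E.su ξ z) y := hnd.br hy
  have hym : y s.length = m := by
    have h1 : res y (s.length + 1) = s ++ [m] := by simpa using hy.1
    rw [res_succ] at h1
    have h2 : res y s.length = s := hy'.1
    rw [h2] at h1
    simpa using h1
  obtain ⟨z1, h1, h2⟩ := exists_ext_aux E (Function.update z ξ y) (fun γ => γ ≤ ξ) (fun _ _ h h' => (h.le).trans h') (by
    intro γ hγ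
    have h3 : E.st γ (Function.update z ξ y) = E.st γ z ∧ E.su γ (Function.update z ξ y) = E.su γ z :=
      depEq (fun ε hε => by rw [Function.update_of_ne (hε.trans_le hγ).ne])
    rw [h3.1, h3.2]
    rcases hγ.eq_or_lt with h4 | h4
    · rw [h4, Function.update_self]; exact hy'
    · rw [Function.update_of_ne h4.ne]; exact hz γ)
  obtain ⟨E', g1, g2, g3, g4⟩ := loc hE h1 (F := {ξ}) (by simpa using hξ) (s.length + 1)
  refine ⟨E', ⟨m, hjm, fun z' hz' => ⟨s.length, ?_⟩⟩, g1, g2⟩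
  rw [← g4 z' hz' ξ (Finset.mem_singleton_self _) s.length (by omega), h2 ξ le_rfl, Function.update_self, hym]

lemma mem_res {y : ℕ → ℕ} {n m : ℕ} : m ∈ res y n ↔ ∃ i < n, y i = m := by
  induction n with
  | zero => simp
  | succ n ih =>
    rw [res_succ, List.mem_append, ih, List.mem_singleton]
    constructor
    · rintro (⟨i, hi, h⟩ | h)
      · exact ⟨i, by omega, h⟩
      · exact ⟨n, by omega, h.symm⟩
    · rintro ⟨i, hi, h⟩
      rcases Nat.lt_succ_iff_lt_or_eq.mp hi with h1 | h1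
      · exact Or.inl ⟨i, h1, h⟩
      · exact Or.inr (by rw [← h, h1])

/-- The name of the set `a` restricted to the conditions in `P ξ`. -/
def aR (ξ : W) (a : ℕ → Set (Cond W)) (k : ℕ) : Set (Cond W) := {q | q ∈ P ξ ∧ Bel (a k) q}

/-- The name of the intersection, for the iteration up to `ξ`. -/
def yR (ξ : W) (x b : ℕ → Set (Cond W)) (k : ℕ) : Set (Cond W) :=
  {q | q ∈ P ξ ∧ (∃ C ∈ x k, C ∈ P ξ ∧ q ≤ C) ∧ ∃ C ∈ b k, C ∈ P ξ ∧ q ≤ C}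

theorem club_aux {a : Ω1 → ℕ → Set (Cond W)} {p : Cond W} {ξ ξ' : W} (hs : ∀ γ, γ < ξ' ↔ γ ≤ ξ) (hξ' : ξ' < ⊤)
    (hpξ : p ∈ P ξ)
    (hcl : ∀ α k, ∀ r ∈ P ξ, ∃ q ∈ P ξ, q ≤ r ∧ (Bel (a α k) q ∨ Inc ⊤ (a α k) q))
    (hH : ∀ x, ∀ q ∈ P (⊤ : W), q ≤ p → InfN x q → ∃ q' ∈ P (⊤ : W), q' ≤ q ∧ ∃ C, ClubName a x C q') : False := by
  classical
  have hξξ' : ξ < ξ' := (hs ξ).mpr le_rfl
  have hξ : ξ < ⊤ := hξξ'.trans hξ'
  have hpT : p ∈ P (⊤ : W) := P_mono hξ.le hpξ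
  have hpξ' : p ∈ P ξ' := P_mono hξξ'.le hpξ
  have hc3 : ∀ᶠ N in club (Ob W Ω1), ∀ x, Ob.x x ∈ N → Ob.x (fun k => {q | q ∈ x k ∧ q ∈ P ξ}) ∈ N :=
    club_diag' _ Ob.x_inj (fun x => club_mem _)
  obtain ⟨N, hcount, hclT, hok, hstep, hgenN, ⟨δ, cok⟩, hx3, hwξ, hwξ', hcp, hbN⟩ :=
    ((club_countable (Ω := Ob W Ω1)).and ((hasClaim (T := Ω1) (⊤ : W)).and (ok_club.and (stepOk_club.and
      ((hasGen (T := Ω1) ξ).and ((cok_club a).and (hc3.and ((club_mem (Ob.w ξ)).and ((club_mem (Ob.w ξ')).and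
        ((club_mem (Ob.c p)).and (club_mem (Ob.x (rgN ξ))))))))))))).exists
  have okξ := hok ξ hwξ
  have okT := cok.ok
  have sok := hstep ξ hwξ ξ' hwξ'
  -- the first condition
  obtain ⟨r0, hr0, hr0p, g0⟩ := hgenN p hpξ hcp
  set A0 : Set W := {γ | Ob.w γ ∈ N} ∪ r0.supp with hA0
  have hA0c : A0.Countable := (hcount.preimage_of_injOn Ob.w_inj.injOn).union r0.count
  have hne : ({Set.univ} : Set (Set ℕ)).Nonempty := ⟨_, rfl⟩
  have hct : ({Set.univ} : Set (Set ℕ)).Countable := Set.countable_singleton _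
  obtain ⟨st0, su0, sys0, gen0, _, m0⟩ := hclT A0 (fun γ h => Or.inl h) {Set.univ} hct hne ξ hwξ hξ.le r0.body
    (fun _ => p) (good_const hr0 g0 (fun γ h => Or.inr h) hcp hpT hr0p)
  set q0 := bld hA0c hr0 sys0 with hq0
  have hq0T : q0 ∈ P (⊤ : W) := bld_mem hξ.le
  have hq0b : q0.body = YY ξ r0.body st0 su0 ⊤ := bld_body hξ.le
  have hq0B : q0.Bd ξ = r0.body := bld_Bd
  have hq0p : q0.body ⊆ p.body := by rw [hq0b]; exact m0
  -- the larger model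
  have hN' : ∀ᶠ N' in club (Ob W Ω1), (∀ y ∈ N, y ∈ N') ∧ (∀ x, Ob.x x ∈ N → Ob.x (yR ξ x (aR ξ (a δ))) ∈ N') := by
    have i1 : Countable N := hcount.to_subtype
    have i2 : Countable {x : ℕ → Set (Cond W) | Ob.x x ∈ N} := (hcount.preimage_of_injOn Ob.x_inj.injOn).to_subtype
    filter_upwards [club_all (fun y : N => club_mem y.1),
      club_all (fun x : {x : ℕ → Set (Cond W) | Ob.x x ∈ N} => club_mem (Ob.x (yR ξ x.1 (aR ξ (a δ)))))] with N' h1 h2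
    exact ⟨fun y hy => h1 ⟨y, hy⟩, fun x hx => h2 ⟨x, hx⟩⟩
  obtain ⟨N', ⟨⟨⟨⟨hNN', hyN'⟩, hok'⟩, hgenN'⟩, hr0N'⟩, haN'⟩ :=
    (((((hN').and ok_club).and (hasGen (T := Ω1) ξ)).and (club_mem (Ob.c r0))).and
      (club_mem (Ob.x (aR ξ (a δ))))).exists
  have okξ' := hok' ξ (hNN' _ hwξ)
  obtain ⟨r', hr', hr'r0, g'⟩ := hgenN' r0 hr0 hr0N'
  have gN : Gen N ξ r'.body := g0.mono hr'r0
  let az : Z W → Set ℕ := fun z => {k | Hit N' ξ (aR ξ (a δ) k) z}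
  set A : Set W := {γ | Ob.w γ ∈ N'} ∪ r'.supp with hA
  have hAc : A.Countable := (okξ'.cnt.preimage_of_injOn Ob.w_inj.injOn).union r'.count
  have hAN' : ∀ γ, Ob.w γ ∈ N' → γ ∈ A := fun γ h => Or.inl h
  have hAN : ∀ γ, Ob.w γ ∈ N → γ ∈ A := fun γ h => Or.inl (hNN' _ h)
  have hadep : DepOn A ξ az := by
    intro z z' h
    ext k
    have := hit_dep okξ' hAN' (aR ξ (a δ) k) z z' h
    simp only at this
    show Hit N' ξ (aR ξ (a δ) k) z ↔ Hit N' ξ (aR ξ (a δ) k) z'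
    rw [this]
  have halc : ∀ k, LC ξ r'.body (fun z => k ∈ az z) := fun k z hz => lc_hit okξ' g' hz (okξ'.nm _ k haN')
  have hac : ∀ x, Ob.x x ∈ N → ∀ z ∈ r'.body, {k | Hit N ξ (x k) z}.Infinite →
      ({k | Hit N ξ (x k) z} ∩ az z).Infinite := by
    intro x hx z hz hinf
    by_contra hfin
    rw [Set.not_infinite] at hfin
    obtain ⟨j, hj⟩ := hfin.bddAbove
    have hj' : ∀ k, j < k → Hit N ξ (x k) z → k ∉ az z := fun k hk h1 h2 => by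
      have := hj (show k ∈ {k | Hit N ξ (x k) z} ∩ az z from ⟨h1, h2⟩)
      omega
    rcases decide_hit okξ' g' hz (okξ'.tl _ j (hyN' x hx)) with h | ⟨E', e1, e2, e3, e4, e5⟩
    · obtain ⟨C, ⟨k, hk, c1, ⟨C1, c2, c3, c4⟩, ⟨C2, c5, c6, c7⟩⟩, c8, c9, c10⟩ := h
      have hx' : Ob.x x ∈ N' := hNN' _ hx
      have h1 : k ∈ az z := by
        obtain ⟨D, d1, d2, d3, d4⟩ := okξ'.wit (aR ξ (a δ) k) C (okξ'.nm _ k haN') c9 ⟨C2, c5, c6, c7⟩
        exact ⟨D, d1, d2, d3, d4 c10⟩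
      refine hj' k hk ?_ h1
      rcases decide_hit okξ gN hz (okξ.nm x k hx) with h2 | ⟨E, d1, d2, d3, _, d5⟩
      · exact h2
      · exfalso
        obtain ⟨F, f1, _, f3, f4, _, _⟩ := directed okξ' g' hz (hNN' _ d2) c9 d1 c8 d3 c10
        exact d5 C1 c2 c3 F f1 f3 (f4.trans c4)
    · obtain ⟨E0, a1, a2, a3, a4⟩ := exists_inf okξ gN hz hx hinf
      have h1 : LocIn ξ r'.body z (E'.body ∩ E0.body) := e4.inter (locIn_of_mem okξ gN hz a2 a1 a3)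
      obtain ⟨r2, b1, b2, b3, b4⟩ := h1.cond hr' hz
      have hsub : r2.Bd ξ ⊆ q0.Bd ξ := by
        rw [hq0B, ← body_eq b1]
        exact fun w hw => hr'r0 (b2 hw)
      set q2 := amal r2 q0 ξ hsub with hq2
      have hq2T : q2 ∈ P (⊤ : W) := amal_mem hq0T hξ.le
      have hq2r : ∀ w ∈ q2.body, w ∈ r2.body := fun w hw => by
        rw [body_eq b1]; exact (mem_amal.mp hw).1
      obtain ⟨z3, hz3⟩ := body_nonempty q2
      have hz3r2 := hq2r z3 hz3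
      -- the name restricted to `P ξ`
      let x' : ℕ → Set (Cond W) := fun k => {q | q ∈ x k ∧ q ∈ P ξ}
      have hx'N : Ob.x x' ∈ N := hx3 x hx
      have hinf3 : {k | Hit N ⊤ (x' k) z3}.Infinite := by
        have h2 := inf_of_fo okξ gN (b2 hz3r2) hx a1 a2 ((b4 hz3r2).2) a4
        refine h2.mono ?_
        rintro k ⟨C, d1, d2, d3, d4⟩
        exact ⟨C, ⟨d1, d2⟩, P_mono hξ.le d2, d3, d4⟩
      have hq0Y : Gen N ⊤ q0.body := by rw [hq0b]; exact gen0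
      obtain ⟨F, f1, f2, f3, _⟩ := split_at cok hH hq0Y hcp hpT hq0p hx'N
        (amal_le (h := hsub) hz3) hinf3 hq2T amal_le hz3
      obtain ⟨G, g1, g2, C, ⟨k, hk, ⟨C1, c1, c2, c3⟩, ⟨C2, c4, c5, c6⟩⟩, _, g3⟩ := f3 j F f1 le_rfl
      have hG2 : G ≤ q2 := g2.trans f2
      obtain ⟨q4, k1, k2, k3⟩ := hcl δ k (G.restr ξ) restr_mem
      have k4 : q4.Bd ξ ⊆ G.Bd ξ := amal_of_le k1 k2
      have k5 : Bel (a δ k) q4 := by
        rcases k3 with h | h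
        · exact h
        · exfalso
          refine h C2 c4 c5 (amal q4 G ξ k4) (amal_mem g1 hξ.le) ?_ (amal_le.trans (g3.trans c6))
          intro w hw
          rw [body_eq k1]; exact (mem_amal.mp hw).1
      have k6 : q4 ≤ C1 := by
        refine k2.trans ?_
        rw [le_def, restr_body, body_eq c1.2]
        exact le_Bd (g3.trans c3)
      have k7 : q4 ≤ E' := by
        refine k2.trans ?_
        rw [le_def, restr_body]
        intro w hw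
        have h2 : w ∈ q2.Bd ξ := le_Bd hG2 hw
        rw [amal_Bd le_rfl, ← body_eq b1] at h2
        exact (b4 h2).1
      exact e5 q4 ⟨k, hk, k1, ⟨C1, c1.1, c1.2, k6⟩, q4, ⟨k1, k5⟩, k1, le_rfl⟩ k1 q4 k1 k7 le_rfl
  -- the step at `ξ`
  obtain ⟨st1, su1, sys1, gen1, _, m1, hsub1, hmem1⟩ := step_sys (N := N) (A := A) (𝓔 := {Set.univ}) hs sok
    (hasGen ξ) hAN hwξ hct hne (good_const hr' gN (fun γ h => Or.inr h) hcp hpξ' (hr'r0.trans hr0p)) hadep halc hac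
    (Or.inl (fun e he => he))
  set r1 := bld hAc hr' sys1 with hr1
  have hr1P : r1 ∈ P ξ' := bld_mem hξξ'.le
  have hr1b : r1.body = YY ξ r'.body st1 su1 ξ' := bld_body hξξ'.le
  have hr1r : r1.body ⊆ r'.body := by rw [hr1b]; exact fun z hz => hz.1
  obtain ⟨st2, su2, sys2, gen2, _, m2⟩ := hclT (A ∪ r1.supp) (fun γ h => Or.inl (hAN γ h)) {Set.univ} hct hne ξ' hwξ'
    hξ'.le r1.body (fun _ => p) (good_const hr1P (by rw [hr1b]; exact gen1) (fun γ h => Or.inr h) hcp hpT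
      (show r1.body ⊆ p.body from fun w hw => hr0p (hr'r0 (hr1r hw))))
  set q2 := bld (hAc.union r1.count) hr1P sys2 with hq2
  have hq2T : q2 ∈ P (⊤ : W) := bld_mem hξ'.le
  have hq2b : q2.body = YY ξ' r1.body st2 su2 ⊤ := bld_body hξ'.le
  have hq2r1 : q2.body ⊆ r1.body := by rw [hq2b]; exact fun z hz => hz.1
  have hq2p : q2.body ⊆ p.body := by rw [hq2b]; exact m2
  have hgen2 : Gen N ⊤ q2.body := by rw [hq2b]; exact gen2
  obtain ⟨z0, hz0⟩ := body_nonempty q2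
  -- a condition deciding the stem
  have hst : LocIn ⊤ q2.body z0 {w | st1 ξ w = st1 ξ z0} := by
    have h1 := (sys1.lcst ξ le_rfl hξξ' z0 (by rw [YY_self]; exact hr1r (hq2r1 hz0))).comp (fun s => s = st1 ξ z0)
    rw [YY_self] at h1
    exact (h1.mono (fun w hw => hr1r (hq2r1 hw)) hξ.le).locIn rfl
  obtain ⟨q3, a1, a2, a3, a4⟩ := hst.cond hq2T hz0
  have hrginf : {k | Hit N ⊤ (rgN ξ k) z0}.Infinite := by
    rw [Set.infinite_iff_exists_gt]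
    intro j
    obtain ⟨C, ⟨k, hk, c1⟩, c2, c3, c4⟩ := hgen2 _ (okT.tl _ j hbN) (rg_dense hξ j) z0 hz0
    exact ⟨k, ⟨C, c1, c2, c3, c4.mem hz0⟩, hk⟩
  obtain ⟨E', e1, e2, _, e4⟩ := split_at cok hH hgen2 hcp hpT hq2p hbN hz0 hrginf a1 a2 a3
  set s := st1 ξ z0 with hs'
  obtain ⟨j, hj⟩ : ∃ j, ∀ m ∈ s, m ≤ j := ⟨s.sum, fun m hm => List.single_le_sum (fun _ _ => Nat.zero_le _) _ hm⟩
  obtain ⟨E2, f1, f2, C, ⟨k, hk, ⟨C1, c1, c2, c3⟩, c4⟩, c5, f3⟩ := e4 j E' e1 le_rfl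
  obtain ⟨z5, hz5⟩ := body_nonempty E2
  obtain ⟨i, hi⟩ := c1 z5 (c3 (f3 hz5))
  have hz5q3 : z5 ∈ q3.body := e2 (f2 hz5)
  have hz5r1 : z5 ∈ r1.body := hq2r1 (a2 hz5q3)
  have hz5r' : z5 ∈ r'.body := hr1r hz5r1
  have hbr : Br (st1 ξ z5) (su1 ξ z5) (z5 ξ) := by
    rw [hr1b] at hz5r1
    exact ((hmem1 z5).mp hz5r1).2
  have hst5 : st1 ξ z5 = s := a4 hz5q3
  have hlen : s.length ≤ i := by
    by_contra hlt
    push Not at hlt
    have h1 : res (z5 ξ) s.length = s := by rw [← hst5]; exact hbr.1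
    have h2 : z5 ξ i ∈ s := by
      rw [← h1, mem_res]
      exact ⟨i, hlt, rfl⟩
    have := hj _ h2
    omega
  have hk5 : k ∈ az z5 := by
    have h1 := hbr.nd (n := i) (by rw [hst5]; exact hlen)
    have h2 : z5 ξ i ∈ su1 ξ z5 (res (z5 ξ) i) := hbr.2 i (by rw [hst5]; exact hlen)
    rw [hi] at h2
    exact hsub1 z5 hz5r' _ h1 h2
  obtain ⟨D, d1, d2, d3, d4⟩ := hk5
  have h1 : LocIn ⊤ E2.body z5 D.body := by
    obtain ⟨F, n, h2, h3⟩ := locIn_of_mem okξ' g' hz5r' d3 d2 d4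
    exact ⟨F, n, fun γ hγ => (h2 γ hγ).trans hξ, fun w hw ha => h3 w (hr1r (hq2r1 (a2 (e2 (f2 hw))))) ha⟩
  obtain ⟨E6, g1, g2, _, g4⟩ := h1.cond f1 hz5
  obtain ⟨C3, i1, i2, i3⟩ := d1.2
  exact c4 C3 i1 i2 E6 g1 (g2.trans f3) (show E6 ≤ C3 from Set.Subset.trans g4 i3)

end Pool.Agent.H55.Lav
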