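import Mathlib

set_option autoImplicit false

/-!
# Trees with infinite branching beyond a stem
-/

namespace Pool.Agent.H55.Lav

/-- The list of the first `n` values of `y`. -/
def res (y : ℕ → ℕ) : ℕ → List ℕ
  | 0 => []
  | n + 1 => res y n ++ [y n]

@[simp] lemma res_zero (y : ℕ → ℕ) : res y 0 = [] := rfl
lemma res_succ (y : ℕ → ℕ) (n : ℕ) : res y (n + 1) = res y n ++ [y n] := rfl

@[simp] lemma length_res (y : ℕ → ℕ) (n : ℕ) : (res y n).length = n := by
  induction n with
  | zero => rfl
  | succ n ih => simp [res_succ, ih]

lemma res_congr {y y' : ℕ → ℕ} {n : ℕ} (h : ∀ i < n, y i = y' i) : res y n = res y' n := by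
  induction n with
  | zero => rfl
  | succ n ih =>
    rw [res_succ, res_succ, ih (fun i hi => h i (by omega)), h n (by omega)]

lemma res_inj {y y' : ℕ → ℕ} {n : ℕ} (h : res y n = res y' n) : ∀ i < n, y i = y' i := by
  induction n with
  | zero => intro i hi; omega
  | succ n ih =>
    rw [res_succ, res_succ] at h
    have h1 := List.append_inj h (by simp)
    intro i hi
    rcases Nat.lt_succ_iff_lt_or_eq.mp hi with h2 | h2
    · exact ih h1.1 i h2
    · subst h2
      simpa using h1.2

lemma res_mono {y y' : ℕ → ℕ} {n k : ℕ} (h : res y n = res y' n) (hk : k ≤ n) : res y k = res y' k :=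
  res_congr (fun i hi => res_inj h i (by omega))

/-- The branches of the tree with stem `s` in which the node `t` has the immediate successors `t ++ [m]`, `m ∈ S t`. -/
def Br (s : List ℕ) (S : List ℕ → Set ℕ) (y : ℕ → ℕ) : Prop :=
  res y s.length = s ∧ ∀ n, s.length ≤ n → y n ∈ S (res y n)

/-- The nodes, from the stem on, of the tree given by `s` and `S`. -/
inductive Nd (s : List ℕ) (S : List ℕ → Set ℕ) : List ℕ → Prop
  | base : Nd s S s
  | step (t : List ℕ) (m : ℕ) : Nd s S t → m ∈ S t → Nd s S (t ++ [m])

variable {s t : List ℕ} {S S' : List ℕ → Set ℕ} {y : ℕ → ℕ}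

lemma Nd.len (h : Nd s S t) : s.length ≤ t.length := by
  induction h with
  | base => exact le_rfl
  | step t m _ _ ih => simp; omega

lemma nd_snoc {m : ℕ} : Nd s S (t ++ [m]) ↔ t ++ [m] = s ∨ (Nd s S t ∧ m ∈ S t) := by
  constructor
  · intro h
    generalize hu : t ++ [m] = u at h
    cases h with
    | base => exact Or.inl rfl
    | step t' m' h1 h2 =>
      obtain ⟨h3, h4⟩ := List.append_inj' hu rfl
      simp only [List.cons.injEq, and_true] at h4
      subst h3; subst h4
      exact Or.inr ⟨h1, h2⟩
  · rintro (h | ⟨h1, h2⟩)
    · rw [h]; exact .base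
    · exact .step _ _ h1 h2

lemma nd_nil : Nd s S [] ↔ s = [] := by
  constructor
  · intro h
    have := h.len
    exact List.length_eq_zero_iff.mp (by simpa using this)
  · rintro rfl; exact .base

lemma Br.nd (h : Br s S y) {n : ℕ} (hn : s.length ≤ n) : Nd s S (res y n) := by
  induction n, hn using Nat.le_induction with
  | base => rw [h.1]; exact .base
  | succ n hn ih => exact .step _ _ ih (h.2 n hn)

lemma Nd.br (h : Nd s S t) (hy : Br t S y) : Br s S y := by
  induction h with
  | base => exact hy
  | step t m _ hm ih =>
    apply ih
    obtain ⟨h1, h2⟩ := hy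
    simp only [List.length_append, List.length_cons, List.length_nil, zero_add, res_succ] at h1
    obtain ⟨h3, h4⟩ := List.append_inj' h1 rfl
    refine ⟨h3, fun n hn => ?_⟩
    rcases Nat.eq_or_lt_of_le hn with h5 | h5
    · subst h5
      simp only [List.cons.injEq, and_true] at h4
      rw [h3, h4]; exact hm
    · exact h2 n (by simp; omega)

lemma Br.br_of_len (h : Br s S y) {n : ℕ} (hn : s.length ≤ n) : Br (res y n) S y := by
  refine ⟨by simp, fun k hk => h.2 k ?_⟩
  simp at hk; omega

lemma Nd.take (h : Nd s S t) : t.take s.length = s := by
  induction h with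
  | base => simp
  | step t m h1 _ ih =>
    rw [List.take_append_of_le_length h1.len, ih]

lemma exists_br (hS : ∀ t, (S t).Infinite) (s : List ℕ) : ∃ y, Br s S y := by
  classical
  let L : ℕ → List ℕ := fun n => Nat.rec [] (fun n l => l ++ [if h : n < s.length then s[n] else (hS l).nonempty.choose]) n
  let y : ℕ → ℕ := fun n => if h : n < s.length then s[n] else (hS (L n)).nonempty.choose
  have hL : ∀ n, res y n = L n := by
    intro n
    induction n with
    | zero => rfl
    | succ n ih =>
      rw [res_succ, ih]
  refine ⟨y, ?_, fun n hn => ?_⟩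
  · apply List.ext_getElem (by simp)
    intro i h1 h2
    have : ∀ n, ∀ i (h : i < (res y n).length), (res y n)[i] = y i := by
      intro n
      induction n with
      | zero => intro i h; simp at h
      | succ n ih =>
        intro i h
        simp only [res_succ]
        rw [List.getElem_append]
        split
        · exact ih i _
        · rename_i h3
          simp only [length_res, not_lt] at h3
          simp only [length_res] at h
          have : i = n := by omega
          subst this
          simp
    rw [this]
    simp [y, h2]
  · rw [hL]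
    have : y n = (hS (L n)).nonempty.choose := by simp [y, not_lt.mpr hn]
    rw [this]
    exact (hS (L n)).nonempty.choose_spec

/-- Every node of the tree lies on a branch. -/
lemma exists_br_nd (hS : ∀ t, (S t).Infinite) (h : Nd s S t) : ∃ y, Br s S y ∧ Br t S y := by
  obtain ⟨y, hy⟩ := exists_br hS t
  exact ⟨y, h.br hy, hy⟩

lemma Br.mono (hsub : ∀ t, Nd s S t → S t ⊆ S' t) (h : Br s S y) : Br s S' y :=
  ⟨h.1, fun n hn => hsub _ (h.nd hn) (h.2 n hn)⟩

/-- If all branches of one tree are branches of another, then the stem of the latter is a part of the former's. -/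
lemma stem_nd {s' : List ℕ} (hS : ∀ t, (S t).Infinite) (h : ∀ y, Br s S y → Br s' S' y) : Nd s' S' s := by
  have hlen : s'.length ≤ s.length := by
    by_contra hlt
    push Not at hlt
    obtain ⟨m, hm, hm2⟩ := (hS s).exists_notMem_finset {s'[s.length]}
    obtain ⟨y, hy1, hy2⟩ := exists_br_nd hS (Nd.step s m (.base (S := S)) hm)
    have h1 := (h y hy1).1
    have h2 : y s.length = m := by
      have := hy2.1
      simp only [List.length_append, List.length_cons, List.length_nil, zero_add, res_succ] at this
      have := (List.append_inj' this rfl).2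
      simpa using this
    have h3 : (res y s'.length)[s.length]'(by simpa using hlt) = y s.length := by
      have : ∀ n, ∀ i (h : i < (res y n).length), (res y n)[i] = y i := by
        intro n
        induction n with
        | zero => intro i h; simp at h
        | succ n ih =>
          intro i h
          simp only [res_succ]
          rw [List.getElem_append]
          split
          · exact ih i _
          · rename_i h3
            simp only [length_res, not_lt] at h3
            simp only [length_res] at h
            have : i = n := by omega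
            subst this
            simp
      exact this _ _ _
    simp only [h1] at h3
    simp only [Finset.mem_singleton] at hm2
    exact hm2 (by rw [← h2, ← h3])
  obtain ⟨y, hy⟩ := exists_br hS s
  have := (h y hy).nd hlen
  rwa [hy.1] at this

lemma succ_sub {s' : List ℕ} (hS : ∀ t, (S t).Infinite) (h : ∀ y, Br s S y → Br s' S' y) (ht : Nd s S t) :
    S t ⊆ S' t := by
  intro m hm
  obtain ⟨y, hy1, hy2⟩ := exists_br_nd hS (Nd.step t m ht hm)
  have h0 := (stem_nd hS h).len
  have h1 := (h y hy1).2 t.length (h0.trans ht.len)
  have h2 := hy2.1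
  simp only [List.length_append, List.length_cons, List.length_nil, zero_add, res_succ] at h2
  obtain ⟨h3, h4⟩ := List.append_inj' h2 rfl
  simp only [List.cons.injEq, and_true] at h4
  rwa [h3, h4] at h1

lemma nd_sub {s' : List ℕ} (hS : ∀ t, (S t).Infinite) (h : ∀ y, Br s S y → Br s' S' y) (ht : Nd s S t) :
    Nd s' S' t := by
  induction ht with
  | base => exact stem_nd hS h
  | step t m h1 h2 ih => exact .step _ _ ih (succ_sub hS h h1 h2)

end Pool.Agent.H55.Lav
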