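import Pool.Agent.H55.Lav.Nm
import Pool.Agent.H55.SCBridge

set_option autoImplicit false
set_option linter.unusedSectionVars false

/-!
# The forcing theorem
-/

namespace Pool.Agent.H55.Lav

open FirstOrder FirstOrder.Language Pool.Agent.H55.SC

variable {Q : Type}

/-- The value of a variable (the language has no function symbols). -/
def tv {α : Type*} {n : ℕ} (v : Fin n → α) : SC.Lang.Term (Empty ⊕ Fin n) → α
  | .var (.inl e) => e.elim
  | .var (.inr i) => v i
  | .func f _ => Empty.elim f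

/-- The formulas with `n` variables. -/
abbrev Fml (n : ℕ) := SC.Lang.BoundedFormula Empty n

section frc
variable [Preorder Q] [OrderTop Q]

/-- The forcing relation. -/
def frc : ∀ {n : ℕ}, Fml n → (Fin n → Nm Q) → Q → Prop
  | _, .falsum, _, _ => False
  | _, .equal t u, v, p => feq (tv v t) (tv v u) p
  | _, .rel (l := l) R ts, v, p => match l, R, ts with
    | _, .mem, ts => fmem (tv v (ts 0)) (tv v (ts 1)) p
  | _, .imp φ ψ, v, p => ∀ q ≤ p, frc φ v q → frc ψ v q
  | _, .all φ, v, p => ∀ τ, frc φ (Fin.snoc v τ) p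

lemma frc_mono : ∀ {n : ℕ} (φ : Fml n) (v : Fin n → Nm Q) (p q : Q), frc φ v p → q ≤ p → frc φ v q
  | _, .falsum, _, _, _ => fun h _ => h
  | _, .equal _ _, _, _, _ => fun h hq => feq_mono h hq
  | _, .rel (l := l) R ts, v, p, q => by
    intro h hq
    match l, R, ts with
    | _, .mem, ts => exact fmem_mono h hq
  | _, .imp _ _, _, _, _ => fun h hq r hr => h r (hr.trans hq)
  | _, .all φ, v, p, q => fun h hq τ => frc_mono φ _ p q (h τ) hq

lemma frc_dense : ∀ {n : ℕ} (φ : Fml n) (v : Fin n → Nm Q) (p : Q), (∀ q ≤ p, ∃ r ≤ q, frc φ v r) → frc φ v p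
  | _, .falsum, _, p => fun h => by
    obtain ⟨r, _, h1⟩ := h p le_rfl
    exact h1
  | _, .equal _ _, _, _ => fun h => feq_dense h
  | _, .rel (l := l) R ts, v, p => by
    intro h
    match l, R, ts with
    | _, .mem, ts => exact fmem_dense h
  | _, .imp φ ψ, v, p => fun h q hq h1 => frc_dense ψ v q (fun q' hq' => by
    obtain ⟨r, hr, h2⟩ := h q' (hq'.trans hq)
    exact ⟨r, hr, h2 r le_rfl (frc_mono φ v q r h1 (hr.trans hq'))⟩)
  | _, .all φ, v, p => fun h τ => frc_dense φ _ p (fun q hq => by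
    obtain ⟨r, hr, h2⟩ := h q hq
    exact ⟨r, hr, h2 τ⟩)

/-- Conditions which force `∀ x φ` or force the failure of `φ` for some name. -/
def Wset {n : ℕ} (φ : Fml (n + 1)) (v : Fin n → Nm Q) : Set Q :=
  {p | frc (.all φ) v p ∨ ∃ τ, ∀ q ≤ p, ¬ frc φ (Fin.snoc v τ) q}

lemma wset_dense {n : ℕ} (φ : Fml (n + 1)) (v : Fin n → Nm Q) (p : Q) : ∃ q ∈ Wset φ v, q ≤ p := by
  by_cases h : frc (.all φ) v p
  · exact ⟨p, Or.inl h, le_rfl⟩
  · have h1 : ∃ τ, ¬ frc φ (Fin.snoc v τ) p := by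
      by_contra h2
      push Not at h2
      exact h h2
    obtain ⟨τ, hτ⟩ := h1
    have h2 : ∃ q ≤ p, ∀ r ≤ q, ¬ frc φ (Fin.snoc v τ) r := by
      by_contra h3
      push Not at h3
      exact hτ (frc_dense _ _ _ h3)
    obtain ⟨q, hq, h3⟩ := h2
    exact ⟨q, Or.inr ⟨τ, h3⟩, hq⟩

/-- Closure properties of `N` used for formulas. -/
structure FOk (N : Set (Un Q)) : Prop where
  d : ∀ {n : ℕ} (φ : Fml n) (v : Fin n → Nm Q), (∀ k, InN N (v k)) → InT N (Dcd {p | frc φ v p})
  w : ∀ {n : ℕ} (φ : Fml (n + 1)) (v : Fin n → Nm Q), (∀ k, InN N (v k)) → InT N (Wset φ v)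
  ww : ∀ {n : ℕ} (φ : Fml (n + 1)) (v : Fin n → Nm Q), (∀ k, InN N (v k)) → ∀ p : Q, InT N p →
    (∃ τ, ∀ q ≤ p, ¬ frc φ (Fin.snoc v τ) q) → ∃ τ, (∀ q ≤ p, ¬ frc φ (Fin.snoc v τ) q) ∧ InN N τ

instance fml_countable (n : ℕ) : Countable (Fml n) := by
  have h : Cardinal.mk (Σ n, SC.Lang.BoundedFormula Empty n) ≤ Cardinal.aleph0 := by
    refine BoundedFormula.card_le.trans ?_
    have h1 : Countable SC.Lang.Symbols := by
      have h2 : ∀ l, Countable (SC.Sym l) := fun l => by
        have : Subsingleton (SC.Sym l) := ⟨fun a b => by cases a; cases b; rfl⟩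
        infer_instance
      have h3 : Countable (Σ l, SC.Lang.Relations l) := by
        have : ∀ l, Countable (SC.Lang.Relations l) := h2
        infer_instance
      have h4 : Countable (Σ l, SC.Lang.Functions l) := by
        have : ∀ l, Countable (SC.Lang.Functions l) := fun l => (inferInstance : Countable Empty)
        infer_instance
      exact (inferInstance : Countable ((Σ l, SC.Lang.Functions l) ⊕ (Σ l, SC.Lang.Relations l)))
    have h5 : SC.Lang.card ≤ Cardinal.aleph0 := Cardinal.mk_le_aleph0_iff.mpr h1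
    simp [h5]
  have h1 : Countable (Σ n, SC.Lang.BoundedFormula Empty n) := Cardinal.mk_le_aleph0_iff.mp h
  have h2 : Function.Injective (fun φ : Fml n => (⟨n, φ⟩ : Σ n, SC.Lang.BoundedFormula Empty n)) := fun a b h => by
    simpa using h
  exact h2.countable

lemma fok_club : ∀ᶠ N in club (Un Q), FOk N := by
  have h1 : ∀ᶠ N in club (Un Q), ∀ n : ℕ, ∀ φ : Fml n, ∀ v : Fin n → Nm Q, (∀ k, InN N (v k)) →
      InT N (Dcd {p | frc φ v p}) :=
    club_all (fun n => club_all (fun φ => diagNs (fun v => club_inT _)))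
  have h2 : ∀ᶠ N in club (Un Q), ∀ n : ℕ, ∀ φ : Fml (n + 1), ∀ v : Fin n → Nm Q, (∀ k, InN N (v k)) →
      InT N (Wset φ v) :=
    club_all (fun n => club_all (fun φ => diagNs (fun v => club_inT _)))
  have h3 : ∀ᶠ N in club (Un Q), ∀ n : ℕ, ∀ φ : Fml (n + 1), ∀ v : Fin n → Nm Q, (∀ k, InN N (v k)) →
      ∀ p : Q, InT N p → (∃ τ, ∀ q ≤ p, ¬ frc φ (Fin.snoc v τ) q) →
        ∃ τ, (∀ q ≤ p, ¬ frc φ (Fin.snoc v τ) q) ∧ InN N τ := by
    refine club_all (fun n => club_all (fun φ => diagNs (fun v => diagT (fun p => ?_))))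
    by_cases h : ∃ τ, ∀ q ≤ p, ¬ frc φ (Fin.snoc v τ) q
    · obtain ⟨τ, hτ⟩ := h
      exact (club_inN τ).mono (fun N hN _ => ⟨τ, hτ, hN⟩)
    · exact Filter.Eventually.of_forall (fun N h' => (h h').elim)
  filter_upwards [h1, h2, h3] with N h1 h2 h3
  exact ⟨fun {n} φ v hv => h1 n φ v hv, fun {n} φ v hv => h2 n φ v hv, fun {n} φ v hv p hp h => h3 n φ v hv p hp h⟩

/-- The model: the set of all values of names in `N`. -/
def MM (N : Set (Un Q)) (G : Set Q) : Type 1 := {x : ZFSet.{0} // ∃ τ, InN N τ ∧ val N G τ = x}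

/-- The membership relation of the model. -/
def EE {N : Set (Un Q)} {G : Set Q} (x y : MM N G) : Prop := x.1 ∈ y.1

/-- The value of a name of `N` as an element of the model. -/
noncomputable def vl {N : Set (Un Q)} (G : Set Q) {τ : Nm Q} (h : InN N τ) : MM N G := ⟨val N G τ, τ, h, rfl⟩

lemma tv_eq {N : Set (Un Q)} {G : Set Q} {n : ℕ} (v : Fin n → Nm Q) (hv : ∀ k, InN N (v k))
    (t : SC.Lang.Term (Empty ⊕ Fin n)) (xs : Empty → MM N G) : InN N (tv v t) ∧
      letI := str (EE (N := N) (G := G)); (t.realize (Sum.elim xs (fun k => vl G (hv k)))).1 = val N G (tv v t) := by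
  match t with
  | .var (.inl e) => exact e.elim
  | .var (.inr i) => exact ⟨hv i, rfl⟩
  | .func f _ => exact Empty.elim f

theorem truth {N : Set (Un Q)} {G : Set Q} (ok : NOk N) (fok : FOk N) (gen : GenF N G) :
    letI := str (EE (N := N) (G := G))
    ∀ {n : ℕ} (φ : Fml n) (v : Fin n → Nm Q) (hv : ∀ k, InN N (v k)) (xs : Empty → MM N G),
      (φ.Realize xs (fun k => vl G (hv k)) ↔ ∃ p ∈ G, frc φ v p) := by
  let _ := str (EE (N := N) (G := G))
  intro n φ
  induction φ with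
  | falsum =>
    intro v hv xs
    constructor
    · intro h; exact h.elim
    · rintro ⟨p, _, h⟩; exact h.elim
  | equal t u =>
    intro v hv xs
    have h1 := tv_eq v hv t xs
    have h2 := tv_eq v hv u xs
    have h3 := val_eq ok gen _ h1.1 _ h2.1
    refine Iff.trans ?_ h3
    rw [← h1.2, ← h2.2]
    exact ⟨fun h => congrArg _ h, fun h => Subtype.ext h⟩
  | rel R ts =>
    intro v hv xs
    cases R with
    | mem =>
      have h1 := tv_eq v hv (ts 0) xs
      have h2 := tv_eq v hv (ts 1) xs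
      have h3 := val_mem ok gen h1.1 h2.1
      refine Iff.trans ?_ h3
      rw [← h1.2, ← h2.2]
      rfl
  | imp φ ψ ih1 ih2 =>
    intro v hv xs
    have h1 := ih1 v hv xs
    have h2 := ih2 v hv xs
    rw [BoundedFormula.realize_imp, h1, h2]
    constructor
    · intro h
      obtain ⟨p, hp, h3⟩ := gen.gen _ (fok.d φ v hv) (dcd_dense _)
      rcases h3 with h3 | h3
      · obtain ⟨s, hs, h4⟩ := h ⟨p, hp, h3⟩
        exact ⟨s, hs, fun q hq _ => frc_mono _ _ _ _ h4 hq⟩
      · exact ⟨p, hp, fun q hq h4 => (h3 q hq h4).elim⟩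
    · rintro ⟨p, hp, h⟩ ⟨s, hs, h4⟩
      obtain ⟨r, hr, h5, h6⟩ := gen.dir p hp s hs
      exact ⟨r, hr, h r h5 (frc_mono _ _ _ _ h4 h6)⟩
  | all φ ih =>
    rename_i n
    intro v hv xs
    have key : ∀ τ (hτ : InN N τ), (φ.Realize xs (Fin.snoc (fun k => vl G (hv k)) (vl G hτ) : Fin (n + 1) → MM N G) ↔
        ∃ p ∈ G, frc φ (Fin.snoc v τ) p) := by
      intro τ hτ
      have hv' : ∀ k, InN N ((Fin.snoc v τ : Fin (n + 1) → Nm Q) k) := by
        intro k
        refine Fin.lastCases ?_ (fun k => ?_) k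
        · rw [Fin.snoc_last]; exact hτ
        · rw [Fin.snoc_castSucc]; exact hv k
      have h1 := ih (Fin.snoc v τ) hv' xs
      rw [← h1]
      have h2 : (Fin.snoc (fun k => vl G (hv k)) (vl G hτ) : Fin (n + 1) → MM N G) = fun k => vl G (hv' k) := by
        funext k
        apply Subtype.ext
        refine Fin.lastCases ?_ (fun k => ?_) k
        · show (Fin.snoc (α := fun _ => MM N G) (fun k => vl G (hv k)) (vl G hτ) (Fin.last n)).1 =
            val N G (Fin.snoc (α := fun _ => Nm Q) v τ (Fin.last n))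
          rw [Fin.snoc_last, Fin.snoc_last]; rfl
        · show (Fin.snoc (α := fun _ => MM N G) (fun k => vl G (hv k)) (vl G hτ) k.castSucc).1 =
            val N G (Fin.snoc (α := fun _ => Nm Q) v τ k.castSucc)
          rw [Fin.snoc_castSucc, Fin.snoc_castSucc]; rfl
      rw [h2]
    rw [BoundedFormula.realize_all]
    constructor
    · intro h
      obtain ⟨p, hp, h3⟩ := gen.gen _ (fok.w φ v hv) (wset_dense _ _)
      rcases h3 with h3 | h3
      · exact ⟨p, hp, h3⟩
      · exfalso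
        obtain ⟨τ, h4, h5⟩ := fok.ww φ v hv p (gen.sub p hp) h3
        obtain ⟨s, hs, h6⟩ := (key τ h5).mp (h _)
        obtain ⟨r, hr, h7, h8⟩ := gen.dir p hp s hs
        exact h4 r h7 (frc_mono _ _ _ _ h6 h8)
    · rintro ⟨p, hp, h⟩ ⟨a, τ, hτ, rfl⟩
      exact (key τ hτ).mpr ⟨p, hp, h τ⟩

end frc

end Pool.Agent.H55.Lav
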