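import Pool.Agent.H55.Lav.Code

set_option autoImplicit false
set_option linter.unusedSectionVars false

/-!
# The model satisfies ZF
-/

namespace Pool.Agent.H55.Lav

open FirstOrder FirstOrder.Language Pool.Agent.H55.SC Pool.Agent.H55.ZFU

variable {Q : Type} [Preorder Q] [OrderTop Q]

section decode
variable {N : Set (Un Q)} {G : Set Q}

lemma decode (ok : NOk N) (fok : FOk N) (gen : GenF N G) {k : ℕ} {S : Set (Fin k → MM N G)}
    (hS : letI := str (EE (N := N) (G := G)); (Set.univ : Set (MM N G)).Definable SC.Lang S) :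
    ∃ (m : ℕ) (ψ : Fml (m + k)) (σ : Fin m → Nm Q), (∀ i, InN N (σ i)) ∧
      ∀ (v : Fin k → Nm Q) (hv : ∀ i, InN N (v i)), ((fun i => vl G (hv i)) ∈ S ↔ ∃ p ∈ G, frc ψ (Fin.append σ v) p) := by
  let _ := str (EE (N := N) (G := G))
  have : Nonempty (MM N G) := ⟨vl G ok.emp⟩
  obtain ⟨m, ψ, a, h⟩ := exists_code hS
  choose σ hσ hval using fun i => (a i).2
  refine ⟨m, ψ, σ, hσ, fun v hv => ?_⟩
  have hv' : ∀ i, InN N (Fin.append σ v i) := by
    intro i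
    refine Fin.addCases (fun i => ?_) (fun i => ?_) i
    · rw [Fin.append_left]; exact hσ i
    · rw [Fin.append_right]; exact hv i
  rw [h, ← truth ok fok gen ψ (Fin.append σ v) hv' default]
  have h1 : Fin.append a (fun i => vl G (hv i)) = fun i => vl G (hv' i) := by
    funext i
    apply Subtype.ext
    refine Fin.addCases (fun i => ?_) (fun i => ?_) i
    · show (Fin.append a (fun i => vl G (hv i)) (Fin.castAdd k i)).1 = val N G (Fin.append σ v (Fin.castAdd k i))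
      rw [Fin.append_left, Fin.append_left, hval]
    · show (Fin.append a (fun i => vl G (hv i)) (Fin.natAdd m i)).1 = val N G (Fin.append σ v (Fin.natAdd m i))
      rw [Fin.append_right, Fin.append_right]; rfl
  rw [h1]

end decode

/-- The name of the subset of `τ` given by `f`. -/
def sN (τ : Nm Q) (f : τ.ι → Set Q) : Nm Q := .mk (Σ i : τ.ι, {q : Q // q ∈ f i}) (fun x => τ.A x.1) (fun x => x.2.1)

/-- The name of the unordered pair. -/
def pairN (τ σ : Nm Q) : Nm Q := .mk Bool (fun b => if b then τ else σ) (fun _ => ⊤)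

/-- A name of a set including the union. -/
def unN (τ : Nm Q) : Nm Q := .mk (Σ i : τ.ι, (τ.A i).ι) (fun x => (τ.A x.1).A x.2) (fun _ => ⊤)

/-- A name of a set including the power set. -/
def powN (τ : Nm Q) : Nm Q := .mk (τ.ι → Set Q) (fun f => sN τ f) (fun _ => ⊤)

/-- The conditions forcing that the elements of `τ` belong to `ρ`. -/
def memF (τ ρ : Nm Q) (i : τ.ι) : Set Q := {p | p ≤ τ.c i ∧ fmem (τ.A i) ρ p}

/-- The conditions forcing that the elements of `τ` satisfy a formula. -/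
def sepF {m : ℕ} (ψ : Fml (m + 1)) (σ : Fin m → Nm Q) (τ : Nm Q) (i : τ.ι) : Set Q :=
  {p | p ≤ τ.c i ∧ frc ψ (Fin.append σ (fun _ => τ.A i)) p}

open Classical in
/-- A name which is forced by `p` to satisfy the formula, if there is one. -/
noncomputable def rhoN {m : ℕ} (ψ : Fml (m + 2)) (σ : Fin m → Nm Q) (υ : Nm Q) (p : Q) : Nm Q :=
  if h : ∃ ρ : Nm Q, frc ψ (Fin.append σ ![υ, ρ]) p then h.choose else emN

/-- A name of a set with witnesses for all elements of `τ`. -/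
noncomputable def colN' {m : ℕ} (ψ : Fml (m + 2)) (σ : Fin m → Nm Q) (τ : Nm Q) : Nm Q :=
  .mk (τ.ι × Q) (fun x => rhoN ψ σ (τ.A x.1) x.2) (fun _ => ⊤)

/-- The names of the elements of a wellordered set. -/
def ck (Q : Type) [Preorder Q] [OrderTop Q] {I : Type} [LinearOrder I] [WellFoundedLT I] : I → Nm Q :=
  (wellFounded_lt (α := I)).fix (fun i f => .mk (Set.Iio i) (fun j => f j.1 j.2) (fun _ => ⊤))

lemma ck_eq {I : Type} [LinearOrder I] [WellFoundedLT I] (i : I) :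
    ck Q i = .mk (Set.Iio i) (fun j => ck Q j.1) (fun _ => ⊤) :=
  (wellFounded_lt (α := I)).fix_eq _ i

/-- The name of the whole wellordered set. -/
def ckT (Q : Type) [Preorder Q] [OrderTop Q] (I : Type) [LinearOrder I] [WellFoundedLT I] : Nm Q :=
  .mk I (ck Q) (fun _ => ⊤)

/-- Closure properties of `N` used for the axioms of ZF. -/
structure ZOk (N : Set (Un Q)) : Prop where
  pair : ∀ τ σ, InN N τ → InN N σ → InN N (pairN τ σ)
  un : ∀ τ, InN N τ → InN N (unN τ)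
  pow : ∀ τ, InN N τ → InN N (powN τ)
  sub : ∀ τ ρ, InN N τ → InN N ρ → InN N (sN τ (memF τ ρ))
  sep : ∀ {m : ℕ} (ψ : Fml (m + 1)) (σ : Fin m → Nm Q) (τ : Nm Q), (∀ i, InN N (σ i)) → InN N τ →
    InN N (sN τ (sepF ψ σ τ))
  col : ∀ {m : ℕ} (ψ : Fml (m + 2)) (σ : Fin m → Nm Q) (τ : Nm Q), (∀ i, InN N (σ i)) → InN N τ →
    InN N (colN' ψ σ τ)
  rho : ∀ {m : ℕ} (ψ : Fml (m + 2)) (σ : Fin m → Nm Q) (τ : Nm Q) (p : Q), (∀ i, InN N (σ i)) → InN N τ →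
    InT N p → InN N (rhoN ψ σ τ p)
  nat : ∀ n : ℕ, InN N (ck Q n)
  om : InN N (ckT Q ℕ)

lemma zok_club : ∀ᶠ N in club (Un Q), ZOk N := by
  have h1 : ∀ᶠ N in club (Un Q), ∀ τ, InN N τ → ∀ σ, InN N σ → InN N (pairN τ σ) :=
    diagN (fun τ => diagN (fun σ => club_inN _))
  have h2 : ∀ᶠ N in club (Un Q), ∀ τ, InN N τ → InN N (unN τ) := diagN (fun τ => club_inN _)
  have h3 : ∀ᶠ N in club (Un Q), ∀ τ, InN N τ → InN N (powN τ) := diagN (fun τ => club_inN _)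
  have h4 : ∀ᶠ N in club (Un Q), ∀ τ, InN N τ → ∀ σ, InN N σ → InN N (sN τ (memF τ σ)) :=
    diagN (fun τ => diagN (fun σ => club_inN _))
  have h5 : ∀ᶠ N in club (Un Q), ∀ m : ℕ, ∀ ψ : Fml (m + 1), ∀ σ : Fin m → Nm Q, (∀ i, InN N (σ i)) → ∀ τ, InN N τ →
      InN N (sN τ (sepF ψ σ τ)) :=
    club_all (fun m => club_all (fun ψ => diagNs (fun σ => diagN (fun τ => club_inN _))))
  have h6 : ∀ᶠ N in club (Un Q), ∀ m : ℕ, ∀ ψ : Fml (m + 2), ∀ σ : Fin m → Nm Q, (∀ i, InN N (σ i)) → ∀ τ, InN N τ →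
      InN N (colN' ψ σ τ) :=
    club_all (fun m => club_all (fun ψ => diagNs (fun σ => diagN (fun τ => club_inN _))))
  have h7 : ∀ᶠ N in club (Un Q), ∀ m : ℕ, ∀ ψ : Fml (m + 2), ∀ σ : Fin m → Nm Q, (∀ i, InN N (σ i)) → ∀ τ, InN N τ →
      ∀ p : Q, InT N p → InN N (rhoN ψ σ τ p) :=
    club_all (fun m => club_all (fun ψ => diagNs (fun σ => diagN (fun τ => diagT (fun p => club_inN _)))))
  have h8 : ∀ᶠ N in club (Un Q), ∀ n : ℕ, InN N (ck Q n) := club_all (fun n => club_inN _)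
  filter_upwards [h1, h2, h3, h4, h5, h6, h7, h8, club_inN (ckT Q ℕ)] with N h1 h2 h3 h4 h5 h6 h7 h8 h9
  exact ⟨fun τ σ hτ hσ => h1 τ hτ σ hσ, h2, h3, fun τ σ hτ hσ => h4 τ hτ σ hσ,
    fun {m} ψ σ τ hσ hτ => h5 m ψ σ hσ τ hτ, fun {m} ψ σ τ hσ hτ => h6 m ψ σ hσ τ hτ,
    fun {m} ψ σ τ p hσ hτ hp => h7 m ψ σ hσ τ hτ p hp, h8, h9⟩

section model
variable {N : Set (Un Q)} {G : Set Q} (ok : NOk N) (fok : FOk N) (zok : ZOk N) (gen : GenF N G)

/-- The elements of a value belong to the model. -/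
lemma mem_trans {x : ZFSet} {a : MM N G} (h : x ∈ a.1) : ∃ b : MM N G, b.1 = x := by
  obtain ⟨a, τ, hτ, rfl⟩ := a
  obtain ⟨i, h1, _, h3⟩ := mem_val.mp h
  exact ⟨vl G h1, h3⟩

lemma mm_ext {a b : MM N G} (h : ∀ x : MM N G, EE x a ↔ EE x b) : a = b := by
  apply Subtype.ext
  ext x
  constructor
  · intro hx
    obtain ⟨y, rfl⟩ := mem_trans hx
    exact (h y).mp hx
  · intro hx
    obtain ⟨y, rfl⟩ := mem_trans hx
    exact (h y).mpr hx

include ok gen in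
lemma mem_of_le {τ : Nm Q} (hτ : InN N τ) {i : τ.ι} (hi : InN N (τ.A i)) {q : Q} (hq : q ∈ G) (hle : q ≤ τ.c i) :
    val N G (τ.A i) ∈ val N G τ :=
  (val_mem ok gen hi hτ).mpr ⟨q, hq, fun r hr => ⟨r, le_rfl, i, hr.trans hle, feq_refl _ _⟩⟩

include ok fok zok gen

theorem separation (S : Set (MM N G)) (hS : letI := str (EE (N := N) (G := G)); (Set.univ : Set (MM N G)).Definable₁ SC.Lang S)
    (a : MM N G) : ∃ c : MM N G, ∀ x, EE x c ↔ EE x a ∧ x ∈ S := by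
  obtain ⟨m, ψ, σ, hσ, h⟩ := decode ok fok gen hS
  obtain ⟨a, τ, hτ, rfl⟩ := a
  refine ⟨vl G (zok.sep ψ σ τ hσ hτ), ?_⟩
  rintro ⟨x, υ, hυ, rfl⟩
  have key : ∀ i : τ.ι, InN N (τ.A i) → val N G (τ.A i) = val N G υ →
      ((⟨val N G υ, υ, hυ, rfl⟩ : MM N G) ∈ S ↔ ∃ p ∈ G, frc ψ (Fin.append σ (fun _ => τ.A i)) p) := by
    intro i hi hval
    rw [← h (fun _ => τ.A i) (fun _ => hi)]
    have e : (vl G hi : MM N G) = ⟨val N G υ, υ, hυ, rfl⟩ := Subtype.ext hval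
    show (⟨val N G υ, υ, hυ, rfl⟩ : MM N G) ∈ S ↔ (vl G hi : MM N G) ∈ S
    rw [e]
    exact Iff.rfl
  constructor
  · intro hx
    obtain ⟨⟨i, q, hq⟩, h1, h2, h3⟩ := mem_val.mp hx
    have h3' : val N G (τ.A i) = val N G υ := h3
    refine ⟨?_, (key i h1 h3).mpr ⟨q, h2, hq.2⟩⟩
    show val N G υ ∈ val N G τ
    rw [← h3']
    exact mem_of_le ok gen hτ h1 h2 hq.1
  · rintro ⟨h1, h2⟩
    obtain ⟨i, h3, h4, h5⟩ := mem_val.mp h1
    obtain ⟨p, hp, h6⟩ := (key i h3 h5).mp h2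
    obtain ⟨r, hr, h7, h8⟩ := gen.dir p hp _ h4
    exact mem_val.mpr ⟨⟨i, r, h8, frc_mono _ _ _ _ h6 h7⟩, h3, hr, h5⟩

theorem collection (R : Set (MM N G × MM N G))
    (hR : letI := str (EE (N := N) (G := G)); (Set.univ : Set (MM N G)).Definable₂ SC.Lang R)
    (a : MM N G) : ∃ c : MM N G, ∀ x, EE x a → (∃ y, (x, y) ∈ R) → ∃ y, EE y c ∧ (x, y) ∈ R := by
  obtain ⟨m, ψ, σ, hσ, h⟩ := decode ok fok gen hR
  obtain ⟨a, τ, hτ, rfl⟩ := a
  refine ⟨vl G (zok.col ψ σ τ hσ hτ), ?_⟩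
  have key : ∀ υ υ' (hυ : InN N υ) (hυ' : InN N υ'), ((vl G hυ, vl G hυ') : MM N G × MM N G) ∈ R ↔
      ∃ p ∈ G, frc ψ (Fin.append σ ![υ, υ']) p := by
    intro υ υ' hυ hυ'
    have hv : ∀ i, InN N ((![υ, υ'] : Fin 2 → Nm Q) i) := by
      intro i
      fin_cases i
      · exact hυ
      · exact hυ'
    rw [← h ![υ, υ'] hv]
    exact Iff.rfl
  intro x hx hex
  obtain ⟨i, h1, h2, h3⟩ := mem_val.mp hx
  have ex : x = vl G h1 := Subtype.ext h3.symm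
  obtain ⟨⟨y, ρ', hρ', rfl⟩, hy⟩ := hex
  rw [ex] at hy ⊢
  obtain ⟨p, hp, h4⟩ := (key _ _ h1 hρ').mp hy
  have h5 : ∃ ρ : Nm Q, frc ψ (Fin.append σ ![τ.A i, ρ]) p := ⟨ρ', h4⟩
  have h6 : InN N (rhoN ψ σ (τ.A i) p) := zok.rho ψ σ _ p hσ h1 (gen.sub p hp)
  have h7 : frc ψ (Fin.append σ ![τ.A i, rhoN ψ σ (τ.A i) p]) p := by
    have : rhoN ψ σ (τ.A i) p = h5.choose := by simp only [rhoN, dif_pos h5]
    rw [this]; exact h5.choose_spec
  refine ⟨vl G h6, mem_val.mpr ⟨(i, p), h6, top_mem ok gen, rfl⟩, (key _ _ h1 h6).mpr ⟨p, hp, h7⟩⟩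

end model

end Pool.Agent.H55.Lav
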