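import Pool.Agent.H55.Lav.ZFM

set_option autoImplicit false
set_option linter.unusedSectionVars false

/-!
# The model satisfies ZF
-/

namespace Pool.Agent.H55.Lav

open FirstOrder FirstOrder.Language Pool.Agent.H55.SC Pool.Agent.H55.ZFU

variable {Q : Type} [Preorder Q] [OrderTop Q]

section model
variable {N : Set (Un Q)} {G : Set Q}

lemma mem_ck (htop : (⊤ : Q) ∈ G) {I : Type} [LinearOrder I] [WellFoundedLT I] {i : I} {x : ZFSet} :
    x ∈ val N G (ck Q i) ↔ ∃ j < i, InN N (ck Q j) ∧ val N G (ck Q j) = x := by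
  rw [ck_eq, mem_val]
  constructor
  · rintro ⟨⟨j, hj⟩, h1, _, h3⟩
    exact ⟨j, hj, h1, h3⟩
  · rintro ⟨j, hj, h1, h3⟩
    exact ⟨⟨j, hj⟩, h1, htop, h3⟩

lemma mem_ckT (htop : (⊤ : Q) ∈ G) {I : Type} [LinearOrder I] [WellFoundedLT I] {x : ZFSet} :
    x ∈ val N G (ckT Q I) ↔ ∃ j : I, InN N (ck Q j) ∧ val N G (ck Q j) = x := by
  rw [ckT, mem_val]
  constructor
  · rintro ⟨j, h1, _, h3⟩
    exact ⟨j, h1, h3⟩
  · rintro ⟨j, h1, h3⟩
    exact ⟨j, h1, htop, h3⟩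

lemma mem_pairN (htop : (⊤ : Q) ∈ G) {τ σ : Nm Q} (hτ : InN N τ) (hσ : InN N σ) {x : ZFSet} :
    x ∈ val N G (pairN τ σ) ↔ x = val N G τ ∨ x = val N G σ := by
  rw [pairN, mem_val]
  constructor
  · rintro ⟨b, _, _, h3⟩
    cases b
    · exact Or.inr h3.symm
    · exact Or.inl h3.symm
  · rintro (h | h)
    · exact ⟨true, hτ, htop, h.symm⟩
    · exact ⟨false, hσ, htop, h.symm⟩

variable (ok : NOk N) (fok : FOk N) (zok : ZOk N) (gen : GenF N G)
include ok fok zok gen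

theorem zf : SC.ZF (EE (N := N) (G := G)) := by
  have htop := top_mem ok gen
  let sys := zsys (EE (N := N) (G := G))
  have hpar : ∀ c : MM N G, Par c := fun c => ⟨trivial⟩
  have hE : ∀ {ι : Type} (t s : (ι → MM N G) → MM N G) [DFun t] [DFun s], Dfn (fun v => EE (t v) (s v)) :=
    fun t s _ _ => Dfn.comp2 (P := fun x y : MM N G => EE x y) zE_dfn t s
  have sep : ∀ (φ : MM N G → Prop), Dfn (fun v : Fin 1 → MM N G => φ (v 0)) → ∀ a : MM N G,
      ∃ c : MM N G, ∀ x, EE x c ↔ EE x a ∧ φ x := fun φ hφ a => separation ok fok zok gen {x | φ x} hφ.out a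
  refine ⟨?_, ?_, ?_, ?_, ?_, ?_, ?_, ?_⟩
  · intro a b h
    exact mm_ext h
  · rintro a ⟨x, hx⟩
    have hne : a.1 ≠ ∅ := by
      intro h
      rw [EE, h] at hx
      exact ZFSet.notMem_empty _ hx
    obtain ⟨y, hy, hy'⟩ := ZFSet.regularity a.1 hne
    obtain ⟨b, rfl⟩ := mem_trans hy
    refine ⟨b, hy, fun z hz hza => ?_⟩
    have : z.1 ∈ a.1 ∩ b.1 := ZFSet.mem_inter.mpr ⟨hza, hz⟩
    rw [hy'] at this
    exact ZFSet.notMem_empty _ this
  · rintro ⟨a, τ, hτ, rfl⟩ ⟨b, σ, hσ, rfl⟩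
    refine ⟨vl G (zok.pair τ σ hτ hσ), fun x => ?_⟩
    refine (mem_pairN htop hτ hσ).trans (or_congr ⟨fun h => Subtype.ext h, fun h => congrArg Subtype.val h⟩
      ⟨fun h => Subtype.ext h, fun h => congrArg Subtype.val h⟩)
  · intro a
    obtain ⟨τ, hτ, hτa⟩ := a.2
    obtain ⟨c, hc⟩ := sep (fun x => ∃ y : MM N G, EE y a ∧ EE x y) (by
      have h1 := hE (fun v : Option (Fin 1) → MM N G => v none) (fun _ => a)
      have h2 := hE (fun v : Option (Fin 1) → MM N G => v (some 0)) (fun v => v none)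
      exact inferInstance) (vl G (zok.un τ hτ))
    refine ⟨c, fun x => (hc x).trans ⟨fun h => h.2, fun h => ⟨?_, h⟩⟩⟩
    obtain ⟨y, hy, hx⟩ := h
    rw [EE, ← hτa] at hy
    obtain ⟨i, h1, h2, h3⟩ := mem_val.mp hy
    have hx' : x.1 ∈ val N G (τ.A i) := by rw [h3]; exact hx
    obtain ⟨k, h4, _, h6⟩ := mem_val.mp hx'
    exact mem_val.mpr ⟨⟨i, k⟩, h4, htop, h6⟩
  · intro a
    obtain ⟨τ, hτ, hτa⟩ := a.2
    obtain ⟨c, hc⟩ := sep (fun x => ∀ y : MM N G, EE y x → EE y a) (by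
      have h1 := hE (fun v : Option (Fin 1) → MM N G => v none) (fun _ => a)
      have h2 := hE (fun v : Option (Fin 1) → MM N G => v none) (fun v => v (some 0))
      exact inferInstance) (vl G (zok.pow τ hτ))
    refine ⟨c, fun x => (hc x).trans ⟨fun h => h.2, fun h => ⟨?_, h⟩⟩⟩
    obtain ⟨x, ρ, hρ, rfl⟩ := x
    refine mem_val.mpr ⟨memF τ ρ, zok.sub τ ρ hτ hρ, htop, ?_⟩
    show val N G (sN τ (memF τ ρ)) = val N G ρ
    ext y
    constructor
    · intro hy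
      obtain ⟨⟨i, q, hq⟩, h1, h2, h3⟩ := mem_val.mp hy
      have h3' : val N G (τ.A i) = y := h3
      rw [← h3']
      exact (val_mem ok gen h1 hρ).mpr ⟨q, h2, hq.2⟩
    · intro hy
      obtain ⟨⟨y, υ, hυ, rfl⟩, rfl⟩ := mem_trans (a := vl G hρ) hy
      have h1 : val N G υ ∈ a.1 := h ⟨val N G υ, υ, hυ, rfl⟩ hy
      rw [← hτa] at h1
      obtain ⟨i, h2, h3, h4⟩ := mem_val.mp h1
      have h4' : val N G (τ.A i) = val N G υ := h4
      have hy' : val N G (τ.A i) ∈ val N G ρ := by rw [h4']; exact hy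
      obtain ⟨p, hp, h5⟩ := (val_mem ok gen h2 hρ).mp hy'
      obtain ⟨r, hr, h6, h7⟩ := gen.dir p hp _ h3
      exact mem_val.mpr ⟨⟨i, r, h7, fmem_mono h5 h6⟩, h2, hr, h4'⟩
  · refine ⟨vl G zok.om, ⟨vl G (zok.nat 0), (mem_ckT htop).mpr ⟨0, zok.nat 0, rfl⟩, ?_⟩, ?_⟩
    · intro x hx
      obtain ⟨j, hj, _⟩ := (mem_ck htop).mp hx
      omega
    · intro x hx
      obtain ⟨n, h1, h2⟩ := (mem_ckT htop).mp hx
      refine ⟨vl G (zok.nat (n + 1)), (mem_ckT htop).mpr ⟨n + 1, zok.nat _, rfl⟩, fun z => ?_⟩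
      constructor
      · intro hz
        obtain ⟨j, hj, h3, h4⟩ := (mem_ck htop).mp hz
        rcases Nat.lt_succ_iff_lt_or_eq.mp hj with h5 | h5
        · left
          show z.1 ∈ x.1
          rw [← h2]
          exact (mem_ck htop).mpr ⟨j, h5, h3, h4⟩
        · right
          apply Subtype.ext
          rw [← h4, ← h2, h5]
      · rintro (hz | rfl)
        · have hz' : z.1 ∈ val N G (ck Q n) := by rw [h2]; exact hz
          obtain ⟨j, hj, h3, h4⟩ := (mem_ck htop).mp hz'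
          exact (mem_ck htop).mpr ⟨j, by omega, h3, h4⟩
        · exact (mem_ck htop).mpr ⟨n, by omega, h1, h2⟩
  · intro S hS a
    exact separation ok fok zok gen S hS a
  · intro R hR a ha
    obtain ⟨c, hc⟩ := collection ok fok zok gen R hR a
    have hR' : Dfn (fun v : Fin 2 → MM N G => (v 0, v 1) ∈ R) := ⟨hR⟩
    obtain ⟨d, hd⟩ := sep (fun y => ∃ x : MM N G, EE x a ∧ (x, y) ∈ R) (by
      have h1 := hE (fun v : Option (Fin 1) → MM N G => v none) (fun _ => a)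
      have h2 : Dfn (fun v : Option (Fin 1) → MM N G => (v none, v (some 0)) ∈ R) :=
        Dfn.comp2 (P := fun x y => (x, y) ∈ R) hR' (fun v => v none) (fun v => v (some 0))
      exact inferInstance) c
    refine ⟨d, fun y => (hd y).trans ⟨fun h => h.2, fun h => ⟨?_, h⟩⟩⟩
    obtain ⟨x, hx, hxy⟩ := h
    obtain ⟨y', hy', hxy'⟩ := hc x hx ⟨y, hxy⟩
    rwa [(ha x hx).unique hxy hxy']

end model

end Pool.Agent.H55.Lav
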